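import Pool.Agent.T6.H12.TD.Div3
import Pool.Agent.TH115.GD.Kum

/-!
# The isogeny and the action of homomorphisms of fields
-/

set_option autoImplicit false
set_option linter.all false

open WeierstrassCurve WeierstrassCurve.Affine
open scoped Classical

namespace Pool.Agent.T6.H12.TD

open Pool.Agent.TH115.GD (Pt act incl rs ak act_zero act_some act_inj act_act fixed_point rs_apply
  rs_mul rs_incl rs_act_incl)

/-- The curve `y ^ 2 = x ^ 3 + D (3 A x + b) ^ 2`. -/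
def crv3 {K : Type*} [Field K] (D A b : K) : WeierstrassCurve K :=
  ⟨0, 9 * D * A ^ 2, 0, 6 * D * A * b, D * b ^ 2⟩

theorem is3_crv3 {K : Type*} [Field K] {D A b : K} (h2 : (2 : K) ≠ 0) (h3 : (3 : K) ≠ 0)
    (hD : D ≠ 0) (hb : b ≠ 0) (hb' : b - 4 * D * A ^ 3 ≠ 0) : Is3 (crv3 D A b).toAffine D A b :=
  ⟨rfl, rfl, rfl, rfl, rfl, h2, h3, hD, hb, hb'⟩

theorem isog_crv3 {K : Type*} [Field K] {D A b : K} (h2 : (2 : K) ≠ 0) (h3 : (3 : K) ≠ 0)
    (hD : D ≠ 0) (hb : b ≠ 0) (hb' : b - 4 * D * A ^ 3 ≠ 0) :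
    Isog (crv3 D A b).toAffine (crv3 (-3 * D) A (3 * (b - 4 * D * A ^ 3))).toAffine D A b
      (-3 * D) (3 * (b - 4 * D * A ^ 3)) := by
  refine ⟨is3_crv3 h2 h3 hD hb hb', is3_crv3 h2 h3 ?_ ?_ ?_, rfl, rfl⟩
  · exact mul_ne_zero (neg_ne_zero.2 h3) hD
  · exact mul_ne_zero h3 hb'
  · have : 3 * (b - 4 * D * A ^ 3) - 4 * (-3 * D) * A ^ 3 = 3 * b := by ring
    rw [this]
    exact mul_ne_zero h3 hb

/-- The next isogeny. -/
theorem Isog.next {F : Type*} [Field F] {W W' W'' : Affine F} {D A b D' b' : F}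
    (h : Isog W W' D A b D' b') (h' : W'' = (crv3 (-3 * D') A (3 * (b' - 4 * D' * A ^ 3))).toAffine) :
    Isog W' W'' D' A b' (-3 * D') (3 * (b' - 4 * D' * A ^ 3)) := by
  have hE := h.E'
  refine ⟨hE, ?_, rfl, rfl⟩
  rw [h']
  refine is3_crv3 hE.two hE.three (mul_ne_zero (neg_ne_zero.2 hE.three) hE.neD)
    (mul_ne_zero hE.three hE.neb') ?_
  have : 3 * (b' - 4 * D' * A ^ 3) - 4 * (-3 * D') * A ^ 3 = 3 * b' := by ring
  rw [this]
  exact mul_ne_zero hE.three hE.neb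

universe u

section action

variable {K Ω Ω' : Type u} [Field K] [Field Ω] [Field Ω'] [Algebra K Ω] [Algebra K Ω']
  {W W' : WeierstrassCurve K} {D A b D' b' : K}

theorem Is3.bc (h : Is3 W.toAffine D A b) (L : Type*) [Field L] [Algebra K L] :
    Is3 (W.baseChange L).toAffine (algebraMap K L D) (algebraMap K L A) (algebraMap K L b) := by
  refine ⟨?_, ?_, ?_, ?_, ?_, ?_, ?_, ?_, ?_, ?_⟩
  · show algebraMap K L W.a₁ = 0
    rw [show W.a₁ = 0 from h.a1, map_zero]
  · show algebraMap K L W.a₂ = _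
    rw [show W.a₂ = _ from h.a2]
    simp only [map_mul, map_pow, map_ofNat]
  · show algebraMap K L W.a₃ = 0
    rw [show W.a₃ = 0 from h.a3, map_zero]
  · show algebraMap K L W.a₄ = _
    rw [show W.a₄ = _ from h.a4]
    simp only [map_mul, map_pow, map_ofNat]
  · show algebraMap K L W.a₆ = _
    rw [show W.a₆ = _ from h.a6]
    simp only [map_mul, map_pow, map_ofNat]
  · rw [← map_ofNat (algebraMap K L) 2]; exact (map_ne_zero _).2 h.two
  · rw [← map_ofNat (algebraMap K L) 3]; exact (map_ne_zero _).2 h.three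
  · exact (map_ne_zero _).2 h.neD
  · exact (map_ne_zero _).2 h.neb
  · have := (map_ne_zero (algebraMap K L)).2 h.neb'
    rwa [map_sub, map_mul, map_mul, map_pow, map_ofNat] at this

theorem Isog.bc (h : Isog W.toAffine W'.toAffine D A b D' b') (L : Type*) [Field L] [Algebra K L] :
    Isog (W.baseChange L).toAffine (W'.baseChange L).toAffine (algebraMap K L D)
      (algebraMap K L A) (algebraMap K L b) (algebraMap K L D') (algebraMap K L b') := by
  refine ⟨h.E.bc L, h.E'.bc L, ?_, ?_⟩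
  · rw [h.hD]; simp only [map_mul, map_neg, map_ofNat]
  · rw [h.hb]; simp only [map_mul, map_sub, map_pow, map_ofNat]

variable (h : Isog W.toAffine W'.toAffine D A b D' b')

/-- The isogeny over an extension. -/
noncomputable def ph (Ω : Type u) [Field Ω] [Algebra K Ω] : Pt W Ω →+ Pt W' Ω := phiH (h.bc Ω)

theorem ph_apply (P : Pt W Ω) : ph h Ω P = phi (h.bc Ω) P := rfl

theorem ph_act (φ : Ω →ₐ[K] Ω') (P : Pt W Ω) : ph h Ω' (act W φ P) = act W' φ (ph h Ω P) := by
  rcases P with _ | ⟨x, y, hxy⟩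
  · rfl
  · obtain ⟨h1, hh⟩ := act_some W φ hxy
    rw [hh, ph_apply, ph_apply]
    by_cases hx : x = 0
    · rw [phi_some0 (h.bc Ω) _ hx, phi_some0 (h.bc Ω') _ (by rw [hx, map_zero]), map_zero]
    · have hx' : φ x ≠ 0 := (map_ne_zero φ).2 hx
      rw [phi_some (h.bc Ω) _ hx, phi_some (h.bc Ω') _ hx']
      obtain ⟨h2, hh2⟩ := act_some W' φ (phi_ns (h.bc Ω) hxy hx)
      rw [hh2]
      congr 1
      · simp only [map_div₀, map_add, map_mul, map_pow, map_ofNat, φ.commutes]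
      · simp only [map_div₀, map_add, map_sub, map_mul, map_pow, map_ofNat, φ.commutes]

theorem ph_zero_act (φ : Ω →ₐ[K] Ω') (P : Pt W Ω) : ph h Ω' (act W φ P) = 0 ↔ ph h Ω P = 0 := by
  rw [ph_act]
  constructor
  · intro h1
    apply act_inj W' φ
    rw [h1, map_zero]
  · intro h1
    rw [h1, map_zero]

theorem hf_act (W : WeierstrassCurve K) (φ : Ω →ₐ[K] Ω') (η A b : Ω) (P : Pt W Ω) :
    hf (φ η) (φ A) (φ b) (act W φ P) = φ (hf η A b P) := by
  rcases P with _ | ⟨x, y, hxy⟩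
  · rw [act_zero]; simp [hf]
  · obtain ⟨h1, hh⟩ := act_some W φ hxy
    rw [hh]
    simp only [hf, map_div₀, map_add, map_mul]

theorem chi_act (W : WeierstrassCurve K) (φ : Ω →ₐ[K] Ω') (η b : Ω) (P : Pt W Ω) :
    chi (φ η) (φ b) (act W φ P) = φ (chi η b P) := by
  rcases P with _ | ⟨x, y, hxy⟩
  · rw [act_zero]; simp [chi]
  · obtain ⟨h1, hh⟩ := act_some W φ hxy
    rw [hh]
    simp only [chi, map_div₀, map_add, map_mul, map_neg, map_ofNat]

end action

end Pool.Agent.T6.H12.TD
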