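import Pool.Agent.T6.H12.TD.Twist3

/-!
# Base change by polynomials with a Galois group of odd order
-/

set_option autoImplicit false
set_option linter.all false

open Polynomial IsDedekindDomain WeierstrassCurve WeierstrassCurve.Affine
open scoped Classical

namespace Pool.Agent.T6.H12.TD

open Pool.Agent.TH115.GD (Pt act incl rs ak pl val_poly IsTower Sep Comp CompInf LocallyTrivial
  LocTriv IsCoc act_some act_inj act_act rs_act_incl act_zero)

/-- The semigroup (with respect to composition) of polynomials over the finite field `k` which is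
generated by the linear polynomials, the polynomials `X ^ l`, `l` an odd prime which divides
`|k| - 1`, and the polynomials `X ^ p - c ^ (p - 1) X`, `p` the characteristic, `c ∈ k*`. -/
inductive OddGalois (k : Type) [Field k] : k[X] → Prop
  | lin (a c : k) (ha : a ≠ 0) : OddGalois k (C a * X + C c)
  | pow (l : ℕ) (hl : l.Prime) (hl2 : l ≠ 2) (h : l ∣ Nat.card k - 1) : OddGalois k (X ^ l)
  | add (p : ℕ) (hp : CharP k p) (c : k) (hc : c ≠ 0) :
      OddGalois k (X ^ p - C (c ^ (p - 1)) * X)
  | comp (f g : k[X]) (hf : OddGalois k f) (hg : OddGalois k g) : OddGalois k (f.comp g)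

section mult

variable {k' : Type} [Field k']

/-- The multiplicity of a root after a substitution which is unramified at this point. -/
theorem mult_comp {P H : k'[X]} (hP : P ≠ 0) {x : k'} (hx : eval x (derivative H) ≠ 0) :
    rootMultiplicity x (P.comp H) = rootMultiplicity (eval x H) P := by
  set θ := eval x H with hθ
  obtain ⟨Q, hQ, hQd⟩ := exists_eq_pow_rootMultiplicity_mul_and_not_dvd P hP θ
  set m := rootMultiplicity θ P with hm
  have hQθ : eval θ Q ≠ 0 := by
    intro h
    exact hQd (dvd_iff_isRoot.2 h)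
  have hH : H - C θ ≠ 0 := by
    intro h
    apply hx
    have h1 : H = C θ := by rw [← sub_eq_zero]; exact h
    rw [h1, derivative_C, eval_zero]
  have h1 : P.comp H = (H - C θ) ^ m * Q.comp H := by
    conv_lhs => rw [hQ]
    rw [mul_comp, pow_comp, sub_comp, X_comp, C_comp]
  have hQc : Q.comp H ≠ 0 := by
    intro h
    apply hQθ
    have h2 : eval x (Q.comp H) = eval θ Q := by rw [eval_comp]
    rw [← h2, h, eval_zero]
  have h3 : rootMultiplicity x (Q.comp H) = 0 := by
    apply rootMultiplicity_eq_zero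
    intro h
    apply hQθ
    have h2 : eval x (Q.comp H) = eval θ Q := by rw [eval_comp]
    rw [← h2]; exact h
  have h4 : rootMultiplicity x (H - C θ) = 1 := by
    have h5 : 0 < rootMultiplicity x (H - C θ) := (rootMultiplicity_pos hH).2 (by
      show eval x (H - C θ) = 0
      rw [eval_sub, eval_C, sub_self])
    have h6 : ¬ 1 < rootMultiplicity x (H - C θ) := by
      intro h
      apply hx
      have h7 := ((one_lt_rootMultiplicity_iff_isRoot hH).1 h).2
      rw [derivative_sub, derivative_C, sub_zero] at h7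
      exact h7
    omega
  rw [h1, rootMultiplicity_mul (mul_ne_zero (pow_ne_zero m hH) hQc), h3, add_zero]
  have hpw : rootMultiplicity x ((H - C θ) ^ m) = m * rootMultiplicity x (H - C θ) := by
    rw [← count_roots, roots_pow, Multiset.count_nsmul, count_roots]
  rw [hpw, h4, mul_one]

end mult

section pres

variable {k k' : Type} [Field k] [Finite k] [Field k'] [Algebra k k'] [IsSepClosure k k']

/-- If `x ^ (q ^ n) = x` then `x ^ (q ^ (n i)) = x`. -/
theorem iter_fix {x : k'} {Q : ℕ} (h : x ^ Q = x) : ∀ i : ℕ, x ^ (Q ^ i) = x := by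
  intro i
  induction i with
  | zero => rw [pow_zero, pow_one]
  | succ i ih => rw [pow_succ, pow_mul, ih, h]

/-- The property of the roots. -/
def OddDeg (k : Type) {k' : Type} [Field k'] (x : k') : Prop :=
  ∃ n, Odd n ∧ x ^ (Nat.card k ^ n) = x

/-- The polynomials of the semigroup: if `h(x)` has odd degree then `x` has odd degree; a polynomial
with two different roots with multiplicities not divisible by three has two such roots after the
substitution. -/
def Pres (k k' : Type) [Field k] [Field k'] [Algebra k k'] (h : k[X]) : Prop :=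
  (∀ x : k', OddDeg k (aeval x h) → OddDeg k x) ∧
    (∀ p : k[X], p ≠ 0 → p.comp h ≠ 0) ∧
    (∀ p : k[X], p ≠ 0 → TwoRoots k' p → TwoRoots k' (p.comp h))

omit [Finite k] in
/-- Two roots after the substitution, if there is an unramified point over one of the two roots and a
second point over one of them. -/
theorem twoRoots_of {p h : k[X]} (hp : p ≠ 0) {x y : k'} (hxy : x ≠ y)
    (hx : eval x (derivative (h.map (algebraMap k k'))) ≠ 0)
    (hy : eval y (derivative (h.map (algebraMap k k'))) ≠ 0)
    (mx : ¬ 3 ∣ rootMultiplicity (aeval x h) (p.map (algebraMap k k')))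
    (my : ¬ 3 ∣ rootMultiplicity (aeval y h) (p.map (algebraMap k k'))) :
    TwoRoots k' (p.comp h) := by
  have hp' : p.map (algebraMap k k') ≠ 0 :=
    (Polynomial.map_ne_zero_iff (algebraMap k k').injective).2 hp
  refine ⟨x, y, hxy, ?_, ?_⟩
  · rw [Polynomial.map_comp, mult_comp hp' hx, eval_map_algebraMap]
    exact mx
  · rw [Polynomial.map_comp, mult_comp hp' hy, eval_map_algebraMap]
    exact my

theorem comp_ne_zero_of {p h : k[X]} (hp : p ≠ 0) (hh : 0 < h.natDegree) : p.comp h ≠ 0 := by
  intro h0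
  rcases comp_eq_zero_iff.1 h0 with h1 | ⟨-, h1⟩
  · exact hp h1
  · rw [h1, natDegree_C] at hh
    exact lt_irrefl _ hh

/-- Existence of points over a given point. -/
theorem exists_over (h : k[X]) (hh : h.natDegree ≠ 0) (θ : k') : ∃ x : k', aeval x h = θ := by
  haveI : IsSepClosed k' := IsSepClosure.sep_closed k
  haveI : PerfectField k' := by
    haveI : Algebra.IsAlgebraic k k' := inferInstance
    exact Algebra.IsAlgebraic.perfectField (K := k) (L := k')
  haveI : IsAlgClosed k' := by
    refine IsAlgClosed.of_exists_root k' fun p _ hirr => ?_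
    exact IsSepClosed.exists_root p (Irreducible.degree_pos hirr).ne'
      (PerfectField.separable_of_irreducible hirr)
  have hd : (h.map (algebraMap k k') - C θ).degree ≠ 0 := by
    intro h1
    have h2 : (h.map (algebraMap k k') - C θ).natDegree = 0 := natDegree_eq_of_degree_eq_some h1
    rw [natDegree_sub_C, natDegree_map] at h2
    exact hh h2
  obtain ⟨x, hx⟩ := IsAlgClosed.exists_root _ hd
  refine ⟨x, ?_⟩
  have h1 : eval x (h.map (algebraMap k k') - C θ) = 0 := hx
  rw [eval_sub, eval_C, sub_eq_zero, eval_map_algebraMap] at h1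
  exact h1

theorem pres_lin (a c : k) (ha : a ≠ 0) : Pres k k' (C a * X + C c) := by
  haveI : Fintype k := Fintype.ofFinite _
  have ha' : algebraMap k k' a ≠ 0 := (_root_.map_ne_zero _).2 ha
  have hdeg : (C a * X + C c).natDegree = 1 := natDegree_linear ha
  have hev : ∀ x : k', aeval x (C a * X + C c) = algebraMap k k' a * x + algebraMap k k' c := by
    intro x
    simp
  have hder : ∀ x : k', eval x (derivative ((C a * X + C c).map (algebraMap k k'))) ≠ 0 := by
    intro x
    simp [ha]
  refine ⟨fun x => ?_, fun p hp => comp_ne_zero_of hp (by omega), fun p hp => ?_⟩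
  · rintro ⟨n, hn, hx⟩
    refine ⟨n, hn, ?_⟩
    rw [hev] at hx
    obtain ⟨p, hp⟩ := CharP.exists k
    haveI := hp
    haveI : CharP k' p := charP_of_injective_algebraMap (algebraMap k k').injective p
    haveI : Fact p.Prime := ⟨CharP.char_is_prime k p⟩
    obtain ⟨r, -, hr⟩ := FiniteField.card k p
    have hq : Nat.card k ^ n = p ^ ((r : ℕ) * n) := by
      rw [Nat.card_eq_fintype_card, hr, pow_mul]
    have hfix : ∀ e : k, algebraMap k k' e ^ (Nat.card k ^ n) = algebraMap k k' e := by
      intro e
      rw [← map_pow, Nat.card_eq_fintype_card, FiniteField.pow_card_pow]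
    rw [hq, add_pow_char_pow, ← hq, mul_pow, hfix, hfix] at hx
    have h1 : algebraMap k k' a * x ^ (Nat.card k ^ n) = algebraMap k k' a * x :=
      add_right_cancel hx
    exact mul_left_cancel₀ ha' h1
  · rintro ⟨θ1, θ2, hne, h1, h2⟩
    obtain ⟨x, hx⟩ := exists_over (C a * X + C c) (by omega) θ1
    obtain ⟨y, hy⟩ := exists_over (C a * X + C c) (by omega) θ2
    refine twoRoots_of hp (x := x) (y := y) (fun e => hne ?_) (hder x) (hder y) ?_ ?_
    · rw [← hx, ← hy, e]
    · rw [hx]; exact h1
    · rw [hy]; exact h2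

theorem hfix_const (e : k) (n : ℕ) :
    algebraMap k k' e ^ (Nat.card k ^ n) = algebraMap k k' e := by
  haveI : Fintype k := Fintype.ofFinite _
  rw [← map_pow, Nat.card_eq_fintype_card, FiniteField.pow_card_pow]

theorem pres_pow (l : ℕ) (hl : l.Prime) (hl2 : l ≠ 2) (hdvd : l ∣ Nat.card k - 1) :
    Pres k k' (X ^ l : k[X]) := by
  haveI : Fintype k := Fintype.ofFinite _
  obtain ⟨p, hp⟩ := CharP.exists k
  haveI := hp
  haveI : CharP k' p := charP_of_injective_algebraMap (algebraMap k k').injective p
  haveI : Fact p.Prime := ⟨CharP.char_is_prime k p⟩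
  haveI : Fact l.Prime := ⟨hl⟩
  obtain ⟨r, -, hr⟩ := FiniteField.card k p
  have hq : Nat.card k = p ^ (r : ℕ) := by
    rw [Nat.card_eq_fintype_card, hr]
  have hqpos : 0 < Nat.card k := Nat.card_pos
  have hl0 : (l : k') ≠ 0 := by
    intro h0
    rw [CharP.cast_eq_zero_iff k' p] at h0
    have h1 : p = l := (Nat.prime_dvd_prime_iff_eq Fact.out hl).1 h0
    subst h1
    have h2 : p ∣ Nat.card k := by
      rw [hq]
      exact dvd_pow_self p r.pos.ne'
    have h3 : p ∣ 1 := by
      have := (Nat.dvd_sub_iff_right (by omega : Nat.card k - 1 ≤ Nat.card k) h2).1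
      have h4 : Nat.card k - (Nat.card k - 1) = 1 := by omega
      rw [← h4]
      exact Nat.dvd_sub h2 hdvd
    exact hl.one_lt.ne' (Nat.dvd_one.1 h3)
  have hlpos : 0 < l := hl.pos
  have hodd : Odd l := hl.odd_of_ne_two hl2
  have hder : ∀ x : k', x ≠ 0 → eval x (derivative ((X ^ l : k[X]).map (algebraMap k k'))) ≠ 0 := by
    intro x hx
    rw [Polynomial.map_pow, map_X, derivative_X_pow, eval_mul, eval_pow, eval_X, eval_C]
    exact mul_ne_zero hl0 (pow_ne_zero _ hx)
  refine ⟨fun x => ?_, fun p hp => comp_ne_zero_of hp (by rw [natDegree_X_pow]; exact hlpos),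
    fun p hp => ?_⟩
  · rintro ⟨n, hn, hx⟩
    rw [map_pow, aeval_X] at hx
    by_cases hx0 : x = 0
    · subst hx0
      refine ⟨1, odd_one, ?_⟩
      rw [pow_one]
      exact zero_pow hqpos.ne'
    · set Q := Nat.card k ^ n with hQ
      set ζ := x ^ Q / x with hζ
      have hxQ : x ^ Q = ζ * x := by rw [hζ, div_mul_cancel₀ _ hx0]
      have hζl : ζ ^ l = 1 := by
        rw [hζ, div_pow, ← pow_mul, mul_comm, pow_mul, hx, div_self (pow_ne_zero l hx0)]
      have hζq : ζ ^ Nat.card k = ζ := by
        obtain ⟨j, hj⟩ := hdvd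
        have h1 : Nat.card k = l * j + 1 := by omega
        rw [h1, pow_succ, pow_mul, hζl, one_pow, one_mul]
      have hζQ : ζ ^ Q = ζ := iter_fix hζq n
      have hit : ∀ i : ℕ, x ^ (Q ^ i) = ζ ^ i * x := by
        intro i
        induction i with
        | zero => rw [pow_zero, pow_one, pow_zero, one_mul]
        | succ i ih =>
          rw [pow_succ, pow_mul, ih, mul_pow, hxQ, ← pow_mul, mul_comm i Q, pow_mul, hζQ]
          ring
      refine ⟨n * l, hn.mul hodd, ?_⟩
      rw [pow_mul, ← hQ, hit, hζl, one_mul]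
  · rintro ⟨θ1, θ2, hne, h1, h2⟩
    obtain ⟨θ, hθ0, hθ⟩ : ∃ θ : k', θ ≠ 0 ∧
        ¬ 3 ∣ rootMultiplicity θ (p.map (algebraMap k k')) := by
      by_cases h0 : θ1 = 0
      · exact ⟨θ2, fun h => hne (h0.trans h.symm), h2⟩
      · exact ⟨θ1, h0, h1⟩
    obtain ⟨x, hx⟩ := exists_over (X ^ l : k[X]) (by rw [natDegree_X_pow]; exact hlpos.ne') θ
    have hx' : x ^ l = θ := by rw [← hx, map_pow, aeval_X]
    have hx0 : x ≠ 0 := by
      rintro rfl
      apply hθ0
      rw [← hx', zero_pow hlpos.ne']
    obtain ⟨ω, hω⟩ := exists_prime_orderOf_dvd_card' (G := kˣ) l (by rw [Nat.card_units]; exact hdvd)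
    have hω1 : (ω : k) ≠ 1 := by
      intro e
      have : ω = 1 := Units.ext e
      rw [this, orderOf_one] at hω
      exact hl.one_lt.ne hω
    have hωl : (ω : k) ^ l = 1 := by
      have := pow_orderOf_eq_one ω
      rw [hω] at this
      rw [← Units.val_pow_eq_pow_val, this, Units.val_one]
    set z := algebraMap k k' (ω : k) with hz
    have hz1 : z ≠ 1 := by
      intro e
      apply hω1
      apply (algebraMap k k').injective
      rw [map_one]; exact e
    have hz0 : z ≠ 0 := (_root_.map_ne_zero _).2 (Units.ne_zero ω)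
    have hzl : z ^ l = 1 := by rw [hz, ← map_pow, hωl, map_one]
    refine twoRoots_of hp (x := x) (y := z * x) (fun e => hz1 ?_) (hder x hx0)
      (hder _ (mul_ne_zero hz0 hx0)) ?_ ?_
    · have h3 : 1 * x = z * x := by rw [one_mul]; exact e
      exact (mul_right_cancel₀ hx0 h3).symm
    · rw [hx]; exact hθ
    · rw [map_pow, aeval_X, mul_pow, hzl, one_mul, hx']; exact hθ

theorem pres_add (h2 : (2 : k) ≠ 0) (p : ℕ) (hp : CharP k p) (c : k) (hc : c ≠ 0) :
    Pres k k' (X ^ p - C (c ^ (p - 1)) * X) := by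
  haveI : Fintype k := Fintype.ofFinite _
  haveI := hp
  haveI : CharP k' p := charP_of_injective_algebraMap (algebraMap k k').injective p
  haveI hpf : Fact p.Prime := ⟨CharP.char_is_prime k p⟩
  have hpp : p.Prime := hpf.out
  obtain ⟨r, -, hr⟩ := FiniteField.card k p
  have hq : Nat.card k = p ^ (r : ℕ) := by
    rw [Nat.card_eq_fintype_card, hr]
  have hp2 : p ≠ 2 := by
    rintro rfl
    apply h2
    exact_mod_cast CharP.cast_eq_zero k 2
  have hodd : Odd p := hpp.odd_of_ne_two hp2
  have hc' : algebraMap k k' c ≠ 0 := (_root_.map_ne_zero _).2 hc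
  have hev : ∀ x : k', aeval x (X ^ p - C (c ^ (p - 1)) * X : k[X]) =
      x ^ p - algebraMap k k' c ^ (p - 1) * x := by
    intro x
    simp
  have hdeg : (X ^ p - C (c ^ (p - 1)) * X : k[X]).natDegree = p := by
    have h1 : (C (c ^ (p - 1)) * X : k[X]).natDegree < (X ^ p : k[X]).natDegree := by
      rw [natDegree_X_pow]
      refine lt_of_le_of_lt ((natDegree_C_mul_le _ _).trans natDegree_X_le) hpp.one_lt
    rw [natDegree_sub_eq_left_of_natDegree_lt h1, natDegree_X_pow]
  have hder : ∀ x : k', eval x (derivative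
      ((X ^ p - C (c ^ (p - 1)) * X : k[X]).map (algebraMap k k'))) ≠ 0 := by
    intro x
    have h1 : derivative ((X ^ p - C (c ^ (p - 1)) * X : k[X]).map (algebraMap k k')) =
        C (-(algebraMap k k' c ^ (p - 1))) := by
      rw [Polynomial.map_sub, Polynomial.map_pow, map_X, Polynomial.map_mul, map_C, map_X,
        derivative_sub, derivative_X_pow, derivative_C_mul, derivative_X, CharP.cast_eq_zero,
        C_0, zero_mul, zero_sub, mul_one, C_neg, map_pow]
    rw [h1, eval_C]
    exact neg_ne_zero.2 (pow_ne_zero _ hc')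
  refine ⟨fun x => ?_, fun P hP => comp_ne_zero_of hP (by rw [hdeg]; exact hpp.pos),
    fun P hP => ?_⟩
  · rintro ⟨n, hn, hx⟩
    rw [hev] at hx
    set Q := Nat.card k ^ n with hQ
    have hQp : Q = p ^ ((r : ℕ) * n) := by rw [hQ, hq, pow_mul]
    set e := algebraMap k k' c with he
    have heQ : e ^ Q = e := hfix_const c n
    have hfrob : ∀ a b : k', (a + b) ^ Q = a ^ Q + b ^ Q := by
      intro a b
      rw [hQp, add_pow_char_pow]
    have hfrobs : ∀ a b : k', (a - b) ^ Q = a ^ Q - b ^ Q := by
      intro a b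
      rw [hQp, sub_pow_char_pow]
    set u := x ^ Q - x with hu
    have hup : u ^ p = e ^ (p - 1) * u := by
      have e1 : (e ^ (p - 1)) ^ Q = e ^ (p - 1) := by
        rw [← pow_mul, mul_comm (p - 1) Q, pow_mul, heQ]
      have e2 : (x ^ p) ^ Q = (x ^ Q) ^ p := by
        rw [← pow_mul, mul_comm p Q, pow_mul]
      rw [hfrobs, mul_pow, e1, e2] at hx
      rw [hu, sub_pow_char]
      linear_combination hx
    have huq : u ^ Q = u := by
      set w := u / e with hw
      have huw : u = w * e := by rw [hw, div_mul_cancel₀ _ hc']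
      have hwp : w ^ p = w := by
        have h1 : e ^ p = e ^ (p - 1) * e := by
          rw [← pow_succ, Nat.sub_add_cancel hpp.one_le]
        rw [huw, mul_pow, h1] at hup
        have h2 : (e ^ (p - 1) * e) ≠ 0 := mul_ne_zero (pow_ne_zero _ hc') hc'
        apply mul_right_cancel₀ h2
        rw [hup]
        ring
      have hwQ : w ^ Q = w := by
        rw [hQp]
        exact iter_fix hwp _
      rw [huw, mul_pow, hwQ, heQ]
    have hnat : ∀ i : ℕ, ((i : ℕ) : k') ^ Q = i := by
      intro i
      have h1 := hfix_const (k' := k') ((i : ℕ) : k) n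
      rwa [map_natCast] at h1
    have hit : ∀ i : ℕ, x ^ (Q ^ i) = x + i * u := by
      intro i
      induction i with
      | zero => simp
      | succ i ih =>
        rw [pow_succ, pow_mul, ih, hfrob, mul_pow, hnat, huq]
        push_cast
        rw [hu]
        ring
    refine ⟨n * p, hn.mul hodd, ?_⟩
    rw [pow_mul, ← hQ, hit, CharP.cast_eq_zero, zero_mul, add_zero]
  · rintro ⟨θ1, θ2, hne, h1, h2⟩
    obtain ⟨x, hx⟩ := exists_over (X ^ p - C (c ^ (p - 1)) * X : k[X])
      (by rw [hdeg]; exact hpp.ne_zero) θ1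
    obtain ⟨y, hy⟩ := exists_over (X ^ p - C (c ^ (p - 1)) * X : k[X])
      (by rw [hdeg]; exact hpp.ne_zero) θ2
    refine twoRoots_of hP (x := x) (y := y) (fun e => hne ?_) (hder x) (hder y) ?_ ?_
    · rw [← hx, ← hy, e]
    · rw [hx]; exact h1
    · rw [hy]; exact h2

/-- **The polynomials of the semigroup.** -/
theorem OddGalois.pres (h2 : (2 : k) ≠ 0) {h : k[X]} (hh : OddGalois k h) : Pres k k' h := by
  induction hh with
  | lin a c ha => exact pres_lin a c ha
  | pow l hl hl2 hd => exact pres_pow l hl hl2 hd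
  | add p hp c hc => exact pres_add h2 p hp c hc
  | comp f g _ _ hf hg =>
    refine ⟨fun x hx => ?_, fun p hp => ?_, fun p hp ht => ?_⟩
    · rw [aeval_comp] at hx
      exact hg.1 _ (hf.1 _ hx)
    · rw [← comp_assoc]
      exact hg.2.1 _ (hf.2.1 _ hp)
    · rw [← comp_assoc]
      exact hg.2.2 _ (hf.2.1 _ hp) (hf.2.2 _ hp ht)

theorem OddFactors.comp {p h : k[X]} (ho : OddFactors p) (hh : Pres k k' h) :
    OddFactors (p.comp h) := by
  rw [oddFactors_iff (k' := k')] at ho ⊢
  intro x hx
  rw [aeval_comp] at hx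
  exact hh.1 x (ho _ hx)

theorem TwoRoots.factor {p : k[X]} (hp : p ≠ 0) (h : TwoRoots k' p) : HasFactor3 p := by
  haveI : Algebra.IsAlgebraic k k' := inferInstance
  obtain ⟨x, y, -, hx, -⟩ := h
  exact factor_of_root hp hx

end pres

end Pool.Agent.T6.H12.TD
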