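import Pool.Agent.T6.H12.TD.Base3

/-!
# Twists and base changes
-/

set_option autoImplicit false
set_option linter.all false

open Polynomial IsDedekindDomain WeierstrassCurve WeierstrassCurve.Affine
open scoped Classical

namespace Pool.Agent.T6.H12.TD

open Pool.Agent.TH115.GD (Pt act incl rs ak pl val_poly IsTower Sep Comp CompInf LocallyTrivial
  LocTriv IsCoc act_some act_inj act_act rs_act_incl act_zero)

section twist

variable {k k₁ k' K₁ F : Type} [Field k] [Finite k] [Field k₁] [Algebra k k₁]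
  [FiniteDimensional k k₁] [Field k'] [Algebra k k'] [Algebra k₁ k'] [IsScalarTower k k₁ k']
  [Field K₁] [Algebra k₁[X] K₁] [Field F] [Algebra k'[X] F] [IsFractionRing k'[X] F] [Algebra K₁ F]

/-- If all the finite bad places have odd degree, then there are no classes for the base changes by
polynomials of the semigroup `OddGalois` of the constant quadratic twists, over all finite constant
extensions. -/
theorem base_twist_zero (hT : IsTower k₁ k' K₁ F) (h6 : (6 : k) ≠ 0) (hq : Nat.card k % 3 = 1)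
    {A b : k[X]} (hb0 : b ≠ 0) (hd0 : b - 4 * A ^ 3 ≠ 0)
    (ob : OddFactors b) (od : OddFactors (b - 4 * A ^ 3))
    (tb : TwoRoots k' b) (td : TwoRoots k' (b - 4 * A ^ 3)) {g : k₁} (hg : ¬ IsSquare g)
    {h : k₁[X]} (hh : OddGalois k₁ h) :
    SpannedAtThree (F := F) k' (crvP K₁ g ((A.map (algebraMap k k₁)).comp h)
      ((C g * b.map (algebraMap k k₁)).comp h)) ⊥ := by
  haveI := hT.sep
  haveI := sep_below (k := k) hT.sep
  haveI : Finite k₁ := Module.finite_of_finite k
  have h6' : (6 : k₁) ≠ 0 := by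
    rw [← map_ofNat (algebraMap k k₁) 6]
    exact (_root_.map_ne_zero _).2 h6
  have h3' : (3 : k₁) ≠ 0 := fun e => h6' (by linear_combination 2 * e)
  have h2' : (2 : k₁) ≠ 0 := fun e => h6' (by linear_combination 3 * e)
  have hg0 : g ≠ 0 := by
    rintro rfl
    exact hg ⟨0, by ring⟩
  have hcard : Nat.card k₁ % 3 = 1 := by
    have h1 : Nat.card k₁ = Nat.card k ^ Module.finrank k k₁ := Module.natCard_eq_pow_finrank
    rw [h1, Nat.pow_mod, hq, one_pow, Nat.one_mod]
  have hP : Pres k₁ k' h := hh.pres h2'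
  have hdm : b.map (algebraMap k k₁) - 4 * A.map (algebraMap k k₁) ^ 3 =
      (b - 4 * A ^ 3).map (algebraMap k k₁) := by
    simp [Polynomial.map_sub, Polynomial.map_mul, Polynomial.map_pow]
  have hbm : b.map (algebraMap k k₁) ≠ 0 :=
    (Polynomial.map_ne_zero_iff (algebraMap k k₁).injective).2 hb0
  have hdm0 : (b - 4 * A ^ 3).map (algebraMap k k₁) ≠ 0 :=
    (Polynomial.map_ne_zero_iff (algebraMap k k₁).injective).2 hd0
  have hbc : (C g * b.map (algebraMap k k₁)).comp h = C g * (b.map (algebraMap k k₁)).comp h := by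
    rw [mul_comp, C_comp]
  have hd : C g * (b.map (algebraMap k k₁)).comp h -
      4 * C g * ((A.map (algebraMap k k₁)).comp h) ^ 3 =
      C g * ((b - 4 * A ^ 3).map (algebraMap k k₁)).comp h := by
    rw [← hdm, sub_comp, mul_comp, pow_comp]
    simp only [ofNat_comp]
    ring
  have hbc0 : (b.map (algebraMap k k₁)).comp h ≠ 0 := hP.2.1 _ hbm
  have hdc0 : ((b - 4 * A ^ 3).map (algebraMap k k₁)).comp h ≠ 0 := hP.2.1 _ hdm0
  rw [hbc]
  refine fin_zero hT h6' hg0 (mul_ne_zero (C_ne_zero.2 hg0) hbc0)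
    (by rw [hd]; exact mul_ne_zero (C_ne_zero.2 hg0) hdc0)
    ⟨((hP.2.2 _ hbm (tb.ext (k₁ := k₁))).factor hbc0).const hg0,
      fun _ => ((ob.ext (k' := k')).comp hP).const hg0, fun h => absurd h hg⟩ ?_
  rw [hd]
  exact ⟨((hP.2.2 _ hdm0 (td.ext (k₁ := k₁))).factor hdc0).const hg0,
    fun _ => ((od.ext (k' := k')).comp hP).const hg0,
    fun h => absurd h (nonsquare_mul h3' hcard hg)⟩

end twist

end Pool.Agent.T6.H12.TD
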