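import Pool.Agent.T6.H12.TD.Rep3

/-!
# The criterion for the vanishing of the classes
-/

set_option autoImplicit false
set_option linter.all false

open Polynomial IsDedekindDomain WeierstrassCurve WeierstrassCurve.Affine
open scoped Classical

namespace Pool.Agent.T6.H12.TD

open Pool.Agent.TH115.GD (Pt act incl rs ak pl val_poly IsTower Sep Comp CompInf LocallyTrivial
  LocTriv IsCoc act_some act_inj act_act rs_act_incl act_zero)

section small

variable {k k' : Type} [Field k] [Field k'] [Algebra k k']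

theorem dvd_const {π p : k[X]} {c : k} (hc : c ≠ 0) (h : π ∣ C c * p) : π ∣ p := by
  have hCu : IsUnit (C c) := isUnit_C.2 (isUnit_iff_ne_zero.2 hc)
  exact (hCu.dvd_mul_left).1 h

theorem rigid_scale (h3 : (3 : k) ≠ 0) {D : k} {π : k[X]} (h : Rigid3 k' D π) :
    Rigid3 k' (-3 * (-3 * D)) π := by
  intro η hη e he
  have h3' : (3 : k') ≠ 0 := by
    rw [← map_ofNat (algebraMap k k') 3]
    exact (_root_.map_ne_zero _).2 h3
  have hη' : (η / 3) ^ 2 = algebraMap k k' D := by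
    have e1 : algebraMap k k' (-3 * (-3 * D)) = 9 * algebraMap k k' D := by
      simp only [map_mul, map_neg, map_ofNat]
      ring
    rw [e1] at hη
    field_simp
    linear_combination hη
  refine h (η / 3) hη' e fun s => ?_
  obtain ⟨j, hj⟩ := he s
  have e3 : s (η / 3) = s η / 3 := by rw [map_div₀, map_ofNat]
  refine ⟨j, ?_⟩
  rcases hj with ⟨h1, h2⟩ | ⟨h1, h2⟩
  · left
    exact ⟨by rw [e3, h1], h2⟩
  · right
    exact ⟨by rw [e3, h1]; ring, h2⟩

theorem sq_scale (h3 : (3 : k) ≠ 0) {D : k} (h : IsSquare (-3 * (-3 * D))) : IsSquare D := by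
  obtain ⟨r, hr⟩ := h
  refine ⟨r / 3, ?_⟩
  field_simp
  linear_combination hr

theorem power_const {p : k[X]} {c : k} (hc : c ≠ 0) (h : IsPower3 p) : IsPower3 (C c * p) := by
  obtain ⟨u, π, m, hπ, hm, rfl⟩ := h
  exact ⟨c * u, π, m, hπ, hm, by rw [C_mul]; ring⟩

theorem nb_eq (D : k) (A b : k[X]) : nb D A b = C 3 * (b - 4 * C D * A ^ 3) := by
  unfold nb
  rw [map_ofNat]

theorem nb_nb (D : k) (A b : k[X]) : nb (-3 * D) A (nb D A b) = C 9 * b := by
  unfold nb
  simp only [C_mul, C_neg, map_ofNat]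
  ring

end small

section crit

variable {k k' K F : Type} [Field k] [Field k'] [Algebra k k'] [Field K] [Algebra k[X] K]
  [Field F] [Algebra k'[X] F] [IsFractionRing k'[X] F] [Algebra K F]

/-- **The criterion.** -/
theorem crit3 (hT : IsTower k k' K F) (h2 : (2 : k) ≠ 0) (h3 : (3 : k) ≠ 0) {D : k} {A b : k[X]}
    (hD : D ≠ 0) (hb : b ≠ 0) (hd : b - 4 * C D * A ^ 3 ≠ 0)
    (sep : ∀ π : k[X], Irreducible π → π ∣ b * (b - 4 * C D * A ^ 3) → π.Separable)
    (rb : ∀ π : k[X], Irreducible π → π ∣ b → Rigid3 k' D π)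
    (rd : ∀ π : k[X], Irreducible π → π ∣ b - 4 * C D * A ^ 3 → Rigid3 k' (-3 * D) π)
    (fb : HasFactor3 b) (fd : HasFactor3 (b - 4 * C D * A ^ 3))
    (M : AddSubgroup (Pt (crvP K D A b) K)) {η1 η2 : k'}
    (hη1 : η1 ^ 2 = algebraMap k k' (-3 * D))
    (hη2 : η2 ^ 2 = algebraMap k k' (-3 * (-3 * D)))
    (pd : ∀ (i0 : Isog (crvP K D A b).toAffine (crvP K (-3 * D) A (nb D A b)).toAffine
        (algebraMap k[X] K (C D)) (algebraMap k[X] K A) (algebraMap k[X] K b)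
        (algebraMap k[X] K (C (-3 * D))) (algebraMap k[X] K (nb D A b)))
      (i1 : Isog (crvP K (-3 * D) A (nb D A b)).toAffine
        (crvP K (-3 * (-3 * D)) A (nb (-3 * D) A (nb D A b))).toAffine
        (algebraMap k[X] K (C (-3 * D))) (algebraMap k[X] K A) (algebraMap k[X] K (nb D A b))
        (algebraMap k[X] K (C (-3 * (-3 * D)))) (algebraMap k[X] K (nb (-3 * D) A (nb D A b)))),
      IsSquare (-3 * D) → Enough3 K F (crvP K (-3 * D) A (nb D A b))
        ((M.map ((ph i1 K).comp (ph i0 K))).comap (ph i1 K)) (algebraMap k[X] K A)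
        (algebraMap k[X] K (nb D A b)) (cF F η1) (nb D A b))
    (pb : ∀ (i0 : Isog (crvP K D A b).toAffine (crvP K (-3 * D) A (nb D A b)).toAffine
        (algebraMap k[X] K (C D)) (algebraMap k[X] K A) (algebraMap k[X] K b)
        (algebraMap k[X] K (C (-3 * D))) (algebraMap k[X] K (nb D A b)))
      (i1 : Isog (crvP K (-3 * D) A (nb D A b)).toAffine
        (crvP K (-3 * (-3 * D)) A (nb (-3 * D) A (nb D A b))).toAffine
        (algebraMap k[X] K (C (-3 * D))) (algebraMap k[X] K A) (algebraMap k[X] K (nb D A b))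
        (algebraMap k[X] K (C (-3 * (-3 * D)))) (algebraMap k[X] K (nb (-3 * D) A (nb D A b))))
      (i2 : Isog (crvP K (-3 * (-3 * D)) A (nb (-3 * D) A (nb D A b))).toAffine
        (crvP K (-3 * (-3 * (-3 * D))) A (nb (-3 * (-3 * D)) A
          (nb (-3 * D) A (nb D A b)))).toAffine
        (algebraMap k[X] K (C (-3 * (-3 * D)))) (algebraMap k[X] K A)
        (algebraMap k[X] K (nb (-3 * D) A (nb D A b)))
        (algebraMap k[X] K (C (-3 * (-3 * (-3 * D)))))
        (algebraMap k[X] K (nb (-3 * (-3 * D)) A (nb (-3 * D) A (nb D A b))))),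
      IsSquare (-3 * (-3 * D)) → Enough3 K F
        (crvP K (-3 * (-3 * D)) A (nb (-3 * D) A (nb D A b)))
        (M.map ((ph i1 K).comp (ph i0 K))) (algebraMap k[X] K A)
        (algebraMap k[X] K (nb (-3 * D) A (nb D A b))) (cF F η2) (nb (-3 * D) A (nb D A b))) :
    SpannedAtThree (F := F) k' (crvP K D A b) M := by
  haveI := hT.sep
  haveI := hT.fracK
  have hKF := hT.map
  have h9 : (9 : k) ≠ 0 := by
    have : (9 : k) = 3 * 3 := by norm_num
    rw [this]; exact mul_ne_zero h3 h3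
  have hD1 : -3 * D ≠ 0 := mul_ne_zero (neg_ne_zero.2 h3) hD
  have hD2 : -3 * (-3 * D) ≠ 0 := mul_ne_zero (neg_ne_zero.2 h3) hD1
  have hD3 : -3 * (-3 * (-3 * D)) ≠ 0 := mul_ne_zero (neg_ne_zero.2 h3) hD2
  have hD4 : -3 * (-3 * (-3 * (-3 * D))) ≠ 0 := mul_ne_zero (neg_ne_zero.2 h3) hD3
  have e1 : nb D A b = C 3 * (b - 4 * C D * A ^ 3) := nb_eq D A b
  have e2 : nb (-3 * D) A (nb D A b) = C 9 * b := nb_nb D A b
  have e3 : nb (-3 * (-3 * D)) A (nb (-3 * D) A (nb D A b)) =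
      C 27 * (b - 4 * C D * A ^ 3) := by
    rw [nb_nb, e1, ← mul_assoc, ← C_mul]
    norm_num
  have e4 : nb (-3 * (-3 * (-3 * D))) A (nb (-3 * (-3 * D)) A (nb (-3 * D) A (nb D A b))) =
      C 81 * b := by
    rw [nb_nb, e2, ← mul_assoc, ← C_mul]
    norm_num
  have h27 : (27 : k) ≠ 0 := by
    have : (27 : k) = 9 * 3 := by norm_num
    rw [this]; exact mul_ne_zero h9 h3
  have h81 : (81 : k) ≠ 0 := by
    have : (81 : k) = 9 * 9 := by norm_num
    rw [this]; exact mul_ne_zero h9 h9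
  have n1 : nb D A b ≠ 0 := by rw [e1]; exact mul_ne_zero (C_ne_zero.2 h3) hd
  have n2 : nb (-3 * D) A (nb D A b) ≠ 0 := by rw [e2]; exact mul_ne_zero (C_ne_zero.2 h9) hb
  have n3 : nb (-3 * (-3 * D)) A (nb (-3 * D) A (nb D A b)) ≠ 0 := by
    rw [e3]; exact mul_ne_zero (C_ne_zero.2 h27) hd
  have n4 : nb (-3 * (-3 * (-3 * D))) A (nb (-3 * (-3 * D)) A (nb (-3 * D) A (nb D A b))) ≠ 0 := by
    rw [e4]; exact mul_ne_zero (C_ne_zero.2 h81) hb
  have of_nb : ∀ {D : k} {A b : k[X]}, nb D A b ≠ 0 → b - 4 * C D * A ^ 3 ≠ 0 := by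
    intro D A b h h'
    apply h
    unfold nb
    rw [h', mul_zero]
  have i0 := isogP (K := K) h2 h3 hD hb hd
  have i1 := isogP (K := K) h2 h3 hD1 n1 (of_nb n2)
  have i2 := isogP (K := K) h2 h3 hD2 n2 (of_nb n3)
  have i3 := isogP (K := K) h2 h3 hD3 n3 (of_nb n4)
  have n5 : nb (-3 * (-3 * (-3 * (-3 * D)))) A (nb (-3 * (-3 * (-3 * D))) A
      (nb (-3 * (-3 * D)) A (nb (-3 * D) A (nb D A b)))) ≠ 0 := by
    rw [nb_nb]
    exact mul_ne_zero (C_ne_zero.2 h9) n3
  have i4 := isogP (K := K) h2 h3 hD4 n4 (of_nb n5)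
  have sb : ∀ π : k[X], Irreducible π → π ∣ b → π.Separable :=
    fun π h h' => sep π h (h'.mul_right _)
  have sd : ∀ π : k[X], Irreducible π → π ∣ b - 4 * C D * A ^ 3 → π.Separable :=
    fun π h h' => sep π h (h'.mul_left _)
  have ccb : NotCC k' F (algebraMap k[X] K b) := notCC_of_factor hKF hb sb fb
  have ccd : NotCC k' F (algebraMap k[X] K (b - 4 * C D * A ^ 3)) :=
    notCC_of_factor hKF hd sd fd
  refine spanned_of_layers (div3 (i0.bc (Sep F)) (i1.bc (Sep F))) (N := 2) (fun c hc => ?_)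
  exact first_layer3 hKF i0 i1 i2 i3 i4 h2 h3 M
    (fun π h h' => sd π h (dvd_const h3 (by rw [← e1]; exact h')))
    (fun π h h' => rd π h (dvd_const h3 (by rw [← e1]; exact h')))
    (fun π h h' => sb π h (dvd_const h9 (by rw [← e2]; exact h')))
    (fun π h h' => rigid_scale h3 (rb π h (dvd_const h9 (by rw [← e2]; exact h'))))
    (notCC_const hKF h9 e2 ccb) (notCC_const hKF h27 e3 ccd) (notCC_const hKF h81 e4 ccb)
    hη1 hη2 (pd i0 i1) (pb i0 i1 i2) hc

/-- **The criterion for rank zero.** -/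
theorem crit_zero (hT : IsTower k k' K F) (h2 : (2 : k) ≠ 0) (h3 : (3 : k) ≠ 0) {D : k}
    {A b : k[X]} (hD : D ≠ 0) (hb : b ≠ 0) (hd : b - 4 * C D * A ^ 3 ≠ 0)
    (sep : ∀ π : k[X], Irreducible π → π ∣ b * (b - 4 * C D * A ^ 3) → π.Separable)
    (rb : ∀ π : k[X], Irreducible π → π ∣ b → Rigid3 k' D π)
    (rd : ∀ π : k[X], Irreducible π → π ∣ b - 4 * C D * A ^ 3 → Rigid3 k' (-3 * D) π)
    (fb : HasFactor3 b) (fd : HasFactor3 (b - 4 * C D * A ^ 3))
    (pb : IsSquare D → IsPower3 b) (pd : IsSquare (-3 * D) → IsPower3 (b - 4 * C D * A ^ 3)) :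
    SpannedAtThree (F := F) k' (crvP K D A b) ⊥ := by
  haveI := hT.sep
  haveI := hT.fracK
  have hKF := hT.map
  haveI : IsSepClosed k' := IsSepClosure.sep_closed k
  have h2' : (2 : k') ≠ 0 := by
    rw [← map_ofNat (algebraMap k k') 2]
    exact (_root_.map_ne_zero _).2 h2
  haveI : NeZero ((2 : ℕ) : k') := ⟨by exact_mod_cast h2'⟩
  obtain ⟨η1, hη1⟩ := IsSepClosed.exists_pow_nat_eq (algebraMap k k' (-3 * D)) 2
  obtain ⟨η2, hη2⟩ := IsSepClosed.exists_pow_nat_eq (algebraMap k k' (-3 * (-3 * D))) 2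
  have h9 : (9 : k) ≠ 0 := by
    have : (9 : k) = 3 * 3 := by norm_num
    rw [this]; exact mul_ne_zero h3 h3
  have e1 : nb D A b = C 3 * (b - 4 * C D * A ^ 3) := nb_eq D A b
  have e2 : nb (-3 * D) A (nb D A b) = C 9 * b := nb_nb D A b
  exact crit3 hT h2 h3 hD hb hd sep rb rd fb fd ⊥ hη1 hη2
    (fun i0 i1 hs => enough_pow3 hKF i0 i1 h2 h3 (by rw [e1]; exact power_const h3 (pd hs)) hs
      hη1 _)
    (fun i0 i1 i2 hs => enough_pow3 hKF i1 i2 h2 h3
      (by rw [e2]; exact power_const h9 (pb (sq_scale h3 hs))) hs hη2 _)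

theorem tate_of_spanned {W : WeierstrassCurve K} {M : AddSubgroup (Pt W K)}
    (h : SpannedAtThree (F := F) k' W M) : TateAtThree (F := F) k' W := by
  intro c hc hl hi
  obtain ⟨m, hm⟩ := h c hc hl hi
  refine ⟨m, fun n => ?_⟩
  obtain ⟨P, -, R, h1, h2⟩ := hm n
  exact ⟨P, R, h1, h2⟩

end crit

end Pool.Agent.T6.H12.TD
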