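import Pool.Agent.TH115.GD.Defs

/-!
# The Tate conjecture at the prime three for elliptic surfaces over the projective line

The definitions are those of `Pool.Agent.TH115.GD.Defs` with the prime 2 replaced by 3; the only
difference is that the classes are allowed to be multiplied by a power of 3 (that is, the statement
is about `V_3`, and not about `T_3`).
-/

set_option autoImplicit false
set_option linter.all false

open Polynomial IsDedekindDomain WeierstrassCurve WeierstrassCurve.Affine
open scoped Classical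

namespace Pool.Agent.T6.H12.TD

open Pool.Agent.TH115.GD (Pt act incl rs ak Sep LocallyTrivial IsCoc)

section cocycles

variable {K F Ω : Type} [Field K] [Field F] [Field Ω] [Algebra K F] [Algebra F Ω] [Algebra K Ω]
  [IsScalarTower K F Ω] (W : WeierstrassCurve K)

/-- `Q` is an element of the Tate module `T_3 W`: `Q 0 = 0`, `3 Q (n + 1) = Q n`. -/
structure IsTM3 (Q : ℕ → Pt W Ω) : Prop where
  zero : Q 0 = 0
  three : ∀ n, 3 • Q (n + 1) = Q n

/-- `c` is a continuous 1-cocycle of `Gal(Ω / F)` with values in the Tate module `T_3 W`: `c n` is a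
cocycle with values in the points of order `3 ^ n`, and `3 c (n + 1) = c n`. -/
structure IsTC3 (c : ℕ → (Ω ≃ₐ[F] Ω) → Pt W Ω) : Prop where
  coc : ∀ n, IsCoc W (c n)
  zero : ∀ σ, c 0 σ = 0
  three : ∀ n σ, 3 • c (n + 1) σ = c n σ

/-- The class of `c` in `H ^ 1 (F, V_3 W)` is fixed by `Gal(Ω / K)`: for each `τ` in `Gal(Ω / K)`
there is an `m` such that `3 ^ m (τ c - c)` is the coboundary of an element `Q` of the Tate module.
Here `(τ c) (σ) = τ (c (σ'))` with `σ' = τ⁻¹ σ τ`. -/
def IsInv3 (c : ℕ → (Ω ≃ₐ[F] Ω) → Pt W Ω) : Prop :=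
  ∀ τ : Ω ≃ₐ[K] Ω, ∃ (m : ℕ) (Q : ℕ → Pt W Ω), IsTM3 W Q ∧
    ∀ (n : ℕ) (σ σ' : Ω ≃ₐ[F] Ω), (∀ x, τ (σ' x) = σ (τ x)) →
      3 ^ m • (act W (ak τ) (c n σ') - c n σ) = act W (rs K σ) (Q n) - Q n

end cocycles

section stmt

variable {K F : Type} [Field K] [Field F] [Algebra K F]

/-- The Tate conjecture at the prime 3 for the elliptic surface with generic fibre `W` over
`K = k(t)`: the classes in the 3-adic Selmer group `V_3 Sel(W / F)`, `F = k'(t)`, which are fixed by
the Galois group, come from `W(K)`. If `c` is a cocycle of `Gal(Sep F / F)` with values in `T_3 W`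
which is everywhere locally trivial, and the class of `c` is fixed by the Galois group of `K`, then
there is an `m` such that for every `n` there are a point `P` of `W(K)` and a point `R` with
`3 ^ n R = P` and `3 ^ m c n σ = σ R - R` for all `σ`. -/
def TateAtThree (k' : Type) [Field k'] [Algebra k'[X] F] [IsFractionRing k'[X] F]
    (W : WeierstrassCurve K) : Prop :=
  ∀ c : ℕ → (Sep F ≃ₐ[F] Sep F) → Pt W (Sep F), IsTC3 W c →
    (∀ n, LocallyTrivial k' W (c n)) → IsInv3 W c →
    ∃ m : ℕ, ∀ n, ∃ (P : Pt W K) (R : Pt W (Sep F)), 3 ^ n • R = act W (incl K K (Sep F)) P ∧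
      ∀ σ, 3 ^ m • c n σ = act W (rs K σ) R - R

/-- The stronger statement that the classes in the 3-adic Selmer group `V_3 Sel(W / F)`,
`F = k'(t)`, which are fixed by the Galois group of `K` come from the subgroup `M` of `W(K)`. For
`M = 0` this says that there are no such classes besides zero (then the rank of `W(K)` is zero); in
general the rank of `W(K)` is that of `M`. -/
def SpannedAtThree (k' : Type) [Field k'] [Algebra k'[X] F] [IsFractionRing k'[X] F]
    (W : WeierstrassCurve K) (M : AddSubgroup (Pt W K)) : Prop :=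
  ∀ c : ℕ → (Sep F ≃ₐ[F] Sep F) → Pt W (Sep F), IsTC3 W c →
    (∀ n, LocallyTrivial k' W (c n)) → IsInv3 W c →
    ∃ m : ℕ, ∀ n, ∃ P ∈ M, ∃ R : Pt W (Sep F), 3 ^ n • R = act W (incl K K (Sep F)) P ∧
      ∀ σ, 3 ^ m • c n σ = act W (rs K σ) R - R

end stmt

end Pool.Agent.T6.H12.TD
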