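import Pool.Agent.T6.H12.TD.Glob3
import Pool.Agent.TH115.GD.Final

/-!
# Descent by the isogeny of degree three
-/

set_option autoImplicit false
set_option linter.all false

open Polynomial IsDedekindDomain WeierstrassCurve WeierstrassCurve.Affine
open scoped Classical

namespace Pool.Agent.T6.H12.TD

open Pool.Agent.TH115.GD (Pt act incl rs ak pl val_poly IsTower Sep Comp CompInf LocallyTrivial
  LocTriv IsCoc Preserves lift preserves wFin act_some act_inj act_act rs_act_incl)

section desc

variable {k k' K F : Type} [Field k] [Field k'] [Algebra k k'] [IsSepClosure k k']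
  [Field K] [Algebra k[X] K] [IsFractionRing k[X] K] [Field F] [Algebra k'[X] F]
  [IsFractionRing k'[X] F] [Algebra K F]
  (hKF : ∀ p : k[X], algebraMap K F (algebraMap k[X] K p) =
    algebraMap k'[X] F (p.map (algebraMap k k')))

/-- Constants of `F`. -/
noncomputable def cF (F : Type) {k' : Type} [Field k'] [Field F] [Algebra k'[X] F] (c : k') : F :=
  algebraMap k'[X] F (C c)

omit [IsFractionRing k'[X] F] in
include hKF in
theorem cF_sq {c : k'} {D : k} (h : c ^ 2 = algebraMap k k' D) :
    cF F c ^ 2 = algebraMap K F (algebraMap k[X] K (C D)) := by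
  unfold cF
  rw [hKF, map_C, ← h, C_pow, map_pow]

theorem cF_val (v : HeightOneSpectrum k'[X]) {c : k'} (hc : c ≠ 0) :
    v.valuation F (cF F c) = 1 := by
  unfold cF
  rw [v.valuation_of_algebraMap, HeightOneSpectrum.intValuation_eq_one_iff]
  intro hm
  apply v.isPrime.ne_top
  exact Ideal.eq_top_of_isUnit_mem _ hm (isUnit_C.2 (isUnit_iff_ne_zero.2 hc))

theorem cF_ne {c : k'} (hc : c ≠ 0) : cF F c ≠ 0 := by
  unfold cF
  simpa using hc

theorem cF_inj {c d : k'} (h : cF F c = cF F d) : c = d := by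
  unfold cF at h
  exact C_injective (IsFractionRing.injective k'[X] F h)

variable {W W' : WeierstrassCurve K} {D0 D0' : k} {A0 p : k[X]} {b : K}
  (h : Isog W.toAffine W'.toAffine (algebraMap k[X] K (C D0)) (algebraMap k[X] K A0) b
    (algebraMap k[X] K (C D0')) (algebraMap k[X] K p))
  {η δ : k'} (hη : η ^ 2 = algebraMap k k' D0') (hδ : δ ^ 2 = algebraMap k k' D0)

include hKF h hη hδ

/-- The Kummer generator of a cocycle with values in the kernel: local conditions and the action
of the Galois group. -/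
theorem data3 (h2 : (2 : k) ≠ 0)
    (htor : ∀ (Q : Pt W' (Sep F)) (m : ℕ), (∀ σ : Sep F ≃ₐ[F] Sep F, act W' (rs K σ) Q = Q) →
      3 ^ m • Q = 0 → Q = 0 ∨ ∃ n hn, Q = Point.some 0 n hn)
    {f : (Sep F ≃ₐ[F] Sep F) → Pt W (Sep F)} (hf : IsCoc W f)
    (hk : ∀ σ, ph h (Sep F) (f σ) = 0)
    (hl : ∀ v : HeightOneSpectrum k'[X], LocTriv W (Comp k'[X] F v) (Sep (Comp k'[X] F v)) f)
    (hi : InvOne3 W f) :
    ∃ (t : Sep F) (a : F), t ≠ 0 ∧ a ≠ 0 ∧ t ^ 3 = algebraMap F (Sep F) a ∧
      (∀ σ, σ t = chi (algebraMap F (Sep F) (cF F η)) (algebraMap K (Sep F) b) (f σ) * t) ∧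
      (∀ v : HeightOneSpectrum k'[X], p.map (algebraMap k k') ∉ v.asIdeal → or3 v a = 0) ∧
      ∀ s : k' ≃ₐ[k] k', ∃ j : ZMod 3,
      (s η = η ∧ ∀ θ, or3 (pl θ) a = or3 (pl (s θ)) a +
        j * or3 (pl (s θ)) (algebraMap K F (algebraMap k[X] K p))) ∨
      (s η = -η ∧ ∀ θ, or3 (pl θ) a = -(or3 (pl (s θ)) a +
        j * or3 (pl (s θ)) (algebraMap K F (algebraMap k[X] K p)))) := by
  have hηF := cF_sq (F := F) hKF hη
  have hδF := cF_sq (F := F) hKF hδ
  have h2' : (2 : k') ≠ 0 := by
    rw [← map_ofNat (algebraMap k k') 2]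
    exact (_root_.map_ne_zero _).2 h2
  have hη0 : η ≠ 0 := by
    rintro rfl
    have h5 := h.E'.neD
    apply h5
    apply (algebraMap K F).injective
    rw [← hηF, map_zero]
    unfold cF
    rw [C_0, map_zero]
    ring
  obtain ⟨t, a, ht, e, kt⟩ := kummer3 h hηF hδF hf hk
  have ha : a ≠ 0 := by
    rintro rfl
    rw [map_zero] at e
    exact pow_ne_zero 3 ht e
  have hbF : algebraMap K F (algebraMap k[X] K p) ≠ 0 := (_root_.map_ne_zero _).2 h.E'.neb
  refine ⟨t, a, ht, ha, e, kt, fun v hv => ?_, fun s => ?_⟩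
  · -- the local condition
    obtain ⟨c, z, hc, hz, e1, e2⟩ := loc3 (L := Comp k'[X] F v) (Ω' := Sep (Comp k'[X] F v))
      h hηF hδF hk (hl v) ht e kt
    set w : Valuation (Comp k'[X] F v) (WithZero (Multiplicative ℤ)) :=
      (Valued.v (R := v.adicCompletion F) (Γ₀ := WithZero (Multiplicative ℤ))) with hw
    have wF : ∀ x : F, w (algebraMap F (Comp k'[X] F v) x) = v.valuation F x := wFin v
    have wK : ∀ x : K, w (algebraMap K (Comp k'[X] F v) x) = v.valuation F (algebraMap K F x) := by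
      intro x
      rw [← wF, ← IsScalarTower.algebraMap_apply K F (Comp k'[X] F v)]
    have w2 : w 2 = 1 := by
      have h5 := cF_val (F := F) v h2'
      rw [← wF] at h5
      unfold cF at h5
      rwa [map_ofNat, map_ofNat, map_ofNat] at h5
    have w3 : w 3 ≤ 1 := by
      have h5 : v.valuation F (algebraMap k'[X] F 3) ≤ 1 := v.valuation_le_one _
      rw [← wF] at h5
      rwa [map_ofNat, map_ofNat] at h5
    have wη : w (algebraMap F (Comp k'[X] F v) (cF F η)) = 1 := by
      rw [wF]
      exact cF_val v hη0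
    have wA : w (algebraMap K (Comp k'[X] F v) (algebraMap k[X] K A0)) ≤ 1 := by
      rw [wK, hKF]
      exact v.valuation_le_one _
    have wb : w (algebraMap K (Comp k'[X] F v) (algebraMap k[X] K p)) = 1 := by
      rw [wK, hKF, v.valuation_of_algebraMap, HeightOneSpectrum.intValuation_eq_one_iff]
      exact hv
    obtain ⟨n, hn⟩ := zc_cube w w2 w3 wη wA wb hz e2
    have hwc : w c ≠ 0 := (Valuation.ne_zero_iff _).2 hc
    obtain ⟨m, hm⟩ := exp_of_ne hwc
    apply or3_of_exp (n := m + n)
    rw [← wF, e1, map_mul, map_pow, hn, hm, ← WithZero.exp_nsmul, ← WithZero.exp_add]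
    congr 1
    rw [nsmul_eq_mul]
    push_cast
    ring
  · -- the Galois action
    obtain ⟨τ, hτ⟩ := lift (Ω := Sep F) hKF s
    obtain ⟨u, z, hu, hz, hcase⟩ := inv3 h hηF hδF (preserves hKF) htor hk hi ht e kt τ
    have hτη : τ (algebraMap F (Sep F) (cF F η)) = algebraMap F (Sep F) (cF F (s η)) := by
      unfold cF
      rw [hτ, map_C]
      rfl
    -- the order of the factor
    have hzj : ∃ j : ZMod 3, z ≠ 0 ∧ ∀ v : HeightOneSpectrum k'[X], or3 v z =
        j * or3 v (algebraMap K F (algebraMap k[X] K p)) := by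
      have hc : ∀ v : HeightOneSpectrum k'[X], or3 v (2 * cF F η *
          algebraMap K F (algebraMap k[X] K p)) =
          or3 v (algebraMap K F (algebraMap k[X] K p)) := by
        intro v
        have e2 : (2 : F) * cF F η = cF F (2 * η) := by
          unfold cF
          rw [C_mul, map_mul, map_ofNat, map_ofNat]
        rw [e2, or3_mul v (cF_ne (mul_ne_zero h2' hη0)) hbF,
          or3_of_one v (cF_val v (mul_ne_zero h2' hη0)), zero_add]
      have hne : 2 * cF F η * algebraMap K F (algebraMap k[X] K p) ≠ 0 := by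
        have e2 : (2 : F) * cF F η = cF F (2 * η) := by
          unfold cF
          rw [C_mul, map_mul, map_ofNat, map_ofNat]
        rw [e2]
        exact mul_ne_zero (cF_ne (mul_ne_zero h2' hη0)) hbF
      rcases hz with rfl | rfl | rfl
      · exact ⟨0, one_ne_zero, fun v => by rw [or3_one, zero_mul]⟩
      · exact ⟨1, hne, fun v => by rw [hc, one_mul]⟩
      · exact ⟨-1, neg_ne_zero.2 (inv_ne_zero hne), fun v => by
          rw [or3_neg, or3_inv, hc]; ring⟩
    obtain ⟨j, hz0, hj⟩ := hzj
    refine ⟨j, ?_⟩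
    have hu3 : u ^ 3 ≠ 0 := pow_ne_zero 3 hu
    have haz : a * z ≠ 0 := mul_ne_zero ha hz0
    rcases hcase with ⟨c1, c2⟩ | ⟨c1, c2⟩
    · left
      refine ⟨?_, fun θ => ?_⟩
      · rw [hτη] at c1
        exact cF_inj ((algebraMap F (Sep F)).injective c1)
      · have h5 := or3_galois τ s hτ ha c2 θ
        rw [← h5, or3_mul _ hu3 haz, or3_pow_three, zero_add, or3_mul _ ha hz0, hj]
    · right
      refine ⟨?_, fun θ => ?_⟩
      · rw [hτη, ← map_neg] at c1
        have c1' := (algebraMap F (Sep F)).injective c1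
        apply cF_inj (F := F)
        rw [c1']
        unfold cF
        rw [C_neg, map_neg]
      · have h5 := or3_galois τ s hτ ha c2 θ
        rw [← h5, or3_mul _ hu3 (inv_ne_zero haz), or3_pow_three, zero_add, or3_inv,
          or3_mul _ ha hz0, hj]

end desc

end Pool.Agent.T6.H12.TD
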