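import Pool.Agent.T6.H12.TD.Ker

/-!
# Multiplication by three
-/

set_option autoImplicit false
set_option linter.all false

open WeierstrassCurve WeierstrassCurve.Affine
open scoped Classical

namespace Pool.Agent.T6.H12.TD

section three

variable {F : Type*} [Field F] {W W' W'' : Affine F} {D A b D' b' D'' b'' : F}
  (h : Isog W W' D A b D' b') (h' : Isog W' W'' D' A b' D'' b'')

include h

/-- Points with the same first coordinate. -/
theorem eq_or_neg {x y y' : F} (h1 : W.Nonsingular x y) (h2 : W.Nonsingular x y') :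
    Point.some x y h1 = Point.some x y' h2 ∨ Point.some x y h1 = -Point.some x y' h2 := by
  have e1 := h.E.nonsingular.1 h1
  have e2 := h.E.nonsingular.1 h2
  have : (y - y') * (y + y') = 0 := by linear_combination e1 - e2
  rcases mul_eq_zero.1 this with h3 | h3
  · left
    obtain rfl : y = y' := sub_eq_zero.1 h3
    rfl
  · right
    rw [Point.neg_some]
    congr 1
    rw [negY' h.E.a1 h.E.a3]
    linear_combination h3

include h'

/-- The isogeny maps the points of order three to the kernel of the next isogeny. -/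
theorem three_tor {S : W.Point} (hS : 3 • S = 0) : phi h' (phi h S) = 0 := by
  have hE := h.E
  rcases S with _ | ⟨x, y, hxy⟩
  · rfl
  by_cases hx : x = 0
  · rw [phi_some0 h _ hx, phi_zero]
  rw [phi_some h _ hx]
  apply phi_some0
  have h3 : Point.some x y hxy + Point.some x y hxy = -Point.some x y hxy := by
    rw [show (3 : ℕ) = 2 + 1 from rfl, add_smul, two_smul, one_smul] at hS
    exact eq_neg_of_add_eq_zero_left hS
  have hc : ¬ (x = x ∧ y = -y) := by
    rintro ⟨-, h4⟩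
    have h5 : Point.some x y hxy + Point.some x y hxy = 0 := by
      rw [Point.add_of_Y_eq rfl]
      rw [negY' hE.a1 hE.a3]
      exact h4
    rw [h5] at h3
    exact Point.some_ne_zero _ (neg_eq_zero.1 h3.symm)
  obtain ⟨l, n, x3, y3, n3, hL, q1, q2, q3, hs⟩ := line_of_add hE.a1 hE.a3 hE.two hxy hxy hc
  rw [h3, neg_inj] at hs
  have hx3 : x = x3 := (Point.some.inj hs).1
  subst hx3
  obtain ⟨e1, e2, e3⟩ := hL
  rw [hE.a2] at e1
  rw [hE.a4] at e2
  rw [hE.a6] at e3
  have hy := hE.nonsingular.1 hxy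
  have key : 3 * x * (x ^ 3 + 12 * D * A ^ 2 * x ^ 2 + 12 * D * A * b * x + 4 * D * b ^ 2) = 0 := by
    have l2 : l ^ 2 = 3 * x + 9 * D * A ^ 2 := by linear_combination -e1
    have n2 : n ^ 2 = x ^ 3 + D * b ^ 2 := by linear_combination -e3
    have ln : 2 * l * n = 6 * D * A * b - 3 * x ^ 2 := by linear_combination e2
    linear_combination -4 * n ^ 2 * l2 - 4 * (3 * x + 9 * D * A ^ 2) * n2 +
      (2 * l * n + (6 * D * A * b - 3 * x ^ 2)) * ln
  have h6 := (mul_eq_zero.1 key).resolve_left (mul_ne_zero hE.three hx)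
  rw [div_eq_zero_iff]
  left
  linear_combination h6 + hy

omit h' in
theorem tri_identity {x y xq X Y V x4 : F} (hy : y ^ 2 = x ^ 3 + D * (3 * A * x + b) ^ 2)
    (hX : X * x ^ 2 = x ^ 3 + 12 * D * A ^ 2 * x ^ 2 + 12 * D * A * b * x + 4 * D * b ^ 2)
    (hY : Y ^ 2 = X ^ 3 + D' * (3 * A * X + b') ^ 2)
    (hq : 9 * xq * X ^ 2 = Y ^ 2 - 9 * D * (A * X + b') ^ 2)
    (hV : V = -3 * x * (X * x ^ 2)) (hV0 : V ≠ 0)
    (h4 : x4 * V ^ 2 = x * V ^ 2 + 8 * y ^ 2 *
      ((3 * x ^ 2 + 18 * D * A ^ 2 * x + 6 * D * A * b) * V + 8 * y ^ 4)) : x4 = xq := by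
  apply mul_right_cancel₀ (pow_ne_zero 2 hV0)
  have hb' := h.hb
  have hD' := h.hD
  have e1 : xq * V ^ 2 = x ^ 6 * (X ^ 3 - 36 * D * A ^ 2 * X ^ 2 - 36 * D * A * b' * X -
      12 * D * b' ^ 2) := by
    rw [hV]
    rw [hD'] at hY
    linear_combination x ^ 6 * hq + x ^ 6 * hY
  have e2 : x ^ 6 * (X ^ 3 - 36 * D * A ^ 2 * X ^ 2 - 36 * D * A * b' * X - 12 * D * b' ^ 2) =
      (X * x ^ 2) ^ 3 - 36 * D * A ^ 2 * x ^ 2 * (X * x ^ 2) ^ 2 -
        36 * D * A * b' * x ^ 4 * (X * x ^ 2) - 12 * D * b' ^ 2 * x ^ 6 := by ring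
  have e3 : y ^ 4 = (x ^ 3 + D * (3 * A * x + b) ^ 2) ^ 2 := by rw [← hy]; ring
  rw [h4, e1, e2, hV, e3, hy, hX, hb']
  ring

end three

section triple

variable {F : Type*} [Field F] {W W' W'' : Affine F} {D A b D' b' D'' b'' : F}
  (h : Isog W W' D A b D' b') (h' : Isog W' W'' D' A b' D'' b'')

include h h'

/-- The composite of the two isogenies is multiplication by three, up to the sign. -/
theorem triple_eq {xq yq : F} (hq : W.Nonsingular xq yq)
    (hQ : W''.Nonsingular (9 * xq) (27 * yq)) {P : W.Point}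
    (hP : phi h' (phi h P) = Point.some (9 * xq) (27 * yq) hQ) :
    3 • P = Point.some xq yq hq ∨ 3 • P = -Point.some xq yq hq := by
  have hE := h.E
  have t2 := hE.two
  have t3 := hE.three
  have hyq := hE.nonsingular.1 hq
  have hQ' := hP
  rcases P with _ | ⟨x, y, hxy⟩
  · rw [show phi h Point.zero = 0 from rfl, phi_zero] at hQ'
    exact absurd hQ'.symm (Point.some_ne_zero _)
  by_cases hx : x = 0
  · rw [phi_some0 h _ hx, phi_zero] at hQ'
    exact absurd hQ'.symm (Point.some_ne_zero _)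
  rw [phi_some h _ hx] at hQ'
  obtain ⟨X, hX⟩ : ∃ X, X = (y ^ 2 + 3 * D * (A * x + b) ^ 2) / x ^ 2 := ⟨_, rfl⟩
  obtain ⟨Y, hY⟩ : ∃ Y, Y = y * (y ^ 2 - 9 * D * (A * x + b) ^ 2) / x ^ 3 := ⟨_, rfl⟩
  have hXY : W'.Nonsingular X Y := by rw [hX, hY]; exact phi_ns h hxy hx
  have hp : phi h' (Point.some X Y hXY) = Point.some (9 * xq) (27 * yq) hQ := by
    rw [← hQ']
    congr 1
    simp only [hX, hY]
  have hX0 : X ≠ 0 := by
    intro h0
    rw [phi_some0 h' _ h0] at hp
    exact absurd hp.symm (Point.some_ne_zero _)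
  rw [phi_some h' _ hX0] at hp
  have hxq := (Point.some.inj hp).1
  have hyy := hE.nonsingular.1 hxy
  have hYY := h.E'.nonsingular.1 hXY
  have hXt : X * x ^ 2 = x ^ 3 + 12 * D * A ^ 2 * x ^ 2 + 12 * D * A * b * x + 4 * D * b ^ 2 := by
    rw [hX]
    field_simp
    linear_combination hyy
  have hxq' : 9 * xq * X ^ 2 = Y ^ 2 - 9 * D * (A * X + b') ^ 2 := by
    rw [h.hD] at hxq
    field_simp at hxq
    linear_combination -hxq
  obtain ⟨V, hV⟩ : ∃ V, V = -3 * x * (X * x ^ 2) := ⟨_, rfl⟩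
  have hV0 : V ≠ 0 := by
    rw [hV]
    refine mul_ne_zero (mul_ne_zero (neg_ne_zero.2 t3) hx) (mul_ne_zero hX0 (pow_ne_zero 2 hx))
  -- the triple of the point
  obtain ⟨x4, y4, h4, e4, hx4⟩ : ∃ (x4 y4 : F) (h4 : W.Nonsingular x4 y4),
      3 • Point.some x y hxy = Point.some x4 y4 h4 ∧ x4 * V ^ 2 = x * V ^ 2 + 8 * y ^ 2 *
      ((3 * x ^ 2 + 18 * D * A ^ 2 * x + 6 * D * A * b) * V + 8 * y ^ 4) := by
    by_cases hy0 : y = 0
    · subst hy0
      refine ⟨x, 0, hxy, ?_, by ring⟩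
      have h5 : Point.some x 0 hxy + Point.some x 0 hxy = 0 := by
        rw [Point.add_of_Y_eq rfl]
        rw [negY' hE.a1 hE.a3, neg_zero]
      rw [show (3 : ℕ) = 2 + 1 from rfl, add_smul, two_smul, one_smul, h5, zero_add]
    · have hc : ¬ (x = x ∧ y = -y) := by
        rintro ⟨-, h4⟩
        have h5 : (2 : F) * y = 0 := by linear_combination h4
        exact (mul_ne_zero t2 hy0) h5
      obtain ⟨l, n, x3, y3, n3, hL, q1, q2, q3, hs⟩ := line_of_add hE.a1 hE.a3 hE.two hxy hxy hc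
      obtain ⟨e1, e2, e3⟩ := hL
      rw [hE.a2] at e1
      rw [hE.a4] at e2
      rw [hE.a6] at e3
      have hly : 2 * l * y = 3 * x ^ 2 + 18 * D * A ^ 2 * x + 6 * D * A * b := by
        rw [q1]
        linear_combination -2 * x * e1 + e2
      have hw : 4 * y ^ 2 * (x3 - x) = V := by
        rw [hV, hXt]
        linear_combination 4 * y ^ 2 * e1 + (2 * l * y + (3 * x ^ 2 + 18 * D * A ^ 2 * x +
          6 * D * A * b)) * hly - (36 * D * A ^ 2 + 12 * x) * hyy
      have hw0 : x3 ≠ x := by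
        rintro rfl
        apply hV0
        rw [← hw]; ring
      have hn3 : W.Nonsingular x3 (-y3) := by
        have := (W.nonsingular_neg x3 y3).2 n3
        rwa [negY' hE.a1 hE.a3] at this
      have hs' : Point.some x y hxy + Point.some x y hxy = Point.some x3 (-y3) hn3 := by
        rw [hs, Point.neg_some]
        congr 1
        exact negY' hE.a1 hE.a3 _ _
      have hc' : ¬ (x = x3 ∧ y = -(-y3)) := fun h5 => hw0 h5.1.symm
      obtain ⟨l', n', x4, y4, n4, hL', q1', q2', q3', hs''⟩ :=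
        line_of_add hE.a1 hE.a3 hE.two hxy hn3 hc'
      obtain ⟨f1, f2, f3⟩ := hL'
      rw [hE.a2] at f1
      have hn4 : W.Nonsingular x4 (-y4) := by
        have := (W.nonsingular_neg x4 y4).2 n4
        rwa [negY' hE.a1 hE.a3] at this
      refine ⟨x4, -y4, hn4, ?_, ?_⟩
      · rw [show (3 : ℕ) = 2 + 1 from rfl, add_smul, two_smul, one_smul, hs', add_comm, hs'',
          Point.neg_some]
        congr 1
        exact negY' hE.a1 hE.a3 _ _
      · have g1 : l' * (x3 - x) = -(l * (x3 - x) + 2 * y) := by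
          linear_combination -q2' + q1' - q3 - q1 + 2 * q1
        have g2 : x4 * (x3 - x) ^ 2 = x * (x3 - x) ^ 2 + 4 * y * (l * (x3 - x) + y) := by
          linear_combination (x3 - x) ^ 2 * f1 - (x3 - x) ^ 2 * e1 +
            (l' * (x3 - x) - (l * (x3 - x) + 2 * y)) * g1
        rw [← hw]
        linear_combination 16 * y ^ 4 * g2 + 32 * y ^ 4 * (x3 - x) * hly
  have hfin : x4 = xq := tri_identity h hyy hXt hYY hxq' hV hV0 hx4
  subst hfin
  rw [e4]
  exact eq_or_neg h h4 hq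

end triple

section surj

variable {F : Type*} [Field F] [IsSepClosed F] {W W' W'' : Affine F} {D A b D' b' D'' b'' : F}
  (h : Isog W W' D A b D' b') (h' : Isog W' W'' D' A b' D'' b'')

include h h'

/-- Multiplication by three is surjective over a separably closed field. -/
theorem div3 (Q : W.Point) : ∃ P : W.Point, 3 • P = Q := by
  have hE := h.E
  rcases Q with _ | ⟨xq, yq, hq⟩
  · exact ⟨0, rfl⟩
  have hyq := hE.nonsingular.1 hq
  have hQ : W''.Nonsingular (9 * xq) (27 * yq) := by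
    rw [h'.E'.nonsingular, h'.hD, h'.hb, h.hD, h.hb]
    linear_combination 729 * hyq
  obtain ⟨Q', hQ'⟩ := phi_surj h' (Point.some _ _ hQ)
  obtain ⟨P, rfl⟩ := phi_surj h Q'
  rcases triple_eq h h' hq hQ hQ' with h6 | h6
  · exact ⟨_, h6⟩
  · exact ⟨-P, by rw [smul_neg, h6, neg_neg]⟩

end surj

end Pool.Agent.T6.H12.TD
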