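import Pool.Agent.T6.H12.TD.Main3

/-!
# Prime powers, and polynomials which are not constants times cubes
-/

set_option autoImplicit false
set_option linter.all false

open Polynomial IsDedekindDomain WeierstrassCurve WeierstrassCurve.Affine
open scoped Classical

namespace Pool.Agent.T6.H12.TD

open Pool.Agent.TH115.GD (Pt act incl rs ak pl val_poly IsTower Sep Comp CompInf LocallyTrivial
  LocTriv IsCoc act_some act_inj act_act rs_act_incl act_zero)

/-- `p` has an irreducible factor whose multiplicity is not divisible by three. -/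
def HasFactor3 {k : Type} [Field k] (p : k[X]) : Prop :=
  ∃ (π : k[X]) (m : ℕ), Irreducible π ∧ ¬ 3 ∣ m ∧ π ^ m ∣ p ∧ ¬ π ^ (m + 1) ∣ p

/-- `p` is a constant times a power of an irreducible polynomial, with exponent not divisible by
three. -/
def IsPower3 {k : Type} [Field k] (p : k[X]) : Prop :=
  ∃ (u : k) (π : k[X]) (m : ℕ), Irreducible π ∧ ¬ 3 ∣ m ∧ p = C u * π ^ m

section cc

variable {k k' K F : Type} [Field k] [Field k'] [Algebra k k'] [IsSepClosure k k']
  [Field K] [Algebra k[X] K] [IsFractionRing k[X] K] [Field F] [Algebra k'[X] F]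
  [IsFractionRing k'[X] F] [Algebra K F]
  (hKF : ∀ p : k[X], algebraMap K F (algebraMap k[X] K p) =
    algebraMap k'[X] F (p.map (algebraMap k k')))

omit [Field K] [Algebra k[X] K] [IsFractionRing k[X] K] [Field F] [Algebra k'[X] F]
  [IsFractionRing k'[X] F] [Algebra K F] in
/-- A root of an irreducible separable factor, and its multiplicity. -/
theorem root_mult {π q : k[X]} (hπ : Irreducible π) (hs : π.Separable) {m : ℕ} (hq : q ≠ 0)
    (hd : ¬ π ∣ q) : ∃ θ : k', aeval θ π = 0 ∧
      rootMultiplicity θ ((π ^ m * q).map (algebraMap k k')) = m := by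
  haveI : IsSepClosed k' := IsSepClosure.sep_closed k
  have injk := (algebraMap k k').injective
  have hdeg : (π.map (algebraMap k k')).degree ≠ 0 := by
    rw [degree_map]
    exact (Irreducible.degree_pos hπ).ne'
  obtain ⟨θ, hθ⟩ := IsSepClosed.exists_root _ hdeg (hs.map)
  have hπ0 : π.map (algebraMap k k') ≠ 0 := (Polynomial.map_ne_zero_iff injk).2 hπ.ne_zero
  have hq0 : q.map (algebraMap k k') ≠ 0 := (Polynomial.map_ne_zero_iff injk).2 hq
  have hθ' : aeval θ π = 0 := by
    rw [← eval_map_algebraMap]; exact hθ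
  refine ⟨θ, hθ', ?_⟩
  rw [Polynomial.map_mul, Polynomial.map_pow, rootMultiplicity_mul
    (mul_ne_zero (pow_ne_zero _ hπ0) hq0)]
  have hpw : rootMultiplicity θ (π.map (algebraMap k k') ^ m) =
      m * rootMultiplicity θ (π.map (algebraMap k k')) := by
    rw [← count_roots, roots_pow, Multiset.count_nsmul, count_roots]
  have h1 : rootMultiplicity θ (π.map (algebraMap k k')) = 1 := by
    have h4 : rootMultiplicity θ (π.map (algebraMap k k')) ≤ 1 :=
      rootMultiplicity_le_one_of_separable hs.map θ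
    have h5 : 0 < rootMultiplicity θ (π.map (algebraMap k k')) := (rootMultiplicity_pos hπ0).2 hθ
    omega
  have h2 : rootMultiplicity θ (q.map (algebraMap k k')) = 0 := by
    apply rootMultiplicity_eq_zero
    intro h
    apply hd
    have h3 : aeval θ q = 0 := by
      rw [← eval_map_algebraMap]; exact h
    have e1 := minpoly.eq_of_irreducible hπ hθ'
    have e2 := minpoly.dvd k θ h3
    rw [← e1] at e2
    exact (dvd_mul_right _ _).trans e2
  rw [hpw, h1, h2]
  ring

include hKF in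
theorem notCC_of_factor {p : k[X]} (hp : p ≠ 0)
    (hsep : ∀ π : k[X], Irreducible π → π ∣ p → π.Separable) (h : HasFactor3 p) :
    NotCC k' F (algebraMap k[X] K p) := by
  obtain ⟨π, m, hπ, hm, ⟨q, rfl⟩, hd⟩ := h
  have hq0 : q ≠ 0 := right_ne_zero_of_mul hp
  have hm0 : m ≠ 0 := by
    rintro rfl
    exact hm (dvd_zero 3)
  have hs : π.Separable := hsep π hπ (Dvd.dvd.mul_right (dvd_pow_self π hm0) q)
  have hdq : ¬ π ∣ q := by
    rintro ⟨r, rfl⟩
    apply hd
    exact ⟨r, by ring⟩
  obtain ⟨θ, hθ, hmul⟩ := root_mult (k' := k') (m := m) hπ hs hq0 hdq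
  intro c y e
  have h5 := or3_root (F := F) hKF _ hp θ
  rw [hmul, e] at h5
  have hxF : algebraMap K F (algebraMap k[X] K (π ^ m * q)) ≠ 0 := by
    have : algebraMap k[X] K (π ^ m * q) ≠ 0 := by simpa using hp
    exact (_root_.map_ne_zero _).2 this
  have hc : c ≠ 0 := by
    rintro rfl
    apply hxF
    rw [e]
    unfold cF
    rw [C_0, map_zero, zero_mul]
  have hy : y ≠ 0 := by
    rintro rfl
    apply hxF
    rw [e]
    ring
  rw [or3_mul _ (cF_ne hc) (pow_ne_zero 3 hy), or3_pow_three, or3_of_one _ (cF_val _ hc),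
    zero_add] at h5
  have h6 : ((m : ℕ) : ZMod 3) = 0 := by
    have := h5.symm
    rwa [neg_eq_zero] at this
  rw [ZMod.natCast_eq_zero_iff] at h6
  exact hm h6

include hKF in
theorem notCC_const {p q : k[X]} {c : k} (hc : c ≠ 0) (e : q = C c * p)
    (h : NotCC k' F (algebraMap k[X] K p)) : NotCC k' F (algebraMap k[X] K q) := by
  intro x y hxy
  apply h ((algebraMap k k' c)⁻¹ * x) y
  have hcF : cF F (algebraMap k k' c) ≠ 0 := cF_ne ((_root_.map_ne_zero _).2 hc)
  have e1 : cF F ((algebraMap k k' c)⁻¹ * x) = (cF F (algebraMap k k' c))⁻¹ * cF F x := by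
    rw [eq_inv_mul_iff_mul_eq₀ hcF]
    unfold cF
    rw [← map_mul, ← C_mul, mul_inv_cancel_left₀ ((_root_.map_ne_zero _).2 hc)]
  have e2 : algebraMap K F (algebraMap k[X] K q) =
      cF F (algebraMap k k' c) * algebraMap K F (algebraMap k[X] K p) := by
    rw [e]
    simp only [map_mul]
    congr 1
    unfold cF
    rw [hKF, map_C]
  rw [e1, mul_assoc, ← hxy, e2, inv_mul_cancel_left₀ hcF]

end cc

section enough

variable {k k' K F : Type} [Field k] [Field k'] [Algebra k k'] [IsSepClosure k k']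
  [Field K] [Algebra k[X] K] [IsFractionRing k[X] K] [Field F] [Algebra k'[X] F]
  [IsFractionRing k'[X] F] [Algebra K F]
  (hKF : ∀ p : k[X], algebraMap K F (algebraMap k[X] K p) =
    algebraMap k'[X] F (p.map (algebraMap k k')))
  {W W' W'' : WeierstrassCurve K} {D D' : k} {A p : k[X]} {b D'' b'' : K}
  (h : Isog W.toAffine W'.toAffine (algebraMap k[X] K (C D)) (algebraMap k[X] K A) b
    (algebraMap k[X] K (C D')) (algebraMap k[X] K p))
  (h' : Isog W'.toAffine W''.toAffine (algebraMap k[X] K (C D')) (algebraMap k[X] K A)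
    (algebraMap k[X] K p) D'' b'')

include hKF in
/-- A quotient of powers of the same polynomial is a cube if the exponents are congruent. -/
theorem cube_of_or3 (h3 : (3 : k) ≠ 0) {x y : F} (hx : x ≠ 0) (hy : y ≠ 0)
    (h : ∀ v : HeightOneSpectrum k'[X], or3 v x = or3 v y) : ∃ c : F, c ≠ 0 ∧ x = c ^ 3 * y := by
  haveI : IsSepClosed k' := IsSepClosure.sep_closed k
  have h3' : (3 : k') ≠ 0 := by
    rw [← map_ofNat (algebraMap k k') 3]
    exact (_root_.map_ne_zero _).2 h3
  obtain ⟨c, hc, e⟩ := cube_elem (k' := k') h3' (mul_ne_zero hx (inv_ne_zero hy)) (fun v => by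
    rw [or3_mul v hx (inv_ne_zero hy), or3_inv, h, add_neg_cancel])
  refine ⟨c, hc, ?_⟩
  rw [← e, inv_mul_cancel_right₀ hy]

omit [Field k'] [Algebra k k'] [IsSepClosure k k'] [Field K] [Algebra k[X] K]
  [IsFractionRing k[X] K] [Field F] [Algebra k'[X] F] [IsFractionRing k'[X] F] [Algebra K F] in
/-- Squarefree monic divisors of prime powers. -/
theorem monic_dvd_pow3 {U π : k[X]} {u : k} {m : ℕ} (hu : u ≠ 0) (hπ : Irreducible π)
    (hU : U.Monic) (hs : Squarefree U) (hd : U ∣ C u * π ^ m) :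
    U = 1 ∨ U = C π.leadingCoeff⁻¹ * π := by
  have hCu : IsUnit (C u) := isUnit_C.2 (isUnit_iff_ne_zero.2 hu)
  have h1 : U ∣ π ^ m := (hCu.dvd_mul_left).1 hd
  obtain ⟨i, -, hi⟩ := (dvd_prime_pow hπ.prime m).1 h1
  have hi2 : i ≤ 1 := by
    by_contra hc
    push Not at hc
    have h3 : π * π ∣ U := by
      have : π * π ∣ π ^ i := by
        rw [← pow_two]
        exact pow_dvd_pow π hc
      exact this.trans hi.symm.dvd
    exact hπ.not_isUnit (hs π h3)
  obtain ⟨w, hw⟩ := hi.symm
  obtain ⟨c, hc, hcw⟩ := Polynomial.isUnit_iff.1 w.isUnit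
  rw [← hcw] at hw
  have hlc : (π ^ i * C c).leadingCoeff = 1 := by
    rw [hw]; exact hU
  rw [leadingCoeff_mul, leadingCoeff_pow, leadingCoeff_C] at hlc
  interval_cases i
  · left
    rw [pow_zero, one_mul] at hlc
    rw [← hw, pow_zero, one_mul, hlc, C_1]
  · right
    rw [pow_one] at hlc hw
    rw [← hw, mul_comm, eq_inv_of_mul_eq_one_right hlc]

include hKF h h' in
/-- Prime powers: the points of order three are enough. -/
theorem enough_pow3 (h2 : (2 : k) ≠ 0) (h3 : (3 : k) ≠ 0) (hp : IsPower3 p) (hsq : IsSquare D')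
    {η : k'} (hη : η ^ 2 = algebraMap k k' D') (M : AddSubgroup (Pt W' K)) :
    Enough3 K F W' M (algebraMap k[X] K A) (algebraMap k[X] K p) (cF F η) p := by
  haveI : IsSepClosed k' := IsSepClosure.sep_closed k
  obtain ⟨u, π, m, hπ, hm, hpe⟩ := hp
  have hp0 : algebraMap k[X] K p ≠ 0 := h.E'.neb
  have hp0' : p ≠ 0 := by
    rintro rfl
    exact hp0 (map_zero _)
  have hu : u ≠ 0 := by
    rintro rfl
    rw [C_0, zero_mul] at hpe
    exact hp0' hpe
  have h2' : (2 : k') ≠ 0 := by
    rw [← map_ofNat (algebraMap k k') 2]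
    exact (_root_.map_ne_zero _).2 h2
  have hηF := cF_sq (F := F) hKF hη
  have hη0 : η ≠ 0 := by
    rintro rfl
    have h5 := h.E'.neD
    apply h5
    apply (algebraMap K F).injective
    rw [← hηF, map_zero]
    unfold cF
    rw [C_0, map_zero]
    ring
  have hbF : algebraMap K F (algebraMap k[X] K p) ≠ 0 := (_root_.map_ne_zero _).2 hp0
  -- the square root in `k`
  obtain ⟨r, hr, hrη⟩ : ∃ r : k, r ^ 2 = D' ∧ algebraMap k k' r = η := by
    obtain ⟨r, hr⟩ := hsq
    have h5 : (η - algebraMap k k' r) * (η + algebraMap k k' r) = 0 := by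
      have : algebraMap k k' D' = algebraMap k k' r ^ 2 := by rw [hr, map_mul, pow_two]
      linear_combination hη + this
    rcases mul_eq_zero.1 h5 with h6 | h6
    · exact ⟨r, by rw [hr, pow_two], (sub_eq_zero.1 h6).symm⟩
    · exact ⟨-r, by rw [hr]; ring, by rw [map_neg]; linear_combination -h6⟩
  set ηK := algebraMap k[X] K (C r) with hηK
  have hηKF : algebraMap K F ηK = cF F η := by
    rw [hηK, hKF, map_C, hrη]
    rfl
  have hηK2 : ηK ^ 2 = algebraMap k[X] K (C D') := by
    rw [hηK, ← map_pow, ← C_pow, hr]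
  -- the points
  obtain ⟨⟨n1, hn1, k1⟩, ⟨n2, hn2, k2⟩⟩ := pts_pm (h.bc K) (η := ηK)
    (by rw [hηK2]; rfl) (A := algebraMap K K (algebraMap k[X] K A))
  have hcst : (2 : F) * cF F η = cF F (2 * η) := by
    unfold cF
    rw [C_mul, map_mul, map_ofNat, map_ofNat]
  set B := 2 * cF F η * algebraMap K F (algebraMap k[X] K p) with hB
  have hBne : B ≠ 0 := by
    rw [hB, hcst]
    exact mul_ne_zero (cF_ne (mul_ne_zero h2' hη0)) hbF
  have hkz : ∀ (n : K) (hn : (W'.baseChange K).toAffine.Nonsingular 0 n),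
      kz (cF F η) (algebraMap K F (algebraMap k[X] K A)) (algebraMap K F (algebraMap k[X] K p))
        (act W' (incl K K F) (Point.some 0 n hn)) =
      algebraMap K F (kz ηK (algebraMap k[X] K A) (algebraMap k[X] K p)
        (Point.some 0 n hn : Pt W' K)) := by
    intro n hn
    have e4 := kz_act W' (incl K K F) ηK (algebraMap k[X] K A) (algebraMap k[X] K p)
      (Point.some 0 n hn)
    have g1 : ∀ x : K, incl K K F x = algebraMap K F x := fun x => rfl
    rw [g1, g1, g1, g1, hηKF] at e4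
    exact e4
  have h3P : ∀ (n : K) (hn : (W'.baseChange K).toAffine.Nonsingular 0 n),
      3 • (Point.some 0 n hn : Pt W' K) = 0 := by
    intro n hn
    exact three_ker (h'.bc K) (phi_some0 (h'.bc K) hn rfl)
  have kp : algebraMap K F (kz ηK (algebraMap k[X] K A) (algebraMap k[X] K p)
      (Point.some 0 n1 hn1 : Pt W' K)) = B := by
    have k1' : kz ηK (algebraMap k[X] K A) (algebraMap k[X] K p)
      (Point.some 0 n1 hn1 : Pt W' K) = 2 * ηK * algebraMap k[X] K p := k1
    rw [k1', map_mul, map_mul, map_ofNat, hηKF]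
  have km : algebraMap K F (kz ηK (algebraMap k[X] K A) (algebraMap k[X] K p)
      (Point.some 0 n2 hn2 : Pt W' K)) = -B⁻¹ := by
    have k2' : kz ηK (algebraMap k[X] K A) (algebraMap k[X] K p)
      (Point.some 0 n2 hn2 : Pt W' K) = -(2 * ηK * algebraMap k[X] K p)⁻¹ := k2
    rw [k2', map_neg, map_inv₀, map_mul, map_mul, map_ofNat, hηKF]
  -- orders
  set x := algebraMap K F (algebraMap k[X] K π) with hx
  have hx0 : x ≠ 0 := by
    rw [hx]
    simpa using hπ.ne_zero
  have hcor : ∀ (v : HeightOneSpectrum k'[X]) (c : k), c ≠ 0 →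
      or3 v (algebraMap K F (algebraMap k[X] K (C c))) = 0 ∧
        algebraMap K F (algebraMap k[X] K (C c)) ≠ 0 := by
    intro v c hc
    have e1 : algebraMap K F (algebraMap k[X] K (C c)) = cF F (algebraMap k k' c) := by
      rw [hKF, map_C]
      rfl
    rw [e1]
    exact ⟨or3_of_one v (cF_val v ((_root_.map_ne_zero _).2 hc)),
      cF_ne ((_root_.map_ne_zero _).2 hc)⟩
  have hB3 : ∀ v : HeightOneSpectrum k'[X], or3 v B = m * or3 v x := by
    intro v
    rw [hB, hcst, or3_mul v (cF_ne (mul_ne_zero h2' hη0)) hbF,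
      or3_of_one v (cF_val v (mul_ne_zero h2' hη0)), zero_add]
    have e1 : algebraMap K F (algebraMap k[X] K p) =
        algebraMap K F (algebraMap k[X] K (C u)) * x ^ m := by
      rw [hpe]
      simp only [map_mul, map_pow, hx]
    rw [e1, or3_mul v (hcor v u hu).2 (pow_ne_zero m hx0), (hcor v u hu).1, zero_add, or3_pow]
  have hl : π.leadingCoeff ≠ 0 := leadingCoeff_ne_zero.2 hπ.ne_zero
  -- the key
  have key : ∀ (y : F) (j : ZMod 3), y ≠ 0 →
      (∀ v : HeightOneSpectrum k'[X], or3 v y = j * or3 v x) →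
      ∃ (Q : Pt W' K) (c : F), 3 • Q ∈ M ∧ c ≠ 0 ∧
      y = c ^ 3 * kz (cF F η) (algebraMap K F (algebraMap k[X] K A))
        (algebraMap K F (algebraMap k[X] K p)) (act W' (incl K K F) Q) := by
    intro y j hy hyv
    have hm' : ((m : ℕ) : ZMod 3) ≠ 0 := by
      rw [Ne, ZMod.natCast_eq_zero_iff]
      exact hm
    have hcase : ∀ a b : ZMod 3, a ≠ 0 → b = 0 ∨ b = a ∨ b = -a := by decide
    rcases hcase _ j hm' with rfl | rfl | rfl
    · obtain ⟨c, hc, e⟩ := cube_of_or3 (k := k) hKF h3 hy one_ne_zero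
        (fun v => by rw [hyv, zero_mul, or3_one])
      refine ⟨0, c, by rw [smul_zero]; exact M.zero_mem, hc, ?_⟩
      rw [map_zero]
      exact e
    · obtain ⟨c, hc, e⟩ := cube_of_or3 (k := k) hKF h3 hy hBne (fun v => by rw [hyv, hB3])
      refine ⟨Point.some 0 n1 hn1, c, by rw [h3P]; exact M.zero_mem, hc, ?_⟩
      rw [hkz, kp]
      exact e
    · have hB' : -B⁻¹ ≠ 0 := neg_ne_zero.2 (inv_ne_zero hBne)
      obtain ⟨c, hc, e⟩ := cube_of_or3 (k := k) hKF h3 hy hB' (fun v => by
        rw [hyv, or3_neg, or3_inv, hB3]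
        ring)
      refine ⟨Point.some 0 n2 hn2, c, by rw [h3P]; exact M.zero_mem, hc, ?_⟩
      rw [hkz, km]
      exact e
  have hUor : ∀ U : k[X], (U = 1 ∨ U = C π.leadingCoeff⁻¹ * π) → ∃ j : ZMod 3,
      algebraMap K F (algebraMap k[X] K U) ≠ 0 ∧
      ∀ v : HeightOneSpectrum k'[X], or3 v (algebraMap K F (algebraMap k[X] K U)) = j * or3 v x := by
    intro U hU
    rcases hU with rfl | rfl
    · exact ⟨0, by rw [map_one, map_one]; exact one_ne_zero,
        fun v => by rw [map_one, map_one, or3_one, zero_mul]⟩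
    · refine ⟨1, ?_, fun v => ?_⟩
      · rw [map_mul, map_mul]
        have v0 : HeightOneSpectrum k'[X] := pl 0
        exact mul_ne_zero (hcor v0 _ (inv_ne_zero hl)).2 hx0
      · rw [map_mul, map_mul, or3_mul v (hcor v _ (inv_ne_zero hl)).2 hx0,
          (hcor v _ (inv_ne_zero hl)).1, zero_add, one_mul]
  intro U V hU1 hV1 hU2 hV2 hU3 hV3
  rw [hpe] at hU3 hV3
  obtain ⟨i, hUne, hi⟩ := hUor U (monic_dvd_pow3 hu hπ hU1 hU2 hU3)
  obtain ⟨j, hVne, hj⟩ := hUor V (monic_dvd_pow3 hu hπ hV1 hV2 hV3)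
  refine key _ (i + 2 * j) ?_ ?_
  · rw [map_mul, map_mul, map_pow, map_pow]
    exact mul_ne_zero hUne (pow_ne_zero 2 hVne)
  · intro v
    rw [map_mul, map_mul, map_pow, map_pow, or3_mul v hUne (pow_ne_zero 2 hVne), or3_pow, hi, hj]
    push_cast
    ring

end enough

end Pool.Agent.T6.H12.TD
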