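import Pool.Agent.T6.H12.TD.Points3

/-!
# Independence of points
-/

set_option autoImplicit false
set_option linter.all false

open Polynomial IsDedekindDomain WeierstrassCurve WeierstrassCurve.Affine
open scoped Classical

namespace Pool.Agent.T6.H12.TD

open Pool.Agent.TH115.GD (Pt act incl rs ak pl val_poly IsTower Sep Comp CompInf LocallyTrivial
  LocTriv IsCoc act_some act_inj act_act rs_act_incl act_zero)

section isog

variable {k K : Type} [Field k] [Field K] [Algebra k[X] K] [IsFractionRing k[X] K]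

/-- The isogeny onto the curve. -/
theorem isog_to (h2 : (2 : k) ≠ 0) (h3 : (3 : k) ≠ 0) {D : k} {A b : k[X]} (hD : D ≠ 0)
    (hb : b ≠ 0) (hd : b - 4 * C D * A ^ 3 ≠ 0) :
    Isog (crvP K (-3⁻¹ * D) A (C 3⁻¹ * (b - 4 * C D * A ^ 3))).toAffine (crvP K D A b).toAffine
      (algebraMap k[X] K (C (-3⁻¹ * D))) (algebraMap k[X] K A)
      (algebraMap k[X] K (C 3⁻¹ * (b - 4 * C D * A ^ 3))) (algebraMap k[X] K (C D))
      (algebraMap k[X] K b) := by
  have h3i : (3 : k)⁻¹ ≠ 0 := inv_ne_zero h3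
  have eD : -3 * (-3⁻¹ * D) = D := by field_simp
  have hC : (C (3 : k)) * C (3⁻¹ : k) = 1 := by
    rw [← C_mul, mul_inv_cancel₀ h3, C_1]
  have hC4 : C (3⁻¹ : k) * (b - 4 * C D * A ^ 3) - 4 * C (-3⁻¹ * D) * A ^ 3 = C 3⁻¹ * b := by
    rw [C_mul, C_neg]
    ring
  have eb : nb (-3⁻¹ * D) A (C 3⁻¹ * (b - 4 * C D * A ^ 3)) = b := by
    rw [nb_eq, hC4, ← mul_assoc, hC, one_mul]
  have h := isogP (K := K) h2 h3 (D := -3⁻¹ * D) (A := A) (b := C 3⁻¹ * (b - 4 * C D * A ^ 3))
    (mul_ne_zero (neg_ne_zero.2 h3i) hD) (mul_ne_zero (C_ne_zero.2 h3i) hd)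
    (by rw [hC4]; exact mul_ne_zero (C_ne_zero.2 h3i) hb)
  rw [eD, eb] at h
  exact h

end isog

section eps

variable {k k' K F : Type} [Field k] [Field k'] [Algebra k k'] [IsSepClosure k k']
  [Field K] [Algebra k[X] K] [IsFractionRing k[X] K] [Field F] [Algebra k'[X] F]
  [IsFractionRing k'[X] F] [Algebra K F]
  (hKF : ∀ p : k[X], algebraMap K F (algebraMap k[X] K p) =
    algebraMap k'[X] F (p.map (algebraMap k k')))

/-- The Kummer class at the place `v`, for the curve with `D = 1`. -/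
noncomputable def epsF (K : Type) {k k' F : Type} [Field k] [Field k'] [Field K] [Algebra k[X] K]
    [Field F] [Algebra k'[X] F] [IsFractionRing k'[X] F] [Algebra K F] (A b : k[X])
    (v : HeightOneSpectrum k'[X]) (Q : Pt (crvP K 1 A b) K) : ZMod 3 :=
  or3 v (kz (1 : F) (algebraMap K F (algebraMap k[X] K A)) (algebraMap K F (algebraMap k[X] K b))
    (act (crvP K 1 A b) (incl K K F) Q))

omit [Algebra k k'] [IsSepClosure k k'] [IsFractionRing k[X] K] in
theorem kz_incl {A b : k[X]} (Q : Pt (crvP K 1 A b) K) :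
    kz (1 : F) (algebraMap K F (algebraMap k[X] K A)) (algebraMap K F (algebraMap k[X] K b))
      (act (crvP K 1 A b) (incl K K F) Q) =
    algebraMap K F (kz (1 : K) (algebraMap k[X] K A) (algebraMap k[X] K b) Q) := by
  have e4 := kz_act (crvP K 1 A b) (incl K K F) (1 : K) (algebraMap k[X] K A)
    (algebraMap k[X] K b) Q
  have g1 : ∀ x : K, incl K K F x = algebraMap K F x := fun x => rfl
  rw [g1, g1, g1, g1, map_one] at e4
  exact e4

include hKF in
theorem epsF_add (h2 : (2 : k) ≠ 0) (h3 : (3 : k) ≠ 0) {A b : k[X]} (hb : b ≠ 0)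
    (hd : b - 4 * A ^ 3 ≠ 0) (v : HeightOneSpectrum k'[X]) (Q1 Q2 : Pt (crvP K 1 A b) K) :
    epsF (F := F) K A b v (Q1 + Q2) = epsF (F := F) K A b v Q1 + epsF (F := F) K A b v Q2 := by
  haveI : IsSepClosed k' := IsSepClosure.sep_closed k
  have h2' : (2 : k') ≠ 0 := by
    rw [← map_ofNat (algebraMap k k') 2]
    exact (_root_.map_ne_zero _).2 h2
  haveI : NeZero ((2 : ℕ) : k') := ⟨by exact_mod_cast h2'⟩
  obtain ⟨δ, hδ⟩ := IsSepClosed.exists_pow_nat_eq (algebraMap k k' (-3⁻¹ * 1)) 2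
  have i := isog_to (K := K) h2 h3 (D := 1) (A := A) one_ne_zero hb
    (by rw [C_1, mul_one]; exact hd)
  have hη : (1 : F) ^ 2 = algebraMap K F (algebraMap k[X] K (C 1)) := by
    rw [C_1, map_one, map_one, one_pow]
  obtain ⟨c, hc, e⟩ := kz_add (Sep F) i hη (cF_sq hKF hδ)
    (act (crvP K 1 A b) (incl K K F) Q1) (act (crvP K 1 A b) (incl K K F) Q2)
  have hη1 : (1 : F) ^ 2 = algebraMap K F (algebraMap k[X] K (C 1)) := hη
  have n1 := kz_ne (i.bc F) hη1 (act (crvP K 1 A b) (incl K K F) Q1)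
  have n2 := kz_ne (i.bc F) hη1 (act (crvP K 1 A b) (incl K K F) Q2)
  unfold epsF
  rw [map_add, e, or3_mul v (pow_ne_zero 3 hc) (mul_ne_zero n1 n2), or3_pow_three, zero_add,
    or3_mul v n1 n2]

include hKF in
theorem epsF_zsmul (h2 : (2 : k) ≠ 0) (h3 : (3 : k) ≠ 0) {A b : k[X]} (hb : b ≠ 0)
    (hd : b - 4 * A ^ 3 ≠ 0) (v : HeightOneSpectrum k'[X]) (n : ℤ) (Q : Pt (crvP K 1 A b) K) :
    epsF (F := F) K A b v (n • Q) = n * epsF (F := F) K A b v Q := by
  have h := map_zsmul (AddMonoidHom.mk' (epsF (F := F) K A b v)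
    (epsF_add hKF h2 h3 hb hd v)) n Q
  rw [AddMonoidHom.mk'_apply] at h
  rw [h, zsmul_eq_mul]

include hKF in
/-- The classes of torsion points. -/
theorem epsF_tors (h2 : (2 : k) ≠ 0) (h3 : (3 : k) ≠ 0) {A b : k[X]} (hb : b ≠ 0)
    (hd : b - 4 * A ^ 3 ≠ 0)
    (sepb : ∀ π : k[X], Irreducible π → π ∣ b → π.Separable)
    (sepd : ∀ π : k[X], Irreducible π → π ∣ b - 4 * A ^ 3 → π.Separable)
    (fb : HasFactor3 b) (fd : HasFactor3 (b - 4 * A ^ 3)) {m : ℕ} {Q : Pt (crvP K 1 A b) K}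
    (hQ : 3 ^ m • Q = 0) : ∃ j : ZMod 3, ∀ v : HeightOneSpectrum k'[X],
      epsF (F := F) K A b v Q = j * or3 v (algebraMap K F (algebraMap k[X] K b)) := by
  haveI : IsSepClosed k' := IsSepClosure.sep_closed k
  have h9 : (9 : k) ≠ 0 := by
    have : (9 : k) = 3 * 3 := by norm_num
    rw [this]; exact mul_ne_zero h3 h3
  have h2' : (2 : k') ≠ 0 := by
    rw [← map_ofNat (algebraMap k k') 2]
    exact (_root_.map_ne_zero _).2 h2
  have hd' : b - 4 * C 1 * A ^ 3 ≠ 0 := by rw [C_1, mul_one]; exact hd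
  have hD1 : (-3 * 1 : k) ≠ 0 := mul_ne_zero (neg_ne_zero.2 h3) one_ne_zero
  have hD2 : (-3 * (-3 * 1) : k) ≠ 0 := mul_ne_zero (neg_ne_zero.2 h3) hD1
  have e1 : nb 1 A b = C 3 * (b - 4 * A ^ 3) := by rw [nb_eq, C_1, mul_one]
  have e2 : nb (-3 * 1) A (nb 1 A b) = C 9 * b := nb_nb 1 A b
  have e3 : nb (-3 * (-3 * 1)) A (nb (-3 * 1) A (nb 1 A b)) = C 9 * (C 3 * (b - 4 * A ^ 3)) := by
    rw [nb_nb, e1]
  have n1 : nb 1 A b ≠ 0 := by rw [e1]; exact mul_ne_zero (C_ne_zero.2 h3) hd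
  have n2 : nb (-3 * 1) A (nb 1 A b) ≠ 0 := by rw [e2]; exact mul_ne_zero (C_ne_zero.2 h9) hb
  have n3 : nb (-3 * (-3 * 1)) A (nb (-3 * 1) A (nb 1 A b)) ≠ 0 := by
    rw [e3]; exact mul_ne_zero (C_ne_zero.2 h9) (mul_ne_zero (C_ne_zero.2 h3) hd)
  have of_nb : ∀ {D : k} {A b : k[X]}, nb D A b ≠ 0 → b - 4 * C D * A ^ 3 ≠ 0 := by
    intro D A b h h'
    apply h
    unfold nb
    rw [h', mul_zero]
  have i0 := isogP (K := K) h2 h3 one_ne_zero hb hd'
  have i1 := isogP (K := K) h2 h3 hD1 n1 (of_nb n2)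
  have i2 := isogP (K := K) h2 h3 hD2 n2 (of_nb n3)
  have ccb : NotCC k' F (algebraMap k[X] K b) := notCC_of_factor hKF hb sepb fb
  have ccd : NotCC k' F (algebraMap k[X] K (b - 4 * A ^ 3)) :=
    notCC_of_factor hKF hd sepd fd
  have hfix : ∀ σ : Sep F ≃ₐ[F] Sep F, act (crvP K 1 A b) (rs K σ)
      (act (crvP K 1 A b) (incl K K (Sep F)) Q) = act (crvP K 1 A b) (incl K K (Sep F)) Q := by
    intro σ
    have h5 := rs_act_incl (K := K) (F := F) (Ω := Sep F) (crvP K 1 A b) σ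
      (act (crvP K 1 A b) (incl K K F) Q)
    have h6 : act (crvP K 1 A b) (incl K F (Sep F)) (act (crvP K 1 A b) (incl K K F) Q) =
        act (crvP K 1 A b) (incl K K (Sep F)) Q := by
      rw [act_act]
      congr 1
    rw [h6] at h5
    exact h5
  have ht := tors_three hKF i0 i1 i2 h2 (notCC_const hKF h3 e1 ccd)
    (notCC_const hKF h9 e2 ccb) m (act (crvP K 1 A b) (incl K K (Sep F)) Q) hfix
    (by rw [← map_nsmul, hQ, map_zero])
  have hbK : algebraMap k[X] K b ≠ 0 := by simpa using hb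
  have hbF : algebraMap K F (algebraMap k[X] K b) ≠ 0 := (_root_.map_ne_zero _).2 hbK
  have h2F : (2 : F) = cF F (2 : k') := by
    unfold cF
    rw [map_ofNat, map_ofNat]
  have h2v : ∀ v : HeightOneSpectrum k'[X], or3 v (2 : F) = 0 := fun v => by
    rw [h2F]
    exact or3_of_one v (cF_val v h2')
  have h2F0 : (2 : F) ≠ 0 := by rw [h2F]; exact cF_ne h2'
  have hor2 : ∀ v : HeightOneSpectrum k'[X],
      or3 v (2 * algebraMap K F (algebraMap k[X] K b)) =
        or3 v (algebraMap K F (algebraMap k[X] K b)) := fun v => by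
    rw [or3_mul v h2F0 hbF, h2v, zero_add]
  rcases ht with h0 | ⟨n, hn, h0⟩
  · have hQ0 : Q = 0 := by
      apply act_inj (crvP K 1 A b) (incl K K (Sep F))
      rw [h0, map_zero]
    refine ⟨0, fun v => ?_⟩
    rw [hQ0, zero_mul]
    unfold epsF
    rw [map_zero]
    exact or3_one v
  · -- the point has `x = 0`
    rcases Q with _ | ⟨x, y, hxy⟩
    · exfalso
      have h5 : act (crvP K 1 A b) (incl K K (Sep F)) (Point.zero : Pt (crvP K 1 A b) K) = 0 :=
        map_zero _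
      rw [h5] at h0
      exact (Point.some_ne_zero _) h0.symm
    · obtain ⟨hh, hh2⟩ := act_some (crvP K 1 A b) (incl K K (Sep F)) hxy
      rw [hh2] at h0
      have hx : incl K K (Sep F) x = 0 := by
        injection h0
      have hx0 : x = 0 := (_root_.map_eq_zero (incl K K (Sep F))).1 hx
      subst hx0
      have hE := (i0.bc K).E
      have heq : y ^ 2 = (0 : K) ^ 3 + algebraMap k[X] K (C 1) *
        (3 * algebraMap k[X] K A * 0 + algebraMap k[X] K b) ^ 2 := (hE.nonsingular).1 hxy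
      rw [C_1, map_one] at heq
      have h5 : (y - algebraMap k[X] K b) * (y + algebraMap k[X] K b) = 0 := by
        linear_combination heq
      rcases mul_eq_zero.1 h5 with h6 | h6
      · have hy : y = algebraMap k[X] K b := sub_eq_zero.1 h6
        refine ⟨1, fun v => ?_⟩
        unfold epsF
        rw [kz_incl]
        have h2K : (2 : K) ≠ 0 := i0.E'.two
        have h7 : y + 1 * (3 * algebraMap k[X] K A * 0 + algebraMap k[X] K b) =
            2 * algebraMap k[X] K b := by rw [hy]; ring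
        simp only [kz]
        rw [h7, if_neg (mul_ne_zero h2K hbK), map_mul, map_ofNat, hor2, one_mul]
      · have hy : y = -algebraMap k[X] K b := eq_neg_of_add_eq_zero_left h6
        refine ⟨-1, fun v => ?_⟩
        unfold epsF
        rw [kz_incl]
        have h7 : y + 1 * (3 * algebraMap k[X] K A * 0 + algebraMap k[X] K b) = 0 := by
          rw [hy]; ring
        simp only [kz]
        rw [h7, if_pos rfl, mul_one, map_neg, map_inv₀, map_mul, map_ofNat, or3_neg, or3_inv, hor2]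
        ring

end eps

end Pool.Agent.T6.H12.TD
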