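import Pool.Agent.T6.H12.TD.Glob3

/-!
# Rigidity over finite fields
-/

set_option autoImplicit false
set_option linter.all false

open Polynomial IntermediateField
open scoped Classical

namespace Pool.Agent.T6.H12.TD

section fin

variable {k k' : Type} [Field k] [Finite k] [Field k'] [Algebra k k'] [IsSepClosure k k']

/-- Conjugate elements over a finite field are conjugate by powers of the Frobenius. -/
theorem exists_frob_pow [Fintype k] [Algebra.IsAlgebraic k k'] {π : k[X]} (hπ : Irreducible π)
    {θ θ' : k'} (h : aeval θ π = 0) (h' : aeval θ' π = 0) :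
    ∃ i : ℕ, θ' = θ ^ (Fintype.card k ^ i) := by
  haveI : IsGalois k k' := inferInstance
  have hm1 : minpoly k θ' = minpoly k θ := by
    rw [← minpoly.eq_of_irreducible hπ h, ← minpoly.eq_of_irreducible hπ h']
  have hconj : IsConjRoot k θ' θ := hm1
  obtain ⟨σ, hσ⟩ := (isConjRoot_iff_exists_algEquiv).1 hconj
  have hint : IsIntegral k θ := Algebra.IsIntegral.isIntegral θ
  haveI : FiniteDimensional k k⟮θ⟯ := IntermediateField.adjoin.finiteDimensional hint
  haveI : Finite k⟮θ⟯ := Module.finite_of_finite k
  haveI : Fintype k⟮θ⟯ := Fintype.ofFinite _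
  haveI : IsGalois k k⟮θ⟯ := inferInstance
  obtain ⟨i, hi⟩ := (FiniteField.bijective_frobeniusAlgEquivOfAlgebraic_pow k k⟮θ⟯).2
    (σ.restrictNormal k⟮θ⟯)
  refine ⟨i.1, ?_⟩
  have h1 := AlgEquiv.restrictNormal_commutes σ k⟮θ⟯ (AdjoinSimple.gen k θ)
  have h2 : algebraMap k⟮θ⟯ k' (AdjoinSimple.gen k θ) = θ := AdjoinSimple.algebraMap_gen k θ
  rw [← hi, h2, hσ] at h1
  rw [← h1]
  have h3 : ((FiniteField.frobeniusAlgEquivOfAlgebraic k k⟮θ⟯) ^ i.1) (AdjoinSimple.gen k θ) =
      (AdjoinSimple.gen k θ) ^ (Fintype.card k ^ i.1) := by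
    rw [AlgEquiv.coe_pow, FiniteField.coe_frobeniusAlgEquivOfAlgebraic_iterate]
  show algebraMap k⟮θ⟯ k' (((FiniteField.frobeniusAlgEquivOfAlgebraic k k⟮θ⟯) ^ i.1)
    (AdjoinSimple.gen k θ)) = _
  rw [h3, map_pow, h2]

/-- The powers of the Frobenius on the roots of an irreducible polynomial. -/
theorem frob_deg [Fintype k] [Algebra.IsAlgebraic k k'] {π : k[X]} (hπ : Irreducible π)
    {θ : k'} (h : aeval θ π = 0) : θ ^ (Fintype.card k ^ π.natDegree) = θ := by
  have hint : IsIntegral k θ := Algebra.IsIntegral.isIntegral θ
  haveI : FiniteDimensional k k⟮θ⟯ := IntermediateField.adjoin.finiteDimensional hint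
  haveI : Finite k⟮θ⟯ := Module.finite_of_finite k
  haveI : Fintype k⟮θ⟯ := Fintype.ofFinite _
  have h1 : Module.finrank k k⟮θ⟯ = π.natDegree := by
    rw [IntermediateField.adjoin.finrank hint, ← minpoly.eq_of_irreducible hπ h,
      natDegree_mul_C]
    exact inv_ne_zero (leadingCoeff_ne_zero.2 hπ.ne_zero)
  have h2 : Fintype.card k⟮θ⟯ = Fintype.card k ^ π.natDegree := by
    rw [← h1]
    exact Module.card_eq_pow_finrank
  have h3 := FiniteField.pow_card (AdjoinSimple.gen k θ)
  rw [h2] at h3
  have h4 := congrArg (algebraMap k⟮θ⟯ k') h3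
  rw [map_pow, AdjoinSimple.algebraMap_gen] at h4
  exact h4

/-- **Rigidity over finite fields.** -/
theorem rigid_fin (h20 : (2 : k) ≠ 0) {Δ : k} (hΔ : Δ ≠ 0) {π : k[X]} (hπ : Irreducible π)
    (h1 : IsSquare Δ → ¬ 3 ∣ π.natDegree) (h2 : ¬ IsSquare Δ → Odd π.natDegree) :
    Rigid3 k' Δ π := by
  haveI : Fintype k := Fintype.ofFinite _
  haveI : IsGalois k k' := inferInstance
  haveI : Algebra.IsAlgebraic k k' := inferInstance
  intro η hη e he
  let s : k' ≃ₐ[k] k' := FiniteField.frobeniusAlgEquivOfAlgebraic k k'
  have hs : ∀ x : k', s x = x ^ Fintype.card k := fun x => rfl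
  have hsi : ∀ (i : ℕ) (x : k'), s^[i] x = x ^ (Fintype.card k ^ i) := by
    intro i x
    have := FiniteField.coe_frobeniusAlgEquivOfAlgebraic_iterate k k' i
    exact congrFun this x
  have hroot : ∀ θ : k', aeval θ π = 0 → aeval (s θ) π = 0 := by
    intro θ h
    have h5 : aeval (s θ) π = s (aeval θ π) := Polynomial.aeval_algHom_apply s.toAlgHom θ π
    rw [h5, h, map_zero]
  have hrooti : ∀ (i : ℕ) (θ : k'), aeval θ π = 0 → aeval (s^[i] θ) π = 0 := by
    intro i
    induction i with
    | zero => intro θ h; exact h
    | succ i ih =>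
      intro θ h
      rw [Function.iterate_succ_apply']
      exact hroot _ (ih θ h)
  obtain ⟨j, hj⟩ := he s
  -- the function is invariant under the Frobenius
  have key : ∀ θ : k', aeval θ π = 0 → e (s θ) = e θ := by
    intro θ hθ
    have hn : s^[π.natDegree] θ = θ := by rw [hsi, frob_deg hπ hθ]
    rcases hj with ⟨c1, c2⟩ | ⟨c1, c2⟩
    · -- translations
      have hsq : IsSquare Δ := by
        by_contra hns
        -- the square root is fixed by the Frobenius
        have hfix : η ^ Fintype.card k = η := by rw [← hs]; exact c1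
        apply hns
        have hmem : η ∈ Set.range (algebraMap k k') := by
          rw [InfiniteGalois.mem_range_algebraMap_iff_fixed]
          intro σ
          have hint : IsIntegral k η := Algebra.IsIntegral.isIntegral η
          obtain ⟨i, hi⟩ := exists_frob_pow (minpoly.irreducible hint) (minpoly.aeval k η)
            (θ' := σ η) (by
              have h5 : aeval (σ η) (minpoly k η) = σ (aeval η (minpoly k η)) :=
                Polynomial.aeval_algHom_apply σ.toAlgHom η _
              rw [h5, minpoly.aeval, map_zero])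
          have hpow : ∀ i : ℕ, η ^ (Fintype.card k ^ i) = η := by
            intro i
            induction i with
            | zero => rw [pow_zero, pow_one]
            | succ i ih => rw [pow_succ, pow_mul, ih, hfix]
          rw [hi, hpow]
        obtain ⟨r, rfl⟩ := hmem
        refine ⟨r, ?_⟩
        apply (algebraMap k k').injective
        rw [← hη, map_mul, pow_two]
      have h3 := h1 hsq
      have hit : ∀ i : ℕ, e θ = e (s^[i] θ) + i * j := by
        intro i
        induction i with
        | zero => simp
        | succ i ih =>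
          rw [ih, c2 _ (hrooti i θ hθ), Function.iterate_succ_apply']
          push_cast
          ring
      have h4 := hit π.natDegree
      rw [hn] at h4
      have h5 : (π.natDegree : ZMod 3) * j = 0 := by
        have := left_eq_add.1 h4
        exact this
      have hne : (π.natDegree : ZMod 3) ≠ 0 := by
        rw [Ne, ZMod.natCast_eq_zero_iff]
        exact h3
      have hj0 : j = 0 := by
        have : ∀ a b : ZMod 3, a * b = 0 → a ≠ 0 → b = 0 := by decide
        exact this _ _ h5 hne
      have h6 := c2 θ hθ
      rw [hj0, add_zero] at h6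
      exact h6.symm
    · -- reflections
      have hns : ¬ IsSquare Δ := by
        rintro ⟨r, hr⟩
        have h5 : (η - algebraMap k k' r) * (η + algebraMap k k' r) = 0 := by
          have : algebraMap k k' Δ = algebraMap k k' r ^ 2 := by rw [hr, map_mul, pow_two]
          linear_combination hη + this
        have h6 : s η = η := by
          rcases mul_eq_zero.1 h5 with h6 | h6
          · rw [sub_eq_zero.1 h6]; exact s.commutes r
          · rw [eq_neg_of_add_eq_zero_left h6, map_neg]
            congr 1
            exact s.commutes r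
        rw [h6] at c1
        have h7 : (2 : k') * η = 0 := by linear_combination c1
        have h8 : (2 : k') ≠ 0 := by
          rw [← map_ofNat (algebraMap k k') 2]
          exact (_root_.map_ne_zero _).2 h20
        have h9 : η = 0 := (mul_eq_zero.1 h7).resolve_left h8
        rw [h9] at hη
        apply hΔ
        apply (algebraMap k k').injective
        rw [← hη, map_zero]
        ring
      obtain ⟨m, hm⟩ := h2 hns
      have hit : ∀ (i : ℕ) (θ : k'), aeval θ π = 0 → e (s^[2 * i] θ) = e θ := by
        intro i
        induction i with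
        | zero => intro θ _; rfl
        | succ i ih =>
          intro θ hθ
          have h3 : 2 * (i + 1) = 2 * i + 1 + 1 := by ring
          rw [h3, Function.iterate_succ_apply, Function.iterate_succ_apply,
            ih _ (hroot _ (hroot _ hθ))]
          have h4 := c2 _ hθ
          have h5 := c2 _ (hroot _ hθ)
          rw [h4, h5]
          ring
      rw [hm] at hn
      have hn' : s^[2 * m] (s θ) = θ := hn
      have h6 := hit m _ (hroot θ hθ)
      rw [hn'] at h6
      exact h6.symm
  intro θ θ' hθ hθ'
  obtain ⟨i, hi⟩ := exists_frob_pow hπ hθ hθ'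
  rw [hi, ← hsi]
  have hit : ∀ i : ℕ, e (s^[i] θ) = e θ := by
    intro i
    induction i with
    | zero => rfl
    | succ i ih => rw [Function.iterate_succ_apply', key _ (hrooti i θ hθ), ih]
  exact (hit i).symm

end fin

end Pool.Agent.T6.H12.TD
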