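import Pool.Agent.T6.H12.TD.Crit3
import Pool.Agent.T6.H12.TD.RigidFin

/-!
# Rank zero over finite fields
-/

set_option autoImplicit false
set_option linter.all false

open Polynomial IsDedekindDomain WeierstrassCurve WeierstrassCurve.Affine
open scoped Classical

namespace Pool.Agent.T6.H12.TD

open Pool.Agent.TH115.GD (Pt act incl rs ak pl val_poly IsTower Sep Comp CompInf LocallyTrivial
  LocTriv IsCoc act_some act_inj act_act rs_act_incl act_zero)

/-- The conditions on a pair `(D, p)` over a finite field: `p` has an irreducible factor whose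
multiplicity is not divisible by three; if `D` is not a square, all the irreducible factors of `p`
have odd degree; if `D` is a square, `p` is a constant times a power `π ^ m` of an irreducible
polynomial, where `m` and the degree of `π` are not divisible by three. -/
def Side {k : Type} [Field k] (D : k) (p : k[X]) : Prop :=
  HasFactor3 p ∧
    (¬ IsSquare D → ∀ π : k[X], Irreducible π → π ∣ p → Odd π.natDegree) ∧
    (IsSquare D → ∃ (u : k) (π : k[X]) (m : ℕ), Irreducible π ∧ ¬ 3 ∣ m ∧ ¬ 3 ∣ π.natDegree ∧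
      p = C u * π ^ m)

section fin

variable {k k' K F : Type} [Field k] [Finite k] [Field k'] [Algebra k k'] [Field K]
  [Algebra k[X] K] [Field F] [Algebra k'[X] F] [IsFractionRing k'[X] F] [Algebra K F]

theorem Side.rigid (hs : IsSepClosure k k') (h2 : (2 : k) ≠ 0) {D : k} (hD : D ≠ 0) {p : k[X]}
    (hp : p ≠ 0) (h : Side D p) (π : k[X]) (hπ : Irreducible π) (hd : π ∣ p) :
    Rigid3 k' D π := by
  obtain ⟨-, h1, h4⟩ := h
  refine rigid_fin h2 hD hπ (fun hsq => ?_) (fun hsq => h1 hsq π hπ hd)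
  obtain ⟨u, ρ, m, hρ, -, hdeg, rfl⟩ := h4 hsq
  have hu : u ≠ 0 := by
    rintro rfl
    exact hp (by rw [C_0, zero_mul])
  have h5 : π ∣ ρ := hπ.prime.dvd_of_dvd_pow (dvd_const hu hd)
  have h6 : Associated π ρ := hπ.associated_of_dvd hρ h5
  rw [natDegree_eq_of_degree_eq (degree_eq_degree_of_associated h6)]
  exact hdeg

/-- **The rank zero theorem over finite fields.** -/
theorem fin_zero (hT : IsTower k k' K F) (h6 : (6 : k) ≠ 0) {D : k} (hD : D ≠ 0) {A b : k[X]}
    (hb0 : b ≠ 0) (hd0 : b - 4 * C D * A ^ 3 ≠ 0)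
    (hb : Side D b) (hd : Side (-3 * D) (b - 4 * C D * A ^ 3)) :
    SpannedAtThree (F := F) k' (crvP K D A b) ⊥ := by
  have h2 : (2 : k) ≠ 0 := fun e => h6 (by linear_combination 3 * e)
  have h3 : (3 : k) ≠ 0 := fun e => h6 (by linear_combination 2 * e)
  haveI := hT.sep
  haveI : PerfectField k := inferInstance
  refine crit_zero hT h2 h3 hD hb0 hd0 (fun π hπ _ => PerfectField.separable_of_irreducible hπ)
    (fun π hπ hd' => hb.rigid hT.sep h2 hD hb0 π hπ hd')
    (fun π hπ hd' => hd.rigid hT.sep h2 (mul_ne_zero (neg_ne_zero.2 h3) hD) hd0 π hπ hd')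
    hb.1 hd.1 (fun hs => ?_) (fun hs => ?_)
  · obtain ⟨u, π, m, h4, h5, -, h7⟩ := hb.2.2 hs
    exact ⟨u, π, m, h4, h5, h7⟩
  · obtain ⟨u, π, m, h4, h5, -, h7⟩ := hd.2.2 hs
    exact ⟨u, π, m, h4, h5, h7⟩

end fin

end Pool.Agent.T6.H12.TD
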