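import Pool.Agent.T6.H12.TD.Val3
import Pool.Agent.TH115.GD.Crit

/-!
# The global step modulo three
-/

set_option autoImplicit false
set_option linter.all false

open Polynomial IsDedekindDomain WeierstrassCurve WeierstrassCurve.Affine
open scoped Classical

namespace Pool.Agent.T6.H12.TD

open Pool.Agent.TH115.GD (Pt act incl rs ak pl val_poly desc exists_root_of_mem splits_of_sep)

/-- Every function with values in `ℤ/3` on the roots of `ρ` in a separable closure, on which the
elements `s` of the Galois group act by the maps `c ↦ ± c - j` (with the sign of the action of `s`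
on a square root of `Δ`), is constant. -/
def Rigid3 {k : Type} (k' : Type) [Field k] [Field k'] [Algebra k k'] (Δ : k) (ρ : k[X]) : Prop :=
  ∀ (η : k'), η ^ 2 = algebraMap k k' Δ → ∀ e : k' → ZMod 3,
    (∀ s : k' ≃ₐ[k] k', ∃ j : ZMod 3,
      (s η = η ∧ ∀ θ, aeval θ ρ = 0 → e θ = e (s θ) + j) ∨
      (s η = -η ∧ ∀ θ, aeval θ ρ = 0 → e θ = -(e (s θ) + j))) →
    ∀ θ θ', aeval θ ρ = 0 → aeval θ' ρ = 0 → e θ = e θ'

section glob

variable {k k' K F : Type} [Field k] [Field k'] [Algebra k k'] [IsSepClosure k k']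
  [Field K] [Algebra k[X] K] [Field F] [Algebra k'[X] F]
  [IsFractionRing k'[X] F] [Algebra K F]
  (hKF : ∀ p : k[X], algebraMap K F (algebraMap k[X] K p) =
    algebraMap k'[X] F (p.map (algebraMap k k')))

include hKF in
theorem or3_root (p : k[X]) (hp : p ≠ 0) (θ : k') :
    or3 (pl θ) (algebraMap K F (algebraMap k[X] K p)) =
      -(rootMultiplicity θ (p.map (algebraMap k k')) : ZMod 3) := by
  rw [hKF, or3_poly θ ((Polynomial.map_ne_zero_iff (algebraMap k k').injective).2 hp)]

include hKF in
theorem or3_out (v : HeightOneSpectrum k'[X]) (p : k[X])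
    (h : p.map (algebraMap k k') ∉ v.asIdeal) :
    or3 v (algebraMap K F (algebraMap k[X] K p)) = 0 := by
  apply or3_of_one
  rw [hKF, v.valuation_of_algebraMap, HeightOneSpectrum.intValuation_eq_one_iff]
  exact h

theorem mult_gal (p : k[X]) (s : k' ≃ₐ[k] k') (θ : k') :
    rootMultiplicity (s θ) (p.map (algebraMap k k')) =
      rootMultiplicity θ (p.map (algebraMap k k')) := by
  have hinj : Function.Injective (s : k' →+* k') := s.injective
  have h1 := eq_rootMultiplicity_map (p := p.map (algebraMap k k')) hinj θ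
  have h2 : (p.map (algebraMap k k')).map (s : k' →+* k') = p.map (algebraMap k k') := by
    rw [Polynomial.map_map]
    congr 1
    ext x
    exact s.commutes x
  rw [h2] at h1
  exact h1.symm

/-- An irreducible factor which vanishes at a root. -/
theorem exists_factor {p : k[X]} (hp : p ≠ 0) {θ : k'} (h : aeval θ p = 0) :
    ∃ π : k[X], Irreducible π ∧ π ∣ p ∧ aeval θ π = 0 := by
  have hint : IsIntegral k θ := by
    have : IsAlgebraic k θ := ⟨p, hp, h⟩
    exact this.isIntegral
  exact ⟨minpoly k θ, minpoly.irreducible hint, minpoly.dvd k θ h, minpoly.aeval k θ⟩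

include hKF in
/-- The two cases of the global step. -/
theorem global3 (h3 : (3 : k) ≠ 0) {Δ : k} {p : k[X]} (hp : p ≠ 0)
    (hsep : ∀ π : k[X], Irreducible π → π ∣ p → π.Separable)
    (hrig : ∀ π : k[X], Irreducible π → π ∣ p → Rigid3 k' Δ π)
    {η : k'} (hη : η ^ 2 = algebraMap k k' Δ) {a : F} (ha : a ≠ 0)
    (hloc : ∀ v : HeightOneSpectrum k'[X], p.map (algebraMap k k') ∉ v.asIdeal → or3 v a = 0)
    (hgal : ∀ s : k' ≃ₐ[k] k', ∃ j : ZMod 3,
      (s η = η ∧ ∀ θ, or3 (pl θ) a = or3 (pl (s θ)) a +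
        j * or3 (pl (s θ)) (algebraMap K F (algebraMap k[X] K p))) ∨
      (s η = -η ∧ ∀ θ, or3 (pl θ) a = -(or3 (pl (s θ)) a +
        j * or3 (pl (s θ)) (algebraMap K F (algebraMap k[X] K p))))) :
    (¬ IsSquare Δ → ∃ j : ZMod 3, ∀ v : HeightOneSpectrum k'[X],
      or3 v a = j * or3 v (algebraMap K F (algebraMap k[X] K p))) ∧
    (∃ U V : k[X], U.Monic ∧ V.Monic ∧ Squarefree U ∧ Squarefree V ∧ U ∣ p ∧ V ∣ p ∧
      ∃ y : F, y ≠ 0 ∧ a * algebraMap K F (algebraMap k[X] K (U * V ^ 2)) = y ^ 3) := by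
  haveI : IsSepClosed k' := IsSepClosure.sep_closed k
  haveI : IsGalois k k' := inferInstance
  have injk := (algebraMap k k').injective
  set pp := p.map (algebraMap k k') with hpp
  have hpp0 : pp ≠ 0 := (Polynomial.map_ne_zero_iff injk).2 hp
  have hsplit : pp.Splits := splits_of_sep hp hsep
  have h3' : (3 : k') ≠ 0 := by
    rw [← map_ofNat (algebraMap k k') 3]
    exact (_root_.map_ne_zero _).2 h3
  have hroot : ∀ θ : k', pp.IsRoot θ ↔ aeval θ p = 0 := by
    intro θ
    rw [IsRoot.def, hpp, eval_map_algebraMap]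
  have hgalr : ∀ (π : k[X]) (s : k' ≃ₐ[k] k') (θ : k'), aeval θ π = 0 → aeval (s θ) π = 0 := by
    intro π s θ h
    have h5 : aeval (s θ) π = s (aeval θ π) := Polynomial.aeval_algHom_apply s.toAlgHom θ π
    rw [h5, h, map_zero]
  -- the orders are constant on the roots of an irreducible factor
  have hconst : ∀ π : k[X], Irreducible π → π ∣ p → ∀ θ θ' : k', aeval θ π = 0 →
      aeval θ' π = 0 → or3 (pl θ) a = or3 (pl θ') a := by
    intro π hπ hd θ θ' hθ hθ'
    refine hrig π hπ hd η hη (fun θ => or3 (pl θ) a) ?_ θ θ' hθ hθ'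
    intro s
    obtain ⟨j, hj⟩ := hgal s
    -- the multiplicity is constant on the roots
    have hmul : ∀ θ₁ : k', aeval θ₁ π = 0 →
        or3 (pl (s θ₁)) (algebraMap K F (algebraMap k[X] K p)) =
        or3 (pl θ) (algebraMap K F (algebraMap k[X] K p)) := by
      intro θ₁ h1
      rw [or3_root hKF p hp, or3_root hKF p hp, mult_gal]
      congr 2
      -- conjugate roots
      haveI : Normal k k' := inferInstance
      have hm1 : minpoly k θ₁ = minpoly k θ := by
        have e1 := minpoly.eq_of_irreducible hπ h1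
        have e2 := minpoly.eq_of_irreducible hπ hθ
        rw [← e1, ← e2]
      have hconj : IsConjRoot k θ₁ θ := hm1
      obtain ⟨s₁, hs₁⟩ := (isConjRoot_iff_exists_algEquiv).1 hconj
      have := mult_gal p s₁ θ
      rw [hs₁] at this
      exact this
    refine ⟨j * or3 (pl θ) (algebraMap K F (algebraMap k[X] K p)), ?_⟩
    rcases hj with ⟨h1, h2⟩ | ⟨h1, h2⟩
    · left
      refine ⟨h1, fun θ₁ hθ₁ => ?_⟩
      show or3 (pl θ₁) a = or3 (pl (s θ₁)) a + _
      rw [h2 θ₁, hmul θ₁ hθ₁]
    · right
      refine ⟨h1, fun θ₁ hθ₁ => ?_⟩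
      show or3 (pl θ₁) a = -(or3 (pl (s θ₁)) a + _)
      rw [h2 θ₁, hmul θ₁ hθ₁]
  have hnon : ∀ θ : k', ¬ pp.IsRoot θ → or3 (pl θ) a = 0 := by
    intro θ hθ
    apply hloc
    intro hm
    apply hθ
    have : pp ∈ Ideal.span {X - C θ} := hm
    rw [Ideal.mem_span_singleton, dvd_iff_isRoot] at this
    exact this
  have hinv : ∀ (s : k' ≃ₐ[k] k') (θ : k'), or3 (pl (s θ)) a = or3 (pl θ) a := by
    intro s θ
    by_cases hθ : pp.IsRoot θ
    · obtain ⟨π, hπ, hd, h0⟩ := exists_factor hp ((hroot θ).1 hθ)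
      exact hconst π hπ hd _ _ (hgalr π s θ h0) h0
    · have h1 : ¬ pp.IsRoot (s θ) := by
        intro h1
        apply hθ
        have h4 := hgalr p s.symm (s θ) ((hroot _).1 h1)
        rw [AlgEquiv.symm_apply_apply] at h4
        exact (hroot θ).2 h4
      rw [hnon θ hθ, hnon _ h1]
  constructor
  · intro hΔ
    have hη' : ∃ s : k' ≃ₐ[k] k', s η ≠ η := by
      by_contra hc
      push Not at hc
      have : η ∈ Set.range (algebraMap k k') := by
        rw [InfiniteGalois.mem_range_algebraMap_iff_fixed]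
        exact hc
      obtain ⟨x, rfl⟩ := this
      apply hΔ
      refine ⟨x, ?_⟩
      apply injk
      rw [← hη, map_mul, pow_two]
    obtain ⟨s, hs⟩ := hη'
    obtain ⟨j, hj⟩ := hgal s
    have hj' := (hj.resolve_left (fun h => hs h.1)).2
    refine ⟨j, fun v => ?_⟩
    by_cases hv : pp ∈ v.asIdeal
    · obtain ⟨θ, hθ, rfl⟩ := exists_root_of_mem hpp0 hsplit hv
      have h5 := hj' θ
      rw [hinv, or3_root hKF p hp, mult_gal] at h5
      rw [or3_root hKF p hp]
      have key : ∀ x y : ZMod 3, x = -(x + y) → x = y := by decide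
      exact key _ _ h5
    · rw [hloc v hv, or3_out hKF v p hv, mul_zero]
  · set Z : Finset k' := pp.roots.toFinset with hZ
    have hZmem : ∀ θ, θ ∈ Z ↔ pp.IsRoot θ := by
      intro θ
      rw [hZ, Multiset.mem_toFinset, mem_roots hpp0]
    have isRoot_gal : ∀ (s : k' ≃ₐ[k] k') (θ : k'), pp.IsRoot θ → pp.IsRoot (s θ) :=
      fun s θ h => (hroot _).2 (hgalr p s θ ((hroot θ).1 h))
    have mk : ∀ i : ZMod 3, ∃ A : k[X], A.Monic ∧ Squarefree A ∧ A ∣ p ∧
        ∀ θ, rootMultiplicity θ (A.map (algebraMap k k')) =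
          if θ ∈ Z.filter (fun θ => or3 (pl θ) a = i) then 1 else 0 := by
      intro i
      set DA := Z.filter (fun θ => or3 (pl θ) a = i) with hDA
      obtain ⟨A, hA1, hA2⟩ := desc (k := k) DA (fun s θ hθ => by
        rw [hDA, Finset.mem_filter] at hθ ⊢
        refine ⟨(hZmem _).2 (isRoot_gal s θ ((hZmem θ).1 hθ.1)), ?_⟩
        rw [hinv]
        exact hθ.2)
      refine ⟨A, hA1, ?_, ?_, ?_⟩
      · apply Separable.squarefree
        rw [← separable_map (algebraMap k k'), hA2, separable_prod_X_sub_C_iff']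
        intro x _ y _ h
        exact h
      · rw [← Polynomial.map_dvd_map' (algebraMap k k'), hA2]
        have := (Multiset.prod_X_sub_C_dvd_iff_le_roots hpp0 DA.val).2 (by
          rw [Multiset.le_iff_subset DA.nodup]
          intro θ hθ
          exact (mem_roots hpp0).2 ((hZmem θ).1 (Finset.mem_filter.1 hθ).1))
        exact this
      · intro θ
        have h1 : (A.map (algebraMap k k')).roots = DA.val := by
          rw [hA2, roots_prod_X_sub_C]
        rw [← count_roots, h1]
        split_ifs with hθ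
        · exact Multiset.count_eq_one_of_mem DA.nodup hθ
        · exact Multiset.count_eq_zero_of_notMem hθ
    obtain ⟨U, hU1, hU2, hU3, hU4⟩ := mk 1
    obtain ⟨V, hV1, hV2, hV3, hV4⟩ := mk 2
    refine ⟨U, V, hU1, hV1, hU2, hV2, hU3, hV3, ?_⟩
    have hUF : algebraMap K F (algebraMap k[X] K U) ≠ 0 := by
      rw [hKF]
      have := (Polynomial.map_ne_zero_iff injk).2 hU1.ne_zero
      simpa using hU1.ne_zero
    have hVF : algebraMap K F (algebraMap k[X] K V) ≠ 0 := by
      rw [hKF]
      simpa using hV1.ne_zero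
    have hUVF : algebraMap K F (algebraMap k[X] K (U * V ^ 2)) ≠ 0 := by
      simp only [map_mul, map_pow]
      exact mul_ne_zero hUF (pow_ne_zero 2 hVF)
    obtain ⟨y, hy, e⟩ := cube_elem (k' := k') h3' (mul_ne_zero ha hUVF) (by
      intro v
      rw [or3_mul v ha hUVF]
      have e1 : algebraMap K F (algebraMap k[X] K (U * V ^ 2)) =
          algebraMap K F (algebraMap k[X] K U) * algebraMap K F (algebraMap k[X] K V) ^ 2 := by
        simp only [map_mul, map_pow]
      rw [e1, or3_mul v hUF (pow_ne_zero 2 hVF), or3_pow]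
      by_cases hv : pp ∈ v.asIdeal
      · obtain ⟨θ, hθ, rfl⟩ := exists_root_of_mem hpp0 hsplit hv
        have hθZ : θ ∈ Z := Multiset.mem_toFinset.2 hθ
        rw [or3_root hKF U hU1.ne_zero, or3_root hKF V hV1.ne_zero, hU4, hV4]
        have m1 : ∀ i, θ ∈ Z.filter (fun θ => or3 (pl θ) a = i) ↔ or3 (pl θ) a = i := by
          intro i
          rw [Finset.mem_filter]
          exact ⟨fun h => h.2, fun h => ⟨hθZ, h⟩⟩
        have key : ∀ x : ZMod 3, x = 0 ∨ x = 1 ∨ x = 2 := by decide
        rcases key (or3 (pl θ) a) with e | e | e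
        · rw [if_neg (fun h => by rw [m1, e] at h; exact absurd h (by decide)),
            if_neg (fun h => by rw [m1, e] at h; exact absurd h (by decide)), e]
          decide
        · rw [if_pos ((m1 1).2 e),
            if_neg (fun h => by rw [m1, e] at h; exact absurd h (by decide)), e]
          decide
        · rw [if_neg (fun h => by rw [m1, e] at h; exact absurd h (by decide)),
            if_pos ((m1 2).2 e), e]
          decide
      · have hU' : U.map (algebraMap k k') ∉ v.asIdeal := by
          intro h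
          apply hv
          obtain ⟨q, hq⟩ := hU3
          rw [hpp, hq, Polynomial.map_mul]
          exact v.asIdeal.mul_mem_right _ h
        have hV' : V.map (algebraMap k k') ∉ v.asIdeal := by
          intro h
          apply hv
          obtain ⟨q, hq⟩ := hV3
          rw [hpp, hq, Polynomial.map_mul]
          exact v.asIdeal.mul_mem_right _ h
        rw [hloc v hv, or3_out hKF v U hU', or3_out hKF v V hV', mul_zero, add_zero, add_zero])
    exact ⟨y, hy, e⟩

end glob

end Pool.Agent.T6.H12.TD
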