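import Pool.Agent.T6.H12.TD.Phi

/-!
# The Kummer function of the isogeny of degree three
-/

set_option autoImplicit false
set_option linter.all false

open WeierstrassCurve WeierstrassCurve.Affine
open scoped Classical

namespace Pool.Agent.T6.H12.TD

section hf

variable {F : Type*} [Field F] {W W' : Affine F} {D A b D' b' : F}

/-- The function `(y + η (A x + b)) / x`. -/
noncomputable def hf (η A b : F) : W.Point → F
  | .zero => 0
  | .some x y _ => (y + η * (A * x + b)) / x

/-- The character of the kernel. -/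
noncomputable def chi (η b : F) : W.Point → F
  | .zero => 1
  | .some x y _ => -(y + η * b) / (2 * y)

theorem chi_zero (η b : F) : chi η b (0 : W.Point) = 1 := rfl

variable (h : Isog W W' D A b D' b') {η : F} (hη : η ^ 2 = D')

include h hη

theorem eta2 : η ^ 2 = -3 * D := by rw [hη, h.hD]

theorem eta_ne : η ≠ 0 := by
  rintro rfl
  have := h.E'.neD
  apply this
  rw [← hη]; ring

theorem hf_mul {x y : F} (hxy : W.Nonsingular x y) (hx : x ≠ 0) :
    hf η A b (Point.some x y hxy) * hf (-η) A b (Point.some x y hxy) =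
      (y ^ 2 + 3 * D * (A * x + b) ^ 2) / x ^ 2 := by
  have h2 := eta2 h hη
  simp only [hf]
  field_simp
  linear_combination -(A * x + b) ^ 2 * h2

theorem hf_add {x y : F} (hxy : W.Nonsingular x y) (hx : x ≠ 0) :
    hf η A b (Point.some x y hxy) ^ 3 + hf (-η) A b (Point.some x y hxy) ^ 3 =
      2 * (y * (y ^ 2 - 9 * D * (A * x + b) ^ 2) / x ^ 3) := by
  have h2 := eta2 h hη
  simp only [hf]
  field_simp
  linear_combination 6 * y * (A * x + b) ^ 2 * h2

theorem hf_sub {x y : F} (hxy : W.Nonsingular x y) (hx : x ≠ 0) :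
    hf η A b (Point.some x y hxy) ^ 3 - hf (-η) A b (Point.some x y hxy) ^ 3 =
      2 * η * (3 * A * ((y ^ 2 + 3 * D * (A * x + b) ^ 2) / x ^ 2) + b') := by
  have h2 := eta2 h hη
  have hxy' := h.E.nonsingular.1 hxy
  rw [h.hb]
  simp only [hf]
  field_simp
  linear_combination (2 * η * (A * x + b) ^ 3) * h2 + (6 * η * b) * hxy'

/-- The cube of the Kummer function. -/
theorem hf_cube {x y : F} (hxy : W.Nonsingular x y) (hx : x ≠ 0) :
    hf η A b (Point.some x y hxy) ^ 3 = (y * (y ^ 2 - 9 * D * (A * x + b) ^ 2) / x ^ 3) +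
      η * (3 * A * ((y ^ 2 + 3 * D * (A * x + b) ^ 2) / x ^ 2) + b') := by
  have h1 := hf_add h hη hxy hx
  have h3 := hf_sub h hη hxy hx
  apply mul_left_cancel₀ h.E.two
  linear_combination h1 + h3

theorem hf_transl {n : F} (hn : W.Nonsingular 0 n) {x y : F} (hxy : W.Nonsingular x y)
    (hx : x ≠ 0) :
    hf η A b (Point.some 0 n hn + Point.some x y hxy) =
      chi η b (Point.some 0 n hn) * hf η A b (Point.some x y hxy) := by
  have hE := h.E
  have h2 := eta2 h hη
  have hneg := negY' (W := W) hE.a1 hE.a3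
  have hnn : n ^ 2 = D * b ^ 2 := by
    rw [hE.nonsingular] at hn
    linear_combination hn
  have hc : ¬ (0 = x ∧ n = -y) := fun h' => hx h'.1.symm
  obtain ⟨l, m, x3, y3, n3, hL, q1, q2, q3, hs⟩ := line_of_add hE.a1 hE.a3 hE.two hn hxy hc
  rw [hs, Point.neg_some]
  obtain ⟨e1, e2, e3⟩ := hL
  rw [hE.a2] at e1
  rw [hE.a4] at e2
  rw [hE.a6] at e3
  rw [mul_zero, zero_add] at q1
  subst q1
  have e1' : x + x3 = l ^ 2 - 9 * D * A ^ 2 := by linear_combination e1
  have e2' : x * x3 = 6 * D * A * b - 2 * l * n := by linear_combination e2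
  have hne : n ≠ 0 := by
    rintro rfl
    apply mul_ne_zero hE.neD (pow_ne_zero 2 hE.neb)
    rw [← hnn]; ring
  have hx3 : x3 ≠ 0 := by
    rintro rfl
    rw [mul_zero] at e2'
    have h3 : 2 * (l * n - 3 * D * A * b) = 0 := by linear_combination e2'
    have h4 : l * n = 3 * D * A * b := by
      linear_combination (mul_eq_zero.1 h3).resolve_left hE.two
    have h5 : D * b ^ 2 * (l ^ 2 - 9 * D * A ^ 2) = 0 := by
      rw [← hnn]
      linear_combination (l * n + 3 * D * A * b) * h4 - 9 * D * A ^ 2 * hnn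
    have h6 := (mul_eq_zero.1 h5).resolve_left (mul_ne_zero hE.neD (pow_ne_zero 2 hE.neb))
    rw [h6, add_zero] at e1'
    exact hx e1'
  have h2' := hE.two
  show (W.negY x3 y3 + η * (A * x3 + b)) / x3 =
    -(n + η * b) / (2 * n) * ((y + η * (A * x + b)) / x)
  rw [hneg, q3, q2]
  have hb := hE.neb
  obtain ⟨w, hw⟩ : ∃ w, w = η * b / n := ⟨_, rfl⟩
  obtain ⟨g, hg⟩ : ∃ g, g = n * A / b := ⟨_, rfl⟩
  have hη' : η = w * n / b := by rw [hw]; field_simp
  have hgA : n * A = g * b := by rw [hg]; field_simp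
  have hw2 : w ^ 2 = -3 := by
    have h5 : n ^ 2 * (w ^ 2 + 3) = 0 := by
      have : w * n = η * b := by rw [hw]; field_simp
      linear_combination (w * n + η * b) * this + b ^ 2 * h2 + 3 * hnn
    linear_combination (mul_eq_zero.1 h5).resolve_left (pow_ne_zero 2 hne)
  have f1 : D * A ^ 2 = g ^ 2 := by
    rw [hg]
    field_simp
    linear_combination -A ^ 2 * hnn
  have f2 : D * A * b = g * n := by
    rw [hg]
    field_simp
    linear_combination -A * hnn
  have e1'' : x + x3 = (l - 3 * g) * (l + 3 * g) := by linear_combination e1' - 9 * f1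
  have e2'' : x * x3 = -2 * n * (l - 3 * g) := by linear_combination e2' + 6 * f2
  have g1 : (-(l * x3 + n) + η * (A * x3 + b)) = (-l + w * g) * x3 + n * (w - 1) := by
    rw [hη', hg]
    field_simp
    ring
  have g2 : (l * x + n + η * (A * x + b)) = (l + w * g) * x + n * (w + 1) := by
    rw [hη', hg]
    field_simp
    ring
  have g3 : -(n + η * b) / (2 * n) = -(1 + w) / 2 := by
    rw [hw]
    field_simp
  rw [g1, g2, g3]
  field_simp
  linear_combination (w - 1) * (l + 3 * g) * e2'' + 2 * n * (w - 1) * e1'' +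
    (x3 * (x * g + n)) * hw2

end hf

end Pool.Agent.T6.H12.TD
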