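import Mathlib

/-!
# Elliptic curves with a rational subgroup of order three and the isogeny of degree three

The curves `y ^ 2 = x ^ 3 + D (3 A x + b) ^ 2`, and the isogeny to the curve with the parameters
`-3 D`, `A`, `3 (b - 4 D A ^ 3)`, as a homomorphism of groups.
-/

set_option autoImplicit false
set_option linter.all false

open WeierstrassCurve WeierstrassCurve.Affine

namespace Pool.Agent.T6.H12.TD

/-- The Weierstrass curve `y ^ 2 = x ^ 3 + D (3 A x + b) ^ 2`. -/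
structure Is3 {F : Type*} [Field F] (W : Affine F) (D A b : F) : Prop where
  a1 : W.a₁ = 0
  a2 : W.a₂ = 9 * D * A ^ 2
  a3 : W.a₃ = 0
  a4 : W.a₄ = 6 * D * A * b
  a6 : W.a₆ = D * b ^ 2
  two : (2 : F) ≠ 0
  three : (3 : F) ≠ 0
  neD : D ≠ 0
  neb : b ≠ 0
  neb' : b - 4 * D * A ^ 3 ≠ 0

section basic

variable {F : Type*} [Field F] {W : Affine F} {D A b : F}

theorem Is3.equation (h : Is3 W D A b) {x y : F} :
    W.Equation x y ↔ y ^ 2 = x ^ 3 + D * (3 * A * x + b) ^ 2 := by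
  rw [W.equation_iff, h.a1, h.a2, h.a3, h.a4, h.a6]
  constructor <;> intro h' <;> linear_combination h'

theorem Is3.nonsingular (h : Is3 W D A b) {x y : F} :
    W.Nonsingular x y ↔ y ^ 2 = x ^ 3 + D * (3 * A * x + b) ^ 2 := by
  rw [W.nonsingular_iff, h.equation, h.a1, h.a2, h.a3, h.a4]
  refine ⟨fun h' => h'.1, fun h' => ⟨h', ?_⟩⟩
  by_cases hy : y = 0
  · left
    subst hy
    intro hd
    have hd' : x ^ 2 + 6 * (D * A ^ 2) * x + 2 * (D * A * b) = 0 := by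
      have : 3 * (x ^ 2 + 6 * (D * A ^ 2) * x + 2 * (D * A * b)) = 0 := by linear_combination -hd
      exact (mul_eq_zero.1 this).resolve_left h.three
    have h0 : x ^ 3 + 9 * (D * A ^ 2) * x ^ 2 + 6 * (D * A * b) * x + D * b ^ 2 = 0 := by
      linear_combination -h'
    obtain ⟨p, hp⟩ : ∃ p, p = D * A ^ 2 := ⟨_, rfl⟩
    obtain ⟨q, hq⟩ : ∃ q, q = D * A * b := ⟨_, rfl⟩
    obtain ⟨s, hs⟩ : ∃ s, s = 4 * q - 18 * p ^ 2 := ⟨_, rfl⟩
    obtain ⟨t, ht⟩ : ∃ t, t = D * b ^ 2 - 6 * p * q := ⟨_, rfl⟩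
    rw [← hp, ← hq] at hd' h0
    have hR : s * x + t = 0 := by
      rw [hs, ht]
      linear_combination h0 - (x + 3 * p) * hd'
    have h1 : t ^ 2 - 6 * p * s * t + 2 * q * s ^ 2 = 0 := by
      linear_combination s ^ 2 * hd' - (s * x - t + 6 * p * s) * hR
    have h2 : D ^ 2 * b ^ 3 * (b - 4 * D * A ^ 3) = 0 := by
      rw [← h1, hs, ht, hp, hq]
      ring
    exact mul_ne_zero (mul_ne_zero (pow_ne_zero 2 h.neD) (pow_ne_zero 3 h.neb)) h.neb' h2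
  · right
    intro hd
    have : (2 : F) * y = 0 := by linear_combination hd
    rcases mul_eq_zero.1 this with h2 | h2
    · exact h.two h2
    · exact hy h2

end basic

section line

variable {F : Type*} [Field F] [DecidableEq F] {W : Affine F}

/-- Three points on a line, with the relations of Vieta. -/
structure Line (a2 a4 a6 l n x1 x2 x3 : F) : Prop where
  e1 : x1 + x2 + x3 = l ^ 2 - a2
  e2 : x1 * x2 + x1 * x3 + x2 * x3 = a4 - 2 * l * n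
  e3 : x1 * x2 * x3 = n ^ 2 - a6

theorem negY' (ha1 : W.a₁ = 0) (ha3 : W.a₃ = 0) (x y : F) : W.negY x y = -y := by
  simp [WeierstrassCurve.Affine.negY, ha1, ha3]

/-- The sum of three points on a line is zero. -/
theorem add_of_line (ha1 : W.a₁ = 0) (ha3 : W.a₃ = 0) (h2 : (2 : F) ≠ 0)
    {l n x1 x2 x3 y1 y2 y3 : F} (h : Line W.a₂ W.a₄ W.a₆ l n x1 x2 x3)
    (n1 : W.Nonsingular x1 y1) (n2 : W.Nonsingular x2 y2) (n3 : W.Nonsingular x3 y3)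
    (l1 : y1 = l * x1 + n) (l2 : y2 = l * x2 + n) (l3 : y3 = l * x3 + n) :
    Point.some x1 y1 n1 + Point.some x2 y2 n2 = -Point.some x3 y3 n3 := by
  have hneg := negY' (W := W) ha1 ha3
  -- the slope
  have hsl : ¬ (x1 = x2 ∧ y1 = W.negY x2 y2) ∧ W.slope x1 x2 y1 y2 = l := by
    by_cases hx : x1 = x2
    · subst hx
      have hy : y1 = y2 := by rw [l1, l2]
      subst hy
      have hy0 : y1 ≠ 0 := by
        intro h0
        have hn := (W.nonsingular_iff x1 y1).1 n1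
        rw [ha1, ha3, h0] at hn
        rcases hn.2 with h3 | h3
        · apply h3
          rw [h0] at l1
          have e1 := h.e1
          have e2 := h.e2
          linear_combination -2 * x1 * e1 + e2 + 2 * l * l1
        · apply h3
          ring
      have hne : y1 ≠ W.negY x1 y1 := by
        rw [hneg]
        intro h3
        have : (2 : F) * y1 = 0 := by linear_combination h3
        exact (mul_ne_zero h2 hy0) this
      refine ⟨fun h3 => hne h3.2, ?_⟩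
      rw [slope_of_Y_ne rfl hne, hneg, ha1]
      have h2y : y1 - -y1 ≠ 0 := by
        intro h3
        have : (2 : F) * y1 = 0 := by linear_combination h3
        exact (mul_ne_zero h2 hy0) this
      rw [div_eq_iff h2y]
      have e1 := h.e1
      have e2 := h.e2
      linear_combination 2 * x1 * e1 - e2 - 2 * l * l1
    · refine ⟨fun h3 => hx h3.1, ?_⟩
      rw [slope_of_X_ne hx, div_eq_iff (sub_ne_zero.2 hx), l1, l2]
      ring
  obtain ⟨hxy, hsl⟩ := hsl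
  rw [Point.add_some hxy]
  have hX : W.addX x1 x2 (W.slope x1 x2 y1 y2) = x3 := by
    rw [hsl, addX, ha1]
    linear_combination -h.e1
  have hY : W.addY x1 x2 y1 (W.slope x1 x2 y1 y2) = W.negY x3 y3 := by
    rw [addY, negAddY, hX, hsl, hneg, hneg, l3, l1]
    ring
  rw [Point.neg_some]
  congr 1

/-- The third point on the line through two points. -/
theorem line_of_add (ha1 : W.a₁ = 0) (ha3 : W.a₃ = 0) (h2 : (2 : F) ≠ 0)
    {x1 x2 y1 y2 : F} (n1 : W.Nonsingular x1 y1) (n2 : W.Nonsingular x2 y2)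
    (hxy : ¬ (x1 = x2 ∧ y1 = -y2)) :
    ∃ (l n x3 y3 : F) (n3 : W.Nonsingular x3 y3), Line W.a₂ W.a₄ W.a₆ l n x1 x2 x3 ∧
      y1 = l * x1 + n ∧ y2 = l * x2 + n ∧ y3 = l * x3 + n ∧
      Point.some x1 y1 n1 + Point.some x2 y2 n2 = -Point.some x3 y3 n3 := by
  have hneg := negY' (W := W) ha1 ha3
  have q1 := n1.1
  have q2 := n2.1
  rw [Affine.equation_iff, ha1, ha3] at q1 q2
  obtain ⟨l, hl⟩ : ∃ l, l = W.slope x1 x2 y1 y2 := ⟨_, rfl⟩
  obtain ⟨n, hn⟩ : ∃ n, n = y1 - l * x1 := ⟨_, rfl⟩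
  obtain ⟨x3, hx3⟩ : ∃ x3, x3 = l ^ 2 - W.a₂ - x1 - x2 := ⟨_, rfl⟩
  have hxy' : ¬ (x1 = x2 ∧ y1 = W.negY x2 y2) := by rwa [hneg]
  -- the tangent or the chord
  have key : y2 = l * x2 + n ∧ x1 * x2 + x1 * x3 + x2 * x3 = W.a₄ - 2 * l * n := by
    by_cases hx : x1 = x2
    · subst hx
      have hy : y1 ≠ -y2 := fun h => hxy ⟨rfl, h⟩
      have hyy : (y1 - y2) * (y1 + y2) = 0 := by linear_combination q1 - q2
      have hy' : y1 = y2 := by
        rcases mul_eq_zero.1 hyy with h | h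
        · exact sub_eq_zero.1 h
        · exact absurd (by linear_combination h) hy
      subst hy'
      have hy0 : y1 ≠ 0 := by
        intro h0
        apply hy
        rw [h0, neg_zero]
      have hne : y1 ≠ W.negY x1 y1 := by
        rw [hneg]
        exact hy
      have h2y : y1 - -y1 ≠ 0 := by
        intro h3
        have : (2 : F) * y1 = 0 := by linear_combination h3
        exact (mul_ne_zero h2 hy0) this
      rw [slope_of_Y_ne rfl hne, hneg, ha1, eq_div_iff h2y] at hl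
      refine ⟨by rw [hn]; ring, ?_⟩
      rw [hx3, hn]
      linear_combination hl
    · rw [slope_of_X_ne hx, eq_div_iff (sub_ne_zero.2 hx)] at hl
      have hy2 : y2 = l * x2 + n := by rw [hn]; linear_combination hl
      refine ⟨hy2, ?_⟩
      apply mul_left_cancel₀ (sub_ne_zero.2 hx)
      rw [hx3]
      rw [hn] at hy2 ⊢
      rw [hy2] at q2
      linear_combination q1 - q2
  obtain ⟨hy2, e2⟩ := key
  have hy1 : y1 = l * x1 + n := by rw [hn]; ring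
  have e1 : x1 + x2 + x3 = l ^ 2 - W.a₂ := by rw [hx3]; ring
  have e3 : x1 * x2 * x3 = n ^ 2 - W.a₆ := by
    rw [hy1] at q1
    linear_combination x1 * e2 - x1 ^ 2 * e1 - q1
  obtain ⟨y3, hy3⟩ : ∃ y3, y3 = l * x3 + n := ⟨_, rfl⟩
  have hE : W.Equation x3 y3 := by
    rw [Affine.equation_iff, ha1, ha3, hy3]
    linear_combination -x3 ^ 2 * e1 + x3 * e2 - e3
  have hns := nonsingular_add n1 n2 hxy'
  have hX : W.addX x1 x2 (W.slope x1 x2 y1 y2) = x3 := by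
    rw [← hl, addX, ha1, hx3]
    ring
  have hY : W.addY x1 x2 y1 (W.slope x1 x2 y1 y2) = -y3 := by
    rw [addY, negAddY, hX, ← hl, hneg, hy3, hn]
    ring
  have hns' : W.Nonsingular x3 (W.negY x3 y3) := by
    rw [hneg, ← hX, ← hY]
    exact hns
  have n3 : W.Nonsingular x3 y3 := by
    have := (W.nonsingular_neg x3 y3).1 hns'
    exact this
  refine ⟨l, n, x3, y3, n3, ⟨e1, e2, e3⟩, hy1, hy2, hy3, ?_⟩
  rw [Point.add_some hxy', Point.neg_some]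
  congr 1
  rw [hY, hneg]

end line

section alg

variable {F : Type*} [Field F]


theorem sym1 (α β γ w1 w2 w3 s1 s2 s3 : F) (h1 : w1 + w2 + w3 = s1)
    (h2 : w1 * w2 + w1 * w3 + w2 * w3 = s2) (h3 : w1 * w2 * w3 = s3) :
    (α + β * w1 + γ * w1 ^ 2) + (α + β * w2 + γ * w2 ^ 2) + (α + β * w3 + γ * w3 ^ 2) =
      3 * α + β * s1 + γ * (s1 ^ 2 - 2 * s2) := by
  rw [← h1, ← h2]; ring

theorem sym2 (α β γ w1 w2 w3 s1 s2 s3 : F) (h1 : w1 + w2 + w3 = s1)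
    (h2 : w1 * w2 + w1 * w3 + w2 * w3 = s2) (h3 : w1 * w2 * w3 = s3) :
    (α + β * w1 + γ * w1 ^ 2) * (α + β * w2 + γ * w2 ^ 2) +
    (α + β * w1 + γ * w1 ^ 2) * (α + β * w3 + γ * w3 ^ 2) +
    (α + β * w2 + γ * w2 ^ 2) * (α + β * w3 + γ * w3 ^ 2) =
      3 * α ^ 2 + 2 * α * β * s1 + 2 * α * γ * (s1 ^ 2 - 2 * s2) + β ^ 2 * s2 +
        β * γ * (s1 * s2 - 3 * s3) + γ ^ 2 * (s2 ^ 2 - 2 * s1 * s3) := by
  rw [← h1, ← h2, ← h3]; ring

theorem sym3 (α β γ w1 w2 w3 s1 s2 s3 : F) (h1 : w1 + w2 + w3 = s1)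
    (h2 : w1 * w2 + w1 * w3 + w2 * w3 = s2) (h3 : w1 * w2 * w3 = s3) :
    (α + β * w1 + γ * w1 ^ 2) * (α + β * w2 + γ * w2 ^ 2) * (α + β * w3 + γ * w3 ^ 2) =
      α ^ 3 + α ^ 2 * β * s1 + α ^ 2 * γ * (s1 ^ 2 - 2 * s2) + α * β ^ 2 * s2 +
        α * β * γ * (s1 * s2 - 3 * s3) + α * γ ^ 2 * (s2 ^ 2 - 2 * s1 * s3) + β ^ 3 * s3 +
        β ^ 2 * γ * s1 * s3 + β * γ ^ 2 * s2 * s3 + γ ^ 3 * s3 ^ 2 := by
  rw [← h1, ← h2, ← h3]; ring

theorem image_line {D A b l n x1 x2 x3 : F} (h : Line (9 * D * A ^ 2) (6 * D * A * b) (D * b ^ 2)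
    l n x1 x2 x3) (n1 : x1 ≠ 0) (n2 : x2 ≠ 0) (n3 : x3 ≠ 0) :
    ∃ L N : F, Line (9 * (-3 * D) * A ^ 2) (6 * (-3 * D) * A * (3 * (b - 4 * D * A ^ 3)))
      ((-3 * D) * (3 * (b - 4 * D * A ^ 3)) ^ 2) L N
      (((l * x1 + n) ^ 2 + 3 * D * (A * x1 + b) ^ 2) / x1 ^ 2)
      (((l * x2 + n) ^ 2 + 3 * D * (A * x2 + b) ^ 2) / x2 ^ 2)
      (((l * x3 + n) ^ 2 + 3 * D * (A * x3 + b) ^ 2) / x3 ^ 2) ∧
      ∀ x, (x = x1 ∨ x = x2 ∨ x = x3) →
        (l * x + n) * ((l * x + n) ^ 2 - 9 * D * (A * x + b) ^ 2) / x ^ 3 =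
          L * (((l * x + n) ^ 2 + 3 * D * (A * x + b) ^ 2) / x ^ 2) + N := by
  obtain ⟨e1, e2, e3⟩ := h
  obtain ⟨E, hE⟩ : ∃ E, E = n ^ 2 - D * b ^ 2 := ⟨_, rfl⟩
  have hE0 : E ≠ 0 := by
    rw [hE, ← e3]
    exact mul_ne_zero (mul_ne_zero n1 n2) n3
  have hcub : ∀ x, (x = x1 ∨ x = x2 ∨ x = x3) →
      x ^ 3 = (l * x + n) ^ 2 - D * (3 * A * x + b) ^ 2 := by
    intro x hx
    have : (x - x1) * (x - x2) * (x - x3) = 0 := by
      rcases hx with h | h | h <;> rw [h] <;> ring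
    linear_combination this + x ^ 2 * e1 - x * e2 + e3
  refine ⟨(l * (n ^ 2 + 3 * D * b ^ 2) - 12 * D * A * b * n) / E,
    (n ^ 3 - 9 * D * b ^ 2 * n - 12 * D * A ^ 2 * l * n ^ 2 + 36 * D ^ 2 * A ^ 3 * b * n +
      12 * D * A * b * l ^ 2 * n - 4 * D * b ^ 2 * l ^ 3) / E, ?_, ?_⟩
  · obtain ⟨α, hα⟩ : ∃ α, α = l ^ 2 + 3 * D * A ^ 2 := ⟨_, rfl⟩
    obtain ⟨β, hβ⟩ : ∃ β, β = 2 * l * n + 6 * D * A * b := ⟨_, rfl⟩
    obtain ⟨γ, hγ⟩ : ∃ γ, γ = n ^ 2 + 3 * D * b ^ 2 := ⟨_, rfl⟩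
    have hX : ∀ x : F, x ≠ 0 → ((l * x + n) ^ 2 + 3 * D * (A * x + b) ^ 2) / x ^ 2 =
        α + β * x⁻¹ + γ * x⁻¹ ^ 2 := by
      intro x hx
      rw [hα, hβ, hγ]
      field_simp
      ring
    have w1 : x1⁻¹ + x2⁻¹ + x3⁻¹ = (6 * D * A * b - 2 * l * n) / E := by
      rw [hE, ← e3, ← e2]
      field_simp
      ring
    have w2 : x1⁻¹ * x2⁻¹ + x1⁻¹ * x3⁻¹ + x2⁻¹ * x3⁻¹ = (l ^ 2 - 9 * D * A ^ 2) / E := by
      rw [hE, ← e3, ← e1]
      field_simp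
      ring
    have w3 : x1⁻¹ * x2⁻¹ * x3⁻¹ = 1 / E := by
      rw [hE, ← e3]
      field_simp
    rw [hX x1 n1, hX x2 n2, hX x3 n3]
    refine ⟨?_, ?_, ?_⟩
    · rw [sym1 α β γ _ _ _ _ _ _ w1 w2 w3, hα, hβ, hγ]
      field_simp
      rw [hE]
      ring
    · rw [sym2 α β γ _ _ _ _ _ _ w1 w2 w3, hα, hβ, hγ]
      field_simp
      rw [hE]
      ring
    · rw [sym3 α β γ _ _ _ _ _ _ w1 w2 w3, hα, hβ, hγ]
      field_simp
      rw [hE]
      ring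
  · intro x hx
    have hx0 : x ≠ 0 := by
      rcases hx with h | h | h <;> rw [h]
      · exact n1
      · exact n2
      · exact n3
    have hc := hcub x hx
    field_simp
    rw [hE]
    linear_combination (n * (9 * D * b ^ 2 - n ^ 2)) * hc



theorem sumsq (α β γ w2 w3 s1 s2 : F) (h1 : w2 + w3 = s1) (h2 : w2 * w3 = s2) :
    (α + β * w2 + γ * w2 ^ 2) - (α + β * w3 + γ * w3 ^ 2) = (w2 - w3) * (β + γ * s1) := by
  rw [← h1]; ring

theorem sumcu (c0 c1 c2 c3 w2 w3 s1 s2 : F) (h1 : w2 + w3 = s1) (h2 : w2 * w3 = s2) :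
    (c0 + c1 * w2 + c2 * w2 ^ 2 + c3 * w2 ^ 3) + (c0 + c1 * w3 + c2 * w3 ^ 2 + c3 * w3 ^ 3) =
      2 * c0 + c1 * s1 + c2 * (s1 ^ 2 - 2 * s2) + c3 * (s1 ^ 3 - 3 * s1 * s2) := by
  rw [← h1, ← h2]; ring

theorem trans_alg {D A b l n x2 x3 : F} (hb : b ≠ 0) (hn : n ^ 2 = D * b ^ 2)
    (e1 : x2 + x3 = l ^ 2 - 9 * D * A ^ 2) (e2 : x2 * x3 = 6 * D * A * b - 2 * l * n)
    (h2 : x2 ≠ 0) (h3 : x3 ≠ 0) :
    ((l * x3 + n) ^ 2 + 3 * D * (A * x3 + b) ^ 2) / x3 ^ 2 =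
      ((l * x2 + n) ^ 2 + 3 * D * (A * x2 + b) ^ 2) / x2 ^ 2 ∧
    (l * x3 + n) * ((l * x3 + n) ^ 2 - 9 * D * (A * x3 + b) ^ 2) / x3 ^ 3 =
      -((l * x2 + n) * ((l * x2 + n) ^ 2 - 9 * D * (A * x2 + b) ^ 2) / x2 ^ 3) := by
  obtain rfl : D = n ^ 2 / b ^ 2 := by
    rw [hn]; field_simp
  obtain ⟨s, hs⟩ : ∃ s, s = 6 * (n ^ 2 / b ^ 2) * A * b - 2 * l * n := ⟨_, rfl⟩
  have hs0 : s ≠ 0 := by
    rw [hs, ← e2]
    exact mul_ne_zero h2 h3
  have w1 : x2⁻¹ + x3⁻¹ = (l ^ 2 - 9 * (n ^ 2 / b ^ 2) * A ^ 2) / s := by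
    rw [hs, ← e2, ← e1]
    field_simp
    ring
  have w2 : x2⁻¹ * x3⁻¹ = 1 / s := by
    rw [hs, ← e2]
    field_simp
  constructor
  · have hX : ∀ x : F, x ≠ 0 → ((l * x + n) ^ 2 + 3 * (n ^ 2 / b ^ 2) * (A * x + b) ^ 2) / x ^ 2 =
        (l ^ 2 + 3 * (n ^ 2 / b ^ 2) * A ^ 2) + (2 * l * n + 6 * (n ^ 2 / b ^ 2) * A * b) * x⁻¹ +
          (4 * n ^ 2) * x⁻¹ ^ 2 := by
      intro x hx
      field_simp
      ring
    rw [hX x3 h3, hX x2 h2, ← sub_eq_zero, ← neg_eq_zero, neg_sub, sumsq _ _ _ _ _ _ _ w1 w2]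
    have : (2 * l * n + 6 * (n ^ 2 / b ^ 2) * A * b) + (4 * n ^ 2) *
        ((l ^ 2 - 9 * (n ^ 2 / b ^ 2) * A ^ 2) / s) = 0 := by
      field_simp
      rw [hs]
      field_simp
      ring
    rw [this, mul_zero]
  · have hY : ∀ x : F, x ≠ 0 →
        (l * x + n) * ((l * x + n) ^ 2 - 9 * (n ^ 2 / b ^ 2) * (A * x + b) ^ 2) / x ^ 3 =
        l * (l ^ 2 - 9 * (n ^ 2 / b ^ 2) * A ^ 2) +
          (n * (l ^ 2 - 9 * (n ^ 2 / b ^ 2) * A ^ 2) +
            l * (2 * l * n - 18 * (n ^ 2 / b ^ 2) * A * b)) * x⁻¹ +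
          (n * (2 * l * n - 18 * (n ^ 2 / b ^ 2) * A * b) + l * (-8 * n ^ 2)) * x⁻¹ ^ 2 +
          (n * (-8 * n ^ 2)) * x⁻¹ ^ 3 := by
      intro x hx
      field_simp
      ring
    rw [hY x3 h3, hY x2 h2, eq_neg_iff_add_eq_zero, add_comm, sumcu _ _ _ _ _ _ _ _ w1 w2]
    field_simp
    rw [hs]
    field_simp
    ring


end alg

end Pool.Agent.T6.H12.TD
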