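import Pool.Agent.T6.H12.TD.Hfn

/-!
# The kernel of the isogeny of degree three, and surjectivity
-/

set_option autoImplicit false
set_option linter.all false

open WeierstrassCurve WeierstrassCurve.Affine
open scoped Classical

namespace Pool.Agent.T6.H12.TD

section ker

variable {F : Type*} [Field F] {W W' : Affine F} {D A b D' b' : F}
  (h : Isog W W' D A b D' b')

include h

theorem n_eq {n : F} (hn : W.Nonsingular 0 n) : n ^ 2 = D * b ^ 2 ∧ n ≠ 0 := by
  have hnn : n ^ 2 = D * b ^ 2 := by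
    rw [h.E.nonsingular] at hn
    linear_combination hn
  refine ⟨hnn, ?_⟩
  rintro rfl
  apply mul_ne_zero h.E.neD (pow_ne_zero 2 h.E.neb)
  rw [← hnn]; ring

theorem ns_neg {n : F} (hn : W.Nonsingular 0 n) : W.Nonsingular 0 (-n) := by
  rw [h.E.nonsingular] at hn ⊢
  linear_combination hn

theorem neg_pt {n : F} (hn : W.Nonsingular 0 n) :
    -Point.some 0 n hn = Point.some 0 (-n) (ns_neg h hn) := by
  rw [Point.neg_some]
  congr 1
  exact negY' h.E.a1 h.E.a3 _ _

theorem ker_add {n : F} (hn : W.Nonsingular 0 n) :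
    Point.some 0 n hn + Point.some 0 n hn = -Point.some 0 n hn := by
  have hE := h.E
  obtain ⟨hnn, hne⟩ := n_eq h hn
  have hc : ¬ ((0 : F) = 0 ∧ n = -n) := by
    rintro ⟨-, h'⟩
    have : (2 : F) * n = 0 := by linear_combination h'
    exact (mul_ne_zero hE.two hne) this
  obtain ⟨l, m, x3, y3, n3, hL, q1, q2, q3, hs⟩ := line_of_add hE.a1 hE.a3 hE.two hn hn hc
  obtain ⟨e1, e2, e3⟩ := hL
  rw [hE.a2] at e1
  rw [hE.a4] at e2
  rw [mul_zero, zero_add] at q1
  subst q1
  have e1' : x3 = l ^ 2 - 9 * D * A ^ 2 := by linear_combination e1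
  have e2' : 2 * (l * n - 3 * D * A * b) = 0 := by linear_combination e2
  have h4 : l * n = 3 * D * A * b := by
    linear_combination (mul_eq_zero.1 e2').resolve_left hE.two
  have h5 : D * b ^ 2 * (l ^ 2 - 9 * D * A ^ 2) = 0 := by
    rw [← hnn]
    linear_combination (l * n + 3 * D * A * b) * h4 - 9 * D * A ^ 2 * hnn
  have h6 := (mul_eq_zero.1 h5).resolve_left (mul_ne_zero hE.neD (pow_ne_zero 2 hE.neb))
  have hx3 : x3 = 0 := by rw [e1', h6]
  subst hx3
  rw [mul_zero, zero_add] at q3
  subst q3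
  exact hs

theorem ker_cases {P : W.Point} (hP : phi h P = 0) {n : F} (hn : W.Nonsingular 0 n) :
    P = 0 ∨ P = Point.some 0 n hn ∨ P = -Point.some 0 n hn := by
  rcases (phi_ker h P).1 hP with rfl | ⟨m, hm, rfl⟩
  · exact Or.inl rfl
  · right
    obtain ⟨h1, -⟩ := n_eq h hn
    obtain ⟨h2, -⟩ := n_eq h hm
    have : (m - n) * (m + n) = 0 := by linear_combination h2 - h1
    rcases mul_eq_zero.1 this with h3 | h3
    · left
      obtain rfl : m = n := sub_eq_zero.1 h3
      rfl
    · right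
      rw [neg_pt h]
      congr 1
      linear_combination h3

theorem three_ker {P : W.Point} (hP : phi h P = 0) : 3 • P = 0 := by
  rcases (phi_ker h P).1 hP with rfl | ⟨m, hm, rfl⟩
  · rw [smul_zero]
  · rw [show (3 : ℕ) = 2 + 1 from rfl, add_smul, two_smul, one_smul, ker_add h, neg_add_cancel]

variable {η : F} (hη : η ^ 2 = D')

include hη

theorem chi_w {n : F} (hn : W.Nonsingular 0 n) : ∃ w : F, w ^ 2 = -3 ∧
    chi η b (Point.some 0 n hn) = -(1 + w) / 2 ∧ chi η b (-Point.some 0 n hn) = -(1 - w) / 2 := by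
  obtain ⟨hnn, hne⟩ := n_eq h hn
  have h2 := eta2 h hη
  have t2 := h.E.two
  refine ⟨η * b / n, ?_, ?_, ?_⟩
  · field_simp
    linear_combination b ^ 2 * h2 + 3 * hnn
  · simp only [chi]
    field_simp
  · rw [neg_pt h]
    simp only [chi]
    field_simp
    ring

theorem chi_add {P Q : W.Point} (hP : phi h P = 0) (hQ : phi h Q = 0) :
    chi η b (P + Q) = chi η b P * chi η b Q := by
  rcases (phi_ker h P).1 hP with rfl | ⟨n, hn, rfl⟩
  · rw [zero_add, chi_zero, one_mul]
  have t2 := h.E.two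
  obtain ⟨w, hw, c1, c2⟩ := chi_w h hη hn
  rcases ker_cases h hQ hn with rfl | rfl | rfl
  · rw [add_zero, chi_zero, mul_one]
  · rw [ker_add h, c1, c2]
    field_simp
    linear_combination -hw
  · rw [add_neg_cancel, chi_zero, c1, c2]
    field_simp
    linear_combination hw

theorem chi_ne {P : W.Point} (hP : phi h P = 0) : chi η b P ≠ 0 := by
  have hn : phi h (-P) = 0 := by rw [phi_neg, hP, neg_zero]
  have := chi_add h hη hP hn
  rw [add_neg_cancel, chi_zero] at this
  intro h0
  rw [h0, zero_mul] at this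
  exact one_ne_zero this

theorem chi_neg {P : W.Point} (hP : phi h P = 0) : chi η b (-P) = (chi η b P)⁻¹ := by
  have hn : phi h (-P) = 0 := by rw [phi_neg, hP, neg_zero]
  have := chi_add h hη hP hn
  rw [add_neg_cancel, chi_zero] at this
  rw [eq_inv_of_mul_eq_one_right this.symm]

theorem chi_eta_neg {P : W.Point} (hP : phi h P = 0) : chi (-η) b P = (chi η b P)⁻¹ := by
  rw [← chi_neg h hη hP]
  rcases (phi_ker h P).1 hP with rfl | ⟨n, hn, rfl⟩
  · rw [neg_zero, chi_zero, chi_zero]
  · obtain ⟨-, hne⟩ := n_eq h hn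
    have t2 := h.E.two
    rw [neg_pt h]
    simp only [chi]
    field_simp
    ring

theorem chi_one {P : W.Point} (hP : phi h P = 0) (hc : chi η b P = 1) : P = 0 := by
  rcases (phi_ker h P).1 hP with rfl | ⟨n, hn, rfl⟩
  · rfl
  · exfalso
    obtain ⟨w, hw, c1, -⟩ := chi_w h hη hn
    have t2 := h.E.two
    rw [c1] at hc
    field_simp at hc
    have h1 : w = -3 := by linear_combination -hc
    rw [h1] at hw
    have : (2 : F) * 2 * 3 = 0 := by linear_combination hw
    exact (mul_ne_zero (mul_ne_zero t2 t2) h.E.three) this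

theorem chi_inj {P Q : W.Point} (hP : phi h P = 0) (hQ : phi h Q = 0)
    (hc : chi η b P = chi η b Q) : P = Q := by
  have hn : phi h (-Q) = 0 := by rw [phi_neg, hQ, neg_zero]
  have h1 : chi η b (P + -Q) = 1 := by
    rw [chi_add h hη hP hn, chi_neg h hη hQ, hc, mul_inv_cancel₀ (chi_ne h hη hQ)]
  have hPQ : phi h (P + -Q) = 0 := by rw [phi_add, hP, hn, add_zero]
  have := chi_one h hη hPQ h1
  exact add_neg_eq_zero.1 this

theorem chi_cube {P : W.Point} (hP : phi h P = 0) : chi η b P ^ 3 = 1 := by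
  rcases (phi_ker h P).1 hP with rfl | ⟨n, hn, rfl⟩
  · rw [chi_zero, one_pow]
  · obtain ⟨w, hw, c1, -⟩ := chi_w h hη hn
    have t2 := h.E.two
    rw [c1]
    field_simp
    linear_combination -(3 + w) * hw

/-- The Kummer function is multiplied by the character under translation. -/
theorem hf_ker {P T : W.Point} (hT : phi h T = 0) (hP : phi h P ≠ 0) :
    hf η A b (T + P) = chi η b T * hf η A b P := by
  rcases (phi_ker h T).1 hT with rfl | ⟨n, hn, rfl⟩
  · rw [zero_add, chi_zero, one_mul]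
  · rcases P with _ | ⟨x, y, hxy⟩
    · exact absurd (phi_zero h) hP
    · refine hf_transl h hη hn hxy ?_
      rintro rfl
      exact hP (phi_some0 h hxy rfl)

end ker

section surj

variable {F : Type*} [Field F] [IsSepClosed F] {W W' : Affine F} {D A b D' b' : F}
  (h : Isog W W' D A b D' b')

include h

theorem exists_eta : ∃ η : F, η ^ 2 = D' := by
  haveI : NeZero ((2 : ℕ) : F) := ⟨by exact_mod_cast h.E.two⟩
  exact IsSepClosed.exists_pow_nat_eq D' 2

theorem exists_ker : ∃ n, ∃ hn : W.Nonsingular 0 n, True := by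
  haveI : NeZero ((2 : ℕ) : F) := ⟨by exact_mod_cast h.E.two⟩
  obtain ⟨n, hn⟩ := IsSepClosed.exists_pow_nat_eq (D * b ^ 2) 2
  refine ⟨n, ?_, trivial⟩
  rw [h.E.nonsingular]
  linear_combination hn

theorem phi_surj (Q : W'.Point) : ∃ P : W.Point, phi h P = Q := by
  rcases Q with _ | ⟨X, Y, hXY⟩
  · exact ⟨0, rfl⟩
  haveI : NeZero ((3 : ℕ) : F) := ⟨by exact_mod_cast h.E.three⟩
  have hE := h.E
  have t2 := hE.two
  obtain ⟨η, hη⟩ := exists_eta h
  have h2 := eta2 h hη
  have hη0 := eta_ne h hη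
  have hY := h.E'.nonsingular.1 hXY
  have hzz : (Y + η * (3 * A * X + b')) * (Y - η * (3 * A * X + b')) = X ^ 3 := by
    rw [h.hD] at hY
    linear_combination hY - (3 * A * X + b') ^ 2 * h2
  -- the two cube roots
  obtain ⟨p, q, hp, hq, hpq⟩ : ∃ p q : F, p ^ 3 = Y + η * (3 * A * X + b') ∧
      q ^ 3 = Y - η * (3 * A * X + b') ∧ p * q = X := by
    by_cases hz : Y + η * (3 * A * X + b') = 0
    · by_cases hz' : Y - η * (3 * A * X + b') = 0
      · exfalso
        have hX : X = 0 := by
          have : X ^ 3 = 0 := by rw [← hzz, hz, zero_mul]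
          exact pow_eq_zero_iff (three_ne_zero) |>.1 this
        rw [hX] at hz hz'
        have h3 : 2 * (η * b') = 0 := by linear_combination hz - hz'
        exact (mul_ne_zero t2 (mul_ne_zero hη0 h.E'.neb)) h3
      · obtain ⟨q, hq⟩ := IsSepClosed.exists_pow_nat_eq (Y - η * (3 * A * X + b')) 3
        have hq0 : q ≠ 0 := by
          rintro rfl
          rw [zero_pow three_ne_zero] at hq
          exact hz' hq.symm
        refine ⟨X / q, q, ?_, hq, div_mul_cancel₀ _ hq0⟩
        rw [div_pow, hq, div_eq_iff hz', hzz]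
    · obtain ⟨p, hp⟩ := IsSepClosed.exists_pow_nat_eq (Y + η * (3 * A * X + b')) 3
      have hp0 : p ≠ 0 := by
        rintro rfl
        rw [zero_pow three_ne_zero] at hp
        exact hz hp.symm
      refine ⟨p, X / p, hp, ?_, mul_div_cancel₀ _ hp0⟩
      rw [div_pow, hp, div_eq_iff hz, ← hzz]
      ring
  obtain ⟨w, hw⟩ : ∃ w, w = (p - q) / (2 * η) - A := ⟨_, rfl⟩
  have hpq' : p - q = 2 * η * (w + A) := by
    rw [hw]
    field_simp
    ring
  have hb' := h.hb
  have key : X * w = b + 4 * D * (w ^ 3 + 3 * w ^ 2 * A + 3 * w * A ^ 2) := by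
    have h5 : (p - q) ^ 3 = 2 * η * (3 * A * X + b') - 3 * X * (p - q) := by
      rw [← hpq]
      linear_combination hp - hq - 6 * A * η * hpq
    rw [hpq', hb'] at h5
    have h6 : 6 * η * (X * w - (b + 4 * D * (w ^ 3 + 3 * w ^ 2 * A + 3 * w * A ^ 2))) = 0 := by
      linear_combination h5 - 8 * η * (w + A) ^ 3 * h2
    have h60 : 6 * η ≠ 0 := by
      have : (6 : F) = 2 * 3 := by norm_num
      rw [this]
      exact mul_ne_zero (mul_ne_zero t2 hE.three) hη0
    linear_combination (mul_eq_zero.1 h6).resolve_left h60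
  have hw0 : w ≠ 0 := by
    rintro rfl
    apply hE.neb
    linear_combination -key
  have hb := hE.neb
  obtain ⟨x, hx⟩ : ∃ x, x = b / w := ⟨_, rfl⟩
  have hx0 : x ≠ 0 := by rw [hx]; exact div_ne_zero hb hw0
  have hwx : w = b / x := by rw [hx]; field_simp
  obtain ⟨y, hy⟩ : ∃ y, y = x * (p + q) / 2 := ⟨_, rfl⟩
  have hX : X = (x ^ 3 + 12 * D * A ^ 2 * x ^ 2 + 12 * D * A * b * x + 4 * D * b ^ 2) / x ^ 2 := by
    rw [hwx] at key
    field_simp at key ⊢
    linear_combination key
  have hyy : y ^ 2 = x ^ 2 * X - 3 * D * (A * x + b) ^ 2 := by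
    have h7 : (p + q) ^ 2 = (2 * η * (w + A)) ^ 2 + 4 * X := by rw [← hpq', ← hpq]; ring
    have h8 : y ^ 2 = x ^ 2 * (p + q) ^ 2 / 4 := by
      rw [hy]
      have h4 : (4 : F) ≠ 0 := by
        have : (4 : F) = 2 * 2 := by norm_num
        rw [this]
        exact mul_ne_zero t2 t2
      field_simp
      ring
    rw [h8, h7, mul_pow, mul_pow, h2, hwx]
    have h4 : (4 : F) ≠ 0 := by
      have : (4 : F) = 2 * 2 := by norm_num
      rw [this]
      exact mul_ne_zero t2 t2
    field_simp
    ring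
  have hns : W.Nonsingular x y := by
    rw [hE.nonsingular, hyy, hX]
    field_simp
    ring
  refine ⟨Point.some x y hns, ?_⟩
  rw [phi_some h hns hx0]
  have eX : (y ^ 2 + 3 * D * (A * x + b) ^ 2) / x ^ 2 = X := by
    rw [hyy]
    field_simp
    ring
  have ep : hf η A b (Point.some x y hns) = p := by
    simp only [hf]
    rw [div_eq_iff hx0, hy]
    have : A * x + b = x * (w + A) := by rw [hwx]; field_simp; ring
    rw [this]
    have t : η * (x * (w + A)) = x * (p - q) / 2 := by rw [hpq']; field_simp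
    rw [t]
    field_simp
    ring
  have eq' : hf (-η) A b (Point.some x y hns) = q := by
    simp only [hf]
    rw [div_eq_iff hx0, hy]
    have : A * x + b = x * (w + A) := by rw [hwx]; field_simp; ring
    rw [this]
    have t : η * (x * (w + A)) = x * (p - q) / 2 := by rw [hpq']; field_simp
    have t' : -η * (x * (w + A)) = -(x * (p - q) / 2) := by rw [← t]; ring
    rw [t']
    field_simp
    ring
  have eY : y * (y ^ 2 - 9 * D * (A * x + b) ^ 2) / x ^ 3 = Y := by
    have h9 := hf_add h hη hns hx0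
    rw [ep, eq', hp, hq] at h9
    apply mul_left_cancel₀ t2
    rw [← h9]
    ring
  congr 1

end surj

end Pool.Agent.T6.H12.TD
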