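import Pool.Agent.T6.H12.TD.Act
import Pool.Agent.TH115.GD.Des

/-!
# Kummer theory for cocycles with values in the kernel of the isogeny of degree three
-/

set_option autoImplicit false
set_option linter.all false

open WeierstrassCurve WeierstrassCurve.Affine
open scoped Classical

namespace Pool.Agent.T6.H12.TD

open Pool.Agent.TH115.GD (Pt act incl rs ak act_zero act_some act_inj act_act fixed_point rs_apply
  rs_mul rs_incl rs_act_incl IsCoc LocTriv exists_restrict Preserves exists_conj)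
open Pool.Agent.W309.TD (locConst_apply compare)

section h90

variable {K Ω : Type} [Field K] [Field Ω] [Algebra K Ω] [IsGalois K Ω]

/-- Hilbert's theorem 90 for characters with values in `K`. -/
theorem exists_root_l (χ : (Ω ≃ₐ[K] Ω) → K) (hχ : ∀ σ, χ σ ≠ 0)
    (hmul : ∀ σ τ, χ (σ * τ) = χ σ * χ τ) (hc : IsLocallyConstant χ) :
    ∃ s : Ω, s ≠ 0 ∧ ∀ σ : Ω ≃ₐ[K] Ω, σ s = algebraMap K Ω (χ σ) * s := by
  have h1 : χ 1 = 1 := by
    have := hmul 1 1
    rw [mul_one] at this
    exact (mul_eq_left₀ (hχ 1)).1 this.symm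
  have hopen : {σ : Ω ≃ₐ[K] Ω | χ σ = 1} ∈ nhds (1 : Ω ≃ₐ[K] Ω) :=
    (hc.isOpen_fiber 1).mem_nhds h1
  obtain ⟨E, hE, hEs⟩ := (krullTopology_mem_nhds_one_iff K Ω _).1 hopen
  let M : IntermediateField K Ω := IntermediateField.normalClosure K E Ω
  haveI : FiniteDimensional K M := inferInstance
  haveI : IsGalois K M := inferInstance
  have hEM : E ≤ M := E.le_normalClosure
  have hker : ∀ ρ : Ω ≃ₐ[K] Ω, (∀ x : M, ρ x = x) → χ ρ = 1 := by
    intro ρ hρ
    apply hEs
    show ρ ∈ E.fixingSubgroup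
    rw [IntermediateField.mem_fixingSubgroup_iff]
    intro x hx
    exact hρ ⟨x, hEM hx⟩
  have hsurj : Function.Surjective (AlgEquiv.restrictNormalHom (F := K) (K₁ := Ω) M) :=
    AlgEquiv.restrictNormalHom_surjective Ω
  have hres : ∀ (ρ : Ω ≃ₐ[K] Ω) (x : M), ((AlgEquiv.restrictNormalHom M ρ) x : Ω) = ρ x :=
    fun ρ x => AlgEquiv.restrictNormal_commutes ρ M x
  let lft := Function.surjInv hsurj
  have hlft : ∀ g, AlgEquiv.restrictNormalHom M (lft g) = g := Function.surjInv_eq hsurj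
  have hdep : ∀ σ τ : Ω ≃ₐ[K] Ω, AlgEquiv.restrictNormalHom M σ = AlgEquiv.restrictNormalHom M τ →
      χ σ = χ τ := by
    intro σ τ h
    have h3 : χ (σ⁻¹ * τ) = 1 := by
      apply hker
      intro x
      have h4 := hres (σ⁻¹ * τ) x
      rw [map_mul, map_inv, h, inv_mul_cancel] at h4
      exact h4.symm
    have h5 : σ * (σ⁻¹ * τ) = τ := by group
    rw [← h5, hmul, h3, mul_one]
  let fb : (M ≃ₐ[K] M) → Mˣ := fun g => Units.mk0 (algebraMap K M (χ (lft g)))
    ((_root_.map_ne_zero _).2 (hχ _))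
  have hco : groupCohomology.IsMulCocycle₁ fb := by
    intro g h
    apply Units.ext
    show algebraMap K M (χ (lft (g * h))) = g (algebraMap K M (χ (lft h))) *
      algebraMap K M (χ (lft g))
    have h3 : χ (lft (g * h)) = χ (lft g * lft h) := by
      apply hdep
      rw [hlft, map_mul, hlft, hlft]
    rw [h3, hmul, map_mul, g.commutes, mul_comm]
  obtain ⟨b, hb⟩ := groupCohomology.isMulCoboundary₁_of_isMulCocycle₁_of_aut_to_units fb hco
  refine ⟨((b : M) : Ω), ?_, fun σ => ?_⟩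
  · intro h
    exact b.ne_zero (Subtype.ext h)
  · have h3 := hb (AlgEquiv.restrictNormalHom M σ)
    have h4 : (AlgEquiv.restrictNormalHom M σ) (b : M) =
        algebraMap K M (χ (lft (AlgEquiv.restrictNormalHom M σ))) * b := by
      rw [div_eq_iff_eq_mul] at h3
      exact congrArg (fun u : Mˣ => (u : M)) h3
    have h6 : χ (lft (AlgEquiv.restrictNormalHom M σ)) = χ σ := hdep _ _ (hlft _)
    rw [h6] at h4
    have h7 : (((AlgEquiv.restrictNormalHom M σ) (b : M) : M) : Ω) =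
        ((algebraMap K M (χ σ) * b : M) : Ω) := congrArg (fun x : M => (x : Ω)) h4
    rw [hres] at h7
    rw [h7]
    rfl

end h90

section kap

variable {F : Type*} [Field F] {W W' : Affine F} {D A b D' b' : F}

/-- The Kummer function, or the inverse of the conjugate if it is zero. -/
noncomputable def kap (η A b : F) (P : W.Point) : F :=
  if hf η A b P = 0 then (hf (-η) A b P)⁻¹ else hf η A b P

/-- The cube of the Kummer function, as a function on the isogenous curve. -/
noncomputable def kz (η A b' : F) : W'.Point → F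
  | .zero => 1
  | .some X Y _ => if Y + η * (3 * A * X + b') = 0 then -(2 * η * b')⁻¹
      else Y + η * (3 * A * X + b')

/-- The property of the values of the Kummer function which gives the local conditions. -/
def Zc (η A b' z : F) : Prop :=
  z = 1 ∨ z * (2 * η * b') = -1 ∨ ∃ X, z ^ 2 - X ^ 3 = 2 * η * z * (3 * A * X + b')

variable (h : Isog W W' D A b D' b') {η : F} (hη : η ^ 2 = D')

include h hη

theorem kz_ne (Q : W'.Point) : kz η A b' Q ≠ 0 := by
  rcases Q with _ | ⟨X, Y, hXY⟩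
  · exact one_ne_zero
  · simp only [kz]
    split_ifs with h1
    · exact neg_ne_zero.2 (inv_ne_zero (mul_ne_zero (mul_ne_zero h.E.two (eta_ne h hη))
        h.E'.neb))
    · exact h1

theorem kz_cond (Q : W'.Point) : Zc η A b' (kz η A b' Q) := by
  rcases Q with _ | ⟨X, Y, hXY⟩
  · exact Or.inl rfl
  · simp only [kz]
    have hY := h.E'.nonsingular.1 hXY
    split_ifs with h1
    · right; left
      have : 2 * η * b' ≠ 0 := mul_ne_zero (mul_ne_zero h.E.two (eta_ne h hη)) h.E'.neb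
      rw [neg_mul, inv_mul_cancel₀ this]
    · right; right
      refine ⟨X, ?_⟩
      rw [← hη] at hY
      linear_combination hY

/-- The two functions do not vanish simultaneously. -/
theorem hf_both {P : W.Point} (hP : phi h P ≠ 0) (h1 : hf η A b P = 0) :
    hf (-η) A b P ≠ 0 ∧ kz η A b' (phi h P) = (hf (-η) A b P)⁻¹ ^ 3 := by
  rcases P with _ | ⟨x, y, hxy⟩
  · exact absurd (phi_zero h) hP
  · have hx : x ≠ 0 := by
      rintro rfl
      exact hP (phi_some0 h hxy rfl)
    have e1 := hf_mul h hη hxy hx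
    have e2 := hf_sub h hη hxy hx
    have e3 := hf_cube h hη hxy hx
    rw [h1, zero_mul] at e1
    rw [← e1, h1, zero_pow three_ne_zero] at e2
    rw [h1, zero_pow three_ne_zero] at e3
    have e4 : hf (-η) A b (Point.some x y hxy) ^ 3 = -(2 * η * b') := by
      linear_combination -e2
    have hne : 2 * η * b' ≠ 0 := mul_ne_zero (mul_ne_zero h.E.two (eta_ne h hη)) h.E'.neb
    refine ⟨?_, ?_⟩
    · intro h0
      rw [h0, zero_pow three_ne_zero] at e4
      exact hne (neg_eq_zero.1 e4.symm)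
    · rw [phi_some h _ hx]
      simp only [kz]
      rw [if_pos e3.symm, inv_pow, e4, inv_neg]

theorem kap_cube {P : W.Point} (hP : phi h P ≠ 0) :
    kap η A b P ^ 3 = kz η A b' (phi h P) := by
  unfold kap
  split_ifs with h1
  · exact (hf_both h hη hP h1).2.symm
  · rcases P with _ | ⟨x, y, hxy⟩
    · exact absurd (phi_zero h) hP
    · have hx : x ≠ 0 := by
        rintro rfl
        exact hP (phi_some0 h hxy rfl)
      rw [phi_some h _ hx]
      have e3 := hf_cube h hη hxy hx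
      simp only [kz]
      rw [if_neg, e3]
      rw [← e3]
      exact pow_ne_zero 3 h1

theorem kap_ne {P : W.Point} (hP : phi h P ≠ 0) : kap η A b P ≠ 0 := by
  intro h0
  have := kap_cube h hη hP
  rw [h0, zero_pow three_ne_zero] at this
  exact kz_ne h hη _ this.symm

theorem kap_ker {P T : W.Point} (hT : phi h T = 0) (hP : phi h P ≠ 0) :
    kap η A b (T + P) = chi η b T * kap η A b P := by
  have e1 := hf_ker h hη hT hP
  have hη' : (-η) ^ 2 = D' := by rw [neg_sq, hη]
  have e2 := hf_ker h hη' hT hP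
  have hc := chi_ne h hη hT
  unfold kap
  rw [e1, e2, chi_eta_neg h hη hT]
  by_cases h1 : hf η A b P = 0
  · rw [if_pos (by rw [h1, mul_zero]), if_pos h1, mul_inv, inv_inv]
  · rw [if_neg (mul_ne_zero hc h1), if_neg h1]

end kap

section act

variable {K Ω Ω' : Type} [Field K] [Field Ω] [Field Ω'] [Algebra K Ω] [Algebra K Ω']

theorem kap_act (W : WeierstrassCurve K) (φ : Ω →ₐ[K] Ω') (η A b : Ω) (P : Pt W Ω) :
    kap (φ η) (φ A) (φ b) (act W φ P) = φ (kap η A b P) := by
  have e : hf (-(φ η)) (φ A) (φ b) (act W φ P) = φ (hf (-η) A b P) := by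
    rw [← map_neg, hf_act]
  unfold kap
  rw [hf_act, e]
  simp only [map_eq_zero]
  split_ifs <;> simp

theorem kz_act (W : WeierstrassCurve K) (φ : Ω →ₐ[K] Ω') (η A b : Ω) (P : Pt W Ω) :
    kz (φ η) (φ A) (φ b) (act W φ P) = φ (kz η A b P) := by
  rcases P with _ | ⟨x, y, hxy⟩
  · rw [act_zero]; simp [kz]
  · obtain ⟨h1, hh⟩ := act_some W φ hxy
    rw [hh]
    have e : φ y + φ η * (3 * φ A * φ x + φ b) = φ (y + η * (3 * A * x + b)) := by
      simp only [map_add, map_mul, map_ofNat]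
    simp only [kz, e, map_eq_zero]
    split_ifs
    · rw [map_neg, map_inv₀, map_mul, map_mul, map_ofNat]
    · rfl

end act

section kummer

variable {K F Ω : Type} [Field K] [Field F] [Field Ω] [Algebra K F] [Algebra F Ω] [Algebra K Ω]
  [IsScalarTower K F Ω] {W W' : WeierstrassCurve K} {D A b D' b' : K}
  (h : Isog W.toAffine W'.toAffine D A b D' b') {η δ : F} (hη : η ^ 2 = algebraMap K F D')
  (hδ : δ ^ 2 = algebraMap K F D)

include hη in
theorem etaΩ : (algebraMap F Ω η) ^ 2 = algebraMap K Ω D' := by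
  rw [← map_pow, hη, ← IsScalarTower.algebraMap_apply K F Ω]

include hδ in
/-- The points of the kernel are rational. -/
theorem ker_fix {S : Pt W Ω} (hS : ph h Ω S = 0) (σ : Ω ≃ₐ[F] Ω) : act W (rs K σ) S = S := by
  rcases (phi_ker (h.bc Ω) S).1 hS with rfl | ⟨n, hn, rfl⟩
  · exact map_zero _
  · obtain ⟨h1, hh⟩ := act_some W (rs K σ) hn
    rw [hh]
    obtain ⟨hnn, -⟩ := n_eq (h.bc Ω) hn
    have h5 : (n - algebraMap F Ω δ * algebraMap K Ω b) *
        (n + algebraMap F Ω δ * algebraMap K Ω b) = 0 := by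
      have : algebraMap F Ω δ ^ 2 = algebraMap K Ω D := by
        rw [← map_pow, hδ, ← IsScalarTower.algebraMap_apply K F Ω]
      linear_combination hnn - algebraMap K Ω b ^ 2 * this
    have e1 : rs K σ (algebraMap F Ω δ) = algebraMap F Ω δ := σ.commutes δ
    have e2 : rs K σ (algebraMap K Ω b) = algebraMap K Ω b := (rs K σ).commutes b
    have hn' : rs K σ n = n := by
      rcases mul_eq_zero.1 h5 with h6 | h6
      · rw [sub_eq_zero.1 h6, map_mul, e1, e2]
      · rw [eq_neg_of_add_eq_zero_left h6, map_neg, map_mul, e1, e2]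
    simp only [hn', map_zero]

include h hη hδ

theorem chi_fix {S : Pt W Ω} (hS : ph h Ω S = 0) (σ : Ω ≃ₐ[F] Ω) :
    σ (chi (algebraMap F Ω η) (algebraMap K Ω b) S) =
      chi (algebraMap F Ω η) (algebraMap K Ω b) S := by
  have h1 := chi_act W (rs K σ) (algebraMap F Ω η) (algebraMap K Ω b) S
  rw [ker_fix h hδ hS, (rs K σ).commutes] at h1
  have e1 : rs K σ (algebraMap F Ω η) = algebraMap F Ω η := σ.commutes η
  rw [e1] at h1
  exact h1.symm

variable [IsGalois F Ω]

/-- The Kummer generator. -/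
theorem kummer3 {f : (Ω ≃ₐ[F] Ω) → Pt W Ω} (hf : IsCoc W f) (hk : ∀ σ, ph h Ω (f σ) = 0) :
    ∃ (t : Ω) (a : F), t ≠ 0 ∧ t ^ 3 = algebraMap F Ω a ∧
      ∀ σ, σ t = chi (algebraMap F Ω η) (algebraMap K Ω b) (f σ) * t := by
  have hη' := etaΩ (Ω := Ω) hη
  have hadd : ∀ σ τ, f (σ * τ) = f σ + f τ := fun σ τ => by
    rw [hf.mul, ker_fix h hδ (hk τ)]
  have hval : ∀ x : Pt W Ω, ∃ c : F, ph h Ω x = 0 →
      chi (algebraMap F Ω η) (algebraMap K Ω b) x = algebraMap F Ω c ∧ c ≠ 0 := by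
    intro x
    by_cases hx : ph h Ω x = 0
    · have : chi (algebraMap F Ω η) (algebraMap K Ω b) x ∈ Set.range (algebraMap F Ω) := by
        rw [InfiniteGalois.mem_range_algebraMap_iff_fixed]
        exact fun σ => chi_fix h hη hδ hx σ
      obtain ⟨c, hc⟩ := this
      refine ⟨c, fun _ => ⟨hc.symm, ?_⟩⟩
      rintro rfl
      rw [map_zero] at hc
      exact chi_ne (h.bc Ω) hη' hx hc.symm
    · exact ⟨0, fun h => absurd h hx⟩
  choose cv hcv using hval
  obtain ⟨t, ht, hk'⟩ := exists_root_l (K := F) (Ω := Ω) (fun τ => cv (f τ))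
    (fun σ => (hcv _ (hk _)).2) (fun σ τ => by
      apply (algebraMap F Ω).injective
      rw [map_mul]
      rw [← (hcv (f (σ * τ)) (hk _)).1, ← (hcv (f σ) (hk _)).1, ← (hcv (f τ) (hk _)).1, hadd]
      exact chi_add (h.bc Ω) hη' (hk _) (hk _))
    (hf.lc.comp cv)
  have key : ∀ σ, σ t = chi (algebraMap F Ω η) (algebraMap K Ω b) (f σ) * t := by
    intro σ
    rw [hk', (hcv _ (hk _)).1]
  have h3 : t ^ 3 ∈ Set.range (algebraMap F Ω) := by
    rw [InfiniteGalois.mem_range_algebraMap_iff_fixed]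
    intro σ
    rw [map_pow, key, mul_pow, chi_cube (h.bc Ω) hη' (hk _), one_mul]
  obtain ⟨a, ha⟩ := h3
  exact ⟨t, a, ht, ha.symm, key⟩

omit [IsGalois F Ω] in
/-- The Kummer function of a point with rational image. -/
theorem kap_gal {P : Pt W Ω} (hP : ∀ σ : Ω ≃ₐ[F] Ω, act W' (rs K σ) (ph h Ω P) = ph h Ω P)
    (σ : Ω ≃ₐ[F] Ω) : ph h Ω (act W (rs K σ) P - P) = 0 ∧ (ph h Ω P ≠ 0 →
      σ (kap (algebraMap F Ω η) (algebraMap K Ω A) (algebraMap K Ω b) P) =
        chi (algebraMap F Ω η) (algebraMap K Ω b) (act W (rs K σ) P - P) *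
          kap (algebraMap F Ω η) (algebraMap K Ω A) (algebraMap K Ω b) P) := by
  have hη' := etaΩ (Ω := Ω) hη
  have h1 : ph h Ω (act W (rs K σ) P - P) = 0 := by
    rw [map_sub, ph_act, hP, sub_self]
  refine ⟨h1, fun h0 => ?_⟩
  have h2 := kap_ker (h.bc Ω) hη' (A := algebraMap K Ω A) h1 h0
  rw [sub_add_cancel] at h2
  rw [← h2]
  have h3 := kap_act W (rs K σ) (algebraMap F Ω η) (algebraMap K Ω A) (algebraMap K Ω b) P
  have e1 : rs K σ (algebraMap F Ω η) = algebraMap F Ω η := σ.commutes η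
  rw [e1, (rs K σ).commutes, (rs K σ).commutes] at h3
  rw [h3]
  rfl

omit [IsGalois F Ω] in
/-- The cube roots of unity are rational. -/
theorem cube_one {w : Ω} (hw : w ^ 3 = 1) (σ : Ω ≃ₐ[F] Ω) : σ w = w := by
  have h1 : (w - 1) * (w ^ 2 + w + 1) = 0 := by linear_combination hw
  rcases mul_eq_zero.1 h1 with h2 | h2
  · rw [sub_eq_zero.1 h2, map_one]
  · have hD : algebraMap K F D ≠ 0 := (_root_.map_ne_zero _).2 h.E.neD
    have hδ0 : δ ≠ 0 := by
      rintro rfl
      apply hD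
      rw [← hδ]; ring
    have t2 : (2 : Ω) ≠ 0 := (h.bc Ω).E.two
    have h3 : (2 * w + 1) ^ 2 * algebraMap F Ω δ ^ 2 = algebraMap F Ω η ^ 2 := by
      have e : algebraMap F Ω η ^ 2 = -3 * algebraMap F Ω δ ^ 2 := by
        rw [← map_pow, ← map_pow, hη, hδ, h.hD]
        simp only [map_mul, map_neg, map_ofNat]
      linear_combination 4 * algebraMap F Ω δ ^ 2 * h2 - e
    have h4 : ((2 * w + 1) * algebraMap F Ω δ - algebraMap F Ω η) *
        ((2 * w + 1) * algebraMap F Ω δ + algebraMap F Ω η) = 0 := by linear_combination h3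
    have hδΩ : algebraMap F Ω δ ≠ 0 := (_root_.map_ne_zero _).2 hδ0
    have h5 : ∃ c : F, w = algebraMap F Ω c := by
      rcases mul_eq_zero.1 h4 with h6 | h6
      · refine ⟨(η / δ - 1) / 2, ?_⟩
        simp only [map_div₀, map_sub, map_one, map_ofNat]
        field_simp
        linear_combination h6
      · refine ⟨(-η / δ - 1) / 2, ?_⟩
        simp only [map_div₀, map_sub, map_one, map_ofNat, map_neg]
        field_simp
        linear_combination h6
    obtain ⟨c, rfl⟩ := h5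
    exact σ.commutes c

omit [IsGalois F Ω] in
/-- A cocycle whose Kummer generator is a cube is trivial. -/
theorem step_zero {f : (Ω ≃ₐ[F] Ω) → Pt W Ω} (hk : ∀ σ, ph h Ω (f σ) = 0)
    {t : Ω} (ht : t ≠ 0) (kt : ∀ σ, σ t = chi (algebraMap F Ω η) (algebraMap K Ω b) (f σ) * t)
    {c : F} (e : t ^ 3 = algebraMap F Ω c ^ 3) (σ : Ω ≃ₐ[F] Ω) : f σ = 0 := by
  have hη' := etaΩ (Ω := Ω) hη
  have hc : algebraMap F Ω c ≠ 0 := by
    intro h0
    rw [h0, zero_pow three_ne_zero] at e
    exact pow_ne_zero 3 ht e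
  have h1 : (t / algebraMap F Ω c) ^ 3 = 1 := by
    rw [div_pow, e, div_self (pow_ne_zero 3 hc)]
  have h2 := cube_one h hη hδ h1 σ
  rw [map_div₀, σ.commutes, kt] at h2
  apply chi_one (h.bc Ω) hη' (hk σ)
  have h3 : chi (algebraMap F Ω η) (algebraMap K Ω b) (f σ) * t = t := by
    rw [div_eq_div_iff hc hc] at h2
    exact mul_right_cancel₀ hc h2
  exact (mul_eq_right₀ ht).1 h3

omit [IsGalois F Ω] in
/-- A cocycle whose Kummer generator is that of a point is the coboundary of the point. -/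
theorem step_pt {f : (Ω ≃ₐ[F] Ω) → Pt W Ω} (hk : ∀ σ, ph h Ω (f σ) = 0)
    {t : Ω} (ht : t ≠ 0) (kt : ∀ σ, σ t = chi (algebraMap F Ω η) (algebraMap K Ω b) (f σ) * t)
    {P : Pt W Ω} (hP : ∀ σ : Ω ≃ₐ[F] Ω, act W' (rs K σ) (ph h Ω P) = ph h Ω P)
    (h0 : ph h Ω P ≠ 0) {c : F}
    (e : t ^ 3 = algebraMap F Ω c ^ 3 * kz (algebraMap F Ω η) (algebraMap K Ω A)
      (algebraMap K Ω b') (ph h Ω P)) (σ : Ω ≃ₐ[F] Ω) : f σ = act W (rs K σ) P - P := by
  have hη' := etaΩ (Ω := Ω) hη
  obtain ⟨q1, q2⟩ := kap_gal h hη hδ hP σ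
  have q2 := q2 h0
  have e' : kap (algebraMap F Ω η) (algebraMap K Ω A) (algebraMap K Ω b) P ^ 3 =
    kz (algebraMap F Ω η) (algebraMap K Ω A) (algebraMap K Ω b') (ph h Ω P) :=
    kap_cube (h.bc Ω) hη' h0
  have hne : kap (algebraMap F Ω η) (algebraMap K Ω A) (algebraMap K Ω b) P ≠ 0 :=
    kap_ne (h.bc Ω) hη' h0
  set u := kap (algebraMap F Ω η) (algebraMap K Ω A) (algebraMap K Ω b) P with hu
  rw [← e'] at e
  have hc : algebraMap F Ω c ≠ 0 := by
    intro h0
    rw [h0, zero_pow three_ne_zero, zero_mul] at e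
    exact pow_ne_zero 3 ht e
  have h1 : (t / (algebraMap F Ω c * u)) ^ 3 = 1 := by
    rw [div_pow, e, mul_pow, div_self (mul_ne_zero (pow_ne_zero 3 hc) (pow_ne_zero 3 hne))]
  have h2 := cube_one h hη hδ h1 σ
  rw [map_div₀, map_mul, σ.commutes, kt, q2] at h2
  apply chi_inj (h.bc Ω) hη' (hk σ) q1
  have c2 := chi_ne (h.bc Ω) hη' q1
  have h3 : chi (algebraMap F Ω η) (algebraMap K Ω b) (f σ) * t =
      chi (algebraMap F Ω η) (algebraMap K Ω b) (act W (rs K σ) P - P) * t := by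
    rw [div_eq_div_iff (mul_ne_zero hc (mul_ne_zero c2 hne)) (mul_ne_zero hc hne)] at h2
    apply mul_right_cancel₀ (mul_ne_zero hc hne)
    linear_combination h2
  exact mul_right_cancel₀ ht h3

end kummer

end Pool.Agent.T6.H12.TD
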