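import Pool.Agent.T6.H12.TD.Desc3

/-!
# The cocycles with values in the kernel come from points
-/

set_option autoImplicit false
set_option linter.all false

open Polynomial IsDedekindDomain WeierstrassCurve WeierstrassCurve.Affine
open scoped Classical

namespace Pool.Agent.T6.H12.TD

open Pool.Agent.TH115.GD (Pt act incl rs ak pl val_poly IsTower Sep Comp CompInf LocallyTrivial
  LocTriv IsCoc Preserves lift preserves wFin act_some act_inj act_act rs_act_incl act_zero)

/-- `P` comes from a point over `K` in the subgroup `M`. -/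
def InK {K : Type} [Field K] {W : WeierstrassCurve K} (M : AddSubgroup (Pt W K)) {Ω : Type}
    [Field Ω] [Algebra K Ω] (P : Pt W Ω) : Prop :=
  ∃ P0 ∈ M, act W (incl K K Ω) P0 = P

section ink

variable {K : Type} [Field K] {W : WeierstrassCurve K} {M : AddSubgroup (Pt W K)} {Ω : Type}
  [Field Ω] [Algebra K Ω]

theorem InK.zero : InK M (0 : Pt W Ω) := ⟨0, M.zero_mem, map_zero _⟩

theorem InK.add {P Q : Pt W Ω} (hP : InK M P) (hQ : InK M Q) : InK M (P + Q) := by
  obtain ⟨P0, h1, h2⟩ := hP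
  obtain ⟨Q0, h3, h4⟩ := hQ
  exact ⟨P0 + Q0, M.add_mem h1 h3, by rw [map_add, h2, h4]⟩

theorem InK.nsmul {P : Pt W Ω} (hP : InK M P) (n : ℕ) : InK M (n • P) := by
  obtain ⟨P0, h1, h2⟩ := hP
  exact ⟨n • P0, M.nsmul_mem h1 n, by rw [map_nsmul, h2]⟩

theorem InK.neg {P : Pt W Ω} (hP : InK M P) : InK M (-P) := by
  obtain ⟨P0, h1, h2⟩ := hP
  exact ⟨-P0, M.neg_mem h1, by rw [map_neg, h2]⟩

theorem InK.fix {P : Pt W Ω} (hP : InK M P) (φ : Ω →ₐ[K] Ω) : act W φ P = P := by
  obtain ⟨P0, -, rfl⟩ := hP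
  have h1 : φ.comp (incl K K Ω) = incl K K Ω := AlgHom.ext fun x => φ.commutes x
  rw [act_act, h1]

end ink

/-- All the polynomials with prime factors dividing `p` are represented, modulo cubes of `F`, by the
Kummer function at points over `K` whose triple is in the subgroup `M`. -/
def Enough3 {k : Type} [Field k] (K F : Type) [Field K] [Algebra k[X] K] [Field F]
    [Algebra K F] (W' : WeierstrassCurve K) (M : AddSubgroup (Pt W' K)) (A b' : K) (η : F)
    (p : k[X]) : Prop :=
  ∀ U V : k[X], U.Monic → V.Monic → Squarefree U → Squarefree V → U ∣ p → V ∣ p →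
    ∃ (Q : Pt W' K) (c : F), 3 • Q ∈ M ∧ c ≠ 0 ∧
      algebraMap K F (algebraMap k[X] K (U * V ^ 2)) = c ^ 3 *
        kz η (algebraMap K F A) (algebraMap K F b') (act W' (incl K K F) Q)

section pm

variable {F : Type*} [Field F] {W W' : Affine F} {D A b D' b' : F}
  (h : Isog W W' D A b D' b') {η : F} (hη : η ^ 2 = D')

include h hη

theorem pts_pm : (∃ n, ∃ hn : W'.Nonsingular 0 n,
      kz η A b' (Point.some 0 n hn) = 2 * η * b') ∧
    ∃ n, ∃ hn : W'.Nonsingular 0 n, kz η A b' (Point.some 0 n hn) = -(2 * η * b')⁻¹ := by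
  have t2 : (2 : F) ≠ 0 := h.E.two
  constructor
  · refine ⟨η * b', ?_, ?_⟩
    · rw [h.E'.nonsingular, ← hη]; ring
    · simp only [kz, mul_zero, zero_add]
      rw [if_neg]
      · ring
      · rw [← two_mul]
        exact mul_ne_zero t2 (mul_ne_zero (eta_ne h hη) h.E'.neb)
  · refine ⟨-(η * b'), ?_, ?_⟩
    · rw [h.E'.nonsingular, ← hη]; ring
    · simp only [kz, mul_zero, zero_add]
      rw [if_pos (by ring)]

end pm

section lemA

variable {k k' K F : Type} [Field k] [Field k'] [Algebra k k'] [IsSepClosure k k']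
  [Field K] [Algebra k[X] K] [IsFractionRing k[X] K] [Field F] [Algebra k'[X] F]
  [IsFractionRing k'[X] F] [Algebra K F]
  (hKF : ∀ p : k[X], algebraMap K F (algebraMap k[X] K p) =
    algebraMap k'[X] F (p.map (algebraMap k k')))
  {W W' W'' : WeierstrassCurve K} {D0 D0' : k} {A0 p : k[X]} {b D'' b'' : K}
  (h : Isog W.toAffine W'.toAffine (algebraMap k[X] K (C D0)) (algebraMap k[X] K A0) b
    (algebraMap k[X] K (C D0')) (algebraMap k[X] K p))
  (h' : Isog W'.toAffine W''.toAffine (algebraMap k[X] K (C D0')) (algebraMap k[X] K A0)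
    (algebraMap k[X] K p) D'' b'')
  {η δ : k'} (hη : η ^ 2 = algebraMap k k' D0') (hδ : δ ^ 2 = algebraMap k k' D0)

include hKF h h' hη hδ

theorem lemA (h2 : (2 : k) ≠ 0) (h3 : (3 : k) ≠ 0) {M : AddSubgroup (Pt W' K)}
    (hsep : ∀ π : k[X], Irreducible π → π ∣ p → π.Separable)
    (hrig : ∀ π : k[X], Irreducible π → π ∣ p → Rigid3 k' D0' π)
    (hpt : IsSquare D0' → Enough3 K F W' M (algebraMap k[X] K A0) (algebraMap k[X] K p)
      (cF F η) p)
    (htor : ∀ (Q : Pt W' (Sep F)) (m : ℕ), (∀ σ : Sep F ≃ₐ[F] Sep F, act W' (rs K σ) Q = Q) →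
      3 ^ m • Q = 0 → Q = 0 ∨ ∃ n hn, Q = Point.some 0 n hn)
    {f : (Sep F ≃ₐ[F] Sep F) → Pt W (Sep F)} (hf : IsCoc W f)
    (hk : ∀ σ, ph h (Sep F) (f σ) = 0)
    (hl : ∀ v : HeightOneSpectrum k'[X], LocTriv W (Comp k'[X] F v) (Sep (Comp k'[X] F v)) f)
    (hi : InvOne3 W f) :
    ∃ R : Pt W (Sep F), (∀ σ : Sep F ≃ₐ[F] Sep F, f σ = act W (rs K σ) R - R) ∧
      InK M (3 • ph h (Sep F) R) := by
  haveI : IsSepClosed k' := IsSepClosure.sep_closed k
  have hηF := cF_sq (F := F) hKF hη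
  have hδF := cF_sq (F := F) hKF hδ
  have h2' : (2 : k') ≠ 0 := by
    rw [← map_ofNat (algebraMap k k') 2]
    exact (_root_.map_ne_zero _).2 h2
  have h3' : (3 : k') ≠ 0 := by
    rw [← map_ofNat (algebraMap k k') 3]
    exact (_root_.map_ne_zero _).2 h3
  have hη' := etaΩ (Ω := Sep F) hηF
  have hη0 : η ≠ 0 := by
    rintro rfl
    have h5 := h.E'.neD
    apply h5
    apply (algebraMap K F).injective
    rw [← hηF, map_zero]
    unfold cF
    rw [C_0, map_zero]
    ring
  have hbF : algebraMap K F (algebraMap k[X] K p) ≠ 0 := (_root_.map_ne_zero _).2 h.E'.neb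
  have hp0 : p ≠ 0 := by
    rintro rfl
    exact h.E'.neb (map_zero _)
  obtain ⟨t, a, ht, ha, e, kt, hloc, hgal⟩ := data3 hKF h hη hδ h2 htor hf hk hl hi
  obtain ⟨g1, g2⟩ := global3 hKF h3 hp0 hsep hrig hη ha hloc hgal
  -- the trivial case
  have triv : ∀ y : F, a = y ^ 3 → ∃ R : Pt W (Sep F), (∀ σ : Sep F ≃ₐ[F] Sep F,
      f σ = act W (rs K σ) R - R) ∧ InK M (3 • ph h (Sep F) R) := by
    intro y hy
    refine ⟨0, fun σ => ?_, ?_⟩
    · rw [map_zero, sub_zero]
      exact step_zero h hηF hδF hk ht kt (c := y) (by rw [e, hy, map_pow]) σ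
    · rw [map_zero, smul_zero]
      exact InK.zero
  -- the case of a point
  have point : ∀ (Q : Pt W' (Sep F)) (y : F), Q ≠ 0 → InK M (3 • Q) →
      (∀ σ : Sep F ≃ₐ[F] Sep F, act W' (rs K σ) Q = Q) →
      algebraMap F (Sep F) a = algebraMap F (Sep F) y ^ 3 * kz (algebraMap F (Sep F) (cF F η))
        (algebraMap K (Sep F) (algebraMap k[X] K A0))
        (algebraMap K (Sep F) (algebraMap k[X] K p)) Q →
      ∃ R : Pt W (Sep F), (∀ σ : Sep F ≃ₐ[F] Sep F,
      f σ = act W (rs K σ) R - R) ∧ InK M (3 • ph h (Sep F) R) := by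
    intro Q y hQ0 hQ3 hQf hay
    obtain ⟨R, hR⟩ := phi_surj (h.bc (Sep F)) Q
    have hR' : ph h (Sep F) R = Q := hR
    refine ⟨R, fun σ => ?_, ?_⟩
    · refine step_pt h hηF hδF hk ht kt (P := R) (fun σ => by rw [hR']; exact hQf σ)
        (by rw [hR']; exact hQ0) (c := y) ?_ σ
      rw [hR', e, hay]
    · rw [hR']
      exact hQ3
  by_cases hsq : IsSquare D0'
  · obtain ⟨U, V, hU1, hV1, hU2, hV2, hU3, hV3, y, hy, he⟩ := g2
    obtain ⟨Q, c, hQz, hc, hQ⟩ := hpt hsq V U hV1 hU1 hV2 hU2 hV3 hU3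
    have hUF : algebraMap K F (algebraMap k[X] K U) ≠ 0 := by
      simpa using hU1.ne_zero
    have hVF : algebraMap K F (algebraMap k[X] K V) ≠ 0 := by
      simpa using hV1.ne_zero
    set u := algebraMap K F (algebraMap k[X] K U) with hu
    set v := algebraMap K F (algebraMap k[X] K V) with hv
    set κ := kz (cF F η) (algebraMap K F (algebraMap k[X] K A0))
      (algebraMap K F (algebraMap k[X] K p)) (act W' (incl K K F) Q) with hκ
    have he' : a * (u * v ^ 2) = y ^ 3 := by
      rw [← he]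
      simp only [map_mul, map_pow, hu, hv]
    have hQ' : v * u ^ 2 = c ^ 3 * κ := by
      rw [← hQ]
      simp only [map_mul, map_pow, hu, hv]
    have hfin : a = (y * c / (u * v)) ^ 3 * κ := by
      have h5 : a * (u * v ^ 2) * (v * u ^ 2) = y ^ 3 * (c ^ 3 * κ) := by rw [he', hQ']
      field_simp
      linear_combination h5
    by_cases hQ0 : Q = 0
    · subst hQ0
      have : κ = 1 := by
        rw [hκ, map_zero]
        rfl
      rw [this, mul_one] at hfin
      exact triv _ hfin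
    · refine point (act W' (incl K K (Sep F)) Q) (y * c / (u * v)) ?_ ?_ ?_ ?_
      · intro h0
        apply hQ0
        apply act_inj W' (incl K K (Sep F))
        rw [h0, map_zero]
      · refine ⟨3 • Q, hQz, ?_⟩
        rw [map_nsmul]
      · intro σ
        exact InK.fix (M := ⊤) ⟨Q, trivial, rfl⟩ _
      · have e4 := kz_act W' (incl K F (Sep F)) (cF F η) (algebraMap K F (algebraMap k[X] K A0))
          (algebraMap K F (algebraMap k[X] K p)) (act W' (incl K K F) Q)
        have g1' : ∀ x : K, incl K F (Sep F) (algebraMap K F x) = algebraMap K (Sep F) x :=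
          fun x => (IsScalarTower.algebraMap_apply K F (Sep F) x).symm
        have g3 : incl K F (Sep F) (cF F η) = algebraMap F (Sep F) (cF F η) := rfl
        have g4 : act W' (incl K F (Sep F)) (act W' (incl K K F) Q) =
            act W' (incl K K (Sep F)) Q := by
          rw [act_act]
          rfl
        rw [g1', g1', g3, g4] at e4
        rw [e4]
        have g5 : incl K F (Sep F) κ = algebraMap F (Sep F) κ := rfl
        rw [← hκ, g5, ← map_pow, ← map_mul, ← hfin]
  · obtain ⟨j, hj⟩ := g1 hsq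
    have hcst : (2 : F) * cF F η = cF F (2 * η) := by
      unfold cF
      rw [C_mul, map_mul, map_ofNat, map_ofNat]
    set B := 2 * cF F η * algebraMap K F (algebraMap k[X] K p) with hB
    have hBne : B ≠ 0 := by
      rw [hB, hcst]
      exact mul_ne_zero (cF_ne (mul_ne_zero h2' hη0)) hbF
    have hBor : ∀ v : HeightOneSpectrum k'[X], or3 v B =
        or3 v (algebraMap K F (algebraMap k[X] K p)) := by
      intro v
      rw [hB, hcst, or3_mul v (cF_ne (mul_ne_zero h2' hη0)) hbF,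
        or3_of_one v (cF_val v (mul_ne_zero h2' hη0)), zero_add]
    have hBΩ : algebraMap F (Sep F) B = 2 * algebraMap F (Sep F) (cF F η) *
        algebraMap K (Sep F) (algebraMap k[X] K p) := by
      rw [hB, map_mul, map_mul, map_ofNat, ← IsScalarTower.algebraMap_apply K F (Sep F)]
    obtain ⟨⟨n1, hn1, k1⟩, ⟨n2, hn2, k2⟩⟩ := pts_pm (h.bc (Sep F)) hη'
      (A := algebraMap K (Sep F) (algebraMap k[X] K A0))
    have hker : ∀ (n : Sep F) (hn : (W'.baseChange (Sep F)).toAffine.Nonsingular 0 n),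
        (Point.some 0 n hn : Pt W' (Sep F)) ≠ 0 ∧ InK M (3 • (Point.some 0 n hn : Pt W' (Sep F)))
        ∧ (∀ σ : Sep F ≃ₐ[F] Sep F, act W' (rs K σ) (Point.some 0 n hn) = Point.some 0 n hn) := by
      intro n hn
      have h0' : phi (h'.bc (Sep F)) (Point.some 0 n hn) = 0 := phi_some0 (h'.bc (Sep F)) hn rfl
      have h0 : ph h' (Sep F) (Point.some 0 n hn) = 0 := h0'
      refine ⟨Point.some_ne_zero _, ?_, fun σ => ker_fix h' hηF h0 σ⟩
      have h3 := three_ker (h'.bc (Sep F)) h0'
      have h3' : 3 • (Point.some 0 n hn : Pt W' (Sep F)) = 0 := h3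
      rw [h3']
      exact InK.zero
    have key : ∀ x : ZMod 3, x = 0 ∨ x = 1 ∨ x = 2 := by decide
    rcases key j with rfl | rfl | rfl
    · obtain ⟨y, hy, e1⟩ := cube_elem (k' := k') h3' ha (fun v => by rw [hj, zero_mul])
      exact triv y e1
    · obtain ⟨y, hy, e1⟩ := cube_elem (k' := k') h3' (mul_ne_zero ha (inv_ne_zero hBne))
        (fun v => by
          rw [or3_mul v ha (inv_ne_zero hBne), or3_inv, hj, hBor, one_mul, add_neg_cancel])
      obtain ⟨q1, q2, q3⟩ := hker n1 hn1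
      refine point _ y q1 q2 q3 ?_
      have k1' : kz (algebraMap F (Sep F) (cF F η))
        (algebraMap K (Sep F) (algebraMap k[X] K A0))
        (algebraMap K (Sep F) (algebraMap k[X] K p)) (Point.some 0 n1 hn1 : Pt W' (Sep F)) =
        2 * algebraMap F (Sep F) (cF F η) * algebraMap K (Sep F) (algebraMap k[X] K p) := k1
      rw [k1', ← hBΩ, ← map_pow, ← map_mul, ← e1, mul_assoc, inv_mul_cancel₀ hBne, mul_one]
    · obtain ⟨y, hy, e1⟩ := cube_elem (k' := k') h3' (mul_ne_zero ha hBne)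
        (fun v => by
          rw [or3_mul v ha hBne, hj, hBor]
          have : ∀ x : ZMod 3, 2 * x + x = 0 := by decide
          exact this _)
      obtain ⟨q1, q2, q3⟩ := hker n2 hn2
      refine point _ (-y) q1 q2 q3 ?_
      have k2' : kz (algebraMap F (Sep F) (cF F η))
        (algebraMap K (Sep F) (algebraMap k[X] K A0))
        (algebraMap K (Sep F) (algebraMap k[X] K p)) (Point.some 0 n2 hn2 : Pt W' (Sep F)) =
        -(2 * algebraMap F (Sep F) (cF F η) * algebraMap K (Sep F) (algebraMap k[X] K p))⁻¹ := k2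
      rw [k2', ← hBΩ, ← map_inv₀, ← map_neg, ← map_pow, ← map_mul]
      congr 1
      have : (-y) ^ 3 * -B⁻¹ = y ^ 3 * B⁻¹ := by ring
      rw [this, ← e1, mul_assoc, mul_inv_cancel₀ hBne, mul_one]

end lemA

end Pool.Agent.T6.H12.TD
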