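import Pool.Agent.T6.H12.TD.Kum3

/-!
# Local conditions and Galois invariance of Kummer generators
-/

set_option autoImplicit false
set_option linter.all false

open WeierstrassCurve WeierstrassCurve.Affine
open scoped Classical

namespace Pool.Agent.T6.H12.TD

open Pool.Agent.TH115.GD (Pt act incl rs ak act_zero act_some act_inj act_act fixed_point rs_apply
  rs_mul rs_incl rs_act_incl IsCoc LocTriv exists_restrict Preserves exists_conj)
open Pool.Agent.W309.TD (locConst_apply compare)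

section loc

variable {K F Ω L Ω' : Type} [Field K] [Field F] [Field Ω] [Field L] [Field Ω']
  [Algebra K F] [Algebra F Ω] [Algebra K Ω] [IsScalarTower K F Ω] [IsGalois F Ω]
  [Algebra K L] [Algebra F L] [IsScalarTower K F L]
  [Algebra L Ω'] [Algebra K Ω'] [Algebra F Ω'] [IsScalarTower K L Ω'] [IsScalarTower F L Ω']
  [IsScalarTower K F Ω'] [IsGalois L Ω']
  {W W' : WeierstrassCurve K} {D A b D' b' : K}
  (h : Isog W.toAffine W'.toAffine D A b D' b') {η δ : F} (hη : η ^ 2 = algebraMap K F D')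
  (hδ : δ ^ 2 = algebraMap K F D)

include h hη hδ

theorem loc3 {f : (Ω ≃ₐ[F] Ω) → Pt W Ω} (hk : ∀ σ, ph h Ω (f σ) = 0)
    (hloc : LocTriv W L Ω' f) {t : Ω} {a : F} (ht : t ≠ 0) (e : t ^ 3 = algebraMap F Ω a)
    (kt : ∀ σ, σ t = chi (algebraMap F Ω η) (algebraMap K Ω b) (f σ) * t) :
    ∃ c z : L, c ≠ 0 ∧ z ≠ 0 ∧ algebraMap F L a = c ^ 3 * z ∧
      Zc (algebraMap F L η) (algebraMap K L A) (algebraMap K L b') z := by
  obtain ⟨ι, P, hP⟩ := hloc
  choose res hres using exists_restrict (F := F) (Ω := Ω) (L := L) (Ω' := Ω') ι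
  set ι' : Ω →ₐ[K] Ω' := ι.restrictScalars K with hι'
  have hιx : ∀ x, ι' x = ι x := fun x => rfl
  have hT : ∀ τ : Ω' ≃ₐ[L] Ω', act W ι' (f (res τ)) = act W (rs K τ) P - P :=
    fun τ => hP τ (res τ) (hres τ)
  have hηL : (algebraMap F L η) ^ 2 = algebraMap K L D' := by
    rw [← map_pow, hη, ← IsScalarTower.algebraMap_apply K F L]
  have hδL : (algebraMap F L δ) ^ 2 = algebraMap K L D := by
    rw [← map_pow, hδ, ← IsScalarTower.algebraMap_apply K F L]
  have hη' := etaΩ (K := K) (F := L) (Ω := Ω') hηL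
  have hker : ∀ τ : Ω' ≃ₐ[L] Ω', ph h Ω' (act W ι' (f (res τ))) = 0 := fun τ => by
    rw [ph_zero_act]; exact hk _
  have hPP : ∀ τ : Ω' ≃ₐ[L] Ω', act W' (rs K τ) (ph h Ω' P) = ph h Ω' P := by
    intro τ
    have h1 := hker τ
    rw [hT, map_sub, ph_act] at h1
    exact sub_eq_zero.1 h1
  obtain ⟨Q, hQ⟩ := fixed_point (K := K) (F := L) W' (ph h Ω' P) hPP
  have inj := (algebraMap L Ω').injective
  have ιn : ι t ≠ 0 := (map_ne_zero ι).2 ht
  -- the Kummer generator
  have l0 : ∀ τ : Ω' ≃ₐ[L] Ω', τ (ι t) =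
      chi (algebraMap L Ω' (algebraMap F L η)) (algebraMap K Ω' b) (act W ι' (f (res τ))) *
        ι t := by
    intro τ
    have h3 := chi_act W ι' (algebraMap F Ω η) (algebraMap K Ω b) (f (res τ))
    have e1 : ι' (algebraMap F Ω η) = algebraMap L Ω' (algebraMap F L η) := by
      rw [← IsScalarTower.algebraMap_apply F L Ω']
      exact ι.commutes η
    rw [ι'.commutes, e1] at h3
    rw [hres τ t, kt, map_mul, h3]
    rfl
  have w1 : (ι t) ^ 3 = algebraMap L Ω' (algebraMap F L a) := by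
    rw [← map_pow, e, ι.commutes, ← IsScalarTower.algebraMap_apply F L Ω']
  by_cases h0 : ph h Ω' P = 0
  · -- the trivial case
    have h1 : ∀ τ : Ω' ≃ₐ[L] Ω', τ (ι t) = ι t := by
      intro τ
      have h3 : act W ι' (f (res τ)) = 0 := by
        rw [hT, ker_fix h hδL h0, sub_self]
      rw [l0, h3, chi_zero, one_mul]
    have : ι t ∈ Set.range (algebraMap L Ω') := by
      rw [InfiniteGalois.mem_range_algebraMap_iff_fixed]
      exact h1
    obtain ⟨c, hc⟩ := this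
    refine ⟨c, 1, ?_, one_ne_zero, ?_, Or.inl rfl⟩
    · rintro rfl
      rw [map_zero] at hc
      exact ιn hc.symm
    · apply inj
      rw [← w1, ← hc, mul_one, map_pow]
  · have hkap : kap (algebraMap L Ω' (algebraMap F L η)) (algebraMap K Ω' A) (algebraMap K Ω' b) P
        ≠ 0 := kap_ne (h.bc Ω') hη' h0
    obtain ⟨c, hc, q⟩ := compare (K := L) ιn hkap
      (fun τ => chi (algebraMap L Ω' (algebraMap F L η)) (algebraMap K Ω' b)
        (act W ι' (f (res τ)))) (fun τ => chi_ne (h.bc Ω') hη' (hker τ)) l0 (fun τ => by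
        rw [hT]
        exact (kap_gal h hηL hδL hPP τ).2 h0)
    refine ⟨c, kz (algebraMap F L η) (algebraMap K L A) (algebraMap K L b') Q, hc, ?_, ?_, ?_⟩
    · exact kz_ne (h.bc L) hηL Q
    · apply inj
      have e3 := kap_cube (h.bc Ω') hη' (A := algebraMap K Ω' A) h0
      have e4 := kz_act W' (incl K L Ω') (algebraMap F L η) (algebraMap K L A)
        (algebraMap K L b') Q
      have g1 : incl K L Ω' (algebraMap K L A) = algebraMap K Ω' A :=
        (IsScalarTower.algebraMap_apply K L Ω' A).symm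
      have g2 : incl K L Ω' (algebraMap K L b') = algebraMap K Ω' b' :=
        (IsScalarTower.algebraMap_apply K L Ω' b').symm
      have g3 : incl K L Ω' (algebraMap F L η) = algebraMap L Ω' (algebraMap F L η) := rfl
      rw [g1, g2, g3, hQ] at e4
      rw [← w1, q, mul_pow, map_mul, map_pow]
      congr 1
      rw [e3]
      exact e4
    · exact kz_cond (h.bc L) hηL Q

end loc

section inv

variable {K F Ω : Type} [Field K] [Field F] [Field Ω] [Algebra K F] [Algebra F Ω] [Algebra K Ω]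
  [IsScalarTower K F Ω] [IsGalois F Ω] [IsSepClosed Ω] {W W' : WeierstrassCurve K}
  {D A b D' b' : K}
  (h : Isog W.toAffine W'.toAffine D A b D' b') {η δ : F} (hη : η ^ 2 = algebraMap K F D')
  (hδ : δ ^ 2 = algebraMap K F D)

/-- The class of `f` is fixed up to the coboundary of a torsion point. -/
def InvOne3 (W : WeierstrassCurve K) (f : (Ω ≃ₐ[F] Ω) → Pt W Ω) : Prop :=
  ∀ τ : Ω ≃ₐ[K] Ω, ∃ R : Pt W Ω, (∃ m : ℕ, 3 ^ m • R = 0) ∧
    ∀ (σ σ' : Ω ≃ₐ[F] Ω), (∀ x, τ (σ' x) = σ (τ x)) →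
      act W (ak τ) (f σ') - f σ = act W (rs K σ) R - R

include h hη hδ

/-- The values of the Kummer function at the points over the kernel of the next isogeny. -/
theorem kz_ker {Q : Pt W' Ω} (hQ : ∃ n hn, Q = Point.some 0 n hn) :
    kz (algebraMap F Ω η) (algebraMap K Ω A) (algebraMap K Ω b') Q =
        2 * algebraMap F Ω η * algebraMap K Ω b' ∨
      kz (algebraMap F Ω η) (algebraMap K Ω A) (algebraMap K Ω b') Q =
        -(2 * algebraMap F Ω η * algebraMap K Ω b')⁻¹ := by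
  obtain ⟨n, hn, rfl⟩ := hQ
  have hη' := etaΩ (Ω := Ω) hη
  have h1 := (h.bc Ω).E'.nonsingular.1 hn
  have h2 : (n - algebraMap F Ω η * algebraMap K Ω b') *
      (n + algebraMap F Ω η * algebraMap K Ω b') = 0 := by
    linear_combination h1 - algebraMap K Ω b' ^ 2 * hη'
  simp only [kz, mul_zero, zero_add]
  rcases mul_eq_zero.1 h2 with h3 | h3
  · left
    have t2 : (2 : Ω) ≠ 0 := (h.bc Ω).E.two
    have h4 : n = algebraMap F Ω η * algebraMap K Ω b' := sub_eq_zero.1 h3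
    have h5 : n + algebraMap F Ω η * algebraMap K Ω b' ≠ 0 := by
      rw [h4, ← two_mul]
      exact mul_ne_zero t2 (mul_ne_zero (eta_ne (h.bc Ω) hη') (h.bc Ω).E'.neb)
    rw [if_neg h5, h4]
    ring
  · right
    rw [if_pos h3]

/-- The action of the Galois group of `K` on the Kummer generator. -/
theorem inv3 (hpres : Preserves K F Ω)
    (htor : ∀ (Q : Pt W' Ω) (m : ℕ), (∀ σ : Ω ≃ₐ[F] Ω, act W' (rs K σ) Q = Q) → 3 ^ m • Q = 0 →
      Q = 0 ∨ ∃ n hn, Q = Point.some 0 n hn)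
    {f : (Ω ≃ₐ[F] Ω) → Pt W Ω} (hk : ∀ σ, ph h Ω (f σ) = 0) (hi : InvOne3 W f)
    {t : Ω} {a : F} (ht : t ≠ 0) (e : t ^ 3 = algebraMap F Ω a)
    (kt : ∀ σ, σ t = chi (algebraMap F Ω η) (algebraMap K Ω b) (f σ) * t) (τ : Ω ≃ₐ[K] Ω) :
    ∃ u z : F, u ≠ 0 ∧ (z = 1 ∨ z = 2 * η * algebraMap K F b' ∨
        z = -(2 * η * algebraMap K F b')⁻¹) ∧
      ((τ (algebraMap F Ω η) = algebraMap F Ω η ∧
          τ (algebraMap F Ω a) = algebraMap F Ω (u ^ 3 * (a * z))) ∨
        (τ (algebraMap F Ω η) = -algebraMap F Ω η ∧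
          τ (algebraMap F Ω a) = algebraMap F Ω (u ^ 3 * (a * z)⁻¹))) := by
  have hη' := etaΩ (Ω := Ω) hη
  obtain ⟨R, ⟨m, hm⟩, hrel⟩ := hi τ
  have hker : ∀ σ : Ω ≃ₐ[F] Ω, ph h Ω (act W (rs K σ) R - R) = 0 := by
    intro σ
    obtain ⟨σ', hσ'⟩ := exists_conj hpres τ σ
    rw [← hrel σ σ' hσ', map_sub, hk, sub_zero, ph_zero_act]
    exact hk σ'
  have hfix : ∀ σ : Ω ≃ₐ[F] Ω, act W' (rs K σ) (ph h Ω R) = ph h Ω R := by
    intro σ
    have h1 := hker σ
    rw [map_sub, ph_act] at h1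
    exact sub_eq_zero.1 h1
  have hR := htor (ph h Ω R) m hfix (by rw [← map_nsmul, hm, map_zero])
  -- the factor of the point
  obtain ⟨κ, z, hκ, hz, hκz, hκσ⟩ : ∃ (κ : Ω) (z : F), κ ≠ 0 ∧
      (z = 1 ∨ z = 2 * η * algebraMap K F b' ∨ z = -(2 * η * algebraMap K F b')⁻¹) ∧
      κ ^ 3 = algebraMap F Ω z ∧ ∀ σ : Ω ≃ₐ[F] Ω, σ κ =
        chi (algebraMap F Ω η) (algebraMap K Ω b) (act W (rs K σ) R - R) * κ := by
    rcases hR with h0 | hn
    · refine ⟨1, 1, one_ne_zero, Or.inl rfl, by rw [one_pow, map_one], fun σ => ?_⟩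
      rw [ker_fix h hδ h0, sub_self, chi_zero, one_mul, map_one]
    · have h0 : ph h Ω R ≠ 0 := by
        obtain ⟨n, hn, e⟩ := hn
        rw [e]
        exact Point.some_ne_zero _
      have hκ := kap_ne (h.bc Ω) hη' (A := algebraMap K Ω A) h0
      have e3 := kap_cube (h.bc Ω) hη' (A := algebraMap K Ω A) h0
      have hb' : algebraMap K Ω b' = algebraMap F Ω (algebraMap K F b') :=
        IsScalarTower.algebraMap_apply K F Ω b'
      rcases kz_ker h hη hδ hn with h1 | h1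
      · refine ⟨_, 2 * η * algebraMap K F b', hκ, Or.inr (Or.inl rfl), ?_,
          fun σ => (kap_gal h hη hδ hfix σ).2 h0⟩
        rw [e3]
        refine Eq.trans h1 ?_
        simp only [map_mul, map_ofNat, hb']
      · refine ⟨_, -(2 * η * algebraMap K F b')⁻¹, hκ, Or.inr (Or.inr rfl), ?_,
          fun σ => (kap_gal h hη hδ hfix σ).2 h0⟩
        rw [e3]
        refine Eq.trans h1 ?_
        simp only [map_mul, map_ofNat, map_neg, map_inv₀, hb']
  have hb : ∀ c : K, (ak τ) (algebraMap K Ω c) = algebraMap K Ω c := (ak τ).commutes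
  have hsq : τ (algebraMap F Ω η) = algebraMap F Ω η ∨ τ (algebraMap F Ω η) = -algebraMap F Ω η := by
    apply sq_eq_sq_iff_eq_or_eq_neg.1
    rw [← map_pow, hη']
    exact τ.commutes D'
  have hkσ : ∀ σ, ph h Ω (f σ + (act W (rs K σ) R - R)) = 0 := by
    intro σ
    rw [map_add, hk, hker, add_zero]
  -- the action on the generator
  have hact : ∀ σ : Ω ≃ₐ[F] Ω, σ (τ t) =
      chi (τ (algebraMap F Ω η)) (algebraMap K Ω b) (f σ + (act W (rs K σ) R - R)) * τ t := by
    intro σ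
    obtain ⟨σ', hσ'⟩ := exists_conj hpres τ σ
    have h1 := hrel σ σ' hσ'
    have h2 : act W (ak τ) (f σ') = f σ + (act W (rs K σ) R - R) := by
      rw [← h1]; abel
    have h3 := chi_act W (ak τ) (algebraMap F Ω η) (algebraMap K Ω b) (f σ')
    rw [hb, h2] at h3
    rw [← hσ', kt, map_mul]
    congr 1
    exact h3.symm
  have hprod : ∀ σ : Ω ≃ₐ[F] Ω, σ (t * κ) =
      chi (algebraMap F Ω η) (algebraMap K Ω b) (f σ + (act W (rs K σ) R - R)) * (t * κ) := by
    intro σ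
    have h4 := chi_add (h.bc Ω) hη' (hk σ) (hker σ)
    rw [map_mul, kt, hκσ]
    rw [show chi (algebraMap F Ω η) (algebraMap K Ω b) (f σ + (act W (rs K σ) R - R)) =
      chi (algebraMap F Ω η) (algebraMap K Ω b) (f σ) *
      chi (algebraMap F Ω η) (algebraMap K Ω b) (act W (rs K σ) R - R) from h4]
    ring
  have hτt : τ t ≠ 0 := (map_ne_zero τ).2 ht
  have htκ : t * κ ≠ 0 := mul_ne_zero ht hκ
  rcases hsq with h1 | h1
  · obtain ⟨u, hu, q⟩ := compare (K := F) hτt htκ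
      (fun σ => chi (algebraMap F Ω η) (algebraMap K Ω b) (f σ + (act W (rs K σ) R - R)))
      (fun σ => chi_ne (h.bc Ω) hη' (hkσ σ)) (fun σ => by rw [hact, h1]) hprod
    refine ⟨u, z, hu, hz, Or.inl ⟨h1, ?_⟩⟩
    rw [← e, map_pow, q, mul_pow, mul_pow, e, hκz]
    simp only [map_mul, map_pow]
  · obtain ⟨u, hu, q⟩ := compare (K := F) hτt (inv_ne_zero htκ)
      (fun σ => (chi (algebraMap F Ω η) (algebraMap K Ω b) (f σ + (act W (rs K σ) R - R)))⁻¹)
      (fun σ => inv_ne_zero (chi_ne (h.bc Ω) hη' (hkσ σ))) (fun σ => by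
        rw [hact, h1]
        congr 1
        exact chi_eta_neg (h.bc Ω) hη' (hkσ σ)) (fun σ => by
        rw [map_inv₀, hprod, mul_inv])
    refine ⟨u, z, hu, hz, Or.inr ⟨h1, ?_⟩⟩
    rw [← e, map_pow, q, mul_pow, inv_pow, mul_pow, e, hκz]
    simp only [map_mul, map_pow, map_inv₀]

end inv

end Pool.Agent.T6.H12.TD
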