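import Pool.Agent.T6.H12.TD.Step3

/-!
# The criterion
-/

set_option autoImplicit false
set_option linter.all false

open Polynomial IsDedekindDomain WeierstrassCurve WeierstrassCurve.Affine
open scoped Classical

namespace Pool.Agent.T6.H12.TD

open Pool.Agent.TH115.GD (Pt act incl rs ak pl val_poly IsTower Sep Comp CompInf LocallyTrivial
  LocTriv IsCoc Preserves lift preserves wFin act_some act_inj act_act rs_act_incl act_zero
  cob_isCoc lt_subT sepKΩ)

section maps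

variable {K F Ω L Ω' : Type} [Field K] [Field F] [Field Ω] [Field L] [Field Ω']
  [Algebra K F] [Algebra F Ω] [Algebra K Ω] [IsScalarTower K F Ω]
  [Algebra K L] [Algebra L Ω'] [Algebra K Ω'] [Algebra F Ω'] [IsScalarTower K L Ω']
  [IsScalarTower K F Ω'] {W W' W'' : WeierstrassCurve K} {D A b D' b' D'' b'' : K}
  (h : Isog W.toAffine W'.toAffine D A b D' b') (h' : Isog W'.toAffine W''.toAffine D' A b' D'' b'')

include h

theorem coc_ph {f : (Ω ≃ₐ[F] Ω) → Pt W Ω} (hf : IsCoc W f) :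
    IsCoc W' (fun σ => ph h Ω (f σ)) := by
  refine ⟨hf.lc.comp (ph h Ω), fun σ τ => ?_⟩
  show ph h Ω (f (σ * τ)) = ph h Ω (f σ) + act W' (rs K σ) (ph h Ω (f τ))
  rw [hf.mul, map_add, ph_act]

theorem loc_ph {f : (Ω ≃ₐ[F] Ω) → Pt W Ω} (hl : LocTriv W L Ω' f) :
    LocTriv W' L Ω' (fun σ => ph h Ω (f σ)) := by
  obtain ⟨ι, S, hS⟩ := hl
  refine ⟨ι, ph h Ω' S, fun τ σ hτσ => ?_⟩
  rw [← ph_act, hS τ σ hτσ, map_sub, ph_act]

theorem inv_ph {f : (Ω ≃ₐ[F] Ω) → Pt W Ω} (hi : InvOne3 W f) :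
    InvOne3 W' (fun σ => ph h Ω (f σ)) := by
  intro τ
  obtain ⟨R, ⟨m, hm⟩, hrel⟩ := hi τ
  refine ⟨ph h Ω R, ⟨m, by rw [← map_nsmul, hm, map_zero]⟩, fun σ σ' hσ => ?_⟩
  show act W' (ak τ) (ph h Ω (f σ')) - ph h Ω (f σ) =
    act W' (rs K σ) (ph h Ω R) - ph h Ω R
  rw [← ph_act, ← ph_act, ← map_sub, ← map_sub, hrel σ σ' hσ]

omit h in
theorem inv_sub {f : (Ω ≃ₐ[F] Ω) → Pt W Ω} (hi : InvOne3 W f) {R : Pt W Ω}
    (hR : ∀ τ : Ω ≃ₐ[K] Ω, ∃ m : ℕ, 3 ^ m • (act W (ak τ) R - R) = 0) :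
    InvOne3 W (fun σ => f σ - (act W (rs K σ) R - R)) := by
  intro τ
  obtain ⟨R1, ⟨m, hm⟩, hrel⟩ := hi τ
  obtain ⟨n, hn⟩ := hR τ
  refine ⟨R1 - (act W (ak τ) R - R), ⟨m + n, ?_⟩, fun σ σ' hσ => ?_⟩
  · rw [smul_sub, pow_add, mul_comm, mul_smul, hm, smul_zero, mul_comm, mul_smul, hn, smul_zero,
      sub_zero]
  · have hcomp : act W (ak τ) (act W (rs K σ') R) = act W (rs K σ) (act W (ak τ) R) := by
      have h5 : (ak τ).comp (rs K σ') = (rs K σ).comp (ak τ) := AlgHom.ext fun x => hσ x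
      rw [act_act, act_act, h5]
    show act W (ak τ) (f σ' - (act W (rs K σ') R - R)) - (f σ - (act W (rs K σ) R - R)) =
      act W (rs K σ) (R1 - (act W (ak τ) R - R)) - (R1 - (act W (ak τ) R - R))
    have h1 := hrel σ σ' hσ
    have h6 : act W (ak τ) (f σ') = f σ + (act W (rs K σ) R1 - R1) := by
      rw [← h1]; abel
    rw [map_sub (act W (ak τ)), map_sub (act W (ak τ)), hcomp, map_sub (act W (rs K σ)) R1,
      map_sub (act W (rs K σ)), h6]
    abel

include h'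

/-- The kernel of the composite is killed by nine. -/
theorem nine_ker {X : Pt W Ω} (h0 : ph h' Ω (ph h Ω X) = 0) : 9 • X = 0 := by
  have h1 : 3 • ph h Ω X = 0 := three_ker (h'.bc Ω) h0
  rw [← map_nsmul] at h1
  have h2 : 3 • (3 • X) = 0 := three_ker (h.bc Ω) h1
  rw [← mul_smul] at h2
  exact h2

/-- The image of a subgroup under the composite. -/
theorem ink_nine {M : AddSubgroup (Pt W K)} {X : Pt W Ω}
    (hX : InK (M.map ((ph h' K).comp (ph h K))) (ph h' Ω (ph h Ω X))) : InK M (9 • X) := by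
  obtain ⟨Q, ⟨P0, hP0, rfl⟩, hQ⟩ := hX
  have h1 : ph h' Ω (ph h Ω (X - act W (incl K K Ω) P0)) = 0 := by
    rw [map_sub, map_sub, ← hQ]
    have : ((ph h' K).comp (ph h K)) P0 = ph h' K (ph h K P0) := rfl
    rw [this, ← ph_act, ← ph_act, sub_self]
  have h2 := nine_ker h h' h1
  rw [smul_sub, sub_eq_zero] at h2
  exact ⟨9 • P0, M.nsmul_mem hP0 9, by rw [map_nsmul, h2]⟩

/-- Three times a point of the curve `W''` isomorphic to `W`. -/
theorem triple_mem {M : AddSubgroup (Pt W K)} [IsSepClosed Ω] {x y : K}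
    (hns : (W.baseChange K).toAffine.Nonsingular x y)
    (hns'' : (W''.baseChange K).toAffine.Nonsingular (9 * x) (27 * y))
    (hM : (Point.some x y hns : Pt W K) ∈ M) :
    3 • (Point.some (9 * x) (27 * y) hns'' : Pt W'' K) ∈ M.map ((ph h' K).comp (ph h K)) := by
  obtain ⟨h1, hh⟩ := act_some W'' (incl K K Ω) hns''
  obtain ⟨h2, hh2⟩ := act_some W (incl K K Ω) hns
  have e9 : incl K K Ω (9 * x) = 9 * incl K K Ω x := by rw [map_mul, map_ofNat]
  have e27 : incl K K Ω (27 * y) = 27 * incl K K Ω y := by rw [map_mul, map_ofNat]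
  have h3 : (W''.baseChange Ω).toAffine.Nonsingular (9 * incl K K Ω x) (27 * incl K K Ω y) := by
    rw [← e9, ← e27]; exact h1
  obtain ⟨Q', hQ'⟩ := phi_surj (h'.bc Ω) (Point.some _ _ h3)
  obtain ⟨X, rfl⟩ := phi_surj (h.bc Ω) Q'
  have hX : ph h' Ω (ph h Ω X) = act W'' (incl K K Ω) (Point.some (9 * x) (27 * y) hns'') := by
    rw [hh]
    refine Eq.trans hQ' ?_
    congr 1
    · exact e9.symm
    · exact e27.symm
  have key : ∀ P : Pt W K, 3 • X = act W (incl K K Ω) P →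
      3 • (Point.some (9 * x) (27 * y) hns'' : Pt W'' K) = ph h' K (ph h K P) := by
    intro P hP
    apply act_inj W'' (incl K K Ω)
    rw [map_nsmul, ← hX, ← map_nsmul, ← map_nsmul, hP, ph_act, ph_act]
  rcases triple_eq (h.bc Ω) (h'.bc Ω) h2 h3 hQ' with h6 | h6
  · have h6' : 3 • X = act W (incl K K Ω) (Point.some x y hns) := h6.trans hh2.symm
    rw [key _ h6']
    exact ⟨_, hM, rfl⟩
  · have h6' : 3 • X = act W (incl K K Ω) (-Point.some x y hns) := by
      rw [map_neg, hh2]; exact h6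
    rw [key _ h6']
    exact ⟨_, M.neg_mem hM, rfl⟩

end maps

section crit

variable {k k' K F : Type} [Field k] [Field k'] [Algebra k k'] [IsSepClosure k k']
  [Field K] [Algebra k[X] K] [IsFractionRing k[X] K] [Field F] [Algebra k'[X] F]
  [IsFractionRing k'[X] F] [Algebra K F]
  (hKF : ∀ p : k[X], algebraMap K F (algebraMap k[X] K p) =
    algebraMap k'[X] F (p.map (algebraMap k k')))

/-- The curve `y ^ 2 = x ^ 3 + D (3 A x + b) ^ 2` with polynomial coefficients. -/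
noncomputable def crvP (K : Type) [Field K] {k : Type} [Field k] [Algebra k[X] K] (D : k)
    (A b : k[X]) : WeierstrassCurve K :=
  crv3 (algebraMap k[X] K (C D)) (algebraMap k[X] K A) (algebraMap k[X] K b)

/-- The parameter of the isogenous curve. -/
noncomputable def nb {k : Type} [Field k] (D : k) (A b : k[X]) : k[X] := 3 * (b - 4 * C D * A ^ 3)

omit [Field k'] [Algebra k k'] [IsSepClosure k k'] [Field F] [Algebra k'[X] F]
  [IsFractionRing k'[X] F] [Algebra K F] in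
theorem isogP (h2 : (2 : k) ≠ 0) (h3 : (3 : k) ≠ 0) {D : k} {A b : k[X]} (hD : D ≠ 0) (hb : b ≠ 0)
    (hd : b - 4 * C D * A ^ 3 ≠ 0) :
    Isog (crvP K D A b).toAffine (crvP K (-3 * D) A (nb D A b)).toAffine
      (algebraMap k[X] K (C D)) (algebraMap k[X] K A) (algebraMap k[X] K b)
      (algebraMap k[X] K (C (-3 * D))) (algebraMap k[X] K (nb D A b)) := by
  have inj := IsFractionRing.injective k[X] K
  have e1 : algebraMap k[X] K (C (-3 * D)) = -3 * algebraMap k[X] K (C D) := by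
    simp only [C_mul, C_neg, map_mul, map_neg, map_ofNat]
  have e2 : algebraMap k[X] K (nb D A b) = 3 * (algebraMap k[X] K b -
      4 * algebraMap k[X] K (C D) * algebraMap k[X] K A ^ 3) := by
    unfold nb
    simp only [map_mul, map_sub, map_pow, map_ofNat]
  have n2 : (2 : K) ≠ 0 := by
    have : algebraMap k[X] K (C 2) ≠ 0 := by simpa using h2
    simpa [map_ofNat] using this
  have n3 : (3 : K) ≠ 0 := by
    have : algebraMap k[X] K (C 3) ≠ 0 := by simpa using h3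
    simpa [map_ofNat] using this
  unfold crvP
  rw [e1, e2]
  refine isog_crv3 n2 n3 ?_ ?_ ?_
  · simpa using hD
  · simpa using hb
  · intro h0
    apply hd
    apply inj
    rw [map_zero, ← h0]
    simp only [map_mul, map_sub, map_pow, map_ofNat]

omit [IsSepClosure k k'] in
include hKF in
/-- The first layer of a Tate class. -/
theorem inv_one_of_class {W : WeierstrassCurve K}
    {c : ℕ → (Sep F ≃ₐ[F] Sep F) → Pt W (Sep F)} (hc : IsTateClass3 k' W c) :
    InvOne3 W (c 1) := by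
  have hcc := hc.tc
  intro τ
  obtain ⟨m, Q, hQ, hinv⟩ := hc.inv τ
  have hpow : ∀ (k : ℕ) (σ), 3 ^ k • c (k + 1) σ = c 1 σ := by
    intro k
    induction k with
    | zero => intro σ; rw [pow_zero, one_smul]
    | succ k ih =>
      intro σ
      rw [pow_succ, mul_smul, hcc.three, ih]
  have hQpow : ∀ (k : ℕ), 3 ^ k • Q k = 0 := by
    intro k
    induction k with
    | zero => rw [hQ.zero, smul_zero]
    | succ k ih =>
      rw [pow_succ, mul_smul, hQ.three, ih]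
  refine ⟨Q (m + 1), ⟨m + 1, hQpow _⟩, fun σ σ' h => ?_⟩
  rw [← hinv (m + 1) σ σ' h, smul_sub, ← map_nsmul, hpow, hpow]

variable {W0 W1 W2 W3 W4 W5 : WeierstrassCurve K} {D0 D1 D2 D3 D4 D5 : k}
  {A b0 b1 b2 b3 b4 b5 : k[X]}
  (i0 : Isog W0.toAffine W1.toAffine (algebraMap k[X] K (C D0)) (algebraMap k[X] K A)
    (algebraMap k[X] K b0) (algebraMap k[X] K (C D1)) (algebraMap k[X] K b1))
  (i1 : Isog W1.toAffine W2.toAffine (algebraMap k[X] K (C D1)) (algebraMap k[X] K A)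
    (algebraMap k[X] K b1) (algebraMap k[X] K (C D2)) (algebraMap k[X] K b2))
  (i2 : Isog W2.toAffine W3.toAffine (algebraMap k[X] K (C D2)) (algebraMap k[X] K A)
    (algebraMap k[X] K b2) (algebraMap k[X] K (C D3)) (algebraMap k[X] K b3))
  (i3 : Isog W3.toAffine W4.toAffine (algebraMap k[X] K (C D3)) (algebraMap k[X] K A)
    (algebraMap k[X] K b3) (algebraMap k[X] K (C D4)) (algebraMap k[X] K b4))
  (i4 : Isog W4.toAffine W5.toAffine (algebraMap k[X] K (C D4)) (algebraMap k[X] K A)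
    (algebraMap k[X] K b4) (algebraMap k[X] K (C D5)) (algebraMap k[X] K b5))

include hKF i0 i1 i2 i3 i4 in
theorem first_layer3 (h2 : (2 : k) ≠ 0) (h3 : (3 : k) ≠ 0) (M : AddSubgroup (Pt W0 K))
    (sep1 : ∀ π : k[X], Irreducible π → π ∣ b1 → π.Separable)
    (rig1 : ∀ π : k[X], Irreducible π → π ∣ b1 → Rigid3 k' D1 π)
    (sep2 : ∀ π : k[X], Irreducible π → π ∣ b2 → π.Separable)
    (rig2 : ∀ π : k[X], Irreducible π → π ∣ b2 → Rigid3 k' D2 π)
    (cc2 : NotCC k' F (algebraMap k[X] K b2)) (cc3 : NotCC k' F (algebraMap k[X] K b3))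
    (cc4 : NotCC k' F (algebraMap k[X] K b4))
    {η1 η2 : k'} (hη1 : η1 ^ 2 = algebraMap k k' D1) (hη2 : η2 ^ 2 = algebraMap k k' D2)
    (pt1 : IsSquare D1 → Enough3 K F W1 ((M.map ((ph i1 K).comp (ph i0 K))).comap (ph i1 K))
      (algebraMap k[X] K A) (algebraMap k[X] K b1) (cF F η1) b1)
    (pt2 : IsSquare D2 → Enough3 K F W2 (M.map ((ph i1 K).comp (ph i0 K)))
      (algebraMap k[X] K A) (algebraMap k[X] K b2) (cF F η2) b2)
    {c : ℕ → (Sep F ≃ₐ[F] Sep F) → Pt W0 (Sep F)} (hc : IsTateClass3 k' W0 c) :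
    ∃ S : Pt W0 (Sep F), (∀ σ, c 1 σ = act W0 (rs K σ) S - S) ∧ InK M (3 ^ (2 + 1) • S) := by
  haveI : IsSepClosed k' := IsSepClosure.sep_closed k
  have h2' : (2 : k') ≠ 0 := by
    rw [← map_ofNat (algebraMap k k') 2]
    exact (_root_.map_ne_zero _).2 h2
  haveI : NeZero ((2 : ℕ) : k') := ⟨by exact_mod_cast h2'⟩
  obtain ⟨η0, hη0⟩ := IsSepClosed.exists_pow_nat_eq (algebraMap k k' D0) 2
  have hcc := hc.tc
  have h3c : ∀ σ, 3 • c 1 σ = 0 := fun σ => by
    rw [hcc.three 0 σ, hcc.zero]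
  have hinv := inv_one_of_class hKF hc
  have tor1 := fun (Q : Pt W1 (Sep F)) (m : ℕ) hQ h0 => tors_three hKF i1 i2 i3 h2 cc2 cc3 m Q hQ h0
  have tor2 := fun (Q : Pt W2 (Sep F)) (m : ℕ) hQ h0 => tors_three hKF i2 i3 i4 h2 cc3 cc4 m Q hQ h0
  -- the first step
  obtain ⟨R', hR', hR'K⟩ := lemA hKF i1 i2 hη2 hη1 h2 h3 sep2 rig2 pt2 tor2
    (f := fun σ => ph i0 (Sep F) (c 1 σ)) (coc_ph i0 (hcc.coc 1))
    (fun σ => three_tor (i0.bc (Sep F)) (i1.bc (Sep F)) (h3c σ))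
    (fun v => loc_ph i0 ((hc.loc 1).1 v)) (inv_ph i0 hinv)
  obtain ⟨R, hR⟩ := phi_surj (i0.bc (Sep F)) R'
  have hRR : ph i0 (Sep F) R = R' := hR
  rw [← hRR] at hR' hR'K
  have hRK : InK (M.map ((ph i1 K).comp (ph i0 K))) (ph i1 (Sep F) (ph i0 (Sep F) (3 • R))) := by
    rw [map_nsmul, map_nsmul]
    exact hR'K
  have hRt : ∀ τ : Sep F ≃ₐ[K] Sep F, ∃ m : ℕ, 3 ^ m • (act W0 (ak τ) R - R) = 0 := by
    intro τ
    refine ⟨3, ?_⟩
    have h5 : ph i1 (Sep F) (ph i0 (Sep F) (3 • (act W0 (ak τ) R - R))) = 0 := by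
      rw [smul_sub, ← map_nsmul, map_sub, map_sub, ph_act, ph_act, hRK.fix, sub_self]
    have h6 := nine_ker i0 i1 h5
    rw [← mul_smul] at h6
    exact h6
  -- the second step
  obtain ⟨R2, hR2, hR2K⟩ := lemA hKF i0 i1 hη1 hη0 h2 h3 sep1 rig1 pt1 tor1
    (f := fun σ => c 1 σ - (act W0 (rs K σ) R - R))
    ((hcc.coc 1).sub W0 (cob_isCoc W0 R))
    (fun σ => by
      show ph i0 (Sep F) (c 1 σ - (act W0 (rs K σ) R - R)) = 0
      rw [map_sub, map_sub, ph_act]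
      have h5 := hR' σ
      have h5' : ph i0 (Sep F) (c 1 σ) = act W1 (rs K σ) (ph i0 (Sep F) R) -
        ph i0 (Sep F) R := h5
      rw [h5', sub_self])
    (fun v => (lt_subT (hc.loc 1) R).1 v) (inv_sub hinv hRt)
  refine ⟨R + R2, fun σ => ?_, ?_⟩
  · have h5 : c 1 σ - (act W0 (rs K σ) R - R) = act W0 (rs K σ) R2 - R2 := hR2 σ
    rw [sub_eq_iff_eq_add] at h5
    rw [h5, map_add]
    abel
  · have h6 : InK M (9 • (3 • R)) := ink_nine i0 i1 hRK
    have h7 : InK M (9 • (3 • R2)) := by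
      apply ink_nine i0 i1
      obtain ⟨Q1, hQ1, hQ1'⟩ := hR2K
      refine ⟨ph i1 K Q1, hQ1, ?_⟩
      rw [← ph_act, hQ1', map_nsmul (ph i0 (Sep F))]
    have e : 3 ^ (2 + 1) • (R + R2) = 9 • (3 • R) + 9 • (3 • R2) := by
      rw [smul_add, ← mul_smul, ← mul_smul]
      rfl
    rw [e]
    exact h6.add h7

end crit

end Pool.Agent.T6.H12.TD
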