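import Pool.Agent.T6.H12.TD.Iso

/-!
# The isogeny of degree three
-/

set_option autoImplicit false
set_option linter.all false

open WeierstrassCurve WeierstrassCurve.Affine
open scoped Classical

namespace Pool.Agent.T6.H12.TD

section phi

variable {F : Type*} [Field F] {W W' : Affine F} {D A b D' b' : F}

/-- The data of an isogeny. -/
structure Isog (W W' : Affine F) (D A b D' b' : F) : Prop where
  E : Is3 W D A b
  E' : Is3 W' D' A b'
  hD : D' = -3 * D
  hb : b' = 3 * (b - 4 * D * A ^ 3)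

theorem phi_ns (h : Isog W W' D A b D' b') {x y : F} (hxy : W.Nonsingular x y) (hx : x ≠ 0) :
    W'.Nonsingular ((y ^ 2 + 3 * D * (A * x + b) ^ 2) / x ^ 2)
      (y * (y ^ 2 - 9 * D * (A * x + b) ^ 2) / x ^ 3) := by
  rw [h.E.nonsingular] at hxy
  rw [h.E'.nonsingular, h.hD, h.hb]
  have e : (y * (y ^ 2 - 9 * D * (A * x + b) ^ 2) / x ^ 3) ^ 2 =
      y ^ 2 * (y ^ 2 - 9 * D * (A * x + b) ^ 2) ^ 2 / x ^ 6 := by
    field_simp
  rw [e, hxy]
  field_simp
  ring

/-- The isogeny of degree three. -/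
noncomputable def phi (h : Isog W W' D A b D' b') : W.Point → W'.Point
  | .zero => 0
  | .some x y hxy => if hx : x = 0 then 0 else Point.some _ _ (phi_ns h hxy hx)

variable (h : Isog W W' D A b D' b')

theorem phi_zero : phi h 0 = 0 := rfl

theorem phi_some0 {x y : F} (hxy : W.Nonsingular x y) (hx : x = 0) :
    phi h (Point.some x y hxy) = 0 := by
  simp [phi, hx]

theorem phi_some {x y : F} (hxy : W.Nonsingular x y) (hx : x ≠ 0) :
    phi h (Point.some x y hxy) = Point.some _ _ (phi_ns h hxy hx) := by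
  simp [phi, hx]

theorem phi_neg (P : W.Point) : phi h (-P) = -phi h P := by
  rcases P with _ | ⟨x, y, hxy⟩
  · show phi h (-0) = -phi h 0
    rw [neg_zero, phi_zero, neg_zero]
  · rw [Point.neg_some]
    by_cases hx : x = 0
    · rw [phi_some0 h _ hx, phi_some0 h _ hx, neg_zero]
    · rw [phi_some h _ hx, phi_some h _ hx, Point.neg_some]
      congr 1
      · rw [negY' h.E.a1 h.E.a3]
        ring
      · rw [negY' h.E.a1 h.E.a3, negY' h.E'.a1 h.E'.a3]
        ring

include h

/-- The isogeny is constant on the cosets of the kernel. -/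
theorem phi_transl {n : F} (hn : W.Nonsingular 0 n) (P : W.Point) :
    phi h (Point.some 0 n hn + P) = phi h P := by
  have hE := h.E
  have hneg := negY' (W := W) hE.a1 hE.a3
  rcases P with _ | ⟨x2, y2, h2⟩
  · show phi h (_ + 0) = phi h 0
    rw [add_zero, phi_some0 h _ rfl, phi_zero]
  have hnn : n ^ 2 = D * b ^ 2 := by
    rw [hE.nonsingular] at hn
    linear_combination hn
  by_cases hxy : 0 = x2 ∧ n = -y2
  · obtain ⟨rfl, h3⟩ := hxy
    have : Point.some 0 n hn + Point.some 0 y2 h2 = 0 := by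
      rw [Point.add_of_Y_eq rfl]
      rw [hneg]; exact h3
    rw [this, phi_zero, phi_some0 h _ rfl]
  obtain ⟨l, m, x3, y3, n3, hL, q1, q2, q3, hs⟩ := line_of_add hE.a1 hE.a3 hE.two hn h2 hxy
  rw [hs, phi_neg]
  obtain ⟨e1, e2, e3⟩ := hL
  rw [hE.a2] at e1
  rw [hE.a4] at e2
  rw [hE.a6] at e3
  rw [mul_zero, zero_add] at q1
  subst q1
  have e1' : x2 + x3 = l ^ 2 - 9 * D * A ^ 2 := by linear_combination e1
  have e2' : x2 * x3 = 6 * D * A * b - 2 * l * n := by linear_combination e2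
  have hne : n ≠ 0 := by
    rintro rfl
    apply mul_ne_zero hE.neD (pow_ne_zero 2 hE.neb)
    rw [← hnn]; ring
  have key : x2 * x3 = 0 → x2 + x3 = 0 := by
    intro h0
    rw [h0] at e2'
    have h3 : 2 * (l * n - 3 * D * A * b) = 0 := by linear_combination e2'
    have h4 : l * n = 3 * D * A * b := by
      linear_combination (mul_eq_zero.1 h3).resolve_left hE.two
    have h5 : D * b ^ 2 * (l ^ 2 - 9 * D * A ^ 2) = 0 := by
      rw [← hnn]
      linear_combination (l * n + 3 * D * A * b) * h4 - 9 * D * A ^ 2 * hnn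
    have h6 := (mul_eq_zero.1 h5).resolve_left (mul_ne_zero hE.neD (pow_ne_zero 2 hE.neb))
    rw [e1', h6]
  by_cases hx2 : x2 = 0
  · have h3 : x3 = 0 := by
      have := key (by rw [hx2, zero_mul])
      rw [hx2, zero_add] at this
      exact this
    rw [phi_some0 h _ hx2, phi_some0 h _ h3, neg_zero]
  by_cases hx3 : x3 = 0
  · have := key (by rw [hx3, mul_zero])
    rw [hx3, add_zero] at this
    exact absurd this hx2
  obtain ⟨t1, t2⟩ := trans_alg hE.neb hnn e1' e2' hx2 hx3
  rw [phi_some h _ hx2, phi_some h _ hx3, Point.neg_some]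
  have hneg' := negY' (W := W') h.E'.a1 h.E'.a3
  congr 1
  · rw [q3, t1, q2]
  · rw [hneg', q3, t2, neg_neg, q2]

theorem phi_add (P Q : W.Point) : phi h (P + Q) = phi h P + phi h Q := by
  have hE := h.E
  have hE' := h.E'
  have hneg := negY' (W := W) hE.a1 hE.a3
  rcases P with _ | ⟨x1, y1, h1⟩
  · show phi h (0 + Q) = phi h 0 + _
    rw [phi_zero, zero_add, zero_add]
  rcases Q with _ | ⟨x2, y2, h2⟩
  · show phi h (_ + 0) = _ + phi h 0
    rw [phi_zero, add_zero, add_zero]
  by_cases hx1 : x1 = 0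
  · subst hx1
    rw [phi_transl h, phi_some0 h h1 rfl, zero_add]
  by_cases hx2 : x2 = 0
  · subst hx2
    rw [add_comm, phi_transl h, phi_some0 h h2 rfl, add_zero]
  by_cases hxy : x1 = x2 ∧ y1 = -y2
  · obtain ⟨rfl, h3⟩ := hxy
    have h4 : Point.some x1 y1 h1 = -Point.some x1 y2 h2 := by
      rw [Point.neg_some]
      congr 1
      rw [hneg, h3]
    rw [h4, phi_neg, neg_add_cancel, neg_add_cancel, phi_zero]
  obtain ⟨l, m, x3, y3, n3, hL, q1, q2, q3, hs⟩ := line_of_add hE.a1 hE.a3 hE.two h1 h2 hxy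
  by_cases hx3 : x3 = 0
  · subst hx3
    have h4 : Point.some x1 y1 h1 = -(Point.some 0 y3 n3 + Point.some x2 y2 h2) := by
      rw [neg_add, ← hs]
      abel
    rw [hs, phi_neg, phi_some0 h n3 rfl, neg_zero, h4, phi_neg, phi_transl h, neg_add_cancel]
  rw [hE.a2, hE.a4, hE.a6] at hL
  obtain ⟨L, N, hL', hY⟩ := image_line hL hx1 hx2 hx3
  rw [hs, phi_neg, phi_some h _ hx1, phi_some h _ hx2, phi_some h _ hx3]
  rw [← h.hb, ← h.hD, ← hE'.a2, ← hE'.a4, ← hE'.a6] at hL'
  symm
  have g1 := hY x1 (Or.inl rfl)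
  have g2 := hY x2 (Or.inr (Or.inl rfl))
  have g3 := hY x3 (Or.inr (Or.inr rfl))
  rw [← q1] at g1
  rw [← q2] at g2
  rw [← q3] at g3
  rw [← q1, ← q2, ← q3] at hL'
  exact add_of_line hE'.a1 hE'.a3 hE'.two hL' _ _ _ g1 g2 g3

/-- The isogeny of degree three as a homomorphism of groups. -/
noncomputable def phiH : W.Point →+ W'.Point where
  toFun := phi h
  map_zero' := rfl
  map_add' := phi_add h

theorem phi_ker (P : W.Point) : phi h P = 0 ↔ P = 0 ∨ ∃ n hn, P = Point.some 0 n hn := by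
  constructor
  · intro h0
    rcases P with _ | ⟨x, y, hxy⟩
    · exact Or.inl rfl
    · right
      by_cases hx : x = 0
      · subst hx
        exact ⟨y, hxy, rfl⟩
      · rw [phi_some h _ hx] at h0
        exact absurd h0 (Point.some_ne_zero _)
  · rintro (rfl | ⟨n, hn, rfl⟩)
    · rfl
    · exact phi_some0 h hn rfl

end phi

end Pool.Agent.T6.H12.TD
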