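import Pool.Agent.T6.H12.TD.Roots3

/-!
# Curves with enough points
-/

set_option autoImplicit false
set_option linter.all false

open Polynomial IsDedekindDomain WeierstrassCurve WeierstrassCurve.Affine
open scoped Classical

namespace Pool.Agent.T6.H12.TD

open Pool.Agent.TH115.GD (Pt act incl rs ak pl val_poly IsTower Sep Comp CompInf LocallyTrivial
  LocTriv IsCoc act_some act_inj act_act rs_act_incl act_zero)

/-- The elements of `K*` which are generated, modulo cubes and constants, by the parameter `b` and the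
values `y + 3 A x + b` at the points `(x, y)` of the subgroup `M` of the curve
`y ^ 2 = x ^ 3 + (3 A x + b) ^ 2`. -/
inductive Generated {k K : Type} [Field k] [Field K] [Algebra k[X] K] (A b : k[X])
    (M : AddSubgroup (Pt (crvP K 1 A b) K)) : K → Prop
  | point (x y : K) (h : ((crvP K 1 A b).baseChange K).toAffine.Nonsingular x y)
      (hM : (Point.some x y h : Pt (crvP K 1 A b) K) ∈ M)
      (h0 : y + (3 * algebraMap k[X] K A * x + algebraMap k[X] K b) ≠ 0) :
      Generated A b M (y + (3 * algebraMap k[X] K A * x + algebraMap k[X] K b))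
  | const (c : k) (hc : c ≠ 0) : Generated A b M (algebraMap k[X] K (C c))
  | base : Generated A b M (algebraMap k[X] K b)
  | cube (z : K) (hz : z ≠ 0) : Generated A b M (z ^ 3)
  | mul (u v : K) (hu : Generated A b M u) (hv : Generated A b M v) : Generated A b M (u * v)

section gen

variable {k k' K F : Type} [Field k] [Field k'] [Algebra k k'] [IsSepClosure k k']
  [Field K] [Algebra k[X] K] [IsFractionRing k[X] K] [Field F] [Algebra k'[X] F]
  [IsFractionRing k'[X] F] [Algebra K F]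
  (hKF : ∀ p : k[X], algebraMap K F (algebraMap k[X] K p) =
    algebraMap k'[X] F (p.map (algebraMap k k')))

include hKF in
theorem generated_rep (h2 : (2 : k) ≠ 0) (h3 : (3 : k) ≠ 0) {A b : k[X]} (hb : b ≠ 0)
    {M : AddSubgroup (Pt (crvP K 1 A b) K)}
    (i0 : Isog (crvP K 1 A b).toAffine (crvP K (-3 * 1) A (nb 1 A b)).toAffine
        (algebraMap k[X] K (C 1)) (algebraMap k[X] K A) (algebraMap k[X] K b)
        (algebraMap k[X] K (C (-3 * 1))) (algebraMap k[X] K (nb 1 A b)))
    (i1 : Isog (crvP K (-3 * 1) A (nb 1 A b)).toAffine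
        (crvP K (-3 * (-3 * 1)) A (nb (-3 * 1) A (nb 1 A b))).toAffine
        (algebraMap k[X] K (C (-3 * 1))) (algebraMap k[X] K A) (algebraMap k[X] K (nb 1 A b))
        (algebraMap k[X] K (C (-3 * (-3 * 1)))) (algebraMap k[X] K (nb (-3 * 1) A (nb 1 A b))))
    (i2 : Isog (crvP K (-3 * (-3 * 1)) A (nb (-3 * 1) A (nb 1 A b))).toAffine
        (crvP K (-3 * (-3 * (-3 * 1))) A (nb (-3 * (-3 * 1)) A
          (nb (-3 * 1) A (nb 1 A b)))).toAffine
        (algebraMap k[X] K (C (-3 * (-3 * 1)))) (algebraMap k[X] K A)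
        (algebraMap k[X] K (nb (-3 * 1) A (nb 1 A b)))
        (algebraMap k[X] K (C (-3 * (-3 * (-3 * 1)))))
        (algebraMap k[X] K (nb (-3 * (-3 * 1)) A (nb (-3 * 1) A (nb 1 A b)))))
    {u : K} (hu : Generated A b M u) :
    u ≠ 0 ∧ Rep F (crvP K (-3 * (-3 * 1)) A (nb (-3 * 1) A (nb 1 A b)))
      (M.map ((ph i1 K).comp (ph i0 K))) (algebraMap k[X] K A)
      (algebraMap k[X] K (nb (-3 * 1) A (nb 1 A b))) (cF F (3 : k')) (algebraMap K F u) := by
  haveI : IsSepClosed k' := IsSepClosure.sep_closed k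
  have h2' : (2 : k') ≠ 0 := by
    rw [← map_ofNat (algebraMap k k') 2]
    exact (_root_.map_ne_zero _).2 h2
  have h3' : (3 : k') ≠ 0 := by
    rw [← map_ofNat (algebraMap k k') 3]
    exact (_root_.map_ne_zero _).2 h3
  haveI : NeZero ((2 : ℕ) : k') := ⟨by exact_mod_cast h2'⟩
  have h9' : (9 : k') ≠ 0 := by
    have : (9 : k') = 3 * 3 := by norm_num
    rw [this]; exact mul_ne_zero h3' h3'
  obtain ⟨δ, hδ⟩ := IsSepClosed.exists_pow_nat_eq (algebraMap k k' (-3 * 1)) 2
  have hη : (3 : k') ^ 2 = algebraMap k k' (-3 * (-3 * 1)) := by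
    simp only [map_mul, map_neg, map_ofNat, map_one]
    norm_num
  have e9 : nb (-3 * 1) A (nb 1 A b) = C 9 * b := nb_nb 1 A b
  have n3K : (3 : K) ≠ 0 := i1.E'.three
  have n3F : (3 : F) ≠ 0 := by
    rw [← map_ofNat (algebraMap K F) 3]
    exact (_root_.map_ne_zero _).2 n3K
  have hbK : algebraMap k[X] K b ≠ 0 := by simpa using hb
  have hconst : ∀ c : k, algebraMap K F (algebraMap k[X] K (C c)) = cF F (algebraMap k k' c) := by
    intro c
    rw [hKF, map_C]
    rfl
  induction hu with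
  | point x y h hM h0 =>
    refine ⟨h0, ?_⟩
    -- the point on the curve
    have hE0 := (i0.bc K).E
    have hE2 := (i1.bc K).E'
    have heq := (hE0.nonsingular).1 h
    have hb2 : algebraMap k[X] K (nb (-3 * 1) A (nb 1 A b)) = 9 * algebraMap k[X] K b := by
      rw [e9, map_mul]
      congr 1
      rw [map_ofNat, map_ofNat]
    have hD2 : algebraMap k[X] K (C (-3 * (-3 * 1))) = (9 : K) := by
      have : (-3 * (-3 * 1) : k) = 9 := by norm_num
      rw [this, map_ofNat, map_ofNat]
    have hns : ((crvP K (-3 * (-3 * 1)) A (nb (-3 * 1) A (nb 1 A b))).baseChange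
        K).toAffine.Nonsingular (9 * x) (27 * y) := by
      rw [hE2.nonsingular]
      show (27 * y) ^ 2 = (9 * x) ^ 3 + algebraMap k[X] K (C (-3 * (-3 * 1))) *
        (3 * algebraMap k[X] K A * (9 * x) +
          algebraMap k[X] K (nb (-3 * 1) A (nb 1 A b))) ^ 2
      rw [hb2, hD2]
      have heq' : y ^ 2 = x ^ 3 + algebraMap k[X] K (C 1) *
        (3 * algebraMap k[X] K A * x + algebraMap k[X] K b) ^ 2 := heq
      rw [C_1, map_one] at heq'
      linear_combination 729 * heq'
    refine ⟨Point.some (9 * x) (27 * y) hns, (3 : F)⁻¹,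
      triple_mem (Ω := Sep F) i0 i1 h hns hM, inv_ne_zero n3F, ?_⟩
    have e4 := kz_act (crvP K (-3 * (-3 * 1)) A (nb (-3 * 1) A (nb 1 A b))) (incl K K F) (3 : K)
      (algebraMap k[X] K A) (algebraMap k[X] K (nb (-3 * 1) A (nb 1 A b)))
      (Point.some (9 * x) (27 * y) hns)
    have g1 : ∀ x : K, incl K K F x = algebraMap K F x := fun x => rfl
    have hkz : kz (3 : K) (algebraMap k[X] K A)
        (algebraMap k[X] K (nb (-3 * 1) A (nb 1 A b)))
        (Point.some (9 * x) (27 * y) hns :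
          Pt (crvP K (-3 * (-3 * 1)) A (nb (-3 * 1) A (nb 1 A b))) K) =
        27 * (y + (3 * algebraMap k[X] K A * x + algebraMap k[X] K b)) := by
      have e5 : 27 * y + 3 * (3 * algebraMap k[X] K A * (9 * x) +
          algebraMap k[X] K (nb (-3 * 1) A (nb 1 A b))) =
          27 * (y + (3 * algebraMap k[X] K A * x + algebraMap k[X] K b)) := by
        rw [hb2]; ring
      have h27 : (27 : K) ≠ 0 := by
        have : (27 : K) = 3 * 3 * 3 := by norm_num
        rw [this]; exact mul_ne_zero (mul_ne_zero n3K n3K) n3K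
      simp only [kz]
      rw [e5, if_neg (mul_ne_zero h27 h0)]
    rw [g1, g1, g1, g1, hkz, map_mul, map_ofNat, map_ofNat] at e4
    have hcF3 : cF F (3 : k') = (3 : F) := by
      unfold cF
      rw [map_ofNat, map_ofNat]
    rw [hcF3, e4]
    field_simp
    norm_num
  | const c hc =>
    have hcK : algebraMap k[X] K (C c) ≠ 0 := by simpa using hc
    have hc' : algebraMap k k' c ≠ 0 := (_root_.map_ne_zero _).2 hc
    refine ⟨hcK, ?_⟩
    have h1 := rep_cube (F := F) (W' := crvP K (-3 * (-3 * 1)) A (nb (-3 * 1) A (nb 1 A b)))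
      (M := M.map ((ph i1 K).comp (ph i0 K))) (A := algebraMap k[X] K A)
      (b' := algebraMap k[X] K (nb (-3 * 1) A (nb 1 A b))) (η := cF F (3 : k')) (x := 1) one_ne_zero
    rw [one_pow] at h1
    refine rep_congr hKF i1 hη hδ ((_root_.map_ne_zero _).2 hcK) one_ne_zero h3 (fun v => ?_) h1
    rw [hconst, or3_of_one v (cF_val v hc'), or3_one]
  | base =>
    refine ⟨hbK, ?_⟩
    have h1 := rep_self (M := M.map ((ph i1 K).comp (ph i0 K))) hKF i1 i2 hη hδ h2 h3
      ⟨3, by ring⟩
    have hbF : algebraMap K F (algebraMap k[X] K b) ≠ 0 := (_root_.map_ne_zero _).2 hbK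
    have h9F : cF F (algebraMap k k' 9) ≠ 0 := cF_ne (by rw [map_ofNat]; exact h9')
    have e5 : algebraMap K F (algebraMap k[X] K (nb (-3 * 1) A (nb 1 A b))) =
        cF F (algebraMap k k' 9) * algebraMap K F (algebraMap k[X] K b) := by
      rw [e9, map_mul, map_mul, hconst]
    refine rep_congr hKF i1 hη hδ hbF (by rw [e5]; exact mul_ne_zero h9F hbF) h3
      (fun v => ?_) h1
    rw [e5, or3_mul v h9F hbF, or3_of_one v (cF_val v (by rw [map_ofNat]; exact h9')), zero_add]
  | cube z hz =>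
    refine ⟨pow_ne_zero 3 hz, ?_⟩
    rw [map_pow]
    exact rep_cube ((_root_.map_ne_zero _).2 hz)
  | mul u v _ _ hu hv =>
    refine ⟨mul_ne_zero hu.1 hv.1, ?_⟩
    have e5 : algebraMap K F (u * v) = algebraMap K F u * algebraMap K F v := map_mul _ u v
    rw [e5]
    exact rep_mul hKF i1 hη hδ hu.2 hv.2

end gen

section main

variable {k k' K F : Type} [Field k] [Finite k] [Field k'] [Algebra k k'] [Field K]
  [Algebra k[X] K] [Field F] [Algebra k'[X] F] [IsFractionRing k'[X] F] [Algebra K F]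

omit [Finite k] in
theorem neg_three_nonsquare [Finite k] (h2 : (2 : k) ≠ 0) (h3 : (3 : k) ≠ 0)
    (h : Nat.card k % 3 = 2) : ¬ IsSquare (-3 : k) := by
  rintro ⟨r, hr⟩
  haveI : Fintype k := Fintype.ofFinite _
  set ω : k := (-1 + r) / 2 with hω
  have h4 : ω ^ 2 + ω + 1 = 0 := by
    rw [hω]
    field_simp
    linear_combination -hr
  have h5 : ω ^ 3 = 1 := by linear_combination (ω - 1) * h4
  have h6 : ω ^ (Nat.card k - 1) = 1 := by
    have hω0 : ω ≠ 0 := by
      intro h0
      rw [h0] at h5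
      have : (0 : k) ^ 3 = 0 := by ring
      rw [this] at h5
      exact zero_ne_one h5
    rw [Nat.card_eq_fintype_card]
    exact FiniteField.pow_card_sub_one_eq_one ω hω0
  have h7 : Nat.card k - 1 = 3 * ((Nat.card k - 1) / 3) + 1 := by omega
  rw [h7, pow_add, pow_mul, h5, one_pow, one_mul, pow_one] at h6
  rw [h6] at h4
  apply h3
  linear_combination h4

/-- **Curves with enough points.** -/
theorem points_main (hT : IsTower k k' K F) (h6 : (6 : k) ≠ 0) (hq : Nat.card k % 3 = 2)
    {A b : k[X]} (hb0 : b ≠ 0) (hd0 : b - 4 * A ^ 3 ≠ 0)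
    (hb3 : ∀ π : k[X], Irreducible π → π ∣ b → ¬ 3 ∣ π.natDegree) (fb : HasFactor3 b)
    (od : OddFactors (b - 4 * A ^ 3)) (fd : HasFactor3 (b - 4 * A ^ 3))
    (M : AddSubgroup (Pt (crvP K 1 A b) K))
    (hM : ∀ π : k[X], Irreducible π → π ∣ b → Generated A b M (algebraMap k[X] K π)) :
    SpannedAtThree (F := F) k' (crvP K 1 A b) M := by
  have h2 : (2 : k) ≠ 0 := fun e => h6 (by linear_combination 3 * e)
  have h3 : (3 : k) ≠ 0 := fun e => h6 (by linear_combination 2 * e)
  haveI := hT.sep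
  haveI := hT.fracK
  have hKF := hT.map
  haveI : IsSepClosed k' := IsSepClosure.sep_closed k
  haveI : PerfectField k := inferInstance
  have h2' : (2 : k') ≠ 0 := by
    rw [← map_ofNat (algebraMap k k') 2]
    exact (_root_.map_ne_zero _).2 h2
  haveI : NeZero ((2 : ℕ) : k') := ⟨by exact_mod_cast h2'⟩
  obtain ⟨η1, hη1⟩ := IsSepClosed.exists_pow_nat_eq (algebraMap k k' (-3 * 1)) 2
  have hη2 : (3 : k') ^ 2 = algebraMap k k' (-3 * (-3 * 1)) := by
    simp only [map_mul, map_neg, map_ofNat, map_one]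
    norm_num
  have hns : ¬ IsSquare (-3 * 1 : k) := by
    rw [mul_one]
    exact neg_three_nonsquare h2 h3 hq
  have hd : b - 4 * C 1 * A ^ 3 = b - 4 * A ^ 3 := by rw [C_1, mul_one]
  refine crit3 hT h2 h3 one_ne_zero hb0 (by rw [hd]; exact hd0)
    (fun π hπ _ => PerfectField.separable_of_irreducible hπ)
    (fun π hπ hdv => rigid_fin h2 one_ne_zero hπ (fun _ => hb3 π hπ hdv)
      (fun hsq => absurd (IsSquare.one) hsq))
    (fun π hπ hdv => rigid_fin h2 (mul_ne_zero (neg_ne_zero.2 h3) one_ne_zero) hπ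
      (fun hsq => absurd hsq hns) (fun _ => od π hπ (by rw [← hd]; exact hdv)))
    fb (by rw [hd]; exact fd) M hη1 hη2 (fun i0 i1 hsq => absurd hsq hns)
    (fun i0 i1 i2 hsq => ?_)
  obtain ⟨δ, hδ⟩ := IsSepClosed.exists_pow_nat_eq (algebraMap k k' (-3 * 1)) 2
  have h9 : (9 : k) ≠ 0 := by
    have : (9 : k) = 3 * 3 := by norm_num
    rw [this]; exact mul_ne_zero h3 h3
  refine enough_of_rep hKF i1 hη2 hδ h3 (fun π hπ hdv => ?_)
  rw [nb_nb] at hdv
  exact (generated_rep hKF h2 h3 hb0 i0 i1 i2 (hM π hπ (dvd_const h9 hdv))).2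

end main

end Pool.Agent.T6.H12.TD
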