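import Pool.Agent.T6.H12.TD.Roots3

/-!
# Constant quadratic twists of curves with a point of order three
-/

set_option autoImplicit false
set_option linter.all false

open Polynomial IsDedekindDomain WeierstrassCurve WeierstrassCurve.Affine
open scoped Classical

namespace Pool.Agent.T6.H12.TD

open Pool.Agent.TH115.GD (Pt act incl rs ak pl val_poly IsTower Sep Comp CompInf LocallyTrivial
  LocTriv IsCoc act_some act_inj act_act rs_act_incl act_zero)

section small

variable {k : Type} [Field k]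

theorem HasFactor3.const {p : k[X]} {c : k} (hc : c ≠ 0) (h : HasFactor3 p) :
    HasFactor3 (C c * p) := by
  have hCu : IsUnit (C c) := isUnit_C.2 (isUnit_iff_ne_zero.2 hc)
  obtain ⟨π, m, hπ, hm, h1, h2⟩ := h
  exact ⟨π, m, hπ, hm, h1.mul_left _, fun h3 => h2 ((hCu.dvd_mul_left).1 h3)⟩

theorem OddFactors.const {p : k[X]} {c : k} (hc : c ≠ 0) (h : OddFactors p) :
    OddFactors (C c * p) := fun π hπ hd => h π hπ (dvd_const hc hd)

/-- `-3` is a square if the number of elements is `1` modulo three. -/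
theorem neg_three_square [Finite k] (h : Nat.card k % 3 = 1) : ∃ r : k, r ^ 2 = -3 := by
  have h1 : 3 ∣ Nat.card kˣ := by
    rw [Nat.card_units]
    omega
  haveI : Fact (Nat.Prime 3) := ⟨Nat.prime_three⟩
  obtain ⟨ω, hω⟩ := exists_prime_orderOf_dvd_card' 3 h1
  have h2 : (ω : k) ^ 3 = 1 := by
    have := pow_orderOf_eq_one ω
    rw [hω] at this
    rw [← Units.val_pow_eq_pow_val, this, Units.val_one]
  have h3 : (ω : k) ≠ 1 := by
    intro e
    have : ω = 1 := Units.ext e
    rw [this, orderOf_one] at hω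
    omega
  have h4 : (ω : k) ^ 2 + ω + 1 = 0 := by
    have h5 : ((ω : k) - 1) * ((ω : k) ^ 2 + ω + 1) = 0 := by linear_combination h2
    exact (mul_eq_zero.1 h5).resolve_left (sub_ne_zero.2 h3)
  refine ⟨2 * ω + 1, ?_⟩
  linear_combination 4 * h4

theorem nonsquare_mul [Finite k] (h3 : (3 : k) ≠ 0) (h : Nat.card k % 3 = 1) {g : k}
    (hg : ¬ IsSquare g) : ¬ IsSquare (-3 * g) := by
  rintro ⟨s, hs⟩
  obtain ⟨r, hr⟩ := neg_three_square h
  have hr0 : r ≠ 0 := by
    rintro rfl
    apply h3
    have h5 : (0 : k) ^ 2 = 0 := by ring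
    rw [h5] at hr
    linear_combination hr
  apply hg
  refine ⟨s / r, ?_⟩
  field_simp
  linear_combination hs + g * hr

end small

section twist

variable {k k₁ k' K₁ F : Type} [Field k] [Finite k] [Field k₁] [Algebra k k₁]
  [FiniteDimensional k k₁] [Field k'] [Algebra k k'] [Algebra k₁ k'] [IsScalarTower k k₁ k']
  [Field K₁] [Algebra k₁[X] K₁] [Field F] [Algebra k'[X] F] [IsFractionRing k'[X] F] [Algebra K₁ F]

omit [Finite k] [FiniteDimensional k k₁] in
theorem sep_below [FiniteDimensional k k₁] [Finite k] (h : IsSepClosure k₁ k') :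
    IsSepClosure k k' := by
  haveI : Algebra.IsAlgebraic k k₁ := inferInstance
  haveI : Finite k₁ := Module.finite_of_finite k
  haveI : Algebra.IsSeparable k k₁ := inferInstance
  haveI : Algebra.IsSeparable k₁ k' := h.separable
  exact ⟨h.sep_closed, Algebra.IsSeparable.trans k k₁ k'⟩

/-- If all the finite bad places have odd degree, then there are no classes for the constant quadratic
twists, over all finite constant extensions. -/
theorem twist_zero (hT : IsTower k₁ k' K₁ F) (h6 : (6 : k) ≠ 0) (hq : Nat.card k % 3 = 1)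
    {A b : k[X]} (hb0 : b ≠ 0) (hd0 : b - 4 * A ^ 3 ≠ 0)
    (ob : OddFactors b) (od : OddFactors (b - 4 * A ^ 3))
    (fb : HasFactor3 b) (fd : HasFactor3 (b - 4 * A ^ 3)) {g : k₁} (hg : ¬ IsSquare g) :
    SpannedAtThree (F := F) k' (crvP K₁ g (A.map (algebraMap k k₁))
      (C g * b.map (algebraMap k k₁))) ⊥ := by
  haveI := hT.sep
  haveI := sep_below (k := k) hT.sep
  haveI : Finite k₁ := Module.finite_of_finite k
  have h6' : (6 : k₁) ≠ 0 := by
    rw [← map_ofNat (algebraMap k k₁) 6]
    exact (_root_.map_ne_zero _).2 h6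
  have h3' : (3 : k₁) ≠ 0 := fun e => h6' (by linear_combination 2 * e)
  have hg0 : g ≠ 0 := by
    rintro rfl
    exact hg ⟨0, by ring⟩
  have hcard : Nat.card k₁ % 3 = 1 := by
    have h1 : Nat.card k₁ = Nat.card k ^ Module.finrank k k₁ := Module.natCard_eq_pow_finrank
    rw [h1, Nat.pow_mod, hq, one_pow, Nat.one_mod]
  have hdm : b.map (algebraMap k k₁) - 4 * A.map (algebraMap k k₁) ^ 3 =
      (b - 4 * A ^ 3).map (algebraMap k k₁) := by
    simp [Polynomial.map_sub, Polynomial.map_mul, Polynomial.map_pow]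
  have hd : C g * b.map (algebraMap k k₁) - 4 * C g * A.map (algebraMap k k₁) ^ 3 =
      C g * (b - 4 * A ^ 3).map (algebraMap k k₁) := by
    rw [← hdm]
    ring
  have hbm : b.map (algebraMap k k₁) ≠ 0 :=
    (Polynomial.map_ne_zero_iff (algebraMap k k₁).injective).2 hb0
  have hdm0 : (b - 4 * A ^ 3).map (algebraMap k k₁) ≠ 0 :=
    (Polynomial.map_ne_zero_iff (algebraMap k k₁).injective).2 hd0
  refine fin_zero hT h6' hg0 (mul_ne_zero (C_ne_zero.2 hg0) hbm)
    (by rw [hd]; exact mul_ne_zero (C_ne_zero.2 hg0) hdm0)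
    ⟨(fb.ext (k' := k') hb0).const hg0, fun _ => (ob.ext (k' := k')).const hg0,
      fun h => absurd h hg⟩ ?_
  rw [hd]
  exact ⟨(fd.ext (k' := k') hd0).const hg0, fun _ => (od.ext (k' := k')).const hg0,
    fun h => absurd h (nonsquare_mul h3' hcard hg)⟩

end twist

end Pool.Agent.T6.H12.TD
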