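import Pool.Agent.T6.H12.TD.Eps3
import Pool.Agent.T6.H12.TD.Twist3

/-!
# Families of rank one and two
-/

set_option autoImplicit false
set_option linter.all false

open Polynomial IsDedekindDomain WeierstrassCurve WeierstrassCurve.Affine
open scoped Classical

namespace Pool.Agent.T6.H12.TD

open Pool.Agent.TH115.GD (Pt act incl rs ak pl val_poly IsTower Sep Comp CompInf LocallyTrivial
  LocTriv IsCoc act_some act_inj act_act rs_act_incl act_zero)

section indep

variable {k k' K F : Type} [Field k] [Finite k] [Field k'] [Algebra k k'] [IsSepClosure k k']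
  [Field K] [Algebra k[X] K] [IsFractionRing k[X] K] [Field F] [Algebra k'[X] F]
  [IsFractionRing k'[X] F] [Algebra K F]
  (hKF : ∀ p : k[X], algebraMap K F (algebraMap k[X] K p) =
    algebraMap k'[X] F (p.map (algebraMap k k')))

include hKF in
/-- A place over an irreducible polynomial. -/
theorem exists_place {π : k[X]} (hπ : Irreducible π) : ∃ v : HeightOneSpectrum k'[X],
    or3 v (algebraMap K F (algebraMap k[X] K π)) = -1 ∧
      ∀ q : k[X], ¬ π ∣ q → or3 v (algebraMap K F (algebraMap k[X] K q)) = 0 := by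
  haveI : IsSepClosed k' := IsSepClosure.sep_closed k
  have hs : π.Separable := PerfectField.separable_of_irreducible hπ
  have hdeg : (π.map (algebraMap k k')).degree ≠ 0 := by
    rw [degree_map]
    exact (Irreducible.degree_pos hπ).ne'
  obtain ⟨θ, hθ⟩ := IsSepClosed.exists_root _ hdeg (hs.map)
  have injk := (algebraMap k k').injective
  have hπ0 : π.map (algebraMap k k') ≠ 0 := (Polynomial.map_ne_zero_iff injk).2 hπ.ne_zero
  have hθ' : aeval θ π = 0 := by
    rw [← eval_map_algebraMap]; exact hθ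
  refine ⟨pl θ, ?_, fun q hq => ?_⟩
  · rw [or3_root hKF _ hπ.ne_zero θ]
    have h1 : rootMultiplicity θ (π.map (algebraMap k k')) = 1 := by
      have h4 : rootMultiplicity θ (π.map (algebraMap k k')) ≤ 1 :=
        rootMultiplicity_le_one_of_separable hs.map θ
      have h5 : 0 < rootMultiplicity θ (π.map (algebraMap k k')) := (rootMultiplicity_pos hπ0).2 hθ
      omega
    rw [h1, Nat.cast_one]
  · have hq0 : q ≠ 0 := by
      rintro rfl
      exact hq (dvd_zero _)
    rw [or3_root hKF _ hq0 θ]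
    have h2 : rootMultiplicity θ (q.map (algebraMap k k')) = 0 := by
      apply rootMultiplicity_eq_zero
      intro h
      apply hq
      have h3 : aeval θ q = 0 := by
        rw [← eval_map_algebraMap]; exact h
      have e1 := minpoly.eq_of_irreducible hπ hθ'
      have e2 := minpoly.dvd k θ h3
      rw [← e1] at e2
      exact (dvd_mul_right _ _).trans e2
    rw [h2, Nat.cast_zero, neg_zero]

variable {A b : k[X]}

include hKF in
/-- Points of infinite order. -/
theorem indep_one (h2 : (2 : k) ≠ 0) (h3 : (3 : k) ≠ 0) (hb : b ≠ 0) (hd : b - 4 * A ^ 3 ≠ 0)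
    (fb : HasFactor3 b) (fd : HasFactor3 (b - 4 * A ^ 3)) {P : Pt (crvP K 1 A b) K}
    (hind : ∀ (n : ℤ) (j : ZMod 3), (∀ v : HeightOneSpectrum k'[X],
      (n : ZMod 3) * epsF (F := F) K A b v P =
        j * or3 v (algebraMap K F (algebraMap k[X] K b))) → (3 : ℤ) ∣ n) :
    ∀ n : ℤ, n • P = 0 → n = 0 := by
  have key : ∀ (N : ℕ) (n : ℤ) (a : ℕ), n.natAbs ≤ N → 3 ^ a • (n • P) = 0 → n = 0 := by
    intro N
    induction N with
    | zero => intro n a hn _; omega
    | succ N ih =>
      intro n a hn h0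
      obtain ⟨j, hj⟩ := epsF_tors hKF h2 h3 hb hd
        (fun π hπ _ => PerfectField.separable_of_irreducible hπ)
        (fun π hπ _ => PerfectField.separable_of_irreducible hπ) fb fd h0
      obtain ⟨n', rfl⟩ := hind n j fun v => by
        rw [← hj v, epsF_zsmul hKF h2 h3 hb hd]
      by_cases hn0 : n' = 0
      · rw [hn0, mul_zero]
      · have h5 : n' = 0 := ih n' (a + 1) (by omega) (by
          rw [← h0, pow_succ, mul_smul]
          congr 1
          rw [mul_smul]
          rfl)
        exact absurd h5 hn0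
  intro n hn
  exact key n.natAbs n 0 le_rfl (by rw [hn, smul_zero])

include hKF in
/-- Independent points. -/
theorem indep_two (h2 : (2 : k) ≠ 0) (h3 : (3 : k) ≠ 0) (hb : b ≠ 0) (hd : b - 4 * A ^ 3 ≠ 0)
    (fb : HasFactor3 b) (fd : HasFactor3 (b - 4 * A ^ 3)) {P Q : Pt (crvP K 1 A b) K}
    (hind : ∀ (m n : ℤ) (j : ZMod 3), (∀ v : HeightOneSpectrum k'[X],
      (m : ZMod 3) * epsF (F := F) K A b v P + (n : ZMod 3) * epsF (F := F) K A b v Q =
        j * or3 v (algebraMap K F (algebraMap k[X] K b))) → (3 : ℤ) ∣ m ∧ (3 : ℤ) ∣ n) :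
    ∀ m n : ℤ, m • P + n • Q = 0 → m = 0 ∧ n = 0 := by
  have key : ∀ (N : ℕ) (m n : ℤ) (a : ℕ), m.natAbs + n.natAbs ≤ N →
      3 ^ a • (m • P + n • Q) = 0 → m = 0 ∧ n = 0 := by
    intro N
    induction N with
    | zero => intro m n a hn _; omega
    | succ N ih =>
      intro m n a hn h0
      obtain ⟨j, hj⟩ := epsF_tors hKF h2 h3 hb hd
        (fun π hπ _ => PerfectField.separable_of_irreducible hπ)
        (fun π hπ _ => PerfectField.separable_of_irreducible hπ) fb fd h0
      obtain ⟨⟨m', rfl⟩, ⟨n', rfl⟩⟩ := hind m n j fun v => by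
        rw [← hj v, epsF_add hKF h2 h3 hb hd, epsF_zsmul hKF h2 h3 hb hd,
          epsF_zsmul hKF h2 h3 hb hd]
      by_cases hn0 : m' = 0 ∧ n' = 0
      · rw [hn0.1, hn0.2, mul_zero]
        exact ⟨rfl, rfl⟩
      · have h5 := ih m' n' (a + 1) (by omega) (by
          rw [← h0, pow_succ, mul_smul]
          congr 1
          rw [smul_add, mul_smul, mul_smul]
          rfl)
        exact absurd h5 hn0
  intro m n hn
  exact key (m.natAbs + n.natAbs) m n 0 le_rfl (by rw [hn, smul_zero])

end indep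

section families

/-- The second prime of the family of rank one. -/
noncomputable def oneQ {k : Type} [Field k] (A α β p : k[X]) : k[X] :=
  α ^ 3 - p * β ^ 3 - 6 * A * α * β

/-- The parameter `b` of the family of rank one. -/
noncomputable def oneB {k : Type} [Field k] (A α β p : k[X]) : k[X] :=
  C 2⁻¹ * (p * oneQ A α β p)

/-- The parameter `A` of the family of rank two. -/
noncomputable def twoA {k : Type} [Field k] (a q r : k[X]) : k[X] :=
  C 6⁻¹ * ((q - 1) * (r - (a + 1) ^ 3) - (a + 1) ^ 3 + a ^ 3)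

/-- The first prime of the family of rank two. -/
noncomputable def twoP {k : Type} [Field k] (a q r : k[X]) : k[X] :=
  (a + 1) * (q * r - a * (a + 1) ^ 2 * q - r + a ^ 3) + r

/-- The parameter `b` of the family of rank two. -/
noncomputable def twoB {k : Type} [Field k] (a q r : k[X]) : k[X] :=
  C 2⁻¹ * (twoP a q r * q * r)

variable {k k' K F : Type} [Field k] [Finite k] [Field k'] [Algebra k k'] [Field K]
  [Algebra k[X] K] [Field F] [Algebra k'[X] F] [IsFractionRing k'[X] F] [Algebra K F]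

theorem hasFactor_of {p q : k[X]} (hp : Irreducible p) (hpq : ¬ p ∣ q) : HasFactor3 (p * q) := by
  refine ⟨p, 1, hp, by norm_num, by rw [pow_one]; exact dvd_mul_right p q, ?_⟩
  rintro ⟨s, hs⟩
  apply hpq
  refine ⟨s, ?_⟩
  apply mul_left_cancel₀ hp.ne_zero
  rw [hs]
  ring

/-- The point has the coordinates `x`, `y`. -/
def HasCoord {K : Type} [Field K] {W : WeierstrassCurve K} (P : Pt W K) (x y : K) : Prop :=
  ∃ h : (W.baseChange K).toAffine.Nonsingular x y, P = Point.some x y h

omit [Finite k] [Field k'] [Algebra k'[X] F] [IsFractionRing k'[X] F] [Algebra K F] [Field F] in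
theorem map_inv_two (h2K : (2 : K) ≠ 0) (u : k[X]) :
    algebraMap k[X] K (C 2⁻¹ * u) = algebraMap k[X] K u / 2 := by
  have h2 : (2 : k) ≠ 0 := by
    intro h
    apply h2K
    have : algebraMap k[X] K (C 2) = 2 := by rw [map_ofNat, map_ofNat]
    rw [← this, h, C_0, map_zero]
  have hC : algebraMap k[X] K (C (2⁻¹ : k)) * 2 = 1 := by
    have : algebraMap k[X] K (C (2 : k)) = 2 := by rw [map_ofNat, map_ofNat]
    rw [← this, ← map_mul, ← C_mul, inv_mul_cancel₀ h2, C_1, map_one]
  rw [map_mul, eq_div_iff h2K]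
  linear_combination algebraMap k[X] K u * hC

/-- **The family of rank one**, with the coordinates of the point. -/
theorem rank_one_coord (hT : IsTower k k' K F) (h6 : (6 : k) ≠ 0) (hq3 : Nat.card k % 3 = 2)
    {A α β p : k[X]} (hp : Irreducible p) (hq : Irreducible (oneQ A α β p))
    (hpq : ¬ p ∣ oneQ A α β p) (hp3 : ¬ 3 ∣ p.natDegree) (hq3' : ¬ 3 ∣ (oneQ A α β p).natDegree)
    (hd : oneB A α β p - 4 * A ^ 3 ≠ 0) (od : OddFactors (oneB A α β p - 4 * A ^ 3))
    (fd : HasFactor3 (oneB A α β p - 4 * A ^ 3)) :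
    ∃ P : Pt (crvP K 1 A (oneB A α β p)) K,
      HasCoord P (algebraMap k[X] K (p * α * β))
        (algebraMap k[X] K (C 2⁻¹ * (p * α ^ 3 + p ^ 2 * β ^ 3))) ∧
      (∀ n : ℤ, n • P = 0 → n = 0) ∧
      SpannedAtThree (F := F) k' (crvP K 1 A (oneB A α β p)) (AddSubgroup.zmultiples P) := by
  have h2 : (2 : k) ≠ 0 := fun e => h6 (by linear_combination 3 * e)
  have h3 : (3 : k) ≠ 0 := fun e => h6 (by linear_combination 2 * e)
  haveI := hT.sep
  haveI := hT.fracK
  have hKF := hT.map
  haveI : IsSepClosed k' := IsSepClosure.sep_closed k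
  have h2' : (2 : k') ≠ 0 := by
    rw [← map_ofNat (algebraMap k k') 2]
    exact (_root_.map_ne_zero _).2 h2
  set q := oneQ A α β p with hqdef
  set b := oneB A α β p with hbdef
  have hbpq : b = C 2⁻¹ * (p * q) := rfl
  have h2i : (2 : k)⁻¹ ≠ 0 := inv_ne_zero h2
  have hb : b ≠ 0 := mul_ne_zero (C_ne_zero.2 h2i) (mul_ne_zero hp.ne_zero hq.ne_zero)
  have hC : C (2 : k) * C (2⁻¹ : k) = 1 := by rw [← C_mul, mul_inv_cancel₀ h2, C_1]
  have h2b : 2 * b = p * q := by
    rw [hbpq]
    have : (2 : k[X]) = C 2 := by rw [map_ofNat]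
    rw [this, ← mul_assoc, hC, one_mul]
  have hα : α ≠ 0 := by
    intro h0
    have h5 : q = p * (-β ^ 3) := by
      rw [hqdef, oneQ, h0]
      ring
    exact hpq ⟨_, h5⟩
  have hqp : ¬ q ∣ p := by
    intro h
    exact hpq ((hq.associated_of_dvd hp h).symm.dvd)
  have hdiv : ∀ π : k[X], Irreducible π → π ∣ b → Associated π p ∨ Associated π q := by
    intro π hπ hdv
    rw [hbpq] at hdv
    rcases hπ.prime.dvd_or_dvd (dvd_const h2i hdv) with h | h
    · exact Or.inl (hπ.associated_of_dvd hp h)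
    · exact Or.inr (hπ.associated_of_dvd hq h)
  have hb3 : ∀ π : k[X], Irreducible π → π ∣ b → ¬ 3 ∣ π.natDegree := by
    intro π hπ hdv
    rcases hdiv π hπ hdv with h | h
    · rw [natDegree_eq_of_degree_eq (degree_eq_degree_of_associated h)]; exact hp3
    · rw [natDegree_eq_of_degree_eq (degree_eq_degree_of_associated h)]; exact hq3'
  have fb : HasFactor3 b := (hasFactor_of hp hpq).const h2i
  -- the elements of `K`
  set pK := algebraMap k[X] K p with hpK
  set qK := algebraMap k[X] K q with hqK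
  set αK := algebraMap k[X] K α with hαK
  set βK := algebraMap k[X] K β with hβK
  set AK := algebraMap k[X] K A with hAK
  set bK := algebraMap k[X] K b with hbK
  have pK0 : pK ≠ 0 := by simpa [hpK] using hp.ne_zero
  have qK0 : qK ≠ 0 := by simpa [hqK] using hq.ne_zero
  have αK0 : αK ≠ 0 := by simpa [hαK] using hα
  have bK0 : bK ≠ 0 := by simpa [hbK] using hb
  have eq1 : qK = αK ^ 3 - pK * βK ^ 3 - 6 * AK * αK * βK := by
    rw [hqK, hqdef, oneQ]
    simp only [map_sub, map_mul, map_pow, map_ofNat]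
    rfl
  have eb1 : 2 * bK = pK * qK := by
    rw [hbK, hpK, hqK, ← map_mul, ← h2b, map_mul, map_ofNat]
  have h2K : (2 : K) ≠ 0 := by
    have : algebraMap k[X] K (C 2) ≠ 0 := by simpa using h2
    simpa [map_ofNat] using this
  have i0 := isogP (K := K) h2 h3 (D := 1) (A := A) one_ne_zero hb
    (by rw [C_1, mul_one]; exact hd)
  have hE := (i0.bc K).E
  set x : K := pK * αK * βK with hx
  set y : K := (pK * αK ^ 3 + pK ^ 2 * βK ^ 3) / 2 with hy
  have hkz : y + (3 * AK * x + bK) = pK * αK ^ 3 := by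
    have e5 : bK = pK * qK / 2 := by field_simp; linear_combination eb1
    rw [hy, hx, e5, eq1]
    field_simp
    ring
  have hkz2 : y - (3 * AK * x + bK) = pK ^ 2 * βK ^ 3 := by
    have e5 : y - (3 * AK * x + bK) = 2 * y - (y + (3 * AK * x + bK)) := by ring
    rw [e5, hkz, hy]
    field_simp
    ring
  have hns : ((crvP K 1 A b).baseChange K).toAffine.Nonsingular x y := by
    rw [hE.nonsingular]
    show y ^ 2 = x ^ 3 + algebraMap k[X] K (C 1) * (3 * AK * x + bK) ^ 2
    rw [C_1, map_one]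
    have e6 : y ^ 2 = (3 * AK * x + bK) ^ 2 +
        (y + (3 * AK * x + bK)) * (y - (3 * AK * x + bK)) := by ring
    rw [e6, hkz, hkz2, hx]
    ring
  set P : Pt (crvP K 1 A b) K := Point.some x y hns with hP
  have u0 : pK * αK ^ 3 ≠ 0 := mul_ne_zero pK0 (pow_ne_zero 3 αK0)
  have ex : algebraMap k[X] K (p * α * β) = x := by rw [hx, map_mul, map_mul]
  have ey : algebraMap k[X] K (C 2⁻¹ * (p * α ^ 3 + p ^ 2 * β ^ 3)) = y := by
    rw [map_inv_two h2K, hy]
    simp only [map_add, map_mul, map_pow]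
    rfl
  refine ⟨P, ?_, ?_, ?_⟩
  · rw [ex, ey]
    exact ⟨hns, rfl⟩
  · -- infinite order
    obtain ⟨v1, p1, r1⟩ := exists_place (k' := k') (F := F) hKF hp
    obtain ⟨v2, p2, r2⟩ := exists_place (k' := k') (F := F) hKF hq
    have hF0 : ∀ z : K, z ≠ 0 → algebraMap K F z ≠ 0 := fun z hz => (_root_.map_ne_zero _).2 hz
    have h2F : algebraMap K F 2 = cF F (2 : k') := by
      unfold cF
      rw [map_ofNat, map_ofNat, map_ofNat]
    have h2v : ∀ v : HeightOneSpectrum k'[X], or3 v (algebraMap K F 2) = 0 := fun v => by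
      rw [h2F]
      exact or3_of_one v (cF_val v h2')
    have hepsP : ∀ v : HeightOneSpectrum k'[X],
        epsF (F := F) K A b v P = or3 v (algebraMap K F pK) := by
      intro v
      unfold epsF
      rw [kz_incl]
      have h7 : y + 1 * (3 * AK * x + bK) = pK * αK ^ 3 := by rw [one_mul]; exact hkz
      rw [hP]
      simp only [kz]
      rw [h7, if_neg u0, map_mul, map_pow, or3_mul v (hF0 _ pK0) (pow_ne_zero 3 (hF0 _ αK0)),
        or3_pow_three, add_zero]
    have hb' : ∀ v : HeightOneSpectrum k'[X], or3 v (algebraMap K F bK) =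
        or3 v (algebraMap K F pK) + or3 v (algebraMap K F qK) := by
      intro v
      rw [← or3_mul v (hF0 _ pK0) (hF0 _ qK0), ← map_mul, ← eb1, map_mul,
        or3_mul v (hF0 _ h2K) (hF0 _ bK0), h2v, zero_add]
    refine indep_one hKF h2 h3 hb hd fb fd (P := P) fun n j h => ?_
    have e1 := h v1
    have e2 := h v2
    rw [hepsP, hb', p1, r1 q hpq] at e1
    rw [hepsP, hb', p2, r2 p hqp] at e2
    have e3 : j = 0 := by
      have : ∀ n j : ZMod 3, n * 0 = j * (0 + -1) → j = 0 := by decide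
      exact this _ _ e2
    rw [e3] at e1
    have e4 : ((n : ℤ) : ZMod 3) = 0 := by
      have : ∀ n : ZMod 3, n * -1 = 0 * (-1 + 0) → n = 0 := by decide
      exact this _ e1
    exact (ZMod.intCast_zmod_eq_zero_iff_dvd n 3).1 e4
  · -- the classes
    have gp : Generated A b (AddSubgroup.zmultiples P) pK := by
      have g1 := Generated.point (A := A) (b := b) (M := AddSubgroup.zmultiples P) x y hns
        (AddSubgroup.mem_zmultiples P) (by
          show y + (3 * AK * x + bK) ≠ 0
          rw [hkz]; exact u0)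
      have g1' : Generated A b (AddSubgroup.zmultiples P) (pK * αK ^ 3) := by
        rw [← hkz]; exact g1
      have g2 := Generated.mul _ _ g1' (Generated.cube (αK⁻¹) (inv_ne_zero αK0))
      have e : pK * αK ^ 3 * αK⁻¹ ^ 3 = pK := by field_simp
      rwa [e] at g2
    have gq : Generated A b (AddSubgroup.zmultiples P) qK := by
      have g3 := Generated.mul _ _ (Generated.mul _ _ (Generated.mul _ _ (Generated.mul _ _
        (Generated.const (A := A) (b := b) (M := AddSubgroup.zmultiples P) 2 h2)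
        Generated.base) gp) gp) (Generated.cube (pK⁻¹) (inv_ne_zero pK0))
      have e : algebraMap k[X] K (C 2) * algebraMap k[X] K b * pK * pK * pK⁻¹ ^ 3 = qK := by
        have e7 : algebraMap k[X] K (C 2) * algebraMap k[X] K b = pK * qK := by
          rw [← eb1, map_ofNat, map_ofNat]
        rw [e7]
        field_simp
      rwa [e] at g3
    refine points_main hT h6 hq3 hb hd hb3 fb od fd _ fun π hπ hdv => ?_
    rcases hdiv π hπ hdv with h | h
    · obtain ⟨w, hw⟩ := h.symm
      obtain ⟨c, hc, hcw⟩ := Polynomial.isUnit_iff.1 w.isUnit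
      rw [← hw, ← hcw, map_mul]
      exact Generated.mul _ _ gp (Generated.const c (by simpa using hc))
    · obtain ⟨w, hw⟩ := h.symm
      obtain ⟨c, hc, hcw⟩ := Polynomial.isUnit_iff.1 w.isUnit
      rw [← hw, ← hcw, map_mul]
      exact Generated.mul _ _ gq (Generated.const c (by simpa using hc))

/-- **The family of rank one.** -/
theorem rank_one (hT : IsTower k k' K F) (h6 : (6 : k) ≠ 0) (hq3 : Nat.card k % 3 = 2)
    {A α β p : k[X]} (hp : Irreducible p) (hq : Irreducible (oneQ A α β p))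
    (hpq : ¬ p ∣ oneQ A α β p) (hp3 : ¬ 3 ∣ p.natDegree) (hq3' : ¬ 3 ∣ (oneQ A α β p).natDegree)
    (hd : oneB A α β p - 4 * A ^ 3 ≠ 0) (od : OddFactors (oneB A α β p - 4 * A ^ 3))
    (fd : HasFactor3 (oneB A α β p - 4 * A ^ 3)) :
    ∃ P : Pt (crvP K 1 A (oneB A α β p)) K, (∀ n : ℤ, n • P = 0 → n = 0) ∧
      SpannedAtThree (F := F) k' (crvP K 1 A (oneB A α β p)) (AddSubgroup.zmultiples P) := by
  obtain ⟨P, -, h1, h2⟩ := rank_one_coord hT h6 hq3 hp hq hpq hp3 hq3' hd od fd
  exact ⟨P, h1, h2⟩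

/-- **The family of rank two**, with the coordinates of the points. -/
theorem rank_two_coord (hT : IsTower k k' K F) (h6 : (6 : k) ≠ 0) (hq3 : Nat.card k % 3 = 2)
    {a q r : k[X]} (hp : Irreducible (twoP a q r)) (hq : Irreducible q) (hr : Irreducible r)
    (hpq : ¬ twoP a q r ∣ q) (hpr : ¬ twoP a q r ∣ r) (hqr : ¬ q ∣ r)
    (hp3 : ¬ 3 ∣ (twoP a q r).natDegree) (hq3' : ¬ 3 ∣ q.natDegree) (hr3 : ¬ 3 ∣ r.natDegree)
    (hd : twoB a q r - 4 * twoA a q r ^ 3 ≠ 0)
    (od : OddFactors (twoB a q r - 4 * twoA a q r ^ 3))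
    (fd : HasFactor3 (twoB a q r - 4 * twoA a q r ^ 3)) :
    ∃ P Q : Pt (crvP K 1 (twoA a q r) (twoB a q r)) K,
      HasCoord P (algebraMap k[X] K (twoP a q r * a))
        (algebraMap k[X] K (C 2⁻¹ * -(twoP a q r * a ^ 3 + twoP a q r ^ 2))) ∧
      HasCoord Q (algebraMap k[X] K (twoP a q r * q * (a + 1)))
        (algebraMap k[X] K (C 2⁻¹ * (twoP a q r ^ 2 * q + twoP a q r * q ^ 2 * (a + 1) ^ 3))) ∧
      (∀ m n : ℤ, m • P + n • Q = 0 → m = 0 ∧ n = 0) ∧
      SpannedAtThree (F := F) k' (crvP K 1 (twoA a q r) (twoB a q r))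
        (AddSubgroup.closure {P, Q}) := by
  have h2 : (2 : k) ≠ 0 := fun e => h6 (by linear_combination 3 * e)
  have h3 : (3 : k) ≠ 0 := fun e => h6 (by linear_combination 2 * e)
  haveI := hT.sep
  haveI := hT.fracK
  have hKF := hT.map
  haveI : IsSepClosed k' := IsSepClosure.sep_closed k
  have h2' : (2 : k') ≠ 0 := by
    rw [← map_ofNat (algebraMap k k') 2]
    exact (_root_.map_ne_zero _).2 h2
  set p := twoP a q r with hpdef
  set A := twoA a q r with hAdef
  set b := twoB a q r with hbdef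
  have hbpq : b = C 2⁻¹ * (p * q * r) := rfl
  have h2i : (2 : k)⁻¹ ≠ 0 := inv_ne_zero h2
  have hb : b ≠ 0 := mul_ne_zero (C_ne_zero.2 h2i)
    (mul_ne_zero (mul_ne_zero hp.ne_zero hq.ne_zero) hr.ne_zero)
  have hC : C (2 : k) * C (2⁻¹ : k) = 1 := by rw [← C_mul, mul_inv_cancel₀ h2, C_1]
  have hC6 : C (6 : k) * C (6⁻¹ : k) = 1 := by rw [← C_mul, mul_inv_cancel₀ h6, C_1]
  have h2b : 2 * b = p * q * r := by
    rw [hbpq]
    have : (2 : k[X]) = C 2 := by rw [map_ofNat]
    rw [this, ← mul_assoc, hC, one_mul]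
  have h6A : 6 * A = (q - 1) * (r - (a + 1) ^ 3) - (a + 1) ^ 3 + a ^ 3 := by
    rw [hAdef, twoA]
    have : (6 : k[X]) = C 6 := by rw [map_ofNat]
    rw [this, ← mul_assoc, hC6, one_mul]
  have E1 : p = a ^ 3 + 6 * A * a + q * r := by
    rw [h6A, hpdef, twoP]
    ring
  have E2 : p = q * (a + 1) ^ 3 + 6 * A * (a + 1) + r := by
    rw [h6A, hpdef, twoP]
    ring
  have hqp : ¬ q ∣ p := fun h => hpq ((hq.associated_of_dvd hp h).symm.dvd)
  have hrp : ¬ r ∣ p := fun h => hpr ((hr.associated_of_dvd hp h).symm.dvd)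
  have hrq : ¬ r ∣ q := fun h => hqr ((hr.associated_of_dvd hq h).symm.dvd)
  have ha : a ≠ 0 := by
    intro h0
    apply hqp
    refine ⟨r, ?_⟩
    rw [hpdef, twoP, h0]
    ring
  have hpqr : ¬ p ∣ q * r := fun h => by
    rcases hp.prime.dvd_or_dvd h with h | h
    · exact hpq h
    · exact hpr h
  have hdiv : ∀ π : k[X], Irreducible π → π ∣ b →
      Associated π p ∨ Associated π q ∨ Associated π r := by
    intro π hπ hdv
    rw [hbpq] at hdv
    rcases hπ.prime.dvd_or_dvd (dvd_const h2i hdv) with h | h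
    · rcases hπ.prime.dvd_or_dvd h with h | h
      · exact Or.inl (hπ.associated_of_dvd hp h)
      · exact Or.inr (Or.inl (hπ.associated_of_dvd hq h))
    · exact Or.inr (Or.inr (hπ.associated_of_dvd hr h))
  have hb3 : ∀ π : k[X], Irreducible π → π ∣ b → ¬ 3 ∣ π.natDegree := by
    intro π hπ hdv
    rcases hdiv π hπ hdv with h | h | h
    · rw [natDegree_eq_of_degree_eq (degree_eq_degree_of_associated h)]; exact hp3
    · rw [natDegree_eq_of_degree_eq (degree_eq_degree_of_associated h)]; exact hq3'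
    · rw [natDegree_eq_of_degree_eq (degree_eq_degree_of_associated h)]; exact hr3
  have fb : HasFactor3 b := by
    rw [hbpq, mul_assoc]
    exact (hasFactor_of hp hpqr).const h2i
  -- the elements of `K`
  set pK := algebraMap k[X] K p with hpK
  set qK := algebraMap k[X] K q with hqK
  set rK := algebraMap k[X] K r with hrK
  set aK := algebraMap k[X] K a with haK
  set AK := algebraMap k[X] K A with hAK
  set bK := algebraMap k[X] K b with hbK
  have pK0 : pK ≠ 0 := by simpa [hpK] using hp.ne_zero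
  have qK0 : qK ≠ 0 := by simpa [hqK] using hq.ne_zero
  have rK0 : rK ≠ 0 := by simpa [hrK] using hr.ne_zero
  have aK0 : aK ≠ 0 := by simpa [haK] using ha
  have bK0 : bK ≠ 0 := by simpa [hbK] using hb
  have eq1 : pK = aK ^ 3 + 6 * AK * aK + qK * rK := by
    have := congrArg (algebraMap k[X] K) E1
    simpa only [map_add, map_mul, map_pow, map_ofNat] using this
  have eq2 : pK = qK * (aK + 1) ^ 3 + 6 * AK * (aK + 1) + rK := by
    have := congrArg (algebraMap k[X] K) E2
    simpa only [map_add, map_mul, map_pow, map_ofNat, map_one] using this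
  have eb1 : 2 * bK = pK * qK * rK := by
    rw [hbK, hpK, hqK, hrK, ← map_mul, ← map_mul, ← h2b, map_mul, map_ofNat]
  have h2K : (2 : K) ≠ 0 := by
    have : algebraMap k[X] K (C 2) ≠ 0 := by simpa using h2
    simpa [map_ofNat] using this
  have i0 := isogP (K := K) h2 h3 (D := 1) (A := A) one_ne_zero hb
    (by rw [C_1, mul_one]; exact hd)
  have hE := (i0.bc K).E
  -- a point from a factorization
  have mk : ∀ x y u w : K, y + (3 * AK * x + bK) = u → y - (3 * AK * x + bK) = w →
      u * w = x ^ 3 → ((crvP K 1 A b).baseChange K).toAffine.Nonsingular x y := by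
    intro x y u w e1 e2 e3
    rw [hE.nonsingular]
    show y ^ 2 = x ^ 3 + algebraMap k[X] K (C 1) * (3 * AK * x + bK) ^ 2
    rw [C_1, map_one]
    have e6 : y ^ 2 = (3 * AK * x + bK) ^ 2 +
        (y + (3 * AK * x + bK)) * (y - (3 * AK * x + bK)) := by ring
    rw [e6, e1, e2, e3]
    ring
  have e5 : bK = pK * qK * rK / 2 := by field_simp; linear_combination eb1
  -- the first point
  set x1 : K := pK * aK with hx1
  set y1 : K := -(pK * aK ^ 3 + pK ^ 2) / 2 with hy1
  have l1 : 2 * (3 * AK * x1 + bK) = pK ^ 2 - pK * aK ^ 3 := by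
    rw [hx1]
    linear_combination eb1 - pK * eq1
  have k1 : y1 + (3 * AK * x1 + bK) = -(pK * aK ^ 3) := by
    apply mul_left_cancel₀ h2K
    rw [mul_add, l1, hy1]
    field_simp
    ring
  have k1' : y1 - (3 * AK * x1 + bK) = -pK ^ 2 := by
    apply mul_left_cancel₀ h2K
    rw [mul_sub, l1, hy1]
    field_simp
    ring
  have hns1 := mk x1 y1 _ _ k1 k1' (by rw [hx1]; ring)
  -- the second point
  set x2 : K := pK * qK * (aK + 1) with hx2
  set y2 : K := (pK ^ 2 * qK + pK * qK ^ 2 * (aK + 1) ^ 3) / 2 with hy2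
  have l2 : 2 * (3 * AK * x2 + bK) = pK ^ 2 * qK - pK * qK ^ 2 * (aK + 1) ^ 3 := by
    rw [hx2]
    linear_combination eb1 - pK * qK * eq2
  have k2 : y2 + (3 * AK * x2 + bK) = pK ^ 2 * qK := by
    apply mul_left_cancel₀ h2K
    rw [mul_add, l2, hy2]
    field_simp
    ring
  have k2' : y2 - (3 * AK * x2 + bK) = pK * qK ^ 2 * (aK + 1) ^ 3 := by
    apply mul_left_cancel₀ h2K
    rw [mul_sub, l2, hy2]
    field_simp
    ring
  have hns2 := mk x2 y2 _ _ k2 k2' (by rw [hx2]; ring)
  set P : Pt (crvP K 1 A b) K := Point.some x1 y1 hns1 with hP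
  set Q : Pt (crvP K 1 A b) K := Point.some x2 y2 hns2 with hQ
  have u1 : -(pK * aK ^ 3) ≠ 0 := neg_ne_zero.2 (mul_ne_zero pK0 (pow_ne_zero 3 aK0))
  have u2 : pK ^ 2 * qK ≠ 0 := mul_ne_zero (pow_ne_zero 2 pK0) qK0
  have ex1 : algebraMap k[X] K (p * a) = x1 := by rw [hx1, map_mul]
  have ey1 : algebraMap k[X] K (C 2⁻¹ * -(p * a ^ 3 + p ^ 2)) = y1 := by
    rw [map_inv_two h2K, hy1]
    simp only [map_add, map_mul, map_pow, map_neg]
    rfl
  have ex2 : algebraMap k[X] K (p * q * (a + 1)) = x2 := by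
    rw [hx2, map_mul, map_mul, map_add, map_one]
  have ey2 : algebraMap k[X] K (C 2⁻¹ * (p ^ 2 * q + p * q ^ 2 * (a + 1) ^ 3)) = y2 := by
    rw [map_inv_two h2K, hy2]
    simp only [map_add, map_mul, map_pow, map_one]
    rfl
  refine ⟨P, Q, ?_, ?_, ?_, ?_⟩
  · rw [ex1, ey1]
    exact ⟨hns1, rfl⟩
  · rw [ex2, ey2]
    exact ⟨hns2, rfl⟩
  · -- independence
    obtain ⟨v1, p1, r1⟩ := exists_place (k' := k') (F := F) hKF hp
    obtain ⟨v2, p2, r2⟩ := exists_place (k' := k') (F := F) hKF hq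
    obtain ⟨v3, p3, r3⟩ := exists_place (k' := k') (F := F) hKF hr
    have hF0 : ∀ z : K, z ≠ 0 → algebraMap K F z ≠ 0 := fun z hz => (_root_.map_ne_zero _).2 hz
    have h2F : algebraMap K F 2 = cF F (2 : k') := by
      unfold cF
      rw [map_ofNat, map_ofNat, map_ofNat]
    have h2v : ∀ v : HeightOneSpectrum k'[X], or3 v (algebraMap K F 2) = 0 := fun v => by
      rw [h2F]
      exact or3_of_one v (cF_val v h2')
    have hepsP : ∀ v : HeightOneSpectrum k'[X],
        epsF (F := F) K A b v P = or3 v (algebraMap K F pK) := by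
      intro v
      unfold epsF
      rw [kz_incl]
      have h7 : y1 + 1 * (3 * AK * x1 + bK) = -(pK * aK ^ 3) := by rw [one_mul]; exact k1
      rw [hP]
      simp only [kz]
      rw [h7, if_neg u1, map_neg, or3_neg, map_mul, map_pow,
        or3_mul v (hF0 _ pK0) (pow_ne_zero 3 (hF0 _ aK0)), or3_pow_three, add_zero]
    have hepsQ : ∀ v : HeightOneSpectrum k'[X],
        epsF (F := F) K A b v Q = 2 * or3 v (algebraMap K F pK) + or3 v (algebraMap K F qK) := by
      intro v
      unfold epsF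
      rw [kz_incl]
      have h7 : y2 + 1 * (3 * AK * x2 + bK) = pK ^ 2 * qK := by rw [one_mul]; exact k2
      rw [hQ]
      simp only [kz]
      rw [h7, if_neg u2, map_mul, map_pow, or3_mul v (pow_ne_zero 2 (hF0 _ pK0)) (hF0 _ qK0),
        or3_pow]
      push_cast
      rfl
    have hb' : ∀ v : HeightOneSpectrum k'[X], or3 v (algebraMap K F bK) =
        or3 v (algebraMap K F pK) + or3 v (algebraMap K F qK) + or3 v (algebraMap K F rK) := by
      intro v
      rw [← or3_mul v (hF0 _ pK0) (hF0 _ qK0), ← or3_mul v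
        (mul_ne_zero (hF0 _ pK0) (hF0 _ qK0)) (hF0 _ rK0), ← map_mul, ← map_mul, ← eb1, map_mul,
        or3_mul v (hF0 _ h2K) (hF0 _ bK0), h2v, zero_add]
    refine indep_two hKF h2 h3 hb hd fb fd (P := P) (Q := Q) fun m n j h => ?_
    have e1 := h v1
    have e2 := h v2
    have e3 := h v3
    rw [hepsP, hepsQ, hb', p1, r1 q hpq, r1 r hpr] at e1
    rw [hepsP, hepsQ, hb', p2, r2 p hqp, r2 r hqr] at e2
    rw [hepsP, hepsQ, hb', p3, r3 p hrp, r3 q hrq] at e3
    have key : ∀ m n j : ZMod 3, m * -1 + n * (2 * -1 + 0) = j * (-1 + 0 + 0) →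
        m * 0 + n * (2 * 0 + -1) = j * (0 + -1 + 0) →
        m * 0 + n * (2 * 0 + 0) = j * (0 + 0 + -1) → m = 0 ∧ n = 0 := by decide
    obtain ⟨c1, c2⟩ := key _ _ _ e1 e2 e3
    exact ⟨(ZMod.intCast_zmod_eq_zero_iff_dvd m 3).1 c1,
      (ZMod.intCast_zmod_eq_zero_iff_dvd n 3).1 c2⟩
  · -- the classes
    set M := AddSubgroup.closure {P, Q} with hM
    have hPM : P ∈ M := AddSubgroup.subset_closure (Set.mem_insert _ _)
    have hQM : Q ∈ M := AddSubgroup.subset_closure (Set.mem_insert_of_mem _ rfl)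
    have gp : Generated A b M pK := by
      have g1 := Generated.point (A := A) (b := b) (M := M) x1 y1 hns1 hPM (by
          show y1 + (3 * AK * x1 + bK) ≠ 0
          rw [k1]; exact u1)
      have g1' : Generated A b M (-(pK * aK ^ 3)) := by
        rw [← k1]; exact g1
      have g2 := Generated.mul _ _ (Generated.mul _ _ (Generated.const (-1)
        (neg_ne_zero.2 one_ne_zero)) g1') (Generated.cube (aK⁻¹) (inv_ne_zero aK0))
      have e : algebraMap k[X] K (C (-1)) * -(pK * aK ^ 3) * aK⁻¹ ^ 3 = pK := by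
        rw [C_neg, C_1, map_neg, map_one]
        field_simp
      rwa [e] at g2
    have gq : Generated A b M qK := by
      have g1 := Generated.point (A := A) (b := b) (M := M) x2 y2 hns2 hQM (by
          show y2 + (3 * AK * x2 + bK) ≠ 0
          rw [k2]; exact u2)
      have g1' : Generated A b M (pK ^ 2 * qK) := by
        rw [← k2]; exact g1
      have g3 := Generated.mul _ _ (Generated.mul _ _ g1' gp)
        (Generated.cube (pK⁻¹) (inv_ne_zero pK0))
      have e : pK ^ 2 * qK * pK * pK⁻¹ ^ 3 = qK := by field_simp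
      rwa [e] at g3
    have gr : Generated A b M rK := by
      have g3 := Generated.mul _ _ (Generated.mul _ _ (Generated.mul _ _ (Generated.mul _ _
        (Generated.mul _ _ (Generated.mul _ _ (Generated.mul _ _
        (Generated.const (A := A) (b := b) (M := M) 2 h2)
        Generated.base) gp) gp) gq) gq) (Generated.cube (pK⁻¹) (inv_ne_zero pK0)))
        (Generated.cube (qK⁻¹) (inv_ne_zero qK0))
      have e : algebraMap k[X] K (C 2) * algebraMap k[X] K b * pK * pK * qK * qK * pK⁻¹ ^ 3 *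
          qK⁻¹ ^ 3 = rK := by
        have e7 : algebraMap k[X] K (C 2) * algebraMap k[X] K b = pK * qK * rK := by
          rw [← eb1, map_ofNat, map_ofNat]
        rw [e7]
        field_simp
      rwa [e] at g3
    refine points_main hT h6 hq3 hb hd hb3 fb od fd _ fun π hπ hdv => ?_
    rcases hdiv π hπ hdv with h | h | h
    · obtain ⟨w, hw⟩ := h.symm
      obtain ⟨c, hc, hcw⟩ := Polynomial.isUnit_iff.1 w.isUnit
      rw [← hw, ← hcw, map_mul]
      exact Generated.mul _ _ gp (Generated.const c (by simpa using hc))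
    · obtain ⟨w, hw⟩ := h.symm
      obtain ⟨c, hc, hcw⟩ := Polynomial.isUnit_iff.1 w.isUnit
      rw [← hw, ← hcw, map_mul]
      exact Generated.mul _ _ gq (Generated.const c (by simpa using hc))
    · obtain ⟨w, hw⟩ := h.symm
      obtain ⟨c, hc, hcw⟩ := Polynomial.isUnit_iff.1 w.isUnit
      rw [← hw, ← hcw, map_mul]
      exact Generated.mul _ _ gr (Generated.const c (by simpa using hc))

/-- **The family of rank two.** -/
theorem rank_two (hT : IsTower k k' K F) (h6 : (6 : k) ≠ 0) (hq3 : Nat.card k % 3 = 2)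
    {a q r : k[X]} (hp : Irreducible (twoP a q r)) (hq : Irreducible q) (hr : Irreducible r)
    (hpq : ¬ twoP a q r ∣ q) (hpr : ¬ twoP a q r ∣ r) (hqr : ¬ q ∣ r)
    (hp3 : ¬ 3 ∣ (twoP a q r).natDegree) (hq3' : ¬ 3 ∣ q.natDegree) (hr3 : ¬ 3 ∣ r.natDegree)
    (hd : twoB a q r - 4 * twoA a q r ^ 3 ≠ 0)
    (od : OddFactors (twoB a q r - 4 * twoA a q r ^ 3))
    (fd : HasFactor3 (twoB a q r - 4 * twoA a q r ^ 3)) :
    ∃ P Q : Pt (crvP K 1 (twoA a q r) (twoB a q r)) K,
      (∀ m n : ℤ, m • P + n • Q = 0 → m = 0 ∧ n = 0) ∧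
      SpannedAtThree (F := F) k' (crvP K 1 (twoA a q r) (twoB a q r))
        (AddSubgroup.closure {P, Q}) := by
  obtain ⟨P, Q, -, -, h1, h2⟩ := rank_two_coord hT h6 hq3 hp hq hr hpq hpr hqr hp3 hq3' hr3 hd od fd
  exact ⟨P, Q, h1, h2⟩

end families

end Pool.Agent.T6.H12.TD
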