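import Pool.Agent.T6.H12.TD.BaseTwist3
import Pool.Agent.R939.KM.Km

/-!
# Base change by powers
-/

set_option autoImplicit false
set_option linter.all false

open Polynomial IsDedekindDomain WeierstrassCurve WeierstrassCurve.Affine
open scoped Classical

namespace Pool.Agent.T6.H12.TD

open Pool.Agent.TH115.GD (Pt act incl rs ak pl val_poly IsTower Sep Comp CompInf LocallyTrivial
  LocTriv IsCoc act_some act_inj act_act rs_act_incl act_zero)

/-- The conditions on `(D, p)` for the base change by `t ↦ t ^ m`: if `D` is not a square, all the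
irreducible factors of `p` have odd degree and `p` has two different roots in `k'` whose
multiplicities are not divisible by three; if `D` is a square, `p` is a constant times `π ^ n` with `π`
irreducible, `n`, `m` and the degree of `π` are not divisible by three, and the roots of `π` are not
`ℓ`-th powers in the field generated by them, for the primes `ℓ` which divide `m`. -/
def PowerSide {k : Type} [Field k] (k' : Type) [Field k'] [Algebra k k'] (m : ℕ) (D : k)
    (p : k[X]) : Prop :=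
  (¬ IsSquare D → OddFactors p ∧ TwoRoots k' p) ∧
    (IsSquare D → ∃ (u : k) (π : k[X]) (n : ℕ), Irreducible π ∧ ¬ 3 ∣ n ∧ ¬ 3 ∣ m ∧
      ¬ 3 ∣ π.natDegree ∧ (∀ ℓ : ℕ, ℓ.Prime → ℓ ∣ m → ∀ y : AdjoinRoot π,
        y ^ ℓ ≠ AdjoinRoot.root π) ∧ p = C u * π ^ n)

section powers

variable {k : Type} [Field k]

theorem oddGalois_pow : ∀ m : ℕ, m ≠ 0 → (∀ ℓ : ℕ, ℓ.Prime → ℓ ∣ m → ℓ ≠ 2 ∧ ℓ ∣ Nat.card k - 1) →
    OddGalois k (X ^ m : k[X]) := by
  intro m
  induction m using Nat.recOnMul with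
  | zero => intro h; exact absurd rfl h
  | one =>
    intro _ _
    have h1 := OddGalois.lin (k := k) 1 0 one_ne_zero
    have h2 : (C 1 * X + C 0 : k[X]) = X ^ 1 := by simp
    rwa [h2] at h1
  | prime p hp =>
    intro _ h
    exact OddGalois.pow p hp (h p hp dvd_rfl).1 (h p hp dvd_rfl).2
  | mul a b ha hb =>
    intro h0 h
    have ha0 : a ≠ 0 := left_ne_zero_of_mul h0
    have hb0 : b ≠ 0 := right_ne_zero_of_mul h0
    have h1 := ha ha0 fun ℓ hℓ hd => h ℓ hℓ (hd.mul_right b)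
    have h2 := hb hb0 fun ℓ hℓ hd => h ℓ hℓ (hd.mul_left a)
    have h3 : (X ^ (a * b) : k[X]) = (X ^ a).comp (X ^ b) := by
      rw [pow_comp, X_comp, ← pow_mul, mul_comm]
    rw [h3]
    exact OddGalois.comp _ _ h1 h2

theorem isPower_factor {p π : k[X]} {u : k} {n : ℕ} (hp : p ≠ 0) (hπ : Irreducible π) (hn : ¬ 3 ∣ n)
    (e : p = C u * π ^ n) : HasFactor3 p := by
  have hu : u ≠ 0 := by
    rintro rfl
    exact hp (by rw [e, C_0, zero_mul])
  have h1 : HasFactor3 (π ^ n) := by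
    refine ⟨π, n, hπ, hn, dvd_rfl, ?_⟩
    intro h
    have h2 := (pow_dvd_pow_iff hπ.ne_zero hπ.not_isUnit).1 h
    omega
  rw [e]
  exact h1.const hu

end powers

section main

variable {k k' K F : Type} [Field k] [Finite k] [Field k'] [Algebra k k'] [Field K]
  [Algebra k[X] K] [Field F] [Algebra k'[X] F] [IsFractionRing k'[X] F] [Algebra K F]

theorem PowerSide.side [IsSepClosure k k'] (h2 : (2 : k) ≠ 0) {m : ℕ} (hm0 : m ≠ 0)
    (hm : ∀ ℓ : ℕ, ℓ.Prime → ℓ ∣ m → ℓ ≠ 2 ∧ ℓ ∣ Nat.card k - 1) {D : k} {p : k[X]} (hp : p ≠ 0)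
    (h : PowerSide k' m D p) : Side D (p.comp (X ^ m)) := by
  have hP : Pres k k' (X ^ m : k[X]) := (oddGalois_pow m hm0 hm).pres h2
  have hc0 := hP.2.1 p hp
  by_cases hs : IsSquare D
  · obtain ⟨u, π, n, hπ, hn, hm3, hd3, hr, e⟩ := h.2 hs
    have hodd : Odd m := by
      by_contra hcon
      rw [Nat.not_odd_iff_even] at hcon
      exact (hm 2 Nat.prime_two hcon.two_dvd).1 rfl
    have hirr : Irreducible (π.comp (X ^ m)) := Pool.Agent.R939.KM.irr_pow hπ hodd hr
    have e' : p.comp (X ^ m) = C u * (π.comp (X ^ m)) ^ n := by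
      rw [e, mul_comp, C_comp, pow_comp]
    refine ⟨isPower_factor hc0 hirr hn e', fun h => absurd hs h,
      fun _ => ⟨u, π.comp (X ^ m), n, hirr, hn, ?_, e'⟩⟩
    rw [natDegree_comp, natDegree_X_pow]
    intro h3
    rcases (Nat.prime_three.dvd_mul).1 h3 with h4 | h4
    · exact hd3 h4
    · exact hm3 h4
  · obtain ⟨ho, ht⟩ := h.1 hs
    exact ⟨(hP.2.2 p hp ht).factor hc0, fun _ => ho.comp hP, fun h => absurd h hs⟩

/-- **Base change by powers.** -/
theorem power_zero (hT : IsTower k k' K F) (h6 : (6 : k) ≠ 0) {D : k} (hD : D ≠ 0) {A b : k[X]}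
    (hb0 : b ≠ 0) (hd0 : b - 4 * C D * A ^ 3 ≠ 0) {m : ℕ} (hm0 : m ≠ 0)
    (hm : ∀ ℓ : ℕ, ℓ.Prime → ℓ ∣ m → ℓ ≠ 2 ∧ ℓ ∣ Nat.card k - 1)
    (hb : PowerSide k' m D b) (hd : PowerSide k' m (-3 * D) (b - 4 * C D * A ^ 3)) :
    SpannedAtThree (F := F) k' (crvP K D (A.comp (X ^ m)) (b.comp (X ^ m))) ⊥ := by
  haveI := hT.sep
  have h2 : (2 : k) ≠ 0 := fun e => h6 (by linear_combination 3 * e)
  have hP : Pres k k' (X ^ m : k[X]) := (oddGalois_pow m hm0 hm).pres h2
  have e : b.comp (X ^ m) - 4 * C D * (A.comp (X ^ m)) ^ 3 =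
      (b - 4 * C D * A ^ 3).comp (X ^ m) := by
    rw [sub_comp, mul_comp, mul_comp, pow_comp, C_comp]
    simp only [ofNat_comp]
    push_cast
    ring
  refine fin_zero hT h6 hD (hP.2.1 _ hb0) (by rw [e]; exact hP.2.1 _ hd0)
    (hb.side h2 hm0 hm hb0) ?_
  rw [e]
  exact hd.side h2 hm0 hm hd0

end main

end Pool.Agent.T6.H12.TD
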