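import Pool.Agent.T6.H12.TD.Rank3
import Pool.Agent.T6.H12.TD.Tower3

/-!
# Ranks in towers
-/

set_option autoImplicit false
set_option linter.all false

open Polynomial IsDedekindDomain WeierstrassCurve WeierstrassCurve.Affine
open scoped Classical

namespace Pool.Agent.T6.H12.TD

open Pool.Agent.TH115.GD (Pt act incl rs ak pl val_poly IsTower Sep Comp CompInf LocallyTrivial
  LocTriv IsCoc act_some act_inj act_act rs_act_incl act_zero)

section mult

variable {k' : Type} [Field k']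

/-- The multiplicity of a root after a substitution. -/
theorem mult_comp' {P H : k'[X]} (hP : P ≠ 0) {x : k'} (hH : H - C (eval x H) ≠ 0) :
    rootMultiplicity x (P.comp H) =
      rootMultiplicity (eval x H) P * rootMultiplicity x (H - C (eval x H)) := by
  set θ := eval x H with hθ
  obtain ⟨Q, hQ, hQd⟩ := exists_eq_pow_rootMultiplicity_mul_and_not_dvd P hP θ
  set m := rootMultiplicity θ P with hm
  have hQθ : eval θ Q ≠ 0 := by
    intro h
    exact hQd (dvd_iff_isRoot.2 h)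
  have h1 : P.comp H = (H - C θ) ^ m * Q.comp H := by
    conv_lhs => rw [hQ]
    rw [mul_comp, pow_comp, sub_comp, X_comp, C_comp]
  have hQc : Q.comp H ≠ 0 := by
    intro h
    apply hQθ
    have h2 : eval x (Q.comp H) = eval θ Q := by rw [eval_comp]
    rw [← h2, h, eval_zero]
  have h3 : rootMultiplicity x (Q.comp H) = 0 := by
    apply rootMultiplicity_eq_zero
    intro h
    apply hQθ
    have h2 : eval x (Q.comp H) = eval θ Q := by rw [eval_comp]
    rw [← h2]; exact h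
  rw [h1, rootMultiplicity_mul (mul_ne_zero (pow_ne_zero m hH) hQc), h3, add_zero]
  rw [← count_roots, roots_pow, Multiset.count_nsmul, count_roots]

end mult

section pow

variable {k k' : Type} [Field k] [Finite k] [Field k'] [Algebra k k'] [IsSepClosure k k']

/-- The substitution `t ↦ t ^ m` and multiplicities prime to three. -/
theorem HasFactor3.comp_pow {p : k[X]} (hp : p ≠ 0) (h : HasFactor3 p) {m : ℕ} (hm0 : m ≠ 0)
    (hm3 : ¬ 3 ∣ m) (hm : ∀ ℓ : ℕ, ℓ.Prime → ℓ ∣ m → ℓ ∣ Nat.card k - 1) :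
    HasFactor3 (p.comp (X ^ m)) := by
  obtain ⟨k', _, _, _⟩ : ∃ (k' : Type) (_ : Field k') (_ : Algebra k k'), IsSepClosure k k' :=
    ⟨AlgebraicClosure k, inferInstance, inferInstance, by
      haveI : IsAlgClosure k (AlgebraicClosure k) := inferInstance
      exact inferInstance⟩
  haveI : Fintype k := Fintype.ofFinite _
  haveI : Algebra.IsAlgebraic k k' := inferInstance
  obtain ⟨π, n, hπ, hn, ⟨q, rfl⟩, hd⟩ := h
  have hq0 : q ≠ 0 := right_ne_zero_of_mul hp
  have hs : π.Separable := PerfectField.separable_of_irreducible hπ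
  have hdq : ¬ π ∣ q := by
    rintro ⟨r, rfl⟩
    apply hd
    exact ⟨r, by ring⟩
  obtain ⟨θ, hθ, hmul⟩ := root_mult (k' := k') (m := n) hπ hs hq0 hdq
  have hmpos : 0 < m := Nat.pos_of_ne_zero hm0
  obtain ⟨x, hx⟩ := exists_over (X ^ m : k[X]) (by rw [natDegree_X_pow]; exact hm0) θ
  have hx' : x ^ m = θ := by rw [← hx, map_pow, aeval_X]
  have hc0 : (π ^ n * q).comp (X ^ m) ≠ 0 := comp_ne_zero_of hp (by rw [natDegree_X_pow]; exact hmpos)
  refine factor_of_root (k' := k') (x := x) hc0 ?_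
  have hpm : (π ^ n * q).map (algebraMap k k') ≠ 0 :=
    (Polynomial.map_ne_zero_iff (algebraMap k k').injective).2 hp
  have hHm : ((X ^ m : k[X]).map (algebraMap k k')) = X ^ m := by
    rw [Polynomial.map_pow, map_X]
  have hev : eval x (X ^ m : k'[X]) = θ := by rw [eval_pow, eval_X, hx']
  rw [Polynomial.map_comp, hHm]
  by_cases hx0 : x = 0
  · have hθ0 : θ = 0 := by rw [← hx', hx0, zero_pow hm0]
    have hH : (X ^ m : k'[X]) - C (eval x (X ^ m)) ≠ 0 := by
      rw [hev, hθ0, C_0, sub_zero]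
      exact pow_ne_zero m X_ne_zero
    rw [mult_comp' hpm hH, hev, hmul, hθ0, C_0, sub_zero, hx0]
    have h1 : rootMultiplicity 0 (X ^ m : k'[X]) = m := by
      rw [← count_roots, roots_pow, Multiset.count_nsmul, roots_X, Multiset.count_singleton_self]
      ring
    rw [h1]
    intro h3
    rcases (Nat.prime_three.dvd_mul).1 h3 with h4 | h4
    · exact hn h4
    · exact hm3 h4
  · -- the substitution is not ramified
    have hmk : (m : k') ≠ 0 := by
      obtain ⟨p0, hp0⟩ := CharP.exists k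
      haveI := hp0
      haveI : CharP k' p0 := charP_of_injective_algebraMap (algebraMap k k').injective p0
      haveI : Fact p0.Prime := ⟨CharP.char_is_prime k p0⟩
      obtain ⟨r, -, hr⟩ := FiniteField.card k p0
      intro h0
      rw [CharP.cast_eq_zero_iff k' p0] at h0
      have h1 := hm p0 Fact.out h0
      have hqpos : 0 < Nat.card k := Nat.card_pos
      have h2 : p0 ∣ Nat.card k := by
        rw [Nat.card_eq_fintype_card, hr]
        exact dvd_pow_self p0 r.pos.ne'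
      have h4 : Nat.card k - (Nat.card k - 1) = 1 := by omega
      have h5 : p0 ∣ 1 := by
        rw [← h4]
        exact Nat.dvd_sub h2 h1
      exact (Fact.out : p0.Prime).one_lt.ne' (Nat.dvd_one.1 h5)
    have hder : eval x (derivative (X ^ m : k'[X])) ≠ 0 := by
      rw [derivative_X_pow, eval_mul, eval_pow, eval_X, eval_C]
      exact mul_ne_zero hmk (pow_ne_zero _ hx0)
    rw [mult_comp hpm hder, hev, hmul]
    exact hn

end pow

section towers

/-- The roots of `p` are not `ℓ`-th powers in the field generated by them, for the primes `ℓ` which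
divide `m`. -/
def NoPower {k : Type} [Field k] (m : ℕ) (p : k[X]) : Prop :=
  ∀ ℓ : ℕ, ℓ.Prime → ℓ ∣ m → ∀ y : AdjoinRoot p, y ^ ℓ ≠ AdjoinRoot.root p

theorem oneQ_comp {k : Type} [Field k] (A α β p h : k[X]) :
    (oneQ A α β p).comp h = oneQ (A.comp h) (α.comp h) (β.comp h) (p.comp h) := by
  unfold oneQ
  simp only [sub_comp, mul_comp, pow_comp, ofNat_comp]
  push_cast
  ring

theorem oneB_comp {k : Type} [Field k] (A α β p h : k[X]) :
    (oneB A α β p).comp h = oneB (A.comp h) (α.comp h) (β.comp h) (p.comp h) := by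
  unfold oneB
  rw [mul_comp, C_comp, mul_comp, oneQ_comp]

theorem twoP_comp {k : Type} [Field k] (a q r h : k[X]) :
    (twoP a q r).comp h = twoP (a.comp h) (q.comp h) (r.comp h) := by
  unfold twoP
  simp only [add_comp, sub_comp, mul_comp, pow_comp, one_comp]

theorem twoA_comp {k : Type} [Field k] (a q r h : k[X]) :
    (twoA a q r).comp h = twoA (a.comp h) (q.comp h) (r.comp h) := by
  unfold twoA
  simp only [add_comp, sub_comp, mul_comp, pow_comp, one_comp, C_comp]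

theorem twoB_comp {k : Type} [Field k] (a q r h : k[X]) :
    (twoB a q r).comp h = twoB (a.comp h) (q.comp h) (r.comp h) := by
  unfold twoB
  rw [mul_comp, C_comp, mul_comp, mul_comp, twoP_comp]

/-- Divisibility by an irreducible polynomial after a substitution. -/
theorem not_dvd_comp {k : Type} [Field k] {p q h : k[X]} (hp : Irreducible p) (hpq : ¬ p ∣ q)
    (hi : Irreducible (p.comp h)) : ¬ p.comp h ∣ q.comp h := by
  intro hd
  have h1 : IsCoprime p q := (Irreducible.coprime_iff_not_dvd hp).2 hpq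
  obtain ⟨u, v, e⟩ := h1
  have e2 := congrArg (fun z => z.comp h) e
  simp only [add_comp, mul_comp, one_comp] at e2
  apply hi.not_isUnit
  apply isUnit_of_dvd_one
  rw [← e2]
  exact dvd_add (dvd_mul_left _ _) (hd.mul_left _)

variable {k k' K F : Type} [Field k] [Finite k] [Field k'] [Algebra k k'] [Field K]
  [Algebra k[X] K] [Field F] [Algebra k'[X] F] [IsFractionRing k'[X] F] [Algebra K F]

theorem three_not_dvd {m : ℕ} (hq3 : Nat.card k % 3 = 2)
    (hm : ∀ ℓ : ℕ, ℓ.Prime → ℓ ∣ m → ℓ ≠ 2 ∧ ℓ ∣ Nat.card k - 1) : ¬ 3 ∣ m := by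
  intro h
  have := (hm 3 Nat.prime_three h).2
  omega

theorem deg_comp_pow {p : k[X]} {m : ℕ} (hp : ¬ 3 ∣ p.natDegree) (hm : ¬ 3 ∣ m) :
    ¬ 3 ∣ (p.comp (X ^ m)).natDegree := by
  rw [natDegree_comp, natDegree_X_pow]
  intro h3
  rcases (Nat.prime_three.dvd_mul).1 h3 with h4 | h4
  · exact hp h4
  · exact hm h4

theorem irr_tower {m : ℕ} (hm : ∀ ℓ : ℕ, ℓ.Prime → ℓ ∣ m → ℓ ≠ 2 ∧ ℓ ∣ Nat.card k - 1)
    {p : k[X]} (hp : Irreducible p) (hn : NoPower m p) : Irreducible (p.comp (X ^ m)) := by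
  have hodd : Odd m := by
    by_contra hcon
    rw [Nat.not_odd_iff_even] at hcon
    exact (hm 2 Nat.prime_two hcon.two_dvd).1 rfl
  exact Pool.Agent.R939.KM.irr_pow hp hodd hn

/-- **Rank one in towers.** -/
theorem rank_one_tower (hT : IsTower k k' K F) (h6 : (6 : k) ≠ 0) (hq3 : Nat.card k % 3 = 2)
    {A α β p : k[X]} (hp : Irreducible p) (hq : Irreducible (oneQ A α β p))
    (hpq : ¬ p ∣ oneQ A α β p) (hp3 : ¬ 3 ∣ p.natDegree) (hq3' : ¬ 3 ∣ (oneQ A α β p).natDegree)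
    (hd : oneB A α β p - 4 * A ^ 3 ≠ 0) (od : OddFactors (oneB A α β p - 4 * A ^ 3))
    (fd : HasFactor3 (oneB A α β p - 4 * A ^ 3)) {m : ℕ} (hm0 : m ≠ 0)
    (hm : ∀ ℓ : ℕ, ℓ.Prime → ℓ ∣ m → ℓ ≠ 2 ∧ ℓ ∣ Nat.card k - 1)
    (np : NoPower m p) (nq : NoPower m (oneQ A α β p)) :
    ∃ P : Pt (crvP K 1 (A.comp (X ^ m)) ((oneB A α β p).comp (X ^ m))) K,
      HasCoord P (algebraMap k[X] K ((p * α * β).comp (X ^ m)))
        (algebraMap k[X] K ((C 2⁻¹ * (p * α ^ 3 + p ^ 2 * β ^ 3)).comp (X ^ m))) ∧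
      (∀ n : ℤ, n • P = 0 → n = 0) ∧
      SpannedAtThree (F := F) k' (crvP K 1 (A.comp (X ^ m)) ((oneB A α β p).comp (X ^ m)))
        (AddSubgroup.zmultiples P) := by
  haveI := hT.sep
  have h2 : (2 : k) ≠ 0 := fun e => h6 (by linear_combination 3 * e)
  have h3m := three_not_dvd hq3 hm
  have hP : Pres k k' (X ^ m : k[X]) := (oddGalois_pow m hm0 hm).pres h2
  have ip := irr_tower hm hp np
  have iq := irr_tower hm hq nq
  have e1 := oneQ_comp A α β p (X ^ m)
  have e2 := oneB_comp A α β p (X ^ m)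
  have e3 : (oneB A α β p - 4 * A ^ 3).comp (X ^ m) =
      (oneB A α β p).comp (X ^ m) - 4 * (A.comp (X ^ m)) ^ 3 := by
    rw [sub_comp, mul_comp, pow_comp]
    simp only [ofNat_comp]
    push_cast
    ring
  have npq := not_dvd_comp hp hpq ip
  have dq := deg_comp_pow hq3' h3m
  rw [e1] at iq npq dq
  have d0 := hP.2.1 _ hd
  have od' := od.comp hP
  have fd' := fd.comp_pow hd hm0 h3m fun ℓ h1 h2 => (hm ℓ h1 h2).2
  rw [e3, e2] at d0 od' fd'
  obtain ⟨P, c1, c2, c3⟩ := rank_one_coord hT h6 hq3 ip iq npq (deg_comp_pow hp3 h3m) dq d0 od' fd'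
  rw [e2]
  refine ⟨P, ?_, c2, c3⟩
  have g1 : (p * α * β).comp (X ^ m) =
      p.comp (X ^ m) * α.comp (X ^ m) * β.comp (X ^ m) := by rw [mul_comp, mul_comp]
  have g2 : (C 2⁻¹ * (p * α ^ 3 + p ^ 2 * β ^ 3)).comp (X ^ m) =
      C 2⁻¹ * (p.comp (X ^ m) * α.comp (X ^ m) ^ 3 + p.comp (X ^ m) ^ 2 * β.comp (X ^ m) ^ 3) := by
    simp only [mul_comp, add_comp, pow_comp, C_comp]
  rw [g1, g2]
  exact c1

/-- **Rank two in towers.** -/
theorem rank_two_tower (hT : IsTower k k' K F) (h6 : (6 : k) ≠ 0) (hq3 : Nat.card k % 3 = 2)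
    {a q r : k[X]} (hp : Irreducible (twoP a q r)) (hq : Irreducible q) (hr : Irreducible r)
    (hpq : ¬ twoP a q r ∣ q) (hpr : ¬ twoP a q r ∣ r) (hqr : ¬ q ∣ r)
    (hp3 : ¬ 3 ∣ (twoP a q r).natDegree) (hq3' : ¬ 3 ∣ q.natDegree) (hr3 : ¬ 3 ∣ r.natDegree)
    (hd : twoB a q r - 4 * twoA a q r ^ 3 ≠ 0)
    (od : OddFactors (twoB a q r - 4 * twoA a q r ^ 3))
    (fd : HasFactor3 (twoB a q r - 4 * twoA a q r ^ 3)) {m : ℕ} (hm0 : m ≠ 0)
    (hm : ∀ ℓ : ℕ, ℓ.Prime → ℓ ∣ m → ℓ ≠ 2 ∧ ℓ ∣ Nat.card k - 1)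
    (np : NoPower m (twoP a q r)) (nq : NoPower m q) (nr : NoPower m r) :
    ∃ P Q : Pt (crvP K 1 ((twoA a q r).comp (X ^ m)) ((twoB a q r).comp (X ^ m))) K,
      HasCoord P (algebraMap k[X] K ((twoP a q r * a).comp (X ^ m)))
        (algebraMap k[X] K ((C 2⁻¹ * -(twoP a q r * a ^ 3 + twoP a q r ^ 2)).comp (X ^ m))) ∧
      HasCoord Q (algebraMap k[X] K ((twoP a q r * q * (a + 1)).comp (X ^ m)))
        (algebraMap k[X] K ((C 2⁻¹ * (twoP a q r ^ 2 * q +
          twoP a q r * q ^ 2 * (a + 1) ^ 3)).comp (X ^ m))) ∧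
      (∀ m n : ℤ, m • P + n • Q = 0 → m = 0 ∧ n = 0) ∧
      SpannedAtThree (F := F) k'
        (crvP K 1 ((twoA a q r).comp (X ^ m)) ((twoB a q r).comp (X ^ m)))
        (AddSubgroup.closure {P, Q}) := by
  haveI := hT.sep
  have h2 : (2 : k) ≠ 0 := fun e => h6 (by linear_combination 3 * e)
  have h3m := three_not_dvd hq3 hm
  have hP : Pres k k' (X ^ m : k[X]) := (oddGalois_pow m hm0 hm).pres h2
  have ip := irr_tower hm hp np
  have iq := irr_tower hm hq nq
  have ir := irr_tower hm hr nr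
  have e1 := twoP_comp a q r (X ^ m)
  have e2 := twoB_comp a q r (X ^ m)
  have e2' := twoA_comp a q r (X ^ m)
  have e3 : (twoB a q r - 4 * twoA a q r ^ 3).comp (X ^ m) =
      (twoB a q r).comp (X ^ m) - 4 * ((twoA a q r).comp (X ^ m)) ^ 3 := by
    rw [sub_comp, mul_comp, pow_comp]
    simp only [ofNat_comp]
    push_cast
    ring
  have npq := not_dvd_comp hp hpq ip
  have npr := not_dvd_comp hp hpr ip
  have nqr := not_dvd_comp hq hqr iq
  have dp := deg_comp_pow hp3 h3m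
  have dq := deg_comp_pow hq3' h3m
  have dr := deg_comp_pow hr3 h3m
  rw [e1] at ip npq npr dp
  have d0 := hP.2.1 _ hd
  have od' := od.comp hP
  have fd' := fd.comp_pow hd hm0 h3m fun ℓ h1 h2 => (hm ℓ h1 h2).2
  rw [e3, e2, e2'] at d0 od' fd'
  obtain ⟨P, Q, c1, c2, c3, c4⟩ := rank_two_coord hT h6 hq3 ip iq ir npq npr nqr dp dq dr d0 od' fd'
  rw [e2, e2']
  refine ⟨P, Q, ?_, ?_, c3, c4⟩
  · have g1 : (twoP a q r * a).comp (X ^ m) =
        twoP (a.comp (X ^ m)) (q.comp (X ^ m)) (r.comp (X ^ m)) * a.comp (X ^ m) := by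
      rw [mul_comp, twoP_comp]
    have g2 : (C 2⁻¹ * -(twoP a q r * a ^ 3 + twoP a q r ^ 2)).comp (X ^ m) =
        C 2⁻¹ * -(twoP (a.comp (X ^ m)) (q.comp (X ^ m)) (r.comp (X ^ m)) *
          a.comp (X ^ m) ^ 3 + twoP (a.comp (X ^ m)) (q.comp (X ^ m)) (r.comp (X ^ m)) ^ 2) := by
      simp only [mul_comp, add_comp, neg_comp, pow_comp, C_comp, twoP_comp]
    rw [g1, g2]
    exact c1
  · have g1 : (twoP a q r * q * (a + 1)).comp (X ^ m) =
        twoP (a.comp (X ^ m)) (q.comp (X ^ m)) (r.comp (X ^ m)) * q.comp (X ^ m) *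
          (a.comp (X ^ m) + 1) := by
      simp only [mul_comp, add_comp, one_comp, twoP_comp]
    have g2 : (C 2⁻¹ * (twoP a q r ^ 2 * q + twoP a q r * q ^ 2 * (a + 1) ^ 3)).comp (X ^ m) =
        C 2⁻¹ * (twoP (a.comp (X ^ m)) (q.comp (X ^ m)) (r.comp (X ^ m)) ^ 2 * q.comp (X ^ m) +
          twoP (a.comp (X ^ m)) (q.comp (X ^ m)) (r.comp (X ^ m)) * q.comp (X ^ m) ^ 2 *
            (a.comp (X ^ m) + 1) ^ 3) := by
      simp only [mul_comp, add_comp, one_comp, pow_comp, C_comp, twoP_comp]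
    rw [g1, g2]
    exact c2

end towers

end Pool.Agent.T6.H12.TD
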