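import Pool.Agent.T6.H12.TD.Enough

/-!
# The Kummer map is a homomorphism
-/

set_option autoImplicit false
set_option linter.all false

open Polynomial IsDedekindDomain WeierstrassCurve WeierstrassCurve.Affine
open scoped Classical

namespace Pool.Agent.T6.H12.TD

open Pool.Agent.TH115.GD (Pt act incl rs ak pl val_poly IsTower Sep Comp CompInf LocallyTrivial
  LocTriv IsCoc act_some act_inj act_act rs_act_incl act_zero)
open Pool.Agent.W309.TD (compare)

section add

variable {K F Ω : Type} [Field K] [Field F] [Field Ω] [Algebra K F] [Algebra F Ω] [Algebra K Ω]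
  [IsScalarTower K F Ω] [IsSepClosed Ω] [IsGalois F Ω] {W W' : WeierstrassCurve K}
  {D A b D' b' : K}
  (h : Isog W.toAffine W'.toAffine D A b D' b') {η δ : F} (hη : η ^ 2 = algebraMap K F D')
  (hδ : δ ^ 2 = algebraMap K F D)

include h hη hδ

/-- A Kummer generator for every point over `F`. -/
theorem exists_kap (Q : Pt W' F) : ∃ (P : Pt W Ω) (κ : Ω), ph h Ω P = act W' (incl K F Ω) Q ∧
    κ ≠ 0 ∧ κ ^ 3 = algebraMap F Ω (kz η (algebraMap K F A) (algebraMap K F b') Q) ∧
    ∀ σ : Ω ≃ₐ[F] Ω, ph h Ω (act W (rs K σ) P - P) = 0 ∧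
      σ κ = chi (algebraMap F Ω η) (algebraMap K Ω b) (act W (rs K σ) P - P) * κ := by
  have hη' := etaΩ (Ω := Ω) hη
  obtain ⟨P, hP⟩ := phi_surj (h.bc Ω) (act W' (incl K F Ω) Q)
  have hP' : ph h Ω P = act W' (incl K F Ω) Q := hP
  have hfix : ∀ σ : Ω ≃ₐ[F] Ω, act W' (rs K σ) (ph h Ω P) = ph h Ω P := by
    intro σ
    rw [hP']
    exact rs_act_incl W' σ Q
  have hz : kz (algebraMap F Ω η) (algebraMap K Ω A) (algebraMap K Ω b') (ph h Ω P) =
      algebraMap F Ω (kz η (algebraMap K F A) (algebraMap K F b') Q) := by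
    have e4 := kz_act W' (incl K F Ω) η (algebraMap K F A) (algebraMap K F b') Q
    have g1 : ∀ x : K, incl K F Ω (algebraMap K F x) = algebraMap K Ω x :=
      fun x => (IsScalarTower.algebraMap_apply K F Ω x).symm
    have g3 : ∀ x : F, incl K F Ω x = algebraMap F Ω x := fun x => rfl
    rw [g1, g1, g3, g3] at e4
    rw [hP']
    exact e4
  by_cases h0 : ph h Ω P = 0
  · refine ⟨P, 1, hP', one_ne_zero, ?_, fun σ => ?_⟩
    · rw [← hz, h0, one_pow]
      rfl
    · rw [ker_fix h hδ h0, sub_self, map_zero, chi_zero, one_mul, map_one]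
      exact ⟨rfl, rfl⟩
  · refine ⟨P, kap (algebraMap F Ω η) (algebraMap K Ω A) (algebraMap K Ω b) P, hP',
      kap_ne (h.bc Ω) hη' h0, ?_, fun σ => ?_⟩
    · rw [← hz]
      exact kap_cube (h.bc Ω) hη' h0
    · obtain ⟨q1, q2⟩ := kap_gal h hη hδ hfix σ
      exact ⟨q1, q2 h0⟩

end add

section add2

/-- The Kummer map is a homomorphism modulo cubes. -/
theorem kz_add {K F : Type} (Ω : Type) [Field K] [Field F] [Field Ω] [Algebra K F] [Algebra F Ω]
    [Algebra K Ω] [IsScalarTower K F Ω] [IsSepClosed Ω] [IsGalois F Ω] {W W' : WeierstrassCurve K}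
    {D A b D' b' : K} (h : Isog W.toAffine W'.toAffine D A b D' b') {η δ : F}
    (hη : η ^ 2 = algebraMap K F D') (hδ : δ ^ 2 = algebraMap K F D)
    (Q1 Q2 : Pt W' F) : ∃ c : F, c ≠ 0 ∧
    kz η (algebraMap K F A) (algebraMap K F b') (Q1 + Q2) =
      c ^ 3 * (kz η (algebraMap K F A) (algebraMap K F b') Q1 *
        kz η (algebraMap K F A) (algebraMap K F b') Q2) := by
  have hη' := etaΩ (Ω := Ω) hη
  obtain ⟨P1, κ1, a1, a2, a3, a4⟩ := exists_kap (Ω := Ω) h hη hδ Q1
  obtain ⟨P2, κ2, b1, b2, b3, b4⟩ := exists_kap (Ω := Ω) h hη hδ Q2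
  obtain ⟨P3, κ3, c1, c2, c3, c4⟩ := exists_kap (Ω := Ω) h hη hδ (Q1 + Q2)
  -- the difference is in the kernel
  have hker : ph h Ω (P3 - (P1 + P2)) = 0 := by
    rw [map_sub, map_add, a1, b1, c1, map_add, sub_self]
  obtain ⟨u, hu, q⟩ := compare (K := F) c2 (mul_ne_zero a2 b2)
    (fun σ => chi (algebraMap F Ω η) (algebraMap K Ω b) (act W (rs K σ) P3 - P3))
    (fun σ => chi_ne (h.bc Ω) hη' (c4 σ).1) (fun σ => (c4 σ).2) (fun σ => by
      have e1 : act W (rs K σ) P3 - P3 = (act W (rs K σ) P1 - P1) + (act W (rs K σ) P2 - P2) := by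
        have e2 : P3 = (P1 + P2) + (P3 - (P1 + P2)) := by abel
        have e3 := ker_fix h hδ hker σ
        rw [map_sub, map_add] at e3
        have e5 : act W (rs K σ) P3 = act W (rs K σ) P1 + act W (rs K σ) P2 +
          (P3 - (P1 + P2)) := by
          rw [← e3]; abel
        rw [e5]; abel
      have e6 := chi_add (h.bc Ω) hη' (a4 σ).1 (b4 σ).1
      rw [map_mul, (a4 σ).2, (b4 σ).2, e1]
      rw [show chi (algebraMap F Ω η) (algebraMap K Ω b)
        (act W (rs K σ) P1 - P1 + (act W (rs K σ) P2 - P2)) =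
        chi (algebraMap F Ω η) (algebraMap K Ω b) (act W (rs K σ) P1 - P1) *
        chi (algebraMap F Ω η) (algebraMap K Ω b) (act W (rs K σ) P2 - P2) from e6]
      ring)
  refine ⟨u, hu, ?_⟩
  apply (algebraMap F Ω).injective
  rw [← c3, q, mul_pow, mul_pow, a3, b3]
  simp only [map_mul, map_pow]

end add2

section rep

variable {k k' K F : Type} [Field k] [Field k'] [Algebra k k'] [IsSepClosure k k']
  [Field K] [Algebra k[X] K] [IsFractionRing k[X] K] [Field F] [Algebra k'[X] F]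
  [IsFractionRing k'[X] F] [Algebra K F]
  (hKF : ∀ p : k[X], algebraMap K F (algebraMap k[X] K p) =
    algebraMap k'[X] F (p.map (algebraMap k k')))
  {W W' W'' : WeierstrassCurve K} {D D' : k} {A p : k[X]} {b D'' b'' : K}
  (h : Isog W.toAffine W'.toAffine (algebraMap k[X] K (C D)) (algebraMap k[X] K A) b
    (algebraMap k[X] K (C D')) (algebraMap k[X] K p))
  (h' : Isog W'.toAffine W''.toAffine (algebraMap k[X] K (C D')) (algebraMap k[X] K A)
    (algebraMap k[X] K p) D'' b'')
  {η δ : k'} (hη : η ^ 2 = algebraMap k k' D') (hδ : δ ^ 2 = algebraMap k k' D)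

/-- `x` is represented by a point whose triple is in `M`. -/
def Rep (F : Type) [Field F] [Algebra K F] (W' : WeierstrassCurve K) (M : AddSubgroup (Pt W' K))
    (A b' : K) (η x : F) : Prop :=
  ∃ (Q : Pt W' K) (c : F), 3 • Q ∈ M ∧ c ≠ 0 ∧
    x = c ^ 3 * kz η (algebraMap K F A) (algebraMap K F b') (act W' (incl K K F) Q)

variable {M : AddSubgroup (Pt W' K)}

omit [Field k] [Field k'] [Algebra k k'] [IsSepClosure k k'] [Algebra k[X] K]
  [IsFractionRing k[X] K] [Algebra k'[X] F] [IsFractionRing k'[X] F] in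
theorem rep_cube {A b' : K} {η x : F} (hx : x ≠ 0) : Rep F W' M A b' η (x ^ 3) := by
  refine ⟨0, x, by rw [smul_zero]; exact M.zero_mem, hx, ?_⟩
  rw [map_zero]
  show x ^ 3 = x ^ 3 * 1
  rw [mul_one]

include hKF h hη hδ in
theorem rep_mul {x y : F}
    (hx : Rep F W' M (algebraMap k[X] K A) (algebraMap k[X] K p) (cF F η) x)
    (hy : Rep F W' M (algebraMap k[X] K A) (algebraMap k[X] K p) (cF F η) y) :
    Rep F W' M (algebraMap k[X] K A) (algebraMap k[X] K p) (cF F η) (x * y) := by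
  obtain ⟨Q1, c1, m1, n1, rfl⟩ := hx
  obtain ⟨Q2, c2, m2, n2, rfl⟩ := hy
  obtain ⟨u, hu, e⟩ := kz_add (Sep F) h (cF_sq hKF hη) (cF_sq hKF hδ)
    (act W' (incl K K F) Q1) (act W' (incl K K F) Q2)
  refine ⟨Q1 + Q2, c1 * c2 * u⁻¹, by rw [smul_add]; exact M.add_mem m1 m2,
    mul_ne_zero (mul_ne_zero n1 n2) (inv_ne_zero hu), ?_⟩
  rw [map_add, e]
  field_simp

include hKF h hη hδ in
theorem rep_pow {x : F}
    (hx : Rep F W' M (algebraMap k[X] K A) (algebraMap k[X] K p) (cF F η) x) (n : ℕ) :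
    Rep F W' M (algebraMap k[X] K A) (algebraMap k[X] K p) (cF F η) (x ^ n) := by
  induction n with
  | zero =>
    have := rep_cube (W' := W') (M := M) (A := algebraMap k[X] K A) (b' := algebraMap k[X] K p)
      (η := cF F η) (x := 1) one_ne_zero
    rw [one_pow] at this
    rw [pow_zero]
    exact this
  | succ n ih =>
    rw [pow_succ]
    exact rep_mul hKF h hη hδ ih hx

include hKF h hη hδ in
/-- Representability depends only on the class modulo cubes. -/
theorem rep_congr {x y : F} (hx : x ≠ 0) (hy : y ≠ 0) (h3 : (3 : k) ≠ 0)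
    (hor : ∀ v : HeightOneSpectrum k'[X], or3 v x = or3 v y)
    (hr : Rep F W' M (algebraMap k[X] K A) (algebraMap k[X] K p) (cF F η) y) :
    Rep F W' M (algebraMap k[X] K A) (algebraMap k[X] K p) (cF F η) x := by
  haveI : IsSepClosed k' := IsSepClosure.sep_closed k
  have h3' : (3 : k') ≠ 0 := by
    rw [← map_ofNat (algebraMap k k') 3]
    exact (_root_.map_ne_zero _).2 h3
  obtain ⟨c, hc, e⟩ := cube_elem (k' := k') h3' (mul_ne_zero hx (inv_ne_zero hy)) (fun v => by
    rw [or3_mul v hx (inv_ne_zero hy), or3_inv, hor, add_neg_cancel])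
  have e2 : x = c ^ 3 * y := by rw [← e, inv_mul_cancel_right₀ hy]
  rw [e2]
  exact rep_mul hKF h hη hδ (rep_cube hc) hr

include hKF h hη hδ in
/-- It is enough to represent the irreducible factors. -/
theorem enough_of_rep (h3 : (3 : k) ≠ 0)
    (hr : ∀ π : k[X], Irreducible π → π ∣ p → Rep F W' M (algebraMap k[X] K A)
      (algebraMap k[X] K p) (cF F η) (algebraMap K F (algebraMap k[X] K π))) :
    Enough3 K F W' M (algebraMap k[X] K A) (algebraMap k[X] K p) (cF F η) p := by
  have hrep : ∀ q : k[X], q ≠ 0 → (∀ π : k[X], Irreducible π → π ∣ q → π ∣ p) →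
      Rep F W' M (algebraMap k[X] K A) (algebraMap k[X] K p) (cF F η)
        (algebraMap K F (algebraMap k[X] K q)) := by
    intro q
    refine WfDvdMonoid.induction_on_irreducible q ?_ ?_ ?_
    · intro h0
      exact absurd rfl h0
    · intro u hu _ _
      obtain ⟨c, hc, rfl⟩ := Polynomial.isUnit_iff.1 hu
      have e1 : algebraMap K F (algebraMap k[X] K (C c)) = cF F (algebraMap k k' c) := by
        rw [hKF, map_C]
        rfl
      rw [e1]
      have hc' : algebraMap k k' c ≠ 0 := (_root_.map_ne_zero _).2 hc.ne_zero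
      refine rep_congr hKF h hη hδ (cF_ne hc') one_ne_zero h3 (fun v => ?_) ?_
      · rw [or3_of_one v (cF_val v hc'), or3_one]
      · have := rep_cube (W' := W') (M := M) (A := algebraMap k[X] K A)
          (b' := algebraMap k[X] K p) (η := cF F η) (x := 1) one_ne_zero
        rwa [one_pow] at this
    · intro q π hq hπ ih _ hd
      rw [map_mul, map_mul]
      refine rep_mul hKF h hη hδ (hr π hπ (hd π hπ (dvd_mul_right _ _)))
        (ih hq (fun π' h1 h2 => hd π' h1 (h2.mul_left _)))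
  intro U V hU hV hU2 hV2 hU3 hV3
  refine hrep (U * V ^ 2) (mul_ne_zero hU.ne_zero (pow_ne_zero 2 hV.ne_zero)) ?_
  intro π hπ hd
  rcases hπ.prime.dvd_or_dvd hd with h1 | h1
  · exact h1.trans hU3
  · exact (hπ.prime.dvd_of_dvd_pow h1).trans hV3

include hKF h h' hη hδ in
/-- The parameter `p` is represented by a point of order three if `D'` is a square. -/
theorem rep_self (h2 : (2 : k) ≠ 0) (h3 : (3 : k) ≠ 0) (hsq : IsSquare D') :
    Rep F W' M (algebraMap k[X] K A) (algebraMap k[X] K p) (cF F η)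
      (algebraMap K F (algebraMap k[X] K p)) := by
  haveI : IsSepClosed k' := IsSepClosure.sep_closed k
  have h2' : (2 : k') ≠ 0 := by
    rw [← map_ofNat (algebraMap k k') 2]
    exact (_root_.map_ne_zero _).2 h2
  have hηF := cF_sq (F := F) hKF hη
  have hη0 : η ≠ 0 := by
    rintro rfl
    have h5 := h.E'.neD
    apply h5
    apply (algebraMap K F).injective
    rw [← hηF, map_zero]
    unfold cF
    rw [C_0, map_zero]
    ring
  have hp0 : algebraMap k[X] K p ≠ 0 := h.E'.neb
  have hbF : algebraMap K F (algebraMap k[X] K p) ≠ 0 := (_root_.map_ne_zero _).2 hp0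
  obtain ⟨r, hr, hrη⟩ : ∃ r : k, r ^ 2 = D' ∧ algebraMap k k' r = η := by
    obtain ⟨r, hr⟩ := hsq
    have h5 : (η - algebraMap k k' r) * (η + algebraMap k k' r) = 0 := by
      have : algebraMap k k' D' = algebraMap k k' r ^ 2 := by rw [hr, map_mul, pow_two]
      linear_combination hη + this
    rcases mul_eq_zero.1 h5 with h6 | h6
    · exact ⟨r, by rw [hr, pow_two], (sub_eq_zero.1 h6).symm⟩
    · exact ⟨-r, by rw [hr]; ring, by rw [map_neg]; linear_combination -h6⟩
  set ηK := algebraMap k[X] K (C r) with hηK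
  have hηKF : algebraMap K F ηK = cF F η := by
    rw [hηK, hKF, map_C, hrη]
    rfl
  have hηK2 : ηK ^ 2 = algebraMap k[X] K (C D') := by
    rw [hηK, ← map_pow, ← C_pow, hr]
  obtain ⟨⟨n1, hn1, k1⟩, -⟩ := pts_pm (h.bc K) (η := ηK)
    (by rw [hηK2]; rfl) (A := algebraMap K K (algebraMap k[X] K A))
  have hcst : (2 : F) * cF F η = cF F (2 * η) := by
    unfold cF
    rw [C_mul, map_mul, map_ofNat, map_ofNat]
  have e4 := kz_act W' (incl K K F) ηK (algebraMap k[X] K A) (algebraMap k[X] K p)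
      (Point.some 0 n1 hn1)
  have g1 : ∀ x : K, incl K K F x = algebraMap K F x := fun x => rfl
  have k1' : kz ηK (algebraMap k[X] K A) (algebraMap k[X] K p)
      (Point.some 0 n1 hn1 : Pt W' K) = 2 * ηK * algebraMap k[X] K p := k1
  rw [g1, g1, g1, g1, hηKF, k1', map_mul, map_mul, map_ofNat, hηKF, hcst] at e4
  have h3P : 3 • (Point.some 0 n1 hn1 : Pt W' K) = 0 :=
    three_ker (h'.bc K) (phi_some0 (h'.bc K) hn1 rfl)
  refine rep_congr hKF h hη hδ (y := cF F (2 * η) * algebraMap K F (algebraMap k[X] K p)) hbF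
    (mul_ne_zero (cF_ne (mul_ne_zero h2' hη0)) hbF) h3 (fun v => ?_) ?_
  · rw [or3_mul v (cF_ne (mul_ne_zero h2' hη0)) hbF,
      or3_of_one v (cF_val v (mul_ne_zero h2' hη0)), zero_add]
  · refine ⟨Point.some 0 n1 hn1, 1, by rw [h3P]; exact M.zero_mem, one_ne_zero, ?_⟩
    rw [one_pow, one_mul]
    exact e4.symm

end rep

end Pool.Agent.T6.H12.TD
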