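import Pool.Agent.T6.H12.TD.FinZero

/-!
# Degrees and multiplicities of roots, and base change
-/

set_option autoImplicit false
set_option linter.all false

open Polynomial IntermediateField
open scoped Classical

namespace Pool.Agent.T6.H12.TD

/-- All the irreducible factors of `p` have odd degree. -/
def OddFactors {k : Type} [Field k] (p : k[X]) : Prop :=
  ∀ π : k[X], Irreducible π → π ∣ p → Odd π.natDegree

/-- `p` has two different roots in `k'` whose multiplicities are not divisible by three. -/
def TwoRoots {k : Type} (k' : Type) [Field k] [Field k'] [Algebra k k'] (p : k[X]) : Prop :=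
  ∃ x y : k', x ≠ y ∧ ¬ 3 ∣ rootMultiplicity x (p.map (algebraMap k k')) ∧
    ¬ 3 ∣ rootMultiplicity y (p.map (algebraMap k k'))

section mult

variable {k k' : Type} [Field k] [Field k'] [Algebra k k'] [PerfectField k]
  [Algebra.IsAlgebraic k k']

/-- A root whose multiplicity is not divisible by three gives an irreducible factor. -/
theorem factor_of_root {p : k[X]} (hp : p ≠ 0) {x : k'}
    (hx : ¬ 3 ∣ rootMultiplicity x (p.map (algebraMap k k'))) : HasFactor3 p := by
  have injk := (algebraMap k k').injective
  have hint : IsIntegral k x := Algebra.IsIntegral.isIntegral x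
  set π := minpoly k x with hπdef
  have hπ : Irreducible π := minpoly.irreducible hint
  have hsep : π.Separable := PerfectField.separable_of_irreducible hπ
  have hfin : FiniteMultiplicity π p := FiniteMultiplicity.of_prime_left hπ.prime hp
  obtain ⟨q, hq, hdq⟩ := hfin.exists_eq_pow_mul_and_not_dvd
  set m := multiplicity π p with hm
  have hq0 : q ≠ 0 := by
    rintro rfl
    exact hdq (dvd_zero _)
  have hπ0 : π.map (algebraMap k k') ≠ 0 := (Polynomial.map_ne_zero_iff injk).2 hπ.ne_zero
  have hq0' : q.map (algebraMap k k') ≠ 0 := (Polynomial.map_ne_zero_iff injk).2 hq0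
  have hpw : rootMultiplicity x (π.map (algebraMap k k') ^ m) =
      m * rootMultiplicity x (π.map (algebraMap k k')) := by
    rw [← count_roots, roots_pow, Multiset.count_nsmul, count_roots]
  have h1 : rootMultiplicity x (π.map (algebraMap k k')) = 1 := by
    have h4 : rootMultiplicity x (π.map (algebraMap k k')) ≤ 1 :=
      rootMultiplicity_le_one_of_separable hsep.map x
    have h5 : 0 < rootMultiplicity x (π.map (algebraMap k k')) := (rootMultiplicity_pos hπ0).2 (by
      show eval x (π.map (algebraMap k k')) = 0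
      rw [eval_map_algebraMap, hπdef]
      exact minpoly.aeval k x)
    omega
  have h2 : rootMultiplicity x (q.map (algebraMap k k')) = 0 := by
    apply rootMultiplicity_eq_zero
    intro h
    apply hdq
    have h3 : aeval x q = 0 := by
      rw [← eval_map_algebraMap]; exact h
    exact minpoly.dvd k x h3
  have h3 : rootMultiplicity x (p.map (algebraMap k k')) = m := by
    rw [hq, Polynomial.map_mul, Polynomial.map_pow, rootMultiplicity_mul
      (mul_ne_zero (pow_ne_zero _ hπ0) hq0'), hpw, h1, h2]
    ring
  refine ⟨π, m, hπ, by rwa [← h3], ⟨q, hq⟩, ?_⟩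
  rintro ⟨r, hr⟩
  apply hdq
  refine ⟨r, ?_⟩
  have h4 : π ^ m * q = π ^ m * (π * r) := by
    rw [← hq, hr]
    ring
  exact mul_left_cancel₀ (pow_ne_zero m hπ.ne_zero) h4

end mult

section odd

variable {k k' : Type} [Field k] [Finite k] [Field k'] [Algebra k k'] [IsSepClosure k k']

/-- The degrees of the irreducible factors in terms of the roots. -/
theorem oddFactors_iff {p : k[X]} : OddFactors p ↔
    ∀ x : k', aeval x p = 0 → ∃ n, Odd n ∧ x ^ (Nat.card k ^ n) = x := by
  haveI : Fintype k := Fintype.ofFinite _
  haveI : IsSepClosed k' := IsSepClosure.sep_closed k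
  haveI : Algebra.IsAlgebraic k k' := inferInstance
  constructor
  · intro h x hx
    have hint : IsIntegral k x := Algebra.IsIntegral.isIntegral x
    refine ⟨(minpoly k x).natDegree, h _ (minpoly.irreducible hint) (minpoly.dvd k x hx), ?_⟩
    rw [Nat.card_eq_fintype_card]
    exact frob_deg (minpoly.irreducible hint) (minpoly.aeval k x)
  · intro h π hπ hd
    have hs : π.Separable := PerfectField.separable_of_irreducible hπ
    have hdeg : (π.map (algebraMap k k')).degree ≠ 0 := by
      rw [degree_map]
      exact (Irreducible.degree_pos hπ).ne'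
    obtain ⟨x, hx⟩ := IsSepClosed.exists_root _ hdeg (hs.map)
    have hx' : aeval x π = 0 := by
      rw [← eval_map_algebraMap]; exact hx
    obtain ⟨q, rfl⟩ := hd
    obtain ⟨n, hn, hxn⟩ := h x (by rw [map_mul, hx', zero_mul])
    have h1 : π ∣ X ^ (Nat.card k) ^ n - X := by
      have e1 := minpoly.eq_of_irreducible hπ hx'
      have e2 : minpoly k x ∣ X ^ (Nat.card k) ^ n - X := minpoly.dvd k x (by
        rw [map_sub, map_pow, aeval_X, hxn, sub_self])
      rw [← e1] at e2
      exact (dvd_mul_right _ _).trans e2
    have h2 := hπ.natDegree_dvd_of_dvd_X_pow_card_pow_sub_X h1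
    exact hn.of_dvd_nat h2

end odd

section ext

variable {k k₁ k' : Type} [Field k] [Finite k] [Field k₁] [Algebra k k₁] [FiniteDimensional k k₁]
  [Field k'] [Algebra k k'] [Algebra k₁ k'] [IsScalarTower k k₁ k'] [IsSepClosure k k']

/-- Odd degrees remain odd after finite extensions of the finite field. -/
theorem OddFactors.ext [IsSepClosure k₁ k'] {p : k[X]} (h : OddFactors p) :
    OddFactors (p.map (algebraMap k k₁)) := by
  haveI : Finite k₁ := Module.finite_of_finite k
  rw [oddFactors_iff (k' := k')] at h ⊢
  intro x hx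
  rw [aeval_map_algebraMap] at hx
  obtain ⟨n, hn, hxn⟩ := h x hx
  refine ⟨n, hn, ?_⟩
  have h1 : Nat.card k₁ = Nat.card k ^ Module.finrank k k₁ := Module.natCard_eq_pow_finrank
  rw [h1, ← pow_mul, mul_comm, pow_mul]
  have h2 : ∀ i : ℕ, x ^ ((Nat.card k ^ n) ^ i) = x := by
    intro i
    induction i with
    | zero => rw [pow_zero, pow_one]
    | succ i ih => rw [pow_succ, pow_mul, ih, hxn]
  exact h2 _

omit [Finite k] [FiniteDimensional k k₁] [IsSepClosure k k'] in
theorem TwoRoots.ext {p : k[X]} (h : TwoRoots k' p) : TwoRoots k' (p.map (algebraMap k k₁)) := by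
  obtain ⟨x, y, hxy, hx, hy⟩ := h
  have e : (p.map (algebraMap k k₁)).map (algebraMap k₁ k') = p.map (algebraMap k k') := by
    rw [Polynomial.map_map, ← IsScalarTower.algebraMap_eq]
  exact ⟨x, y, hxy, by rwa [e], by rwa [e]⟩

theorem HasFactor3.ext [IsSepClosure k₁ k'] {p : k[X]} (hp : p ≠ 0) (h : HasFactor3 p) :
    HasFactor3 (p.map (algebraMap k k₁)) := by
  haveI : Finite k₁ := Module.finite_of_finite k
  haveI : Algebra.IsAlgebraic k₁ k' := inferInstance
  obtain ⟨π, m, hπ, hm, ⟨q, rfl⟩, hd⟩ := h
  have hq0 : q ≠ 0 := right_ne_zero_of_mul hp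
  have hs : π.Separable := PerfectField.separable_of_irreducible hπ
  have hdq : ¬ π ∣ q := by
    rintro ⟨r, rfl⟩
    apply hd
    exact ⟨r, by ring⟩
  obtain ⟨θ, hθ, hmul⟩ := root_mult (k' := k') (m := m) hπ hs hq0 hdq
  refine factor_of_root (k' := k') (x := θ)
    ((Polynomial.map_ne_zero_iff (algebraMap k k₁).injective).2 hp) ?_
  rw [Polynomial.map_map, ← IsScalarTower.algebraMap_eq, hmul]
  exact hm

end ext

end Pool.Agent.T6.H12.TD
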