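import Pool.Agent.T6.H12.TD.LemA

/-!
# Torsion points over `F`
-/

set_option autoImplicit false
set_option linter.all false

open Polynomial IsDedekindDomain WeierstrassCurve WeierstrassCurve.Affine
open scoped Classical

namespace Pool.Agent.T6.H12.TD

open Pool.Agent.TH115.GD (Pt act incl rs ak pl val_poly IsTower Sep Comp CompInf LocallyTrivial
  LocTriv IsCoc Preserves lift preserves wFin act_some act_inj act_act rs_act_incl act_zero)

/-- `x` is not a constant times a cube in `F`. -/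
def NotCC {K : Type} [Field K] (k' F : Type) [Field k'] [Field F] [Algebra k'[X] F] [Algebra K F]
    (x : K) : Prop :=
  ∀ (c : k') (y : F), algebraMap K F x ≠ cF F c * y ^ 3

section tors

variable {k k' K F : Type} [Field k] [Field k'] [Algebra k k'] [IsSepClosure k k']
  [Field K] [Algebra k[X] K] [IsFractionRing k[X] K] [Field F] [Algebra k'[X] F]
  [IsFractionRing k'[X] F] [Algebra K F]
  (hKF : ∀ p : k[X], algebraMap K F (algebraMap k[X] K p) =
    algebraMap k'[X] F (p.map (algebraMap k k')))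
  {W W' W'' W''' : WeierstrassCurve K} {D0 D0' D0'' D0''' : k} {A0 b0 b0' b0'' b0''' : k[X]}
  (h : Isog W.toAffine W'.toAffine (algebraMap k[X] K (C D0)) (algebraMap k[X] K A0)
    (algebraMap k[X] K b0) (algebraMap k[X] K (C D0')) (algebraMap k[X] K b0'))
  (h' : Isog W'.toAffine W''.toAffine (algebraMap k[X] K (C D0')) (algebraMap k[X] K A0)
    (algebraMap k[X] K b0') (algebraMap k[X] K (C D0'')) (algebraMap k[X] K b0''))
  (h'' : Isog W''.toAffine W'''.toAffine (algebraMap k[X] K (C D0'')) (algebraMap k[X] K A0)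
    (algebraMap k[X] K b0'') (algebraMap k[X] K (C D0''')) (algebraMap k[X] K b0'''))

include hKF h in
theorem tors_one (h2 : (2 : k) ≠ 0) (hn : NotCC k' F (algebraMap k[X] K b0'))
    {X : Pt W (Sep F)} (hX : ∀ σ : Sep F ≃ₐ[F] Sep F, act W (rs K σ) X = X)
    (h0 : ∃ n hn, ph h (Sep F) X = Point.some 0 n hn) : False := by
  haveI : IsSepClosed k' := IsSepClosure.sep_closed k
  have h2' : (2 : k') ≠ 0 := by
    rw [← map_ofNat (algebraMap k k') 2]
    exact (_root_.map_ne_zero _).2 h2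
  haveI : NeZero ((2 : ℕ) : k') := ⟨by exact_mod_cast h2'⟩
  obtain ⟨η, hη⟩ := IsSepClosed.exists_pow_nat_eq (algebraMap k k' D0') 2
  obtain ⟨δ, hδ⟩ := IsSepClosed.exists_pow_nat_eq (algebraMap k k' D0) 2
  have hηF := cF_sq (F := F) hKF hη
  have hδF := cF_sq (F := F) hKF hδ
  have hη' := etaΩ (Ω := Sep F) hηF
  have hη0 : η ≠ 0 := by
    rintro rfl
    have h5 := h.E'.neD
    apply h5
    apply (algebraMap K F).injective
    rw [← hηF, map_zero]
    unfold cF
    rw [C_0, map_zero]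
    ring
  have hbF : algebraMap K F (algebraMap k[X] K b0') ≠ 0 := (_root_.map_ne_zero _).2 h.E'.neb
  have hne : ph h (Sep F) X ≠ 0 := by
    obtain ⟨n, hn, e⟩ := h0
    rw [e]
    exact Point.some_ne_zero _
  set κ := kap (algebraMap F (Sep F) (cF F η)) (algebraMap K (Sep F) (algebraMap k[X] K A0))
    (algebraMap K (Sep F) (algebraMap k[X] K b0)) X with hκ
  have hfix : ∀ σ : Sep F ≃ₐ[F] Sep F, σ κ = κ := by
    intro σ
    have h5 := (kap_gal h hηF hδF (P := X) (fun σ => by rw [← ph_act, hX]) σ).2 hne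
    rw [hX, sub_self, chi_zero, one_mul] at h5
    exact h5
  have hr : κ ∈ Set.range (algebraMap F (Sep F)) := by
    rw [InfiniteGalois.mem_range_algebraMap_iff_fixed]
    exact hfix
  obtain ⟨y, hy⟩ := hr
  have e3 : κ ^ 3 = kz (algebraMap F (Sep F) (cF F η))
      (algebraMap K (Sep F) (algebraMap k[X] K A0))
      (algebraMap K (Sep F) (algebraMap k[X] K b0')) (ph h (Sep F) X) :=
    kap_cube (h.bc (Sep F)) hη' hne
  have hB : 2 * algebraMap F (Sep F) (cF F η) * algebraMap K (Sep F) (algebraMap k[X] K b0') =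
      algebraMap F (Sep F) (2 * cF F η * algebraMap K F (algebraMap k[X] K b0')) := by
    rw [map_mul, map_mul, map_ofNat, ← IsScalarTower.algebraMap_apply K F (Sep F)]
  have hcst : (2 : F) * cF F η = cF F (2 * η) := by
    unfold cF
    rw [C_mul, map_mul, map_ofNat, map_ofNat]
  have h2η : (2 * η) ≠ 0 := mul_ne_zero h2' hη0
  have hcc : cF F (2 * η)⁻¹ * cF F (2 * η) = 1 := by
    unfold cF
    rw [← map_mul, ← C_mul, inv_mul_cancel₀ h2η, C_1, map_one]
  rcases kz_ker h hηF hδF h0 with h6 | h6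
  · rw [← e3, ← hy, hB, ← map_pow] at h6
    have h7 := (algebraMap F (Sep F)).injective h6
    apply hn (2 * η)⁻¹ y
    rw [h7, hcst, ← mul_assoc, hcc, one_mul]
  · rw [← e3, ← hy, hB, ← map_pow, ← map_inv₀, ← map_neg] at h6
    have h7 := (algebraMap F (Sep F)).injective h6
    apply hn (2 * η)⁻¹ (-y⁻¹)
    have h8 : (-y⁻¹) ^ 3 = 2 * cF F η * algebraMap K F (algebraMap k[X] K b0') := by
      have : (-y⁻¹) ^ 3 = -(y ^ 3)⁻¹ := by rw [← inv_pow]; ring
      rw [this, h7, inv_neg, inv_inv, neg_neg]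
    rw [h8, hcst, ← mul_assoc, hcc, one_mul]

include hKF h h' h''

theorem tors_three (h2 : (2 : k) ≠ 0) (hn : NotCC k' F (algebraMap k[X] K b0'))
    (hn' : NotCC k' F (algebraMap k[X] K b0'')) (m : ℕ) :
    ∀ X : Pt W (Sep F), (∀ σ : Sep F ≃ₐ[F] Sep F, act W (rs K σ) X = X) →
      3 ^ m • X = 0 → X = 0 ∨ ∃ n hn, X = Point.some 0 n hn := by
  have key : ∀ X : Pt W (Sep F), (∀ σ : Sep F ≃ₐ[F] Sep F, act W (rs K σ) X = X) →
      ph h (Sep F) (3 • X) = 0 → ph h (Sep F) X = 0 := by
    intro X hX h0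
    rw [map_nsmul] at h0
    have hS : ∀ σ : Sep F ≃ₐ[F] Sep F, act W' (rs K σ) (ph h (Sep F) X) = ph h (Sep F) X := by
      intro σ
      rw [← ph_act, hX]
    have h1 : ph h'' (Sep F) (ph h' (Sep F) (ph h (Sep F) X)) = 0 :=
      three_tor (h'.bc (Sep F)) (h''.bc (Sep F)) h0
    have h4 : ph h' (Sep F) (ph h (Sep F) X) = 0 := by
      rcases (phi_ker (h''.bc (Sep F)) _).1 h1 with h5 | h5
      · exact h5
      · exact (tors_one hKF h' h2 hn' hS h5).elim
    rcases (phi_ker (h'.bc (Sep F)) _).1 h4 with h5 | h5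
    · exact h5
    · exact (tors_one hKF h h2 hn hX h5).elim
  induction m with
  | zero =>
    intro X hX h0
    left
    rw [pow_zero, one_smul] at h0
    exact h0
  | succ m ih =>
    intro X hX h0
    have h1 := ih (3 • X) (fun σ => by rw [map_nsmul, hX]) (by
      rw [← mul_smul, ← pow_succ]
      exact h0)
    have h3 : ph h (Sep F) (3 • X) = 0 := (phi_ker (h.bc (Sep F)) _).2 h1
    exact (phi_ker (h.bc (Sep F)) _).1 (key X hX h3)

end tors

end Pool.Agent.T6.H12.TD
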