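import Pool.Agent.T6.H12.TD.Defs3
import Pool.Agent.T6.H12.TD.Tors3
import Pool.Agent.TH115.ID.Step

/-!
# Division of Tate classes, and the first layer
-/

set_option autoImplicit false
set_option linter.all false

open Polynomial IsDedekindDomain WeierstrassCurve WeierstrassCurve.Affine
open scoped Classical

namespace Pool.Agent.T6.H12.TD

open Pool.Agent.TH115.GD (Pt act incl rs ak pl val_poly IsTower Sep Comp CompInf LocallyTrivial
  LocTriv IsCoc Preserves lift preserves wFin act_some act_inj act_act rs_act_incl act_zero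
  cob_isCoc lt_subT)

section step

variable {k' K F : Type} [Field k'] [Field K] [Field F] [Algebra K F] [Algebra k'[X] F]
  [IsFractionRing k'[X] F] {W : WeierstrassCurve K}

/-- The classes in the Tate conjecture. -/
structure IsTateClass3 (k' : Type) [Field k'] [Algebra k'[X] F] [IsFractionRing k'[X] F]
    (W : WeierstrassCurve K) (c : ℕ → (Sep F ≃ₐ[F] Sep F) → Pt W (Sep F)) : Prop where
  tc : IsTC3 W c
  loc : ∀ n, LocallyTrivial k' W (c n)
  inv : IsInv3 W c

/-- Division of a Tate class by three. -/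
theorem div_class3 {c : ℕ → (Sep F ≃ₐ[F] Sep F) → Pt W (Sep F)} (hT : IsTateClass3 k' W c)
    {N : ℕ} {H : ℕ → Pt W (Sep F)}
    (H0 : ∀ φ : Sep F →ₐ[K] Sep F, act W φ (3 ^ N • H 0) = 3 ^ N • H 0)
    (HS : ∀ j, 3 • H (j + 1) = H j) (key : ∀ σ, c 1 σ = act W (rs K σ) (H 1) - H 1) :
    IsTateClass3 k' W (fun j σ => c (j + 1) σ - (act W (rs K σ) (H (j + 1)) - H (j + 1))) := by
  have hc := hT.tc
  have hi := hT.inv
  have hloc := hT.loc
  set c' : ℕ → (Sep F ≃ₐ[F] Sep F) → Pt W (Sep F) :=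
    fun j σ => c (j + 1) σ - (act W (rs K σ) (H (j + 1)) - H (j + 1)) with hc'
  have hc'T : IsTC3 W c' := by
    refine ⟨fun j => (hc.coc (j + 1)).sub W (cob_isCoc W _), fun σ => ?_, fun j σ => ?_⟩
    · show c (0 + 1) σ - (act W (rs K σ) (H (0 + 1)) - H (0 + 1)) = 0
      rw [zero_add, key σ, sub_self]
    · show 3 • (c (j + 1 + 1) σ - (act W (rs K σ) (H (j + 1 + 1)) - H (j + 1 + 1))) =
        c (j + 1) σ - (act W (rs K σ) (H (j + 1)) - H (j + 1))
      rw [smul_sub, smul_sub, ← map_nsmul, HS (j + 1), hc.three (j + 1)]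
  have hc'I : IsInv3 W c' := by
    intro τ
    obtain ⟨m, Q, hQ, hinv⟩ := hi τ
    refine ⟨N + (m + 1), fun j => 3 ^ N • (Q j - 3 ^ m • (act W (ak τ) (H j) - H j)),
      ⟨?_, fun j => ?_⟩, ?_⟩
    · show 3 ^ N • (Q 0 - 3 ^ m • (act W (ak τ) (H 0) - H 0)) = 0
      rw [hQ.zero, zero_sub, smul_neg, smul_comm, smul_sub (3 ^ N), ← map_nsmul, H0, sub_self,
        smul_zero, neg_zero]
    · show 3 • (3 ^ N • (Q (j + 1) - 3 ^ m • (act W (ak τ) (H (j + 1)) - H (j + 1)))) =
        3 ^ N • (Q j - 3 ^ m • (act W (ak τ) (H j) - H j))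
      rw [smul_comm 3, smul_sub 3, hQ.three, smul_comm 3, smul_sub 3, ← map_nsmul, HS]
    · intro j σ σ' h
      have h1 := hinv j σ σ' h
      have hcomp : act W (ak τ) (act W (rs K σ') (H j)) = act W (rs K σ) (act W (ak τ) (H j)) := by
        have h5 : (ak τ).comp (rs K σ') = (rs K σ).comp (ak τ) := AlgHom.ext fun x => h x
        rw [act_act, act_act, h5]
      have h2 : ∀ ρ : Sep F ≃ₐ[F] Sep F, 3 • c' j ρ = c j ρ - (act W (rs K ρ) (H j) - H j) := by
        intro ρ
        show 3 • (c (j + 1) ρ - (act W (rs K ρ) (H (j + 1)) - H (j + 1))) = _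
        rw [smul_sub, smul_sub, ← map_nsmul, HS, hc.three]
      have h3 : 3 ^ (m + 1) • (act W (ak τ) (c' j σ') - c' j σ) =
          act W (rs K σ) (Q j - 3 ^ m • (act W (ak τ) (H j) - H j)) -
          (Q j - 3 ^ m • (act W (ak τ) (H j) - H j)) := by
        have h3 : 3 ^ (m + 1) • (act W (ak τ) (c' j σ') - c' j σ) =
            3 ^ m • (act W (ak τ) (3 • c' j σ') - 3 • c' j σ) := by
          rw [pow_succ, mul_smul, smul_sub 3, map_nsmul]
        rw [h3, h2, h2, map_sub (act W (ak τ)), map_sub (act W (ak τ)), hcomp]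
        have h4 : act W (ak τ) (c j σ') -
            (act W (rs K σ) (act W (ak τ) (H j)) - act W (ak τ) (H j)) -
            (c j σ - (act W (rs K σ) (H j) - H j)) =
            (act W (ak τ) (c j σ') - c j σ) -
            (act W (rs K σ) (act W (ak τ) (H j) - H j) - (act W (ak τ) (H j) - H j)) := by
          rw [map_sub (act W (rs K σ))]; abel
        rw [h4, smul_sub, h1, map_sub (act W (rs K σ)) (Q j), map_nsmul (act W (rs K σ)), smul_sub]
        abel
      show 3 ^ (N + (m + 1)) • (act W (ak τ) (c' j σ') - c' j σ) =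
        act W (rs K σ) (3 ^ N • (Q j - 3 ^ m • (act W (ak τ) (H j) - H j))) -
          3 ^ N • (Q j - 3 ^ m • (act W (ak τ) (H j) - H j))
      rw [pow_add, mul_smul, h3, map_nsmul, ← smul_sub]
  exact ⟨hc'T, fun j => lt_subT (hloc (j + 1)) _, hc'I⟩

/-- The sequence of thirds of a point, with given second member. -/
theorem thirds (hdiv : ∀ X : Pt W (Sep F), ∃ Y : Pt W (Sep F), 3 • Y = X)
    {P H : Pt W (Sep F)} (hH : 3 • H = P) :
    ∃ G : ℕ → Pt W (Sep F), G 0 = P ∧ G 1 = H ∧ ∀ j, 3 • G (j + 1) = G j := by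
  choose hv hhv using hdiv
  refine ⟨fun j => Nat.casesOn j P (fun i => Nat.rec H (fun _ X => hv X) i), rfl, rfl,
    fun j => ?_⟩
  cases j with
  | zero => exact hH
  | succ j => exact hhv _

/-- The induction. -/
theorem layers {M : AddSubgroup (Pt W K)} {N : ℕ} (hdiv : ∀ X : Pt W (Sep F), ∃ Y : Pt W (Sep F), 3 • Y = X)
    (h : ∀ c : ℕ → (Sep F ≃ₐ[F] Sep F) → Pt W (Sep F), IsTateClass3 k' W c →
      ∃ S : Pt W (Sep F), (∀ σ, c 1 σ = act W (rs K σ) S - S) ∧ InK M (3 ^ (N + 1) • S))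
    (n : ℕ) : ∀ c : ℕ → (Sep F ≃ₐ[F] Sep F) → Pt W (Sep F), IsTateClass3 k' W c →
      ∃ R : Pt W (Sep F), (∀ σ, c n σ = act W (rs K σ) R - R) ∧ InK M (3 ^ (n + N) • R) := by
  induction n with
  | zero =>
    intro c hc
    refine ⟨0, fun σ => ?_, ?_⟩
    · rw [hc.tc.zero, map_zero, sub_zero]
    · rw [smul_zero]; exact InK.zero
  | succ n ih =>
    intro c hc
    obtain ⟨S, hcS, hS⟩ := h c hc
    obtain ⟨G, G0, G1, GS⟩ := thirds hdiv (rfl : 3 • S = 3 • S)
    have Gpow : ∀ j, 3 ^ j • G j = 3 • S := by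
      intro j
      induction j with
      | zero => rw [pow_zero, one_smul, G0]
      | succ j ih => rw [pow_succ, mul_smul, GS, ih]
    have hG : InK M (3 ^ N • G 0) := by
      rw [G0, ← mul_smul, ← pow_succ]
      exact hS
    obtain ⟨R', hcn, hR'⟩ := ih _ (div_class3 hc (N := N) (fun φ => hG.fix φ) GS
      (fun σ => by rw [G1]; exact hcS σ))
    refine ⟨R' + G (n + 1), fun σ => ?_, ?_⟩
    · have h1 := hcn σ
      have h2 : c (n + 1) σ - (act W (rs K σ) (G (n + 1)) - G (n + 1)) =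
        act W (rs K σ) R' - R' := h1
      rw [sub_eq_iff_eq_add] at h2
      rw [h2, map_add]
      abel
    · have e1 : 3 ^ (n + 1 + N) • (R' + G (n + 1)) =
          3 • (3 ^ (n + N) • R') + 3 ^ N • G 0 := by
        rw [smul_add]
        congr 1
        · rw [← mul_smul]
          congr 1
          ring
        · rw [add_comm (n + 1) N, pow_add, mul_smul, Gpow, G0]
      rw [e1]
      exact (hR'.nsmul 3).add hG

theorem spanned_of_layers {M : AddSubgroup (Pt W K)} {N : ℕ}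
    (hdiv : ∀ X : Pt W (Sep F), ∃ Y : Pt W (Sep F), 3 • Y = X)
    (h : ∀ c : ℕ → (Sep F ≃ₐ[F] Sep F) → Pt W (Sep F), IsTateClass3 k' W c →
      ∃ S : Pt W (Sep F), (∀ σ, c 1 σ = act W (rs K σ) S - S) ∧ InK M (3 ^ (N + 1) • S)) :
    SpannedAtThree (F := F) k' W M := by
  intro c hc hl hi
  refine ⟨N, fun n => ?_⟩
  obtain ⟨R, hR, P, hPM, hP⟩ := layers hdiv h n c ⟨hc, hl, hi⟩
  refine ⟨P, hPM, 3 ^ N • R, ?_, fun σ => ?_⟩
  · rw [← mul_smul, ← pow_add, hP]
  · rw [hR, smul_sub, map_nsmul]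

end step

end Pool.Agent.T6.H12.TD
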