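import Pool.Agent.T6.H12.TD.Loc3
import Pool.Agent.TH115.GD.Place

/-!
# Valuations modulo three
-/

set_option autoImplicit false
set_option linter.all false

open Polynomial IsDedekindDomain WeierstrassCurve WeierstrassCurve.Affine
open scoped Classical

namespace Pool.Agent.T6.H12.TD

open Pool.Agent.TH115.GD (Pt act incl rs ak pl val_poly)

open WithZero in
theorem exp_of_ne {x : WithZero (Multiplicative ℤ)} (hx : x ≠ 0) : ∃ n : ℤ, x = exp n :=
  ⟨log x, (exp_log hx).symm⟩

open WithZero in
/-- The valuation of the values of the Kummer function. -/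
theorem zc_cube {L : Type*} [Field L] (w : Valuation L (WithZero (Multiplicative ℤ)))
    {η A b' z : L} (w2 : w 2 = 1) (w3 : w 3 ≤ 1) (wη : w η = 1) (wA : w A ≤ 1) (wb : w b' = 1)
    (hz : z ≠ 0) (hc : Zc η A b' z) : ∃ n : ℤ, w z = exp (3 * n) := by
  have hwz : w z ≠ 0 := (Valuation.ne_zero_iff _).2 hz
  obtain ⟨p, hp⟩ := exp_of_ne hwz
  rcases hc with rfl | hc | ⟨X, hX⟩
  · exact ⟨0, by rw [map_one]; rfl⟩
  · refine ⟨0, ?_⟩
    have h1 := congrArg w hc
    rw [map_mul, map_mul, map_mul, w2, wη, wb, Valuation.map_neg, map_one, mul_one, mul_one,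
      mul_one] at h1
    rw [h1]
    rfl
  · have hone : (1 : WithZero (Multiplicative ℤ)) = exp 0 := rfl
    by_cases hX0 : X = 0
    · subst hX0
      have h1 : z * (z - 2 * η * b') = 0 := by linear_combination hX
      have h2 : z = 2 * η * b' := sub_eq_zero.1 ((mul_eq_zero.1 h1).resolve_left hz)
      refine ⟨0, ?_⟩
      rw [h2, map_mul, map_mul, w2, wη, wb]
      rfl
    have hwX : w X ≠ 0 := (Valuation.ne_zero_iff _).2 hX0
    obtain ⟨q, hq⟩ := exp_of_ne hwX
    obtain ⟨M, hM⟩ : ∃ M, M = 3 * A * X + b' := ⟨_, rfl⟩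
    have hMle : w M ≤ max (exp q) 1 := by
      rw [hM]
      refine (Valuation.map_add _ _ _).trans ?_
      rw [wb]
      refine max_le_max ?_ le_rfl
      rw [map_mul, map_mul, hq]
      calc w 3 * w A * exp q ≤ 1 * 1 * exp q := by gcongr
        _ = exp q := by rw [one_mul, one_mul]
    rw [← hM] at hX
    have e1 : w (z ^ 2) = exp (2 * p) := by
      rw [map_pow, hp, ← exp_nsmul]; rfl
    have e2 : w (X ^ 3) = exp (3 * q) := by
      rw [map_pow, hq, ← exp_nsmul]; rfl
    have e3 : w (2 * η * z * M) = exp p * w M := by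
      rw [map_mul, map_mul, map_mul, w2, wη, one_mul, one_mul, hp]
    have u1 : w (z ^ 2) ≤ max (w (X ^ 3)) (w (2 * η * z * M)) := by
      have : z ^ 2 = X ^ 3 + 2 * η * z * M := by linear_combination hX
      rw [this]
      exact Valuation.map_add _ _ _
    have u2 : w (X ^ 3) ≤ max (w (z ^ 2)) (w (2 * η * z * M)) := by
      have : X ^ 3 = z ^ 2 - 2 * η * z * M := by linear_combination -hX
      rw [this]
      exact Valuation.map_sub _ _ _
    have u3 : w (2 * η * z * M) ≤ max (w (z ^ 2)) (w (X ^ 3)) := by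
      rw [← hX]
      exact Valuation.map_sub _ _ _
    rw [e1, e2, e3] at u1 u2 u3
    by_cases hM0 : w M = 0
    · rw [hM0, mul_zero] at u1 u2
      have a1 := (le_max_iff.1 u1).resolve_right (not_le.2 (exp_pos))
      have a2 := (le_max_iff.1 u2).resolve_right (not_le.2 (exp_pos))
      rw [exp_le_exp] at a1 a2
      refine ⟨p - q, ?_⟩
      rw [hp]
      congr 1
      omega
    · obtain ⟨m, hm⟩ := exp_of_ne hM0
      rw [hm, ← exp_add] at u1 u2 u3
      rw [hm, hone] at hMle
      rw [le_max_iff, exp_le_exp, exp_le_exp] at u1 u2 u3 hMle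
      by_cases hq0 : q < 0
      · have hM1 : w M = 1 := by
          rw [hM]
          have : w (3 * A * X) < w b' := by
            rw [wb, map_mul, map_mul, hq]
            calc w 3 * w A * exp q ≤ 1 * 1 * exp q := by gcongr
              _ = exp q := by rw [one_mul, one_mul]
              _ < 1 := by rw [hone, exp_lt_exp]; exact hq0
          rw [Valuation.map_add_eq_of_lt_right _ this, wb]
        rw [hm, hone, exp_inj] at hM1
        by_cases hp0 : p = 0
        · exact ⟨0, by rw [hp, hp0]; rfl⟩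
        · refine ⟨q, ?_⟩
          rw [hp]
          congr 1
          omega
      · refine ⟨p - q, ?_⟩
        rw [hp]
        congr 1
        omega

section or3

variable {R F : Type} [CommRing R] [IsDedekindDomain R] [Field F] [Algebra R F]
  [IsFractionRing R F]

/-- The order modulo three. -/
noncomputable def or3 (v : HeightOneSpectrum R) (x : F) : ZMod 3 :=
  ((WithZero.log (v.valuation F x) : ℤ) : ZMod 3)

theorem or3_mul (v : HeightOneSpectrum R) {x y : F} (hx : x ≠ 0) (hy : y ≠ 0) :
    or3 v (x * y) = or3 v x + or3 v y := by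
  unfold or3
  rw [map_mul, WithZero.log_mul ((Valuation.ne_zero_iff _).2 hx) ((Valuation.ne_zero_iff _).2 hy)]
  push_cast
  rfl

theorem or3_inv (v : HeightOneSpectrum R) (x : F) : or3 v x⁻¹ = -or3 v x := by
  unfold or3
  rw [map_inv₀, WithZero.log_inv]
  push_cast
  rfl

theorem or3_one (v : HeightOneSpectrum R) : or3 v (1 : F) = 0 := by
  unfold or3
  rw [map_one, WithZero.log_one, Int.cast_zero]

theorem or3_neg (v : HeightOneSpectrum R) (x : F) : or3 v (-x) = or3 v x := by
  unfold or3
  rw [Valuation.map_neg]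

theorem or3_pow_three (v : HeightOneSpectrum R) (x : F) : or3 v (x ^ 3) = 0 := by
  unfold or3
  rw [map_pow, WithZero.log_pow, nsmul_eq_mul]
  push_cast
  have : (3 : ZMod 3) = 0 := rfl
  rw [this, zero_mul]

theorem or3_pow (v : HeightOneSpectrum R) (x : F) (n : ℕ) : or3 v (x ^ n) = n * or3 v x := by
  unfold or3
  rw [map_pow, WithZero.log_pow, nsmul_eq_mul]
  push_cast
  rfl

theorem or3_of_exp (v : HeightOneSpectrum R) {x : F} {n : ℤ}
    (h : v.valuation F x = WithZero.exp (3 * n)) : or3 v x = 0 := by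
  unfold or3
  rw [h, WithZero.log_exp]
  push_cast
  have : (3 : ZMod 3) = 0 := rfl
  rw [this, zero_mul]

theorem or3_of_one (v : HeightOneSpectrum R) {x : F}
    (h : v.valuation F x = 1) : or3 v x = 0 := by
  unfold or3
  rw [h, WithZero.log_one, Int.cast_zero]

end or3

section place

variable {k' F : Type} [Field k'] [Field F] [Algebra k'[X] F] [IsFractionRing k'[X] F]

theorem or3_poly (θ : k') {p : k'[X]} (hp : p ≠ 0) :
    or3 (pl θ) (algebraMap k'[X] F p) = -(rootMultiplicity θ p : ZMod 3) := by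
  unfold or3
  rw [val_poly θ hp, WithZero.log_exp]
  push_cast
  rfl

theorem or3_div (θ : k') {n d : k'[X]} (hn : n ≠ 0) (hd : d ≠ 0) :
    or3 (pl θ) (algebraMap k'[X] F n / algebraMap k'[X] F d) =
      -(rootMultiplicity θ n : ZMod 3) + (rootMultiplicity θ d : ZMod 3) := by
  have hd' : algebraMap k'[X] F d ≠ 0 := by simpa using hd
  have hn' : algebraMap k'[X] F n ≠ 0 := by simpa using hn
  rw [div_eq_mul_inv, or3_mul _ hn' (inv_ne_zero hd'), or3_inv, or3_poly θ hn, or3_poly θ hd,
    neg_neg]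

/-- A polynomial all of whose orders are divisible by three is a constant times a cube. -/
theorem cube_poly (n : ℕ) : ∀ p : k'[X], p ≠ 0 → p.natDegree = n →
    (∀ v : HeightOneSpectrum k'[X], or3 v (algebraMap k'[X] F p) = 0) →
    ∃ (c : k') (q : k'[X]), c ≠ 0 ∧ p = C c * q ^ 3 := by
  induction n using Nat.strong_induction_on with
  | _ n ih =>
    intro p hp hn hv
    by_cases hu : IsUnit p
    · obtain ⟨c, hc, rfl⟩ := Polynomial.isUnit_iff.1 hu
      exact ⟨c, 1, hc.ne_zero, by rw [one_pow, mul_one]⟩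
    · obtain ⟨π, hπ, hd⟩ := WfDvdMonoid.exists_irreducible_factor hu hp
      let v : HeightOneSpectrum k'[X] :=
        { asIdeal := Ideal.span {π}
          isPrime := (Ideal.span_singleton_prime hπ.ne_zero).2 hπ.prime
          ne_bot := by rw [Ne, Ideal.span_singleton_eq_bot]; exact hπ.ne_zero }
      have h1 := hv v
      unfold or3 at h1
      rw [v.valuation_of_algebraMap] at h1
      have hne : v.intValuation p ≠ 0 := v.intValuation_ne_zero p hp
      obtain ⟨m, hm⟩ := exp_of_ne hne
      rw [hm, WithZero.log_exp, ZMod.intCast_zmod_eq_zero_iff_dvd] at h1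
      have key : ∀ j : ℕ, v.intValuation p ≤ WithZero.exp (-(j : ℤ)) ↔ π ^ j ∣ p := by
        intro j
        rw [v.intValuation_le_pow_iff_dvd]
        show Ideal.span {π} ^ j ∣ _ ↔ _
        rw [Ideal.span_singleton_pow, Ideal.dvd_span_singleton, Ideal.mem_span_singleton]
      have h2 := (key 1).2 (by rw [pow_one]; exact hd)
      rw [hm, WithZero.exp_le_exp] at h2
      obtain ⟨r, hr⟩ := h1
      have h3 : π ^ 3 ∣ p := by
        rw [← key 3, hm, WithZero.exp_le_exp]
        push_cast at h2 ⊢
        push_cast at hr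
        omega
      obtain ⟨p1, rfl⟩ := h3
      have hp1 : p1 ≠ 0 := right_ne_zero_of_mul hp
      have hπ3 : π ^ 3 ≠ 0 := pow_ne_zero 3 hπ.ne_zero
      have hdeg : 0 < π.natDegree := hπ.natDegree_pos
      have hlt : p1.natDegree < n := by
        rw [natDegree_mul hπ3 hp1, natDegree_pow] at hn
        omega
      obtain ⟨c, q, hc, hq⟩ := ih _ hlt p1 hp1 rfl (by
        intro v
        have h4 := hv v
        have a1 : algebraMap k'[X] F (π ^ 3) ≠ 0 := by simpa using hπ.ne_zero
        have a2 : algebraMap k'[X] F p1 ≠ 0 := by simpa using hp1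
        rw [map_mul, or3_mul v a1 a2, map_pow, or3_pow_three, zero_add] at h4
        exact h4)
      exact ⟨c, π * q, hc, by rw [hq]; ring⟩

/-- An element all of whose orders are divisible by three is a cube. -/
theorem cube_elem [IsSepClosed k'] (h3 : (3 : k') ≠ 0) {x : F} (hx : x ≠ 0)
    (hv : ∀ v : HeightOneSpectrum k'[X], or3 v x = 0) : ∃ y : F, y ≠ 0 ∧ x = y ^ 3 := by
  obtain ⟨n, d, hd, rfl⟩ := IsFractionRing.div_surjective (A := k'[X]) x
  have hd0 : d ≠ 0 := nonZeroDivisors.ne_zero hd
  have hn0 : n ≠ 0 := by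
    rintro rfl
    simp at hx
  have hd' : algebraMap k'[X] F d ≠ 0 := by simpa using hd0
  have hn' : algebraMap k'[X] F n ≠ 0 := by simpa using hn0
  obtain ⟨c, q, hc, hq⟩ := cube_poly (F := F) _ (n * d ^ 2) (mul_ne_zero hn0 (pow_ne_zero 2 hd0))
    rfl (by
      intro v
      have e : algebraMap k'[X] F (n * d ^ 2) =
          algebraMap k'[X] F d ^ 3 * (algebraMap k'[X] F n / algebraMap k'[X] F d) := by
        rw [map_mul, map_pow]
        field_simp
      rw [e, or3_mul v (pow_ne_zero 3 hd') (div_ne_zero hn' hd'), or3_pow_three, zero_add]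
      exact hv v)
  haveI : NeZero ((3 : ℕ) : k') := ⟨by exact_mod_cast h3⟩
  obtain ⟨r, hr⟩ := IsSepClosed.exists_pow_nat_eq c 3
  refine ⟨algebraMap k'[X] F (C r * q) / algebraMap k'[X] F d, ?_, ?_⟩
  · have hq0 : q ≠ 0 := by
      rintro rfl
      rw [zero_pow three_ne_zero, mul_zero] at hq
      exact mul_ne_zero hn0 (pow_ne_zero 2 hd0) hq
    have hr0 : r ≠ 0 := by
      rintro rfl
      rw [zero_pow three_ne_zero] at hr
      exact hc hr.symm
    refine div_ne_zero ?_ hd'
    have : C r * q ≠ 0 := mul_ne_zero (C_ne_zero.2 hr0) hq0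
    simpa using this
  · have e : algebraMap k'[X] F (n * d ^ 2) = algebraMap k'[X] F (C r * q) ^ 3 := by
      rw [hq, ← map_pow, mul_pow, ← C_pow, hr]
    rw [div_pow, ← e, map_mul, map_pow]
    field_simp

end place

section galois

variable {k k' K F Ω : Type} [Field k] [Field k'] [Algebra k k']
  [Field K] [Field F] [Algebra k'[X] F]
  [IsFractionRing k'[X] F] [Field Ω] [Algebra F Ω] [Algebra K Ω]

theorem or3_galois (τ : Ω ≃ₐ[K] Ω) (s : k' ≃ₐ[k] k') (hs : ∀ p : k'[X],
    τ (algebraMap F Ω (algebraMap k'[X] F p)) =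
      algebraMap F Ω (algebraMap k'[X] F (p.map (s : k' →+* k')))) {x y : F} (hx : x ≠ 0)
    (hxy : τ (algebraMap F Ω x) = algebraMap F Ω y) (θ : k') :
    or3 (pl (s θ)) y = or3 (pl θ) x := by
  obtain ⟨n, d, hd, rfl⟩ := IsFractionRing.div_surjective (A := k'[X]) x
  have hd0 : d ≠ 0 := nonZeroDivisors.ne_zero hd
  have hn0 : n ≠ 0 := by
    rintro rfl
    simp at hx
  have hinj : Function.Injective (s : k' →+* k') := s.injective
  have hy : y = algebraMap k'[X] F (n.map (s : k' →+* k')) /
      algebraMap k'[X] F (d.map (s : k' →+* k')) := by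
    apply (algebraMap F Ω).injective
    rw [← hxy, map_div₀, map_div₀, hs, hs, map_div₀]
  rw [hy, or3_div _ ((Polynomial.map_ne_zero_iff hinj).2 hn0)
    ((Polynomial.map_ne_zero_iff hinj).2 hd0), or3_div _ hn0 hd0]
  congr 2
  · congr 1
    exact (eq_rootMultiplicity_map hinj θ).symm
  · exact (eq_rootMultiplicity_map hinj θ).symm

end galois

end Pool.Agent.T6.H12.TD
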